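import Pool.Agent.H75C.HY.Sat

/-!
# The translation from an arbitrary base into the Boolean base: semantics

The translation of `φ` states that `φ` has a given truth value, namely whether the variables `0` and
`4` name the same state. In this form every subformula occurs only once.
-/

set_option autoImplicit false

namespace Pool.Agent.H75C.HY

/-! ### Boolean connectives -/

/-- Implication. -/
def Imp (α β : Form impBot) : Form impBot :=
  .app (𝔅 := impBot) IB.imp (fun i : Fin 2 => if i = 0 then α else β)

/-- Falsity. -/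
def Bot : Form impBot := .app (𝔅 := impBot) IB.bot (fun i : Fin 0 => i.elim0)

def Neg (α : Form impBot) : Form impBot := Imp α Bot

def Top : Form impBot := Neg Bot

def Conj (α β : Form impBot) : Form impBot := Neg (Imp α (Neg β))

def Disj (α β : Form impBot) : Form impBot := Imp (Neg α) β

def Iff' (α β : Form impBot) : Form impBot := Conj (Imp α β) (Imp β α)

section Bool

variable {K : Model} {α β : Form impBot} {g : ℕ → K.W} {w : K.W}

theorem tv_Imp : tv K (Imp α β) g w = true ↔ (tv K α g w = true → tv K β g w = true) := by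
  have e : tv K (Imp α β) g w = (!(tv K α g w) || tv K β g w) := rfl
  rw [e]
  cases tv K α g w <;> cases tv K β g w <;> simp

theorem tv_Bot : tv K Bot g w = true ↔ False := by
  have e : tv K Bot g w = false := rfl
  rw [e]
  simp

theorem tv_Neg : tv K (Neg α) g w = true ↔ ¬ tv K α g w = true := by
  rw [Neg, tv_Imp, tv_Bot]

theorem tv_Top : tv K Top g w = true ↔ True := by
  rw [Top, tv_Neg, tv_Bot]
  simp

theorem tv_Conj : tv K (Conj α β) g w = true ↔ (tv K α g w = true ∧ tv K β g w = true) := by
  rw [Conj, tv_Neg, tv_Imp, tv_Neg]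
  tauto

theorem tv_Disj : tv K (Disj α β) g w = true ↔ (tv K α g w = true ∨ tv K β g w = true) := by
  rw [Disj, tv_Imp, tv_Neg]
  tauto

theorem tv_Iff : tv K (Iff' α β) g w = true ↔ (tv K α g w = true ↔ tv K β g w = true) := by
  rw [Iff', tv_Conj, tv_Imp, tv_Imp]
  tauto

end Bool

/-- A formula that computes the function `f` of the formulas `A i`. -/
def tab : (n : ℕ) → ((Fin n → Bool) → Bool) → (Fin n → Form impBot) → Form impBot
  | 0, f, _ => if f Fin.elim0 = true then Top else Bot
  | n + 1, f, A =>
    Disj (Conj (A 0) (tab n (fun x => f (Fin.cons true x)) (fun i => A i.succ)))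
      (Conj (Neg (A 0)) (tab n (fun x => f (Fin.cons false x)) (fun i => A i.succ)))

theorem tv_tab {K : Model} {g : ℕ → K.W} {w : K.W} : ∀ (n : ℕ) (f : (Fin n → Bool) → Bool)
    (A : Fin n → Form impBot), tv K (tab n f A) g w = true ↔
      f (fun i => tv K (A i) g w) = true := by
  intro n
  induction n with
  | zero =>
    intro f A
    have e : (fun i => tv K (A i) g w) = Fin.elim0 := funext fun i => i.elim0
    rw [tab, e]
    by_cases h : f Fin.elim0 = true
    · rw [if_pos h, tv_Top]; simp [h]
    · rw [if_neg h, tv_Bot]; simp [h]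
  | succ n ih =>
    intro f A
    have e : (fun i => tv K (A i) g w) =
        Fin.cons (tv K (A 0) g w) (fun i : Fin n => tv K (A i.succ) g w) := by
      funext i
      refine Fin.cases rfl (fun k => rfl) i
    rw [tab, tv_Disj, tv_Conj, tv_Conj, tv_Neg, ih, ih, e]
    cases tv K (A 0) g w <;> simp

/-! ### The translation -/

/-- The variable `x` names the same state as the variable `4`. -/
def bit (x : ℕ) : Form impBot := .atVar x (.var 4)

theorem tv_bit {K : Model} {g : ℕ → K.W} {w : K.W} {x : ℕ} :
    tv K (bit x) g w = true ↔ g x = g 4 := by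
  rw [bit, tv_atVar, tv_var]

/-- Evaluate `α` at the state named by `1`, for the truth value given by the variable `5 + i`. -/
def goto (i : ℕ) (α : Form impBot) : Form impBot := .atVar (5 + i) (.bind 0 (.atVar 1 α))

/-- Some successor of the hub, named by the variable `5 + i`. -/
def exz (i : ℕ) (β : Form impBot) : Form impBot := .atNom 0 (.dia (.bind (5 + i) β))

def exs : ℕ → Form impBot → Form impBot
  | 0, β => β
  | n + 1, β => exs n (exz n β)

def chain : Form impBot → List (Form impBot) → Form impBot
  | X, [] => X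
  | X, Y :: Ys => chain (Conj X Y) Ys

/-- The gadget for the operators `◇` and `□`: if `e` holds, then some successor satisfies `α`,
otherwise all successors satisfy `α`. -/
def qd (e α : Form impBot) : Form impBot :=
  Disj (Conj (Neg e) (.box Bot)) (.bind 1 (.dia (.bind 2 (.atVar 1 (.box (.bind 3 (.atVar 1 (.dia
    (Conj (Disj (Conj e (.var 2)) (Conj (Neg e) (.var 3))) α)))))))))

variable {𝔅 : Base}

/-- The part of the translation that relates the truth value to those of the arguments. -/
def Xb (b : 𝔅.B) : Form impBot :=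
  Iff' (bit 0) (tab (𝔅.ar b) (𝔅.ev b) (fun i => bit (5 + (i : ℕ))))

/-- The translation; `N` is a number that is at least as large as all arities. -/
def trb (N : ℕ) : Form 𝔅 → Form impBot
  | .prop i => Iff' (bit 0) (.prop i)
  | .nom i => Iff' (bit 0) (.nom (i + 1))
  | .var x => Iff' (bit 0) (.var (x + (N + 6)))
  | .app b φ => .bind 1 (exs N (Conj
      (chain (Xb b) (List.ofFn (fun i => goto (i : ℕ) (trb N (φ i))))) (goto (𝔅.ar b) Top)))
  | .dia φ => qd (bit 0) (trb N φ)
  | .box φ => qd (Neg (bit 0)) (trb N φ)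
  | .bind x φ => .bind (x + (N + 6)) (trb N φ)
  | .atNom i φ => .atNom (i + 1) (trb N φ)
  | .atVar x φ => .atVar (x + (N + 6)) (trb N φ)

/-- The translation of `φ` into a formula that is satisfiable if and only if `φ` is. -/
def back (N : ℕ) (φ : Form 𝔅) : Form impBot :=
  .bind 1 (.atNom 0 (.dia (.bind 4 (.bind 0 (Conj (.atNom 0 (.dia (Neg (.var 4))))
    (.atVar 1 (trb N φ)))))))

/-! ### Semantics -/

theorem tv_goto {K : Model} {g : ℕ → K.W} {w : K.W} {i : ℕ} {α : Form impBot} :
    tv K (goto i α) g w = tv K α (Function.update g 0 (g (5 + i))) (g 1) := by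
  rw [goto, tv_atVar, tv_bind, tv_atVar, Function.update_of_ne (by omega)]

theorem tv_exz {K : Model} {g : ℕ → K.W} {w : K.W} {i : ℕ} {β : Form impBot} :
    tv K (exz i β) g w = true ↔ ∃ v, K.R (K.nm 0) v ∧
      tv K β (Function.update g (5 + i) v) v = true := by
  rw [exz, tv_atNom, tv_dia]
  exact exists_congr fun v => by rw [tv_bind]

theorem exs_sound {K : Model} : ∀ (n : ℕ) (β : Form impBot) (g : ℕ → K.W) (w : K.W),
    tv K (exs n β) g w = true → ∃ (g' : ℕ → K.W) (w' : K.W),
      (∀ x, x < 5 ∨ 5 + n ≤ x → g' x = g x) ∧ tv K β g' w' = true := by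
  intro n
  induction n with
  | zero => intro β g w h; exact ⟨g, w, fun _ _ => rfl, h⟩
  | succ n ih =>
    intro β g w h
    obtain ⟨g', w', h1, h2⟩ := ih _ _ _ h
    rw [tv_exz] at h2
    obtain ⟨v, _, h3⟩ := h2
    refine ⟨_, v, ?_, h3⟩
    intro x hx
    rw [Function.update_of_ne (by omega)]
    exact h1 x (by omega)

/-- The assignment with the new values of the variables `5, ..., 5 + n - 1`. -/
def updz {K : Model} (n : ℕ) (g z : ℕ → K.W) : ℕ → K.W :=
  fun x => if 5 ≤ x ∧ x < 5 + n then z (x - 5) else g x

theorem exs_complete {K : Model} : ∀ (n : ℕ) (β : Form impBot) (g z : ℕ → K.W) (w : K.W),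
    (∀ i < n, K.R (K.nm 0) (z i)) → (∀ w', tv K β (updz n g z) w' = true) →
      tv K (exs n β) g w = true := by
  intro n
  induction n with
  | zero =>
    intro β g z w _ h
    have e : updz 0 g z = g := by
      funext x
      rw [updz, if_neg (by omega)]
    rw [exs, ← e]
    exact h w
  | succ n ih =>
    intro β g z w hz h
    refine ih _ g z w (fun i hi => hz i (by omega)) fun w' => ?_
    rw [tv_exz]
    refine ⟨z n, hz n (by omega), ?_⟩
    have e : Function.update (updz n g z) (5 + n) (z n) = updz (n + 1) g z := by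
      funext x
      by_cases hx : x = 5 + n
      · subst hx
        rw [Function.update_self, updz, if_pos (by omega)]
        congr 1
        omega
      · rw [Function.update_of_ne hx, updz, updz]
        by_cases h1 : 5 ≤ x ∧ x < 5 + n
        · rw [if_pos h1, if_pos (by omega)]
        · rw [if_neg h1, if_neg (by omega)]
    rw [e]
    exact h _

theorem tv_chain {K : Model} {g : ℕ → K.W} {w : K.W} : ∀ (Ys : List (Form impBot))
    (X : Form impBot), tv K (chain X Ys) g w = true ↔
      (tv K X g w = true ∧ ∀ Y ∈ Ys, tv K Y g w = true) := by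
  intro Ys
  induction Ys with
  | nil => intro X; simp [chain]
  | cons Y Ys ih =>
    intro X
    rw [chain, ih, tv_Conj]
    simp only [List.mem_cons, forall_eq_or_imp]
    tauto

theorem tv_qd {K : Model} {e α : Form impBot} {g : ℕ → K.W} {w : K.W} {c : Prop} {P : K.W → Prop}
    (he : ∀ g' v, g' 0 = g 0 → g' 4 = g 4 → (tv K e g' v = true ↔ c))
    (hα : ∀ g' v, K.R w v → g' 0 = g 0 → (∀ x, 4 ≤ x → g' x = g x) →
      (tv K α g' v = true ↔ P v)) :
    tv K (qd e α) g w = true ↔
      ((c ∧ ∃ v, K.R w v ∧ P v) ∨ (¬ c ∧ ∀ v, K.R w v → P v)) := by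
  rw [qd, tv_Disj, tv_Conj, tv_Neg, he g w rfl rfl, tv_box, tv_bind, tv_dia]
  have key : ∀ v, tv K (.bind 2 (.atVar 1 (.box (.bind 3 (.atVar 1 (.dia
      (Conj (Disj (Conj e (.var 2)) (Conj (Neg e) (.var 3))) α))))))) (Function.update g 1 w) v =
        true ↔ ∀ v', K.R w v' → ∃ z, K.R w z ∧ ((c ∧ z = v) ∨ (¬ c ∧ z = v')) ∧ P z := by
    intro v
    rw [tv_bind, tv_atVar, Function.update_of_ne (by omega), Function.update_self, tv_box]
    refine forall_congr' fun v' => imp_congr_right fun _ => ?_
    rw [tv_bind, tv_atVar, Function.update_of_ne (by omega), Function.update_of_ne (by omega),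
      Function.update_self, tv_dia]
    refine exists_congr fun z => and_congr_right fun hz => ?_
    rw [tv_Conj, tv_Disj, tv_Conj, tv_Conj, tv_Neg, tv_var, tv_var]
    rw [he _ z (by rw [Function.update_of_ne (by omega), Function.update_of_ne (by omega),
      Function.update_of_ne (by omega)]) (by rw [Function.update_of_ne (by omega),
      Function.update_of_ne (by omega), Function.update_of_ne (by omega)])]
    rw [hα _ z hz (by rw [Function.update_of_ne (by omega), Function.update_of_ne (by omega),
      Function.update_of_ne (by omega)]) (fun x hx => by rw [Function.update_of_ne (by omega),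
      Function.update_of_ne (by omega), Function.update_of_ne (by omega)])]
    rw [Function.update_of_ne (by omega), Function.update_self, Function.update_self]
  simp only [key, tv_Bot]
  by_cases hc : c
  · simp only [hc, not_true_eq_false, false_and, true_and, or_false, false_or]
    constructor
    · rintro ⟨v, hv, h⟩
      obtain ⟨z, hz, rfl, h2⟩ := h v hv
      exact ⟨z, hz, h2⟩
    · rintro ⟨v, hv, h⟩
      exact ⟨v, hv, fun v' _ => ⟨v, hv, rfl, h⟩⟩
  · simp only [hc, not_false_eq_true, true_and, false_and, false_or]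
    constructor
    · rintro (h | ⟨v, hv, h⟩)
      · intro v hv
        exact (h v hv).elim
      · intro v' hv'
        obtain ⟨z, _, rfl, h2⟩ := h v' hv'
        exact h2
    · intro h
      by_cases h1 : ∃ v, K.R w v
      · obtain ⟨v, hv⟩ := h1
        exact Or.inr ⟨v, hv, fun v' hv' => ⟨v', hv', rfl, h v' hv'⟩⟩
      · exact Or.inl fun v hv => h1 ⟨v, hv⟩

theorem tv_Xb {K : Model} {g : ℕ → K.W} {w : K.W} (b : 𝔅.B) : tv K (Xb b) g w = true ↔
    (g 0 = g 4 ↔ ∃ x : Fin (𝔅.ar b) → Bool, 𝔅.ev b x = true ∧
      ∀ i : Fin (𝔅.ar b), x i = true ↔ g (5 + (i : ℕ)) = g 4) := by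
  rw [Xb, tv_Iff, tv_bit, tv_tab]
  refine iff_congr Iff.rfl ?_
  constructor
  · intro h
    exact ⟨_, h, fun i => tv_bit⟩
  · rintro ⟨x, h1, h2⟩
    have e : (fun i : Fin (𝔅.ar b) => tv K (bit (5 + (i : ℕ))) g w) = x := by
      funext i
      rw [Bool.eq_iff_iff, tv_bit, h2]
    rw [e]
    exact h1

/-- **The translation is correct** on submodels closed under successors. -/
theorem tv_trb {N : ℕ} (hD : ∀ b : 𝔅.B, 𝔅.ar b ≤ N) {K K' : Model} (ι : K.W → K'.W)
    (hι : Function.Injective ι) (hR : ∀ w v', K'.R (ι w) v' ↔ ∃ v, v' = ι v ∧ K.R w v)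
    (hV : ∀ i w, K'.V i (ι w) ↔ K.V i w) (hn : ∀ i, K'.nm (i + 1) = ι (K.nm i)) :
    ∀ (φ : Form 𝔅) (g : ℕ → K.W) (g' : ℕ → K'.W) (w : K.W), (∀ x, g' (x + (N + 6)) = ι (g x)) →
      K'.R (K'.nm 0) (g' 4) → (∃ u, K'.R (K'.nm 0) u ∧ u ≠ g' 4) →
      (tv K' (trb N φ) g' (ι w) = true ↔ (g' 0 = g' 4 ↔ tv K φ g w = true)) := by
  intro φ
  induction φ with
  | prop i => intro g g' w _ _ _; rw [trb, tv_Iff, tv_bit, tv_prop, tv_prop, hV]
  | nom i => intro g g' w _ _ _; rw [trb, tv_Iff, tv_bit, tv_nom, tv_nom, hn, hι.eq_iff]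
  | var x => intro g g' w h _ _; rw [trb, tv_Iff, tv_bit, tv_var, tv_var, h, hι.eq_iff]
  | app b φ ih =>
    intro g g' w h hT hF
    have hDb := hD b
    rw [trb, tv_bind]
    have e : tv K (Form.app b φ) g w = 𝔅.ev b (fun i => tv K (φ i) g w) := rfl
    -- the values of the arguments
    have ih' : ∀ (i : Fin (𝔅.ar b)) (g'' : ℕ → K'.W), (∀ x, x < 5 ∨ 5 + N ≤ x →
        g'' x = Function.update g' 1 (ι w) x) →
        (tv K' (goto (i : ℕ) (trb N (φ i))) g'' (ι w) = true ↔
          (g'' (5 + (i : ℕ)) = g' 4 ↔ tv K (φ i) g w = true)) := by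
      intro i g'' hg
      have h4 : g'' 4 = g' 4 := by rw [hg 4 (by omega), Function.update_of_ne (by omega)]
      have h1 : g'' 1 = ι w := by rw [hg 1 (by omega), Function.update_self]
      rw [tv_goto, h1, ih i g _ w]
      · rw [Function.update_self, Function.update_of_ne (by omega), h4]
      · intro x
        rw [Function.update_of_ne (by omega), hg _ (by omega), Function.update_of_ne (by omega), h]
      · rw [Function.update_of_ne (by omega), h4]
        exact hT
      · rw [Function.update_of_ne (by omega), h4]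
        exact hF
    have hst : ∀ (i : ℕ) (α : Form impBot) (g'' : ℕ → K'.W) (w1 w2 : K'.W),
        tv K' (goto i α) g'' w1 = tv K' (goto i α) g'' w2 := by
      intro i α g'' w1 w2
      rw [tv_goto, tv_goto]
    constructor
    · intro hh
      obtain ⟨g'', w'', hg, h2⟩ := exs_sound _ _ _ _ hh
      rw [tv_Conj, tv_chain, tv_Xb] at h2
      obtain ⟨⟨h3, h4⟩, _⟩ := h2
      have h5 : ∀ i : Fin (𝔅.ar b), (g'' (5 + (i : ℕ)) = g' 4 ↔ tv K (φ i) g w = true) := by
        intro i
        rw [← ih' i g'' hg, hst _ _ _ _ w'']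
        exact h4 _ (by simp)
      have h40 : g'' 4 = g' 4 := by rw [hg 4 (by omega), Function.update_of_ne (by omega)]
      have h00 : g'' 0 = g' 0 := by rw [hg 0 (by omega), Function.update_of_ne (by omega)]
      rw [h40, h00] at h3
      rw [h3, e]
      constructor
      · rintro ⟨x, hx1, hx2⟩
        have : (fun i => tv K (φ i) g w) = x := by
          funext i
          rw [Bool.eq_iff_iff, hx2, h5]
        rw [this]
        exact hx1
      · intro hx
        exact ⟨_, hx, fun i => (h5 i).symm⟩
    · intro hh
      obtain ⟨u, hu1, hu2⟩ := hF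
      classical
      refine exs_complete _ _ _
        (fun i => if hi : i < 𝔅.ar b then (if tv K (φ ⟨i, hi⟩) g w = true then g' 4 else u)
          else u) _ ?_ ?_
      · intro i hi
        split_ifs
        · exact hT
        · exact hu1
        · exact hu1
      · intro w'
        set z : ℕ → K'.W := fun i => if hi : i < 𝔅.ar b then
          (if tv K (φ ⟨i, hi⟩) g w = true then g' 4 else u) else u with hz
        have hz5 : ∀ i : Fin (𝔅.ar b), updz N (Function.update g' 1 (ι w)) z
            (5 + (i : ℕ)) = if tv K (φ i) g w = true then g' 4 else u := by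
          intro i
          have hi := i.2
          rw [updz, if_pos (by omega)]
          have e2 : 5 + (i : ℕ) - 5 = (i : ℕ) := by omega
          rw [e2, hz]
          simp only [hi, dif_pos, Fin.eta]
        have hz0 : ∀ x, x < 5 ∨ 5 + N ≤ x →
            updz N (Function.update g' 1 (ι w)) z x = Function.update g' 1 (ι w) x := by
          intro x hx
          rw [updz, if_neg (by omega)]
        have hval : ∀ i : Fin (𝔅.ar b), (updz N (Function.update g' 1 (ι w)) z
            (5 + (i : ℕ)) = g' 4 ↔ tv K (φ i) g w = true) := by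
          intro i
          rw [hz5]
          by_cases hi : tv K (φ i) g w = true
          · rw [if_pos hi]
            exact ⟨fun _ => hi, fun _ => rfl⟩
          · rw [if_neg hi]
            exact ⟨fun h => (hu2 h).elim, fun h => (hi h).elim⟩
        have h40 : updz N (Function.update g' 1 (ι w)) z 4 = g' 4 := by
          rw [hz0 4 (by omega), Function.update_of_ne (by omega)]
        have h00 : updz N (Function.update g' 1 (ι w)) z 0 = g' 0 := by
          rw [hz0 0 (by omega), Function.update_of_ne (by omega)]
        rw [tv_Conj, tv_chain, tv_Xb, tv_goto, tv_Top, h40, h00]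
        refine ⟨⟨?_, ?_⟩, trivial⟩
        · rw [hh, e]
          constructor
          · intro hx
            exact ⟨_, hx, fun i => (hval i).symm⟩
          · rintro ⟨x, hx1, hx2⟩
            have : (fun i => tv K (φ i) g w) = x := by
              funext i
              rw [Bool.eq_iff_iff, hx2, hval]
            rw [this]
            exact hx1
        · intro Y hY
          rw [List.mem_ofFn] at hY
          obtain ⟨i, rfl⟩ := hY
          rw [hst _ _ _ _ (ι w), ih' i _ hz0]
          exact hval i
  | dia φ ih =>
    intro g g' w h hT hF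
    rw [trb, tv_qd (c := g' 0 = g' 4) (P := fun v' => ∃ v, v' = ι v ∧
      (g' 0 = g' 4 ↔ tv K φ g v = true)), tv_dia]
    · by_cases hc : g' 0 = g' 4
      · simp only [hc, true_and, true_iff, not_true_eq_false, false_and, or_false]
        constructor
        · rintro ⟨v', h1, v, rfl, h2⟩
          obtain ⟨v1, h3, h4⟩ := (hR _ _).1 h1
          exact ⟨v, hι h3 ▸ h4, h2⟩
        · rintro ⟨v, h1, h2⟩
          exact ⟨ι v, (hR _ _).2 ⟨v, rfl, h1⟩, v, rfl, h2⟩
      · simp only [hc, false_and, false_iff, not_false_eq_true, true_and, false_or]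
        push Not
        constructor
        · intro h1 v hv h2
          obtain ⟨v1, h3, h4⟩ := h1 (ι v) ((hR _ _).2 ⟨v, rfl, hv⟩)
          rw [hι h3] at h2
          exact h4 h2
        · intro h1 v' hv'
          obtain ⟨v, rfl, hv⟩ := (hR _ _).1 hv'
          exact ⟨v, rfl, h1 v hv⟩
    · intro g'' v h0 h4
      rw [tv_bit, h0, h4]
    · intro g'' v' hv' h0 h4
      obtain ⟨v, rfl, hv⟩ := (hR _ _).1 hv'
      rw [ih g g'' v (fun x => by rw [h4 _ (by omega), h]) (by rw [h4 4 (by omega)]; exact hT)
        (by rw [h4 4 (by omega)]; exact hF), h0, h4 4 (by omega)]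
      constructor
      · intro h1
        exact ⟨v, rfl, h1⟩
      · rintro ⟨v1, h3, h1⟩
        rw [hι h3]
        exact h1
  | box φ ih =>
    intro g g' w h hT hF
    rw [trb, tv_qd (c := ¬ g' 0 = g' 4) (P := fun v' => ∃ v, v' = ι v ∧
      (g' 0 = g' 4 ↔ tv K φ g v = true)), tv_box]
    · by_cases hc : g' 0 = g' 4
      · simp only [hc, true_iff, not_true_eq_false, false_and, false_or, not_false_eq_true,
          true_and]
        constructor
        · intro h1 v hv
          obtain ⟨v1, h3, h4⟩ := h1 (ι v) ((hR _ _).2 ⟨v, rfl, hv⟩)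
          rw [hι h3]
          exact h4
        · intro h1 v' hv'
          obtain ⟨v, rfl, hv⟩ := (hR _ _).1 hv'
          exact ⟨v, rfl, h1 v hv⟩
      · simp only [hc, false_iff, not_false_eq_true, true_and, not_true_eq_false, false_and,
          or_false]
        push Not
        constructor
        · rintro ⟨v', h1, v, rfl, h2⟩
          obtain ⟨v1, h3, h4⟩ := (hR _ _).1 h1
          exact ⟨v, hι h3 ▸ h4, h2⟩
        · rintro ⟨v, h1, h2⟩
          exact ⟨ι v, (hR _ _).2 ⟨v, rfl, h1⟩, v, rfl, h2⟩
    · intro g'' v h0 h4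
      rw [tv_Neg, tv_bit, h0, h4]
    · intro g'' v' hv' h0 h4
      obtain ⟨v, rfl, hv⟩ := (hR _ _).1 hv'
      rw [ih g g'' v (fun x => by rw [h4 _ (by omega), h]) (by rw [h4 4 (by omega)]; exact hT)
        (by rw [h4 4 (by omega)]; exact hF), h0, h4 4 (by omega)]
      constructor
      · intro h1
        exact ⟨v, rfl, h1⟩
      · rintro ⟨v1, h3, h1⟩
        rw [hι h3]
        exact h1
  | bind x φ ih =>
    intro g g' w h hT hF
    rw [trb, tv_bind, tv_bind, ih (Function.update g x w) _ w]
    · rw [Function.update_of_ne (by omega), Function.update_of_ne (by omega)]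
    · intro y
      by_cases hxy : y = x
      · subst hxy; simp
      · rw [Function.update_of_ne (by omega), Function.update_of_ne hxy, h]
    · rw [Function.update_of_ne (by omega)]
      exact hT
    · rw [Function.update_of_ne (by omega)]
      exact hF
  | atNom i φ ih =>
    intro g g' w h hT hF
    rw [trb, tv_atNom, tv_atNom, hn]
    exact ih g g' _ h hT hF
  | atVar x φ ih =>
    intro g g' w h hT hF
    rw [trb, tv_atVar, tv_atVar, h]
    exact ih g g' _ h hT hF

theorem tv_back {N : ℕ} {K : Model} (φ : Form 𝔅) (g : ℕ → K.W) (w : K.W) :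
    tv K (back N φ) g w = true ↔ ∃ t, K.R (K.nm 0) t ∧ (∃ u, K.R (K.nm 0) u ∧ u ≠ t) ∧
      tv K (trb N φ) (Function.update (Function.update (Function.update g 1 w) 4 t) 0 t) w =
        true := by
  rw [back, tv_bind, tv_atNom, tv_dia]
  refine exists_congr fun t => and_congr_right fun _ => ?_
  rw [tv_bind, tv_bind, tv_Conj, tv_atVar, tv_atNom, tv_dia, Function.update_of_ne (by omega),
    Function.update_of_ne (by omega), Function.update_self]
  refine and_congr_left fun _ => exists_congr fun u => and_congr_right fun _ => ?_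
  rw [tv_Neg, tv_var, Function.update_of_ne (by omega), Function.update_self]

/-- **The translation preserves satisfiability.** -/
theorem satisfiable_back {N : ℕ} (hD : ∀ b : 𝔅.B, 𝔅.ar b ≤ N)
    (𝔉 : FrameClass) (φ : Form 𝔅) : Satisfiable 𝔉 φ ↔ Satisfiable 𝔉 (back N φ) := by
  constructor
  · rintro ⟨K, g, w, hF, h⟩
    refine ⟨sumModel 𝔉 K, fun x => if N + 6 ≤ x then inL 𝔉 K (g (x - (N + 6))) else inR 𝔉 K 1,
      inL 𝔉 K w, mem_sum hF, ?_⟩
    rw [tv_back]
    refine ⟨inR 𝔉 K 1, gad_hub 𝔉 (by decide), ⟨inR 𝔉 K 2, gad_hub 𝔉 (by decide), ?_⟩, ?_⟩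
    · intro h1
      exact absurd (Sum.inr.inj h1) (by decide)
    rw [tv_trb hD (inL 𝔉 K) Sum.inl_injective (R_inL 𝔉 K) (fun i w => Iff.rfl)
      (fun i => rfl) φ g _ w]
    · rw [Function.update_self, Function.update_of_ne (by omega), Function.update_self]
      exact ⟨fun _ => h, fun _ => rfl⟩
    · intro x
      rw [Function.update_of_ne (by omega), Function.update_of_ne (by omega),
        Function.update_of_ne (by omega), if_pos (by omega), Nat.add_sub_cancel]
    · rw [Function.update_of_ne (by omega), Function.update_self]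
      exact gad_hub 𝔉 (by decide)
    · rw [Function.update_of_ne (by omega), Function.update_self]
      refine ⟨inR 𝔉 K 2, gad_hub 𝔉 (by decide), ?_⟩
      intro h1
      exact absurd (Sum.inr.inj h1) (by decide)
  · rintro ⟨K, g, w, hF, h⟩
    rw [tv_back] at h
    obtain ⟨t, ht, hu, h⟩ := h
    set K0 : Model := ⟨K.W, K.R, K.V, fun i => K.nm (i + 1)⟩ with hK0
    refine ⟨K0, fun x => g (x + (N + 6)), w, hF, ?_⟩
    have key := tv_trb hD (K := K0) (K' := K) id Function.injective_id
      (fun w v' => ⟨fun h => ⟨v', rfl, h⟩, fun ⟨v, h1, h2⟩ => h1 ▸ h2⟩) (fun i w => Iff.rfl)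
      (fun i => rfl) φ (fun x => g (x + (N + 6)))
      (Function.update (Function.update (Function.update g 1 w) 4 t) 0 t) w ?_ ?_ ?_
    · rw [Function.update_self, Function.update_of_ne (by omega), Function.update_self] at key
      exact (key.1 h).1 rfl
    · intro x
      rw [Function.update_of_ne (by omega), Function.update_of_ne (by omega),
        Function.update_of_ne (by omega)]
      rfl
    · rw [Function.update_of_ne (by omega), Function.update_self]
      exact ht
    · rw [Function.update_of_ne (by omega), Function.update_self]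
      exact hu

end Pool.Agent.H75C.HY
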