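import Pool.Agent.H75C.HY.Main
import Pool.Agent.H75C.HY.Back

/-!
# The translation into the Boolean base is computable in polynomial time
-/

set_option autoImplicit false

namespace Pool.Agent.H75C.HY

open Pool.Agent.NPC

variable {𝔅 : Base}

/-! ### Words of the Boolean connectives -/

def impW (u v : List Tok) : List Tok := [(3, 0)] ++ (u ++ ([(4, 0)] ++ (v ++ [(4, 1), (5, 0)])))

def botW : List Tok := [(3, 1), (5, 0)]

def negW (u : List Tok) : List Tok := impW u botW

def conjW (u v : List Tok) : List Tok := negW (impW u (negW v))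

def disjW (u v : List Tok) : List Tok := impW (negW u) v

def iffW (u v : List Tok) : List Tok := conjW (impW u v) (impW v u)

theorem pr_Imp (α β : Form impBot) : pr (Imp α β) = impW (pr α) (pr β) := by
  refine (pr_imp_app _).trans ?_
  rfl

theorem pr_Bot : pr Bot = botW := by
  refine (pr_bot_app _).trans ?_
  rfl

theorem pr_Neg (α : Form impBot) : pr (Neg α) = negW (pr α) := by
  rw [Neg, pr_Imp, pr_Bot, negW]

theorem pr_Conj (α β : Form impBot) : pr (Conj α β) = conjW (pr α) (pr β) := by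
  rw [Conj, pr_Neg, pr_Imp, pr_Neg, conjW]

theorem pr_Disj (α β : Form impBot) : pr (Disj α β) = disjW (pr α) (pr β) := by
  rw [Disj, pr_Imp, pr_Neg, disjW]

theorem pr_Iff (α β : Form impBot) : pr (Iff' α β) = iffW (pr α) (pr β) := by
  rw [Iff', pr_Conj, pr_Imp, pr_Imp, iffW]

theorem poly_impW {α : Type} [TEnc α] {u v : α → List Tok} (hu : Poly u) (hv : Poly v) :
    Poly (fun a => impW (u a) (v a)) := by
  unfold impW
  fun_prop

theorem poly_negW {α : Type} [TEnc α] {u : α → List Tok} (hu : Poly u) :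
    Poly (fun a => negW (u a)) := poly_impW hu (NPC.Poly.const _)

theorem poly_conjW {α : Type} [TEnc α] {u v : α → List Tok} (hu : Poly u) (hv : Poly v) :
    Poly (fun a => conjW (u a) (v a)) := poly_negW (poly_impW hu (poly_negW hv))

theorem poly_iffW {α : Type} [TEnc α] {u v : α → List Tok} (hu : Poly u) (hv : Poly v) :
    Poly (fun a => iffW (u a) (v a)) := poly_conjW (poly_impW hu hv) (poly_impW hv hu)

/-- The parts of the word of a conjunction. -/
def c0 : List Tok := [(3, 0), (3, 0)]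

def c1 : List Tok := [(4, 0), (3, 0)]

def c2 : List Tok := [(4, 0)] ++ (botW ++ ([(4, 1), (5, 0)] ++ ([(4, 1), (5, 0)] ++
  ([(4, 0)] ++ (botW ++ [(4, 1), (5, 0)])))))

theorem conjW_eq (u v : List Tok) : conjW u v = c0 ++ (u ++ (c1 ++ (v ++ c2))) := by
  unfold conjW negW impW c0 c1 c2
  simp only [List.append_assoc, List.cons_append, List.nil_append]

/-! ### The words of the translation -/

def bitW (x : ℕ) : List Tok := [(10, x), (2, 4)]

/-- The word in front of the argument of the gadget for `◇` and `□`. -/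
def q0 (e : List Tok) : List Tok :=
  [(3, 0)] ++ (negW (conjW (negW e) ([(7, 0)] ++ (botW ++ [(5, 1)]))) ++ ([(4, 0)] ++
    ([(8, 1), (6, 0), (8, 2), (10, 1), (7, 0), (8, 3), (10, 1), (6, 0)] ++
      (c0 ++ (disjW (conjW e [(2, 2)]) (conjW (negW e) [(2, 3)]) ++ c1)))))

/-- The word behind the argument of the gadget. -/
def q1 : List Tok := c2 ++ ([(5, 1), (5, 1), (5, 1)] ++ [(4, 1), (5, 0)])

theorem pr_qd (e α : Form impBot) : pr (qd e α) = q0 (pr e) ++ (pr α ++ q1) := by
  rw [qd]
  simp only [pr_Disj, pr_Conj, pr_Neg, pr, pr_Bot]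
  rw [disjW, conjW_eq (disjW _ _) (pr α)]
  unfold q0 q1
  rw [impW]
  simp only [List.append_assoc, List.cons_append, List.nil_append]

def gotoW (i : ℕ) : List Tok := [(10, 5 + i), (8, 0), (10, 1)]

theorem pr_goto (i : ℕ) (α : Form impBot) : pr (goto i α) = gotoW i ++ pr α := by
  simp [goto, pr, gotoW]

def ew : ℕ → List Tok
  | 0 => []
  | n + 1 => ew n ++ [(9, 0), (6, 0), (8, 5 + n)]

def ew' : ℕ → List Tok
  | 0 => []
  | n + 1 => (5, 1) :: ew' n

theorem pr_exs : ∀ (n : ℕ) (β : Form impBot), pr (exs n β) = ew n ++ (pr β ++ ew' n) := by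
  intro n
  induction n with
  | zero => intro β; simp [exs, ew, ew']
  | succ n ih =>
    intro β
    rw [exs, ih]
    simp [exz, pr, ew, ew']

def rep (n : ℕ) (u : List Tok) : List Tok := (List.replicate n u).flatten

theorem pr_chain : ∀ (Ys : List (Form impBot)) (X : Form impBot), pr (chain X Ys) =
    rep Ys.length c0 ++ (pr X ++ (Ys.map (fun Y => c1 ++ (pr Y ++ c2))).flatten) := by
  intro Ys
  induction Ys with
  | nil => intro X; simp [chain, rep]
  | cons Y Ys ih =>
    intro X
    rw [chain, ih, pr_Conj, conjW_eq]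
    simp [rep, List.replicate_succ', List.append_assoc]

theorem shift_words (k : ℕ) (j : ℕ) (W : Fin k → List Tok) (tail : List Tok) :
    (List.ofFn (fun i : Fin k => c1 ++ ((gotoW (j + (i : ℕ)) ++ W i) ++ c2))).flatten ++
      (c1 ++ (gotoW (j + k) ++ tail)) = c1 ++ (gotoW j ++
        ((List.ofFn (fun i : Fin k => W i ++ (c2 ++ (c1 ++ gotoW (j + (i : ℕ) + 1))))).flatten ++
          tail)) := by
  induction k generalizing j with
  | zero => simp
  | succ k ih =>
    rw [List.ofFn_succ, List.ofFn_succ, List.flatten_cons, List.flatten_cons]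
    have h := ih (j + 1) (fun i => W i.succ)
    have e1 : ∀ i : Fin k, j + ((i.succ : Fin (k + 1)) : ℕ) = j + 1 + (i : ℕ) := by
      intro i
      rw [Fin.val_succ]
      omega
    have e2 : j + (k + 1) = j + 1 + k := by omega
    simp only [e1, e2, Fin.val_zero, Nat.add_zero]
    rw [List.append_assoc, h]
    simp only [List.append_assoc]

/-- The word of the opening part of `b`. -/
def openW (N : ℕ) (b : 𝔅.B) : List Tok :=
  [(8, 1)] ++ (ew N ++ (c0 ++ (rep (𝔅.ar b) c0 ++ (pr (Xb b) ++ (c1 ++ gotoW 0)))))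

/-- The word of the closing part. -/
def closeW (N : ℕ) : List Tok := pr Top ++ (c2 ++ ew' N)

/-- Search in a table. -/
def look : List (ℕ × List Tok) → ℕ → List Tok
  | [], _ => []
  | p :: t, n => if n = p.1 then p.2 else look t n

theorem poly_look {α : Type} [TEnc α] (tbl : List (ℕ × List Tok)) {f : α → ℕ} (hf : Poly f) :
    Poly (fun a => look tbl (f a)) := by
  induction tbl with
  | nil => exact NPC.Poly.const _
  | cons p t ih =>
    exact NPC.Poly.ite (NPC.Poly.decide_eq hf (NPC.Poly.const _)) (NPC.Poly.const _) ih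

/-- The images of the symbols. -/
def homB (N : ℕ) (tbl : List (ℕ × List Tok)) (t : Tok) : List Tok :=
  if t.1 = 0 then iffW (bitW 0) [(0, t.2)]
  else if t.1 = 1 then iffW (bitW 0) [(1, t.2 + 1)]
  else if t.1 = 2 then iffW (bitW 0) [(2, t.2 + (N + 6))]
  else if t.1 = 3 then look tbl t.2
  else if t.1 = 4 then c2 ++ (c1 ++ [(10, 5 + (t.2 + 1)), (8, 0), (10, 1)])
  else if t.1 = 5 then (if t.2 = 0 then closeW N else q1)
  else if t.1 = 6 then q0 (bitW 0)
  else if t.1 = 7 then q0 (negW (bitW 0))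
  else if t.1 = 8 then [(8, t.2 + (N + 6))]
  else if t.1 = 9 then [(9, t.2 + 1)]
  else [(10, t.2 + (N + 6))]

theorem poly_homB (N : ℕ) (tbl : List (ℕ × List Tok)) : Poly (homB N tbl) := by
  unfold homB
  have e : ∀ n : ℕ, Poly (fun t : Tok => decide (t.1 = n)) := fun n =>
    NPC.Poly.decide_eq (NPC.Poly.fst NPC.Poly.id) (NPC.Poly.const _)
  have e' : Poly (fun t : Tok => decide (t.2 = 0)) :=
    NPC.Poly.decide_eq (NPC.Poly.snd NPC.Poly.id) (NPC.Poly.const _)
  have s : ∀ k j : ℕ, Poly (fun t : Tok => [((k, t.2 + j) : Tok)]) := fun k j =>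
    NPC.Poly.cons (NPC.Poly.pair (NPC.Poly.const _)
      (NPC.Poly.add (NPC.Poly.snd NPC.Poly.id) (NPC.Poly.const _))) (NPC.Poly.const _)
  have s' : ∀ k : ℕ, Poly (fun t : Tok => [((k, t.2) : Tok)]) := fun k =>
    NPC.Poly.cons (NPC.Poly.pair (NPC.Poly.const _) (NPC.Poly.snd NPC.Poly.id)) (NPC.Poly.const _)
  have s4 : Poly (fun t : Tok => c2 ++ (c1 ++ [((10, 5 + (t.2 + 1)) : Tok), (8, 0), (10, 1)])) :=
    NPC.Poly.append (NPC.Poly.const _) (NPC.Poly.append (NPC.Poly.const _)
      (NPC.Poly.cons (NPC.Poly.pair (NPC.Poly.const _) (NPC.Poly.add (NPC.Poly.const _)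
        (NPC.Poly.add (NPC.Poly.snd NPC.Poly.id) (NPC.Poly.const _)))) (NPC.Poly.const _)))
  exact NPC.Poly.ite (e 0) (poly_iffW (NPC.Poly.const _) (s' 0))
    (NPC.Poly.ite (e 1) (poly_iffW (NPC.Poly.const _) (s 1 1))
    (NPC.Poly.ite (e 2) (poly_iffW (NPC.Poly.const _) (s 2 (N + 6)))
    (NPC.Poly.ite (e 3) (poly_look tbl (NPC.Poly.snd NPC.Poly.id))
    (NPC.Poly.ite (e 4) s4
    (NPC.Poly.ite (e 5) (NPC.Poly.ite e' (NPC.Poly.const _) (NPC.Poly.const _))
    (NPC.Poly.ite (e 6) (NPC.Poly.const _) (NPC.Poly.ite (e 7) (NPC.Poly.const _)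
    (NPC.Poly.ite (e 8) (s 8 (N + 6)) (NPC.Poly.ite (e 9) (s 9 1) (s 10 (N + 6)))))))))))

/-! ### The words of the translated formulas -/

theorem pr_trb (N : ℕ) (tbl : List (ℕ × List Tok))
    (htbl : ∀ b : 𝔅.B, look tbl (𝔅.idx b) = openW N b) (φ : Form 𝔅) :
    pr (trb N φ) = (pr φ).flatMap (homB N tbl) := by
  induction φ with
  | prop i => rw [trb, pr_Iff]; simp [pr, homB, bit, bitW]
  | nom i => rw [trb, pr_Iff]; simp [pr, homB, bit, bitW]
  | var x => rw [trb, pr_Iff]; simp [pr, homB, bit, bitW]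
  | app b φ ih =>
    have e1 : pr (trb N (.app b φ)) = [(8, 1)] ++ (ew N ++ ((c0 ++ ((rep (𝔅.ar b) c0 ++
        (pr (Xb b) ++ (List.ofFn (fun i : Fin (𝔅.ar b) => c1 ++ ((gotoW (i : ℕ) ++
          pr (trb N (φ i))) ++ c2))).flatten)) ++ (c1 ++ ((gotoW (𝔅.ar b) ++ pr Top) ++ c2)))) ++
            ew' N)) := by
      rw [trb]
      simp only [pr]
      rw [pr_exs, pr_Conj, conjW_eq, pr_chain, pr_goto, List.length_ofFn, List.map_ofFn]
      have : ((fun Y => c1 ++ (pr Y ++ c2)) ∘ fun i : Fin (𝔅.ar b) => goto (i : ℕ) (trb N (φ i))) =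
          (fun i : Fin (𝔅.ar b) => c1 ++ ((gotoW (i : ℕ) ++ pr (trb N (φ i))) ++ c2)) := by
        funext i
        simp [pr_goto]
      rw [this]
      rfl
    have e2 := shift_words (𝔅.ar b) 0 (fun i => pr (trb N (φ i))) (pr Top ++ (c2 ++ ew' N))
    simp only [Nat.zero_add] at e2
    have e3 : (pr (.app b φ)).flatMap (homB N tbl) = openW N b ++
        ((List.ofFn (fun i : Fin (𝔅.ar b) => pr (trb N (φ i)) ++
          (c2 ++ (c1 ++ gotoW ((i : ℕ) + 1))))).flatten ++ closeW N) := by
      rw [pr_app, List.flatMap_cons, List.flatMap_append]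
      have h3 : homB N tbl (3, 𝔅.idx b) = openW N b := by
        rw [← htbl b]
        simp [homB]
      have h5 : ([((5, 0) : Tok)]).flatMap (homB N tbl) = closeW N := by simp [homB]
      rw [h3, h5]
      congr 2
      rw [List.flatMap_def, List.map_flatten, List.flatten_flatten, List.map_map, List.map_ofFn]
      congr 1
      congr 1
      funext i
      simp only [Function.comp]
      rw [← List.flatMap_def, List.flatMap_append, ih i]
      simp [homB, gotoW]
    rw [e1, e3]
    unfold openW closeW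
    simp only [List.append_assoc] at e2 ⊢
    rw [e2]
  | dia φ ih =>
    rw [trb, pr_qd, ih]
    simp [pr, homB, bit, bitW]
  | box φ ih =>
    rw [trb, pr_qd, ih, pr_Neg]
    simp [pr, homB, bit, bitW]
  | bind x φ ih => simp [trb, pr, homB, ih]
  | atNom i φ ih => simp [trb, pr, homB, ih]
  | atVar x φ ih => simp [trb, pr, homB, ih]

theorem exists_table (N : ℕ) : ∃ tbl : List (ℕ × List Tok), ∀ b : 𝔅.B,
    look tbl (𝔅.idx b) = openW N b := by
  have := 𝔅.fin
  have hf : Fintype 𝔅.B := Fintype.ofFinite 𝔅.B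
  have key : ∀ l : List 𝔅.B, ∀ b ∈ l,
      look (l.map (fun b => (𝔅.idx b, openW N b))) (𝔅.idx b) = openW N b := by
    intro l
    induction l with
    | nil => intro b hb; simp at hb
    | cons c l ih =>
      intro b hb
      rw [List.map_cons, look]
      by_cases h : 𝔅.idx b = 𝔅.idx c
      · rw [if_pos h, 𝔅.inj h]
      · rw [if_neg h]
        refine ih b ?_
        rcases List.mem_cons.1 hb with rfl | hb
        · exact (h rfl).elim
        · exact hb
  exact ⟨_, fun b => key (Finset.univ : Finset 𝔅.B).toList b (by simp)⟩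

theorem exists_bound (𝔅 : Base) : ∃ N, ∀ b : 𝔅.B, 𝔅.ar b ≤ N := by
  have := 𝔅.fin
  have hf : Fintype 𝔅.B := Fintype.ofFinite 𝔅.B
  exact ⟨Finset.univ.sup 𝔅.ar, fun b => Finset.le_sup (f := 𝔅.ar) (Finset.mem_univ b)⟩

/-- The word of the translation, as a function of the word of `trb`. -/
def backW (u : List Tok) : List Tok :=
  [(8, 1), (9, 0), (6, 0), (8, 4), (8, 0)] ++
    (conjW ([(9, 0), (6, 0)] ++ (negW [(2, 4)] ++ [(5, 1)])) ([(10, 1)] ++ u) ++ [(5, 1)])

theorem poly_backW : Poly backW := by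
  unfold backW
  exact NPC.Poly.append (NPC.Poly.const _) (NPC.Poly.append
    (poly_conjW (NPC.Poly.const _) (NPC.Poly.append (NPC.Poly.const _) NPC.Poly.id))
      (NPC.Poly.const _))

theorem pr_back (N : ℕ) (φ : Form 𝔅) : pr (back N φ) = backW (pr (trb N φ)) := by
  unfold back backW
  simp only [pr, pr_Conj, pr_Neg, List.cons_append, List.nil_append]

/-- The function that translates codes. -/
def transB (N : ℕ) (tbl : List (ℕ × List Tok)) (x : List Bool) : List Bool :=
  ((unbits (List Tok) x).map (fun w => bits (backW (w.flatMap (homB N tbl))))).elim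
    [] (fun y => y)

theorem poly_transB (N : ℕ) (tbl : List (ℕ × List Tok)) : Poly (transB N tbl) := by
  have h1 : Poly (fun w : List Tok => backW (w.flatMap (homB N tbl))) :=
    poly_backW.comp (NPC.Poly.flatMap NPC.Poly.id ((poly_homB N tbl).comp
      (NPC.Poly.snd NPC.Poly.id)))
  have h2 : Poly (fun x : List Bool => (unbits (List Tok) x).map
      (fun w => bits (backW (w.flatMap (homB N tbl))))) :=
    NPC.Poly.optMap poly_unbits ((poly_bits h1).comp (NPC.Poly.snd NPC.Poly.id))
  unfold transB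
  exact NPC.Poly.optElim h2 (NPC.Poly.const _) (NPC.Poly.snd NPC.Poly.id)

/-- **Every base reduces to the Boolean base.** -/
theorem reduces_boolean (𝔅 : Base) (𝔉 : FrameClass) : Reduces 𝔉 𝔅 impBot := by
  obtain ⟨N, hN⟩ := exists_bound 𝔅
  obtain ⟨tbl, htbl⟩ := exists_table (𝔅 := 𝔅) N
  refine ⟨back N, transB N tbl, Pool.Agent.H660R2.NX.polyTime_of_poly' (poly_transB _ _),
    fun φ => ?_, fun φ => satisfiable_back hN 𝔉 φ⟩
  unfold transB code
  rw [unbits_bits, pr_back, pr_trb N tbl htbl]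
  rfl

end Pool.Agent.H75C.HY
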