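import Pool.Agent.H75C.HY.Sat

/-!
# The gadgets exist for every base of the clone of the affine functions
-/

set_option autoImplicit false

namespace Pool.Agent.H75C.HY

/-- The formula does not contain the operator `@`. -/
def NoAt {𝔅 : Base} : Form 𝔅 → Prop
  | .prop _ => True
  | .nom _ => True
  | .var _ => True
  | .app _ φ => ∀ i, NoAt (φ i)
  | .dia φ => NoAt φ
  | .box φ => NoAt φ
  | .bind _ φ => NoAt φ
  | .atNom _ _ => False
  | .atVar _ _ => False

/-- The gadgets, with a short form of the formulas as words. -/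
structure GadP (𝔅 : Base) extends Gad 𝔅 where
  A0 : List Tok
  A1 : List Tok
  A2 : List Tok
  pr_X : ∀ α β, pr (X α β) = A0 ++ (pr α ++ (A1 ++ (pr β ++ A2)))
  noAt_one : NoAt one
  noAt_X : ∀ α β, NoAt α → NoAt β → NoAt (X α β)

/-! ### Affine functions -/

theorem affine_ev {𝔅 : Base} (h : 𝔅.IsL) (b : 𝔅.B) : Affine (𝔅.ev b) := by
  obtain ⟨c, s, hs⟩ := (h (𝔅.ar b) _).1 (Gen.comp b (fun i x => x i.castSucc)
    (fun i => Gen.proj i.castSucc))
  refine ⟨c, Finset.univ.filter (fun i => Fin.castSucc i ∈ s), fun y => ?_⟩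
  have h1 := hs (Fin.snoc y false : Fin (𝔅.ar b + 1) → Bool)
  simp only [Fin.snoc_castSucc] at h1
  rw [h1]
  have h2 : s.filter (fun i => (Fin.snoc y false : Fin (𝔅.ar b + 1) → Bool) i = true) =
      ((Finset.univ.filter (fun i => Fin.castSucc i ∈ s)).filter
        (fun i => y i = true)).map Fin.castSuccEmb := by
    ext i
    refine Fin.lastCases ?_ (fun k => ?_) i
    · simp
    · simp [Finset.mem_filter, Finset.mem_map]
  rw [h2, Finset.card_map]

/-- The function depends on at most one variable. -/
def Unary {n : ℕ} (f : (Fin n → Bool) → Bool) : Prop :=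
  ∃ c, (∀ x, f x = c) ∨ ∃ k, ∀ x, f x = xor c (x k)

theorem unary_of_gen {𝔅 : Base} (h : ∀ b, Unary (𝔅.ev b)) {n : ℕ} {f : (Fin n → Bool) → Bool}
    (hf : Gen 𝔅 n f) : Unary f := by
  induction hf with
  | proj i => exact ⟨false, Or.inr ⟨i, fun x => by simp⟩⟩
  | comp b f _ ih =>
    obtain ⟨c, hc | ⟨k, hk⟩⟩ := h b
    · exact ⟨c, Or.inl fun x => hc _⟩
    · obtain ⟨c', hc' | ⟨k', hk'⟩⟩ := ih k
      · exact ⟨xor c c', Or.inl fun x => by show 𝔅.ev b _ = _; rw [hk, hc']⟩
      · exact ⟨xor c c', Or.inr ⟨k', fun x => by show 𝔅.ev b _ = _; rw [hk, hk', Bool.xor_assoc]⟩⟩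

theorem affine_xor : Affine (fun x : Fin 2 → Bool => xor (x 0) (x 1)) :=
  ⟨false, Finset.univ, by decide⟩

theorem affine_const {n : ℕ} (c : Bool) : Affine (fun _ : Fin n → Bool => c) :=
  ⟨c, ∅, fun x => by simp⟩

theorem exists_binary {𝔅 : Base} (h : 𝔅.IsL) : ∃ (b : 𝔅.B) (i j : Fin (𝔅.ar b)) (c : Bool),
    i < j ∧ ∀ p q : Bool, 𝔅.ev b (fun k => if k = i then p else if k = j then q else false) =
      xor c (xor p q) := by
  have h1 : ∃ b, ¬ Unary (𝔅.ev b) := by
    by_contra hcon
    push Not at hcon
    obtain ⟨c, hc | ⟨k, hk⟩⟩ := unary_of_gen hcon ((h 1 _).2 affine_xor)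
    · have e1 := hc (fun _ => false)
      have e2 := hc ![true, false]
      simp at e1 e2
      simp [e1] at e2
    · have e1 := hk (fun _ => false)
      have e2 := hk (fun _ => true)
      simp at e1 e2
      simp [e1] at e2
  obtain ⟨b, hb⟩ := h1
  obtain ⟨c, s, hs⟩ := affine_ev h b
  have h2 : 1 < s.card := by
    by_contra hcon
    push Not at hcon
    apply hb
    rcases Nat.eq_zero_or_pos s.card with h0 | h0
    · rw [Finset.card_eq_zero] at h0
      refine ⟨c, Or.inl fun x => ?_⟩
      rw [hs, h0]
      simp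
    · obtain ⟨k, hk⟩ := Finset.card_eq_one.1 (le_antisymm hcon h0)
      refine ⟨c, Or.inr ⟨k, fun x => ?_⟩⟩
      rw [hs, hk, Finset.filter_singleton]
      cases x k <;> simp
  obtain ⟨i, hi, j, hj, hij⟩ := Finset.one_lt_card.1 h2
  have key : ∀ i ∈ s, ∀ j ∈ s, i ≠ j → ∀ p q : Bool,
      𝔅.ev b (fun k => if k = i then p else if k = j then q else false) = xor c (xor p q) := by
    intro i hi j hj hij p q
    rw [hs]
    congr 1
    cases p <;> cases q
    · have : s.filter (fun k => (if k = i then false else if k = j then false else false) = true) =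
          ∅ := by
        ext k; simp
      rw [this]; simp
    · have : s.filter (fun k => (if k = i then false else if k = j then true else false) = true) =
          {j} := by
        ext k
        simp only [Finset.mem_filter, Finset.mem_singleton]
        by_cases h1 : k = i
        · subst h1; simp [hij]
        · by_cases h2 : k = j
          · subst h2; simp [hj, h1]
          · simp [h1, h2]
      rw [this]; simp
    · have : s.filter (fun k => (if k = i then true else if k = j then false else false) = true) =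
          {i} := by
        ext k
        simp only [Finset.mem_filter, Finset.mem_singleton]
        by_cases h1 : k = i
        · subst h1; simp [hi]
        · by_cases h2 : k = j
          · subst h2; simp [h1]
          · simp [h1, h2]
      rw [this]; simp
    · have : s.filter (fun k => (if k = i then true else if k = j then true else false) = true) =
          {i, j} := by
        ext k
        simp only [Finset.mem_filter, Finset.mem_singleton, Finset.mem_insert]
        by_cases h1 : k = i
        · subst h1; simp [hi]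
        · by_cases h2 : k = j
          · subst h2; simp [hj]
          · simp [h1, h2]
      rw [this, Finset.card_pair hij]
      decide
  rcases lt_or_gt_of_ne hij with hlt | hgt
  · exact ⟨b, i, j, c, hlt, key i hi j hj hij⟩
  · exact ⟨b, j, i, c, hgt, key j hj i hi hij.symm⟩

/-- Generated functions are given by formulas. -/
theorem exists_form {𝔅 : Base} {n : ℕ} {f : (Fin n → Bool) → Bool} (hf : Gen 𝔅 n f)
    (φ : Fin n → Form 𝔅) (hφ : ∀ i, NoAt (φ i)) : ∃ ψ : Form 𝔅, NoAt ψ ∧
      ∀ (K : Model) (g : ℕ → K.W) (w : K.W), tv K ψ g w = f (fun i => tv K (φ i) g w) := by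
  induction hf with
  | proj i => exact ⟨φ i, hφ i, fun K g w => rfl⟩
  | comp b f _ ih =>
    choose ψ hψ' hψ using ih
    refine ⟨.app b ψ, hψ', fun K g w => ?_⟩
    rw [tv]
    congr 1
    funext i
    exact hψ i K g w

theorem exists_const {𝔅 : Base} (h : 𝔅.IsL) (c : Bool) : ∃ ψ : Form 𝔅, NoAt ψ ∧
    ∀ (K : Model) (g : ℕ → K.W) (w : K.W), tv K ψ g w = c := by
  obtain ⟨ψ, h1, hψ⟩ := exists_form ((h 0 _).2 (affine_const c)) (fun _ => (.var 0 : Form 𝔅))
    (fun _ => trivial)
  exact ⟨ψ, h1, fun K g w => by rw [hψ]⟩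

/-! ### Words -/

theorem flatten_split {τ : Type} (l : List (List τ)) {i j : ℕ} (hij : i < j) (hj : j < l.length) :
    l.flatten = (l.take i).flatten ++ (l[i] ++ (((l.drop (i + 1)).take (j - (i + 1))).flatten ++
      (l[j] ++ (l.drop (j + 1)).flatten))) := by
  have e1 : l = l.take i ++ (l[i] :: ((l.drop (i + 1)).take (j - (i + 1)) ++
      (l[j] :: l.drop (j + 1)))) := by
    have h1 : l.drop i = l[i] :: l.drop (i + 1) := List.drop_eq_getElem_cons (by omega)
    have h2 : l.drop j = l[j] :: l.drop (j + 1) := List.drop_eq_getElem_cons hj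
    have h3 : l.drop (i + 1) = (l.drop (i + 1)).take (j - (i + 1)) ++ l.drop j := by
      conv_lhs => rw [← List.take_append_drop (j - (i + 1)) (l.drop (i + 1))]
      rw [List.drop_drop]
      congr 2
      omega
    conv_lhs => rw [← List.take_append_drop i l, h1, h3, h2]
  conv_lhs => rw [e1]
  simp only [List.flatten_append, List.flatten_cons]

theorem flatten_ofFn {τ : Type} {n : ℕ} (F F0 : Fin n → List τ) {i j : Fin n} (hij : i < j)
    (h : ∀ k, k ≠ i → k ≠ j → F k = F0 k) : (List.ofFn F).flatten =
      ((List.ofFn F0).take i).flatten ++ (F i ++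
        ((((List.ofFn F0).drop (i + 1)).take (j - (i + 1))).flatten ++
          (F j ++ ((List.ofFn F0).drop (j + 1)).flatten))) := by
  have hij' : (i : ℕ) < j := hij
  rw [flatten_split (List.ofFn F) hij' (by simp)]
  have e1 : (List.ofFn F).take i = (List.ofFn F0).take i := by
    apply List.ext_getElem (by simp)
    intro k h1 h2
    rw [List.length_take, List.length_ofFn] at h1
    rw [List.getElem_take, List.getElem_take, List.getElem_ofFn, List.getElem_ofFn]
    refine h _ ?_ ?_ <;>
    · intro h3
      have := congrArg Fin.val h3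
      simp only at this
      omega
  have e2 : ((List.ofFn F).drop (i + 1)).take (j - (i + 1)) =
      ((List.ofFn F0).drop (i + 1)).take (j - (i + 1)) := by
    apply List.ext_getElem (by simp)
    intro k h1 h2
    rw [List.length_take] at h1
    rw [List.getElem_take, List.getElem_take, List.getElem_drop, List.getElem_drop,
      List.getElem_ofFn, List.getElem_ofFn]
    refine h _ ?_ ?_ <;>
    · intro h3
      have := congrArg Fin.val h3
      simp only at this
      omega
  have e3 : (List.ofFn F).drop (j + 1) = (List.ofFn F0).drop (j + 1) := by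
    apply List.ext_getElem (by simp)
    intro k h1 h2
    rw [List.getElem_drop, List.getElem_drop, List.getElem_ofFn, List.getElem_ofFn]
    refine h _ ?_ ?_ <;>
    · intro h3
      have := congrArg Fin.val h3
      simp only at this
      omega
  rw [e1, e2, e3, List.getElem_ofFn, List.getElem_ofFn]

theorem exists_gad {𝔅 : Base} (h : 𝔅.IsL) : Nonempty (GadP 𝔅) := by
  obtain ⟨b, i, j, c, hij, hb⟩ := exists_binary h
  obtain ⟨one, hone', hone⟩ := exists_const h true
  obtain ⟨Z, hZ', hZ⟩ := exists_const h false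
  set X0 : Form 𝔅 → Form 𝔅 → Form 𝔅 := fun α β =>
    .app b (fun k => if k = i then α else if k = j then β else Z) with hX0
  have tv0 : ∀ (K : Model) (α β : Form 𝔅) (g : ℕ → K.W) (w : K.W),
      tv K (X0 α β) g w = xor c (xor (tv K α g w) (tv K β g w)) := by
    intro K α β g w
    simp only [hX0]
    rw [tv, ← hb]
    congr 1
    funext k
    by_cases h1 : k = i
    · simp [h1]
    · by_cases h2 : k = j
      · subst h2; simp [h1]
      · simp [h1, h2, hZ]
  set F0 : Fin (𝔅.ar b) → List Tok := fun k => pr Z ++ [((4, (k : ℕ)) : Tok)] with hF0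
  have pr0 : ∀ α β, pr (X0 α β) = ((3, 𝔅.idx b) :: ((List.ofFn F0).take i).flatten) ++ (pr α ++
      (((4, (i : ℕ)) :: (((List.ofFn F0).drop (i + 1)).take (j - (i + 1))).flatten) ++ (pr β ++
        ((4, (j : ℕ)) :: (((List.ofFn F0).drop (j + 1)).flatten ++ [(5, 0)]))))) := by
    intro α β
    simp only [hX0]
    rw [pr, flatten_ofFn _ F0 hij]
    · have hji : j ≠ i := (ne_of_lt hij).symm
      simp [hji]
    · intro k h1 h2
      simp [h1, h2, hF0]
  exact ⟨{
    X := fun α β => X0 (X0 α β) Z
    one := one
    tv_X := by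
      intro K α β g w
      rw [tv0, tv0, hZ]
      cases c <;> cases tv K α g w <;> cases tv K β g w <;> rfl
    tv_one := hone
    A0 := ((3, 𝔅.idx b) :: ((List.ofFn F0).take i).flatten) ++
      ((3, 𝔅.idx b) :: ((List.ofFn F0).take i).flatten)
    A1 := ((4, (i : ℕ)) :: (((List.ofFn F0).drop (i + 1)).take (j - (i + 1))).flatten)
    A2 := ((4, (j : ℕ)) :: (((List.ofFn F0).drop (j + 1)).flatten ++ [(5, 0)])) ++
      (((4, (i : ℕ)) :: (((List.ofFn F0).drop (i + 1)).take (j - (i + 1))).flatten) ++ (pr Z ++
        ((4, (j : ℕ)) :: (((List.ofFn F0).drop (j + 1)).flatten ++ [(5, 0)]))))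
    pr_X := by
      intro α β
      rw [pr0, pr0]
      simp only [List.append_assoc]
    noAt_one := hone'
    noAt_X := by
      have h0 : ∀ α β, NoAt α → NoAt β → NoAt (X0 α β) := by
        intro α β hα hβ k
        show NoAt (if k = i then α else if k = j then β else Z)
        split_ifs
        · exact hα
        · exact hβ
        · exact hZ'
      exact fun α β hα hβ => h0 _ _ (h0 _ _ hα hβ) hZ' }⟩

end Pool.Agent.H75C.HY
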