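import Pool.Agent.H75C.HY.Clone
import Pool.Agent.H660R2.NX.Run

/-!
# The translation is computable in polynomial time
-/

set_option autoImplicit false

namespace Pool.Agent.H75C.HY

open Pool.Agent.NPC

variable {𝔅 : Base}

/-! ### Words of the gadgets -/

section Words

variable (A0 A1 A2 one : List Tok)

/-- The word of the exclusive disjunction. -/
def xw (u v : List Tok) : List Tok := A0 ++ (u ++ (A1 ++ (v ++ A2)))

/-- The words before, between and after the two arguments of the gadget for the implication. -/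
def g0 : List Tok := [(8, 0), (9, 0), (6, 0), (8, 1)] ++ (A0 ++ [(10, 0)])

def g1 : List Tok := A1 ++ ([(9, 0), (6, 0)] ++ (A0 ++ ([(2, 1)] ++ (A1 ++ (A0 ++ ([(2, 2)] ++ (A1 ++
  (A0 ++ (one ++ (A1 ++ [(10, 0)]))))))))))

def g2 : List Tok := A2 ++ (A2 ++ (A2 ++ ([(5, 1)] ++ (A2 ++ [(5, 1)]))))

/-- The images of the symbols. -/
def hom (t : Tok) : List Tok :=
  if t.1 = 0 then [(0, t.2)]
  else if t.1 = 1 then [(1, t.2 + 1)]
  else if t.1 = 2 then [(2, t.2 + 5)]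
  else if t.1 = 3 then (if t.2 = 0 then g0 A0 else xw A0 A1 A2 one one)
  else if t.1 = 4 then (if t.2 = 0 then g1 A0 A1 one else g2 A2)
  else if t.1 = 5 then (if t.2 = 0 then [] else [(5, 1)])
  else if t.1 = 6 then [(6, 0)]
  else if t.1 = 7 then [(7, 0)]
  else if t.1 = 8 then [(8, t.2 + 5)]
  else if t.1 = 9 then [(9, t.2 + 1)]
  else [(10, t.2 + 5)]

/-- The word of the reduction, as a function of the word of the translation. -/
def restW (p : List Tok) : List Tok := [(9, 0), (6, 0)] ++ (xw A0 A1 A2 one p ++ [(5, 1)])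

def quantW (p : List Tok) : List Tok :=
  [(9, 0), (6, 0), (8, 0), (9, 0), (6, 0), (8, 1), (9, 0), (7, 0)] ++
    (xw A0 A1 A2 [(2, 0)] (xw A0 A1 A2 [(2, 1)] (xw A0 A1 A2 one p)) ++ [(5, 1), (5, 1), (5, 1)])

def cXW (p : List Tok) : List Tok :=
  xw A0 A1 A2 p (xw A0 A1 A2 (quantW A0 A1 A2 one p) (restW A0 A1 A2 one p))

def pairsW (p : List Tok) : List Tok :=
  [(9, 0), (6, 0), (8, 0), (9, 0), (6, 0)] ++ (xw A0 A1 A2 [(2, 0)] p ++ [(5, 1), (5, 1)])

def cDW (p : List Tok) : List Tok :=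
  xw A0 A1 A2 (pairsW A0 A1 A2 p) (restW A0 A1 A2 one p)

def redW (p : List Tok) : List Tok :=
  [(8, 3)] ++ cDW A0 A1 A2 one (cXW A0 A1 A2 one
    ([(9, 0), (6, 0), (8, 2), (10, 3)] ++ (p ++ [(5, 1)])))

theorem poly_xw {α : Type} [TEnc α] {u v : α → List Tok} (hu : Poly u) (hv : Poly v) :
    Poly (fun a => xw A0 A1 A2 (u a) (v a)) := by
  unfold xw
  fun_prop

theorem poly_redW : Poly (redW A0 A1 A2 one) := by
  unfold redW cDW cXW pairsW quantW restW
  have h1 : Poly (fun p : List Tok =>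
      [(9, 0), (6, 0), (8, 2), (10, 3)] ++ (p ++ [(5, 1)])) := by fun_prop
  have hr : ∀ {u : List Tok → List Tok}, Poly u →
      Poly (fun p => [(9, 0), (6, 0)] ++ (xw A0 A1 A2 one (u p) ++ [(5, 1)])) := fun hu =>
    NPC.Poly.append (NPC.Poly.const _) (NPC.Poly.append
      (poly_xw A0 A1 A2 (NPC.Poly.const _) hu) (NPC.Poly.const _))
  have hq : ∀ {u : List Tok → List Tok}, Poly u → Poly (fun p =>
      [(9, 0), (6, 0), (8, 0), (9, 0), (6, 0), (8, 1), (9, 0), (7, 0)] ++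
        (xw A0 A1 A2 [(2, 0)] (xw A0 A1 A2 [(2, 1)] (xw A0 A1 A2 one (u p))) ++
          [(5, 1), (5, 1), (5, 1)])) := fun hu =>
    NPC.Poly.append (NPC.Poly.const _) (NPC.Poly.append
      (poly_xw A0 A1 A2 (NPC.Poly.const _) (poly_xw A0 A1 A2 (NPC.Poly.const _)
      (poly_xw A0 A1 A2 (NPC.Poly.const _) hu))) (NPC.Poly.const _))
  have hp : ∀ {u : List Tok → List Tok}, Poly u → Poly (fun p =>
      [(9, 0), (6, 0), (8, 0), (9, 0), (6, 0)] ++ (xw A0 A1 A2 [(2, 0)] (u p) ++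
        [(5, 1), (5, 1)])) := fun hu =>
    NPC.Poly.append (NPC.Poly.const _) (NPC.Poly.append
      (poly_xw A0 A1 A2 (NPC.Poly.const _) hu) (NPC.Poly.const _))
  have h2 := poly_xw A0 A1 A2 h1 (poly_xw A0 A1 A2 (hq h1) (hr h1))
  exact NPC.Poly.append (NPC.Poly.const _) (poly_xw A0 A1 A2 (hp h2) (hr h2))

theorem poly_hom : Poly (hom A0 A1 A2 one) := by
  unfold hom
  have e : ∀ n : ℕ, Poly (fun t : Tok => decide (t.1 = n)) := fun n =>
    NPC.Poly.decide_eq (NPC.Poly.fst NPC.Poly.id) (NPC.Poly.const _)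
  have e' : Poly (fun t : Tok => decide (t.2 = 0)) :=
    NPC.Poly.decide_eq (NPC.Poly.snd NPC.Poly.id) (NPC.Poly.const _)
  have s : ∀ k j : ℕ, Poly (fun t : Tok => [((k, t.2 + j) : Tok)]) := fun k j =>
    NPC.Poly.cons (NPC.Poly.pair (NPC.Poly.const _) (NPC.Poly.add (NPC.Poly.snd NPC.Poly.id) (NPC.Poly.const _))) (NPC.Poly.const _)
  have s' : ∀ k : ℕ, Poly (fun t : Tok => [((k, t.2) : Tok)]) := fun k =>
    NPC.Poly.cons (NPC.Poly.pair (NPC.Poly.const _) (NPC.Poly.snd NPC.Poly.id)) (NPC.Poly.const _)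
  exact NPC.Poly.ite (e 0) (s' 0) (NPC.Poly.ite (e 1) (s 1 1) (NPC.Poly.ite (e 2) (s 2 5)
    (NPC.Poly.ite (e 3) (NPC.Poly.ite e' (NPC.Poly.const _) (NPC.Poly.const _))
    (NPC.Poly.ite (e 4) (NPC.Poly.ite e' (NPC.Poly.const _) (NPC.Poly.const _))
    (NPC.Poly.ite (e 5) (NPC.Poly.ite e' (NPC.Poly.const _) (NPC.Poly.const _)) (NPC.Poly.ite (e 6) (NPC.Poly.const _) (NPC.Poly.ite (e 7) (NPC.Poly.const _)
    (NPC.Poly.ite (e 8) (s 8 5) (NPC.Poly.ite (e 9) (s 9 1) (s 10 5))))))))))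

end Words

/-! ### The words of the formulas -/

theorem pr_app (b : 𝔅.B) (φ : Fin (𝔅.ar b) → Form 𝔅) :
    pr (.app b φ) = (3, 𝔅.idx b) :: ((List.ofFn (fun i => pr (φ i) ++
      [((4, (i : ℕ)) : Tok)])).flatten ++ [(5, 0)]) := by
  rw [pr]

theorem pr_imp_app (φ : Fin (impBot.ar IB.imp) → Form impBot) :
    pr (.app (𝔅 := impBot) IB.imp φ) = [(3, 0)] ++ (pr (φ (0 : Fin 2)) ++ ([(4, 0)] ++
      (pr (φ (1 : Fin 2)) ++ ([(4, 1)] ++ [(5, 0)])))) := by
  refine (pr_app (𝔅 := impBot) IB.imp φ).trans ?_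
  show (3, 0) :: ((List.ofFn (fun i : Fin 2 => pr (φ i) ++ [((4, (i : ℕ)) : Tok)])).flatten ++
      [(5, 0)]) = _
  simp [List.ofFn_succ]

theorem pr_bot_app (φ : Fin (impBot.ar IB.bot) → Form impBot) :
    pr (.app (𝔅 := impBot) IB.bot φ) = [(3, 1), (5, 0)] := by
  refine (pr_app (𝔅 := impBot) IB.bot φ).trans ?_
  show (3, 1) :: ((List.ofFn (fun i : Fin 0 => pr (φ i) ++ [((4, (i : ℕ)) : Tok)])).flatten ++
      [(5, 0)]) = _
  simp

theorem pr_gad_imp (G : GadP 𝔅) (β α : Form 𝔅) : pr (G.toGad.imp β α) =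
    g0 G.A0 ++ (pr β ++ (g1 G.A0 G.A1 (pr G.one) ++ (pr α ++ g2 G.A2))) := by
  unfold Gad.imp Gad.inner g0 g1 g2
  simp only [pr, G.pr_X, List.append_assoc, List.cons_append, List.nil_append]

theorem pr_zero (G : GadP 𝔅) : pr G.toGad.zero = xw G.A0 G.A1 G.A2 (pr G.one) (pr G.one) := by
  unfold Gad.zero xw
  rw [G.pr_X]

theorem pr_tr (G : GadP 𝔅) (φ : Form impBot) :
    pr (tr G.toGad φ) = (pr φ).flatMap (hom G.A0 G.A1 G.A2 (pr G.one)) := by
  induction φ with
  | prop i => simp [tr, pr, hom]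
  | nom i => simp [tr, pr, hom]
  | var x => simp [tr, pr, hom]
  | app b φ ih =>
    cases b with
    | bot =>
      have e := congrArg (List.flatMap (hom G.A0 G.A1 G.A2 (pr G.one))) (pr_bot_app φ)
      refine Eq.trans ?_ e.symm
      rw [tr, pr_zero]
      simp [hom]
    | imp =>
      have e := congrArg (List.flatMap (hom G.A0 G.A1 G.A2 (pr G.one))) (pr_imp_app φ)
      refine Eq.trans ?_ e.symm
      rw [tr, pr_gad_imp]
      have h0 := ih (0 : Fin 2)
      have h1 := ih (1 : Fin 2)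
      rw [h0, h1]
      simp [hom, List.flatMap_append]
  | dia φ ih => simp [tr, pr, hom, ih]
  | box φ ih => simp [tr, pr, hom, ih]
  | bind x φ ih => simp [tr, pr, hom, ih]
  | atNom i φ ih => simp [tr, pr, hom, ih]
  | atVar x φ ih => simp [tr, pr, hom, ih]

theorem pr_red (G : GadP 𝔅) (φ : Form impBot) :
    pr (red G.toGad φ) = redW G.A0 G.A1 G.A2 (pr G.one)
      ((pr φ).flatMap (hom G.A0 G.A1 G.A2 (pr G.one))) := by
  rw [← pr_tr]
  unfold red psi Gad.cD Gad.cX Gad.pairs Gad.quant Gad.rest redW cDW cXW pairsW quantW restW xw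
  simp only [pr, G.pr_X, List.append_assoc, List.cons_append, List.nil_append]

/-- The code of a formula: its word, in binary. -/
def code (φ : Form 𝔅) : List Bool := bits (pr φ)

/-- The function that translates codes. -/
def trans (A0 A1 A2 one : List Tok) (x : List Bool) : List Bool :=
  ((unbits (List Tok) x).map (fun w => bits (redW A0 A1 A2 one (w.flatMap (hom A0 A1 A2 one))))).elim
    [] (fun y => y)

theorem poly_bits {α β : Type} [TEnc α] [TEnc β] {f : α → β} (hf : Poly f) :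
    Poly (fun a => bits (f a)) := by
  have h : Poly (fun b : β => bits b) := by
    obtain ⟨c, p, h⟩ := PC.rawIn
    exact ⟨c, p, fun a => h (bits a)⟩
  exact h.comp hf

theorem poly_trans (A0 A1 A2 one : List Tok) : Poly (trans A0 A1 A2 one) := by
  have h1 : Poly (fun w : List Tok => redW A0 A1 A2 one (w.flatMap (hom A0 A1 A2 one))) :=
    (poly_redW A0 A1 A2 one).comp (NPC.Poly.flatMap NPC.Poly.id ((poly_hom A0 A1 A2 one).comp
      (NPC.Poly.snd NPC.Poly.id)))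
  have h2 : Poly (fun x : List Bool => (unbits (List Tok) x).map
      (fun w => bits (redW A0 A1 A2 one (w.flatMap (hom A0 A1 A2 one))))) :=
    NPC.Poly.optMap poly_unbits ((poly_bits h1).comp (NPC.Poly.snd NPC.Poly.id))
  unfold trans
  exact NPC.Poly.optElim h2 (NPC.Poly.const _) (NPC.Poly.snd NPC.Poly.id)

/-- **The main theorem.** -/
theorem main (h : 𝔅.IsL) : ∃ (T : Form impBot → Form 𝔅) (f : List Bool → List Bool), PolyTime f ∧
    (∀ φ, f (code φ) = code (T φ)) ∧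
    ∀ (𝔉 : FrameClass) (φ : Form impBot), Satisfiable 𝔉 (T φ) ↔ Satisfiable 𝔉 φ := by
  obtain ⟨G⟩ := exists_gad h
  refine ⟨red G.toGad, trans G.A0 G.A1 G.A2 (pr G.one),
    Pool.Agent.H660R2.NX.polyTime_of_poly' (poly_trans _ _ _ _), fun φ => ?_,
    fun 𝔉 φ => satisfiable_red G.toGad 𝔉 φ⟩
  unfold trans code
  rw [unbits_bits, pr_red]
  rfl

end Pool.Agent.H75C.HY
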