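import Pool.Agent.H75C.HY.Small2
import Pool.Agent.NPC.Num

/-!
# Small models as concrete data
-/

set_option autoImplicit false

namespace Pool.Agent.H75C.HY

open Pool.Agent.NPC

variable {𝔅 : Base}

/-- Search in a table with default value. -/
def lk : List (ℕ × ℕ) → ℕ → ℕ → ℕ
  | [], d, _ => d
  | p :: l, d, x => if x = p.1 then p.2 else lk l d x

theorem lk_map {A : List ℕ} (f : ℕ → ℕ) (d : ℕ) {x : ℕ} (hx : x ∈ A) :
    lk (A.map fun i => (i, f i)) d x = f x := by
  induction A with
  | nil => simp at hx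
  | cons a A ih =>
    rw [List.map_cons, lk]
    by_cases h : x = a
    · rw [if_pos h, h]
    · rw [if_neg h]
      exact ih ((List.mem_cons.1 hx).resolve_left h)

/-- The number of states, the pairs (proposition, state where it is true), the values of the
nominals. -/
abbrev Dat := ℕ × List (ℕ × ℕ) × List (ℕ × ℕ)

/-- The model given by the data; the relevant states are those below the first component. -/
def KD (D : Dat) : Model := ⟨ℕ, fun _ _ => True, fun i v => (i, v) ∈ D.2.1, fun i => lk D.2.2 D.1 i⟩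

def CD (D : Dat) : Set ℕ := {v | v < D.1}

/-- Truth is invariant under isomorphism. -/
theorem transport {A : Finset ℕ} {K K2 : Model} {C : Set K.W} {C2 : Set K2.W} (e : K.W → K2.W)
    (he : Set.MapsTo e C C2) (hinj : Set.InjOn e C) (hsurj : Set.SurjOn e C C2)
    (hV : ∀ i ∈ A, ∀ v ∈ C, K.V i v ↔ K2.V i (e v))
    (hn : ∀ i ∈ A, ∀ v ∈ C, v = K.nm i ↔ e v = K2.nm i) :
    ∀ φ : Form 𝔅, NoAt φ → Names A φ → ∀ (g : ℕ → K.W) (g2 : ℕ → K2.W),
      (∀ x ∈ A, ∀ v ∈ C, v = g x ↔ e v = g2 x) → ∀ w ∈ C, cv K C φ g w = cv K2 C2 φ g2 (e w) := by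
  intro φ
  induction φ with
  | prop i =>
    intro _ hA g g2 _ w hw
    rw [Bool.eq_iff_iff]
    simp only [cv, decide_eq_true_eq]
    exact hV i hA w hw
  | nom i =>
    intro _ hA g g2 _ w hw
    rw [Bool.eq_iff_iff]
    simp only [cv, decide_eq_true_eq]
    exact hn i hA w hw
  | var x =>
    intro _ hA g g2 h w hw
    rw [Bool.eq_iff_iff]
    simp only [cv, decide_eq_true_eq]
    exact h x hA w hw
  | app b φ ih =>
    intro hφ hA g g2 h w hw
    rw [cv, cv]
    congr 1
    funext i
    exact ih i (hφ i) (hA i) g g2 h w hw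
  | dia φ ih =>
    intro hφ hA g g2 h w hw
    rw [Bool.eq_iff_iff, cv_dia, cv_dia]
    constructor
    · rintro ⟨v, hv, h1⟩
      exact ⟨e v, he hv, by rw [← ih hφ hA g g2 h v hv]; exact h1⟩
    · rintro ⟨v', hv', h1⟩
      obtain ⟨v, hv, rfl⟩ := hsurj hv'
      exact ⟨v, hv, by rw [ih hφ hA g g2 h v hv]; exact h1⟩
  | box φ ih =>
    intro hφ hA g g2 h w hw
    rw [Bool.eq_iff_iff, cv_box, cv_box]
    constructor
    · intro h1 v' hv'
      obtain ⟨v, hv, rfl⟩ := hsurj hv'
      rw [← ih hφ hA g g2 h v hv]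
      exact h1 v hv
    · intro h1 v hv
      rw [ih hφ hA g g2 h v hv]
      exact h1 _ (he hv)
  | bind x φ ih =>
    intro hφ hA g g2 h w hw
    refine ih hφ hA.2 _ _ (fun y hy v hv => ?_) w hw
    by_cases hyx : y = x
    · subst hyx
      rw [Function.update_self, Function.update_self]
      exact ⟨fun h => by rw [h], fun h => hinj hv hw h⟩
    · rw [Function.update_of_ne hyx, Function.update_of_ne hyx]
      exact h y hy v hv
  | atNom i φ ih => intro h; exact h.elim
  | atVar i φ ih => intro h; exact h.elim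

theorem sz_nat_le' (n : ℕ) : sz n ≤ 4 * n + 1 := by
  have h1 := sz_nat_le n
  have h2 : n.size ≤ n := by
    rw [Nat.size_le]
    exact Nat.lt_two_pow_self
  omega

theorem sz_num_le {φ : Form 𝔅} {i : ℕ} (hi : i ∈ nums φ) : sz i ≤ sz (pr φ) := by
  unfold nums at hi
  rw [List.mem_toFinset, List.mem_map] at hi
  obtain ⟨t, ht, rfl⟩ := hi
  have h1 := sz_le_of_mem ht
  have h2 : sz t = sz t.1 + sz t.2 + 1 := by
    obtain ⟨t1, t2⟩ := t
    simp
  omega

/-- The bound for the size of the data, for words of size `n`. -/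
def bnd (n : ℕ) : ℕ := 20 * (n + 2) * (2 * n + 2) ^ 4

theorem bnd_key (n N : ℕ) (hNn : N ≤ (2 * n + 1) ^ 2) :
    4 * N + 1 + (n * N * (n + (4 * N + 1) + 1 + 1) + 1 +
      (n * (n + (4 * N + 1) + 1 + 1) + 1) + 1) + 1 +
        (n * (n + (4 * N + 1) + 1 + 1) + 1 + (4 * N + 1) + 1) + 1 ≤ bnd n := by
  unfold bnd
  set P := (2 * n + 2) ^ 2 with hP
  have hP2 : (2 * n + 2) ^ 4 = P * P := by rw [hP]; ring
  have hNP : N + 1 ≤ P := by
    have : (2 * n + 1) ^ 2 + 1 ≤ P := by
      have h : P = (2 * n + 1) ^ 2 + (4 * n + 3) := by rw [hP]; ring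
      omega
    omega
  have hP4 : 4 ≤ P := by
    have h : P = 4 * n ^ 2 + 8 * n + 4 := by rw [hP]; ring
    omega
  have hnP : n ≤ P := by
    have h : P = 4 * n ^ 2 + 8 * n + 4 := by rw [hP]; ring
    omega
  rw [hP2]
  have h1 : n + (4 * N + 1) + 1 + 1 ≤ 5 * P := by omega
  have h2 : n * N * (n + (4 * N + 1) + 1 + 1) ≤ n * P * (5 * P) :=
    Nat.mul_le_mul (Nat.mul_le_mul_left _ (by omega)) h1
  have h3 : n * (n + (4 * N + 1) + 1 + 1) ≤ n * P * (5 * P) := by
    refine (Nat.mul_le_mul_left n h1).trans ?_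
    exact Nat.mul_le_mul_right _ (Nat.le_mul_of_pos_right n (by omega))
  have h4 : n * P * (5 * P) = 5 * (n * (P * P)) := by ring
  have h5 : 20 * (n + 2) * (P * P) = 20 * (n * (P * P)) + 40 * (P * P) := by ring
  have h6 : 4 * P ≤ P * P := Nat.mul_le_mul_right _ hP4
  rw [h5]
  rw [h4] at h2 h3
  generalize n * N * (n + (4 * N + 1) + 1 + 1) = a at *
  generalize n * (n + (4 * N + 1) + 1 + 1) = b at *
  generalize n * (P * P) = c at *
  generalize P * P = d at *
  omega

/-- Every model given by data is a model. -/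
theorem sat_er_of_data {φ : Form 𝔅} (hφ : NoAt φ) {D : Dat} {l : List (ℕ × ℕ)} {v0 : ℕ}
    (hv0 : v0 < D.1) (h : cv (KD D) (CD D) φ (lk l D.1) v0 = true) : Satisfiable .er φ := by
  set C : Finset ℕ := Finset.range D.1 with hC
  have hCD : (↑C : Set ℕ) = CD D := by
    ext v
    simp [hC, CD]
  set K' : Model := ⟨ℕ, fun u v => (u ∈ C ∧ v ∈ C) ∨ u = v, (KD D).V, (KD D).nm⟩ with hK'
  have hClus : Clus K' (↑C : Set ℕ) := by
    intro u hu v
    constructor
    · rintro (⟨_, h⟩ | h)
      · exact h
      · rw [← h]; exact hu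
    · intro hv
      exact Or.inl ⟨hu, hv⟩
  refine ⟨K', lk l D.1, v0, ⟨fun u => Or.inr rfl, ?_, ?_⟩, ?_⟩
  · rintro u v (⟨h1, h2⟩ | rfl)
    · exact Or.inl ⟨h2, h1⟩
    · exact Or.inr rfl
  · rintro u v x (⟨h1, h2⟩ | rfl) h3
    · rcases h3 with ⟨_, h4⟩ | rfl
      · exact Or.inl ⟨h1, h4⟩
      · exact Or.inl ⟨h1, h2⟩
    · exact h3
  · have hv0' : v0 ∈ (↑C : Set ℕ) := by rw [hCD]; exact hv0
    refine (tv_eq_cv hClus φ hφ _ _ hv0').trans ((transport (A := nums φ) (K := K') (K2 := KD D)
      (C := (↑C : Set ℕ)) (C2 := CD D)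
      (fun v : ℕ => (v : ℕ)) (fun v hv => by rw [← hCD]; exact hv)
      (fun v _ u _ h => h) (fun v hv => ⟨v, by rw [hCD]; exact hv, rfl⟩)
      (fun i _ v _ => Iff.rfl) (fun i _ v _ => Iff.rfl) φ hφ (names_nums φ)
      (lk l D.1) (lk l D.1) (fun x _ v _ => Iff.rfl) v0 hv0').trans h)

/-- **Satisfiability in terms of concrete data.** -/
theorem sat_er_data (haff : ∀ b : 𝔅.B, Affine (𝔅.ev b)) {φ : Form 𝔅} (hφ : NoAt φ) :
    Satisfiable .er φ ↔ ∃ (D : Dat) (l : List (ℕ × ℕ)) (v0 : ℕ), v0 < D.1 ∧
      D.1 ≤ (2 * sz (pr φ) + 1) ^ 2 ∧ sz (D, l, v0) ≤ bnd (sz (pr φ)) ∧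
        cv (KD D) (CD D) φ (lk l D.1) v0 = true := by
  classical
  set n := sz (pr φ) with hn
  have hln : (pr φ).length ≤ n := (length_lt_sz _).le
  constructor
  · intro h
    rw [sat_er_iff haff hφ] at h
    obtain ⟨K, C, g, w, hw, hc, h⟩ := h
    set N := C.card with hN
    have hNn : N ≤ (2 * n + 1) ^ 2 := hc.trans (Nat.pow_le_pow_left (by omega) 2)
    set e : K.W → ℕ := fun v => if hv : v ∈ C then (C.equivFin ⟨v, hv⟩ : ℕ) else N with he
    have heC : ∀ v ∈ C, e v < N := by
      intro v hv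
      simp only [he, hv, dif_pos]
      exact (C.equivFin ⟨v, hv⟩).2
    have heN : ∀ v, v ∉ C → e v = N := by
      intro v hv
      simp only [he, hv, dif_neg, not_false_eq_true]
    have hle : ∀ v, e v ≤ N := by
      intro v
      by_cases hv : v ∈ C
      · exact (heC v hv).le
      · exact (heN v hv).le
    have hinj : Set.InjOn e (↑C : Set K.W) := by
      intro v hv u hu h1
      have hv' : v ∈ C := hv
      have hu' : u ∈ C := hu
      simp only [he, hv', hu', dif_pos] at h1
      have := C.equivFin.injective (Fin.ext h1)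
      exact congrArg Subtype.val this
    have hsurj : ∀ k < N, ∃ v ∈ C, e v = k := by
      intro k hk
      refine ⟨(C.equivFin.symm ⟨k, hk⟩ : K.W), (C.equivFin.symm ⟨k, hk⟩).2, ?_⟩
      simp only [he, Finset.coe_mem, dif_pos, Subtype.coe_eta, Equiv.apply_symm_apply]
    have heq : ∀ v ∈ C, ∀ u, v = u ↔ e v = e u := by
      intro v hv u
      constructor
      · rintro rfl; rfl
      · intro h1
        by_cases hu : u ∈ C
        · exact hinj hv hu h1
        · have := heC v hv
          rw [h1, heN u hu] at this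
          omega
    set A := (nums φ).toList with hA
    have hAmem : ∀ i, i ∈ A ↔ i ∈ nums φ := fun i => by rw [hA, Finset.mem_toList]
    have hAl : A.length ≤ n := by
      rw [hA, Finset.length_toList]
      exact (card_nums φ).trans hln
    have hAsz : ∀ i ∈ A, sz i ≤ n := fun i hi => sz_num_le ((hAmem i).1 hi)
    set props : List (ℕ × ℕ) := (A ×ˢ List.range N).filter
      (fun p => decide (∃ v ∈ C, e v = p.2 ∧ K.V p.1 v)) with hprops
    set noms : List (ℕ × ℕ) := A.map fun i => (i, e (K.nm i)) with hnoms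
    set l : List (ℕ × ℕ) := A.map fun i => (i, e (g i)) with hl
    refine ⟨(N, props, noms), l, e w, heC w hw, hNn, ?_, ?_⟩
    · have s1 : ∀ k ≤ N, sz k ≤ 4 * N + 1 := fun k hk => (sz_nat_le' k).trans (by omega)
      have s2 : sz props ≤ (n * N) * ((n + (4 * N + 1) + 1) + 1) + 1 := by
        refine (sz_le_length_mul props (n + (4 * N + 1) + 1) ?_).trans ?_
        · rintro ⟨i, k⟩ hp
          rw [hprops, List.mem_filter, List.mem_product, List.mem_range] at hp
          rw [sz_pair]
          have := hAsz i hp.1.1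
          have := s1 k hp.1.2.le
          omega
        · have : props.length ≤ n * N := by
            rw [hprops]
            refine (List.length_filter_le _ _).trans ?_
            rw [List.length_product, List.length_range]
            exact Nat.mul_le_mul_right _ hAl
          have := Nat.mul_le_mul_right ((n + (4 * N + 1) + 1) + 1) this
          omega
      have s3 : ∀ f : ℕ → K.W, sz (A.map fun i => (i, e (f i))) ≤
          n * ((n + (4 * N + 1) + 1) + 1) + 1 := by
        intro f
        refine (sz_le_length_mul _ (n + (4 * N + 1) + 1) ?_).trans ?_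
        · intro p hp
          rw [List.mem_map] at hp
          obtain ⟨i, hi, rfl⟩ := hp
          rw [sz_pair]
          have := hAsz i hi
          have := s1 _ (hle (f i))
          omega
        · rw [List.length_map]
          have := Nat.mul_le_mul_right ((n + (4 * N + 1) + 1) + 1) hAl
          omega
      have s4 := s3 K.nm
      have s5 := s3 g
      have s6 := s1 N le_rfl
      have s7 := s1 (e w) (hle w)
      simp only [sz_pair]
      have hNn' : N ≤ (2 * n + 1) ^ 2 := hNn
      refine le_trans ?_ (bnd_key n N hNn')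
      change sz props ≤ _ at s2
      change sz noms ≤ _ at s4
      change sz l ≤ _ at s5
      generalize n * N * (n + (4 * N + 1) + 1 + 1) = a1 at *
      generalize n * (n + (4 * N + 1) + 1 + 1) = a2 at *
      omega
    · refine (transport (A := nums φ) (K := K) (K2 := KD (N, props, noms)) (C := (↑C : Set K.W))
        (C2 := CD (N, props, noms)) e (fun v hv => heC v hv) hinj
        (fun k hk => by
          obtain ⟨v, hv, h1⟩ := hsurj k hk
          exact ⟨v, hv, h1⟩) ?_ ?_ φ hφ (names_nums φ) g (lk l N) ?_ w hw).symm.trans h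
      · intro i hi v hv
        show K.V i v ↔ (i, e v) ∈ props
        rw [hprops, List.mem_filter, List.mem_product, List.mem_range, decide_eq_true_iff]
        constructor
        · intro h1
          exact ⟨⟨(hAmem i).2 hi, heC v hv⟩, v, hv, rfl, h1⟩
        · rintro ⟨_, u, hu, h1, h2⟩
          rw [← hinj hu hv h1]
          exact h2
      · intro i hi v hv
        show v = K.nm i ↔ e v = lk noms N i
        rw [hnoms, lk_map (fun i => e (K.nm i)) N ((hAmem i).2 hi)]
        exact heq v hv _
      · intro x hx v hv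
        show v = g x ↔ e v = lk l N x
        rw [hl, lk_map (fun i => e (g i)) N ((hAmem x).2 hx)]
        exact heq v hv _
  · rintro ⟨D, l, v0, hv0, _, _, h⟩
    exact sat_er_of_data hφ hv0 h

end Pool.Agent.H75C.HY
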