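import Mathlib

/-!
# Hybrid logic with a set of Boolean functions as connectives
-/

set_option autoImplicit false

namespace Pool.Agent.H75C.HY

/-- A finite set of Boolean functions: finitely many symbols, which are numbered, with their arities
and the functions they denote. -/
structure Base where
  B : Type
  fin : Finite B
  idx : B → ℕ
  inj : Function.Injective idx
  ar : B → ℕ
  ev : (b : B) → (Fin (ar b) → Bool) → Bool

/-- The formulas with connectives from `𝔅` and the operators `◇`, `□`, `↓`, `@`. The atoms are atomic
propositions, nominals and state variables. -/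
inductive Form (𝔅 : Base) : Type
  | prop (i : ℕ) : Form 𝔅
  | nom (i : ℕ) : Form 𝔅
  | var (x : ℕ) : Form 𝔅
  | app (b : 𝔅.B) (φ : Fin (𝔅.ar b) → Form 𝔅) : Form 𝔅
  | dia (φ : Form 𝔅) : Form 𝔅
  | box (φ : Form 𝔅) : Form 𝔅
  | bind (x : ℕ) (φ : Form 𝔅) : Form 𝔅
  | atNom (i : ℕ) (φ : Form 𝔅) : Form 𝔅
  | atVar (x : ℕ) (φ : Form 𝔅) : Form 𝔅

/-- A model: a set of states (nonempty, since nominals have values), a relation, the sets of states
where the atomic propositions are true, the states named by the nominals. -/
structure Model where
  W : Type
  R : W → W → Prop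
  V : ℕ → W → Prop
  nm : ℕ → W

open Classical in
/-- The truth value of a formula in the model `K` for the assignment `g` at the state `w`. -/
noncomputable def tv {𝔅 : Base} (K : Model) : Form 𝔅 → (ℕ → K.W) → K.W → Bool
  | .prop i, _, w => decide (K.V i w)
  | .nom i, _, w => decide (w = K.nm i)
  | .var x, g, w => decide (w = g x)
  | .app b φ, g, w => 𝔅.ev b (fun i => tv K (φ i) g w)
  | .dia φ, g, w => decide (∃ v, K.R w v ∧ tv K φ g v = true)
  | .box φ, g, w => decide (∀ v, K.R w v → tv K φ g v = true)
  | .bind x φ, g, w => tv K φ (Function.update g x w) w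
  | .atNom i φ, g, _ => tv K φ g (K.nm i)
  | .atVar x φ, g, _ => tv K φ g (g x)

/-- The four frame classes: all frames, transitive relations, total relations (every state has a
successor), equivalence relations. -/
inductive FrameClass
  | all
  | trans
  | total
  | er

/-- The relation belongs to the frame class. -/
def FrameClass.Mem {W : Type} : FrameClass → (W → W → Prop) → Prop
  | .all, _ => True
  | .trans, R => ∀ u v w, R u v → R v w → R u w
  | .total, R => ∀ w, ∃ v, R w v
  | .er, R => Equivalence R

/-- The formula is true at some state of some model over a frame of the class `𝔉`. -/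
def Satisfiable {𝔅 : Base} (𝔉 : FrameClass) (φ : Form 𝔅) : Prop :=
  ∃ (K : Model) (g : ℕ → K.W) (w : K.W), 𝔉.Mem K.R ∧ tv K φ g w = true

/-- The functions of `n` variables in the clone generated by `𝔅`. -/
inductive Gen (𝔅 : Base) (n : ℕ) : ((Fin n → Bool) → Bool) → Prop
  | proj (i : Fin n) : Gen 𝔅 n (fun x => x i)
  | comp (b : 𝔅.B) (f : Fin (𝔅.ar b) → (Fin n → Bool) → Bool) (hf : ∀ i, Gen 𝔅 n (f i)) :
      Gen 𝔅 n (fun x => 𝔅.ev b (fun i => f i x))

/-- `f` is affine: it is the sum modulo `2` of a constant and of some of its variables. -/
def Affine {n : ℕ} (f : (Fin n → Bool) → Bool) : Prop :=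
  ∃ (c : Bool) (s : Finset (Fin n)), ∀ x,
    f x = xor c (decide (Odd (s.filter (fun i => x i = true)).card))

/-- The clone generated by `𝔅` is the clone `L` of all affine functions. -/
def Base.IsL (𝔅 : Base) : Prop :=
  ∀ (n : ℕ) (f : (Fin (n + 1) → Bool) → Bool), Gen 𝔅 (n + 1) f ↔ Affine f

/-- The symbols of the base consisting of implication and falsity. -/
inductive IB
  | imp
  | bot

/-- The base consisting of implication and falsity; it generates all Boolean functions. -/
def impBot : Base where
  B := IB
  fin := by
    refine Finite.of_injective (fun b : IB => match b with | .imp => true | .bot => false) ?_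
    intro a b h
    cases a <;> cases b <;> simp_all
  idx := fun b => match b with
    | .imp => 0
    | .bot => 1
  inj := by
    intro a b h
    cases a <;> cases b <;> simp_all
  ar := fun b => match b with
    | .imp => 2
    | .bot => 0
  ev := fun b => match b with
    | .imp => fun x => !(x 0) || x 1
    | .bot => fun _ => false

/-! ### Formulas as strings -/

/-- The symbols of formulas written as words: pairs of a kind and a number. -/
abbrev Tok : Type := ℕ × ℕ

/-- The formula as a word: an atom is one symbol, the operators are written in front (the argument of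
`◇` and of `□` is followed by the bracket `(5, 1)`), and `b (φ_0, …, φ_(k - 1))` is written as: opening
bracket with the number of `b`, then `φ_0` followed by the mark `0`, `φ_1` followed by the mark `1`,
and so on, then the closing bracket `(5, 0)`. -/
def pr {𝔅 : Base} : Form 𝔅 → List Tok
  | .prop i => [(0, i)]
  | .nom i => [(1, i)]
  | .var x => [(2, x)]
  | .app b φ => (3, 𝔅.idx b) :: ((List.ofFn (fun i => pr (φ i) ++ [((4, (i : ℕ)) : Tok)])).flatten ++
      [(5, 0)])
  | .dia φ => (6, 0) :: (pr φ ++ [(5, 1)])
  | .box φ => (7, 0) :: (pr φ ++ [(5, 1)])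
  | .bind x φ => (8, x) :: pr φ
  | .atNom i φ => (9, i) :: pr φ
  | .atVar x φ => (10, x) :: pr φ

end Pool.Agent.H75C.HY
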