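import Pool.Agent.H75C.HY.GameDef

/-!
# Correctness of the game
-/

set_option autoImplicit false

namespace Pool.Agent.H75C.HY

open Pool.Agent.NPC

variable {𝔅 : Base}

theorem valB_replicate (n : ℕ) : valB (List.replicate n false) = 0 := by
  induction n with
  | zero => rfl
  | succ n ih =>
    rw [List.replicate_succ, valB, ih]
    rfl

/-- Small numbers are values of lists of length `w`. -/
theorem exists_valB {i w : ℕ} (h : i < w) : ∃ M : List Bool, M.length = w ∧ valB M = i := by
  have h1 : i.bits.length ≤ w := by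
    rw [Nat.size_eq_bits_len]
    exact (Nat.size_le.2 Nat.lt_two_pow_self).trans h.le
  refine ⟨i.bits ++ List.replicate (w - i.bits.length) false, ?_, ?_⟩
  · rw [List.length_append, List.length_replicate]
    omega
  · rw [valB_append, valB_replicate, valB_bits]
    simp

section

variable {E : ℕ → List Bool → Bool} {K : ℕ → ℕ} {argAt : List Tok → ℕ → List Tok}

theorem gstep_fin (s : Sta) (r : Bool) (h : s.1.1 = some r) (M M' : List Bool) :
    gstep E K argAt s M M' = s := by
  unfold gstep
  rw [if_pos (by rw [h]; rfl)]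

/-- The value of a game that is over. -/
theorem gv_fin {w : ℕ} (r : Bool) : ∀ (n : ℕ) (s : Sta), s.1.1 = some r →
    (GV (gstep E K argAt) gout w n s ↔ r = true) := by
  intro n
  induction n with
  | zero =>
    intro s h
    rw [GV, gout, h]
    simp
  | succ n ih =>
    intro s h
    rw [GV]
    constructor
    · rintro ⟨M, hM, h1⟩
      have h2 := h1 (List.replicate w false) (by simp)
      rw [gstep_fin s r h] at h2
      exact (ih s h).1 h2
    · intro h1
      refine ⟨List.replicate w false, by simp, fun M' _ => ?_⟩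
      rw [gstep_fin s r h]
      exact (ih s h).2 h1

theorem gv_sF {w n : ℕ} (D : Dat) (tl : List Tok) (e : List (ℕ × ℕ)) (v : ℕ) (b r : Bool) :
    GV (gstep E K argAt) gout w n (sF D tl e v b r) ↔ r = true :=
  gv_fin r n _ rfl

theorem gstep_sN (D : Dat) (t : Tok) (tl : List Tok) (e : List (ℕ × ℕ)) (v : ℕ) (b : Bool)
    (M M' : List Bool) :
    gstep E K argAt (sN D (t :: tl) e v b) M M' = rstep E K argAt D t tl e v b M M' := rfl

theorem gv_succ {w n : ℕ} (D : Dat) (t : Tok) (tl : List Tok) (e : List (ℕ × ℕ)) (v : ℕ)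
    (b : Bool) : GV (gstep E K argAt) gout w (n + 1) (sN D (t :: tl) e v b) ↔
      ∃ M : List Bool, M.length = w ∧ ∀ M' : List Bool, M'.length = w →
        GV (gstep E K argAt) gout w n (rstep E K argAt D t tl e v b M M') := Iff.rfl

/-- If the moves do not matter. -/
theorem gv_const {w n : ℕ} {s s' : Sta}
    (h : ∀ M M' : List Bool, M.length = w → gstep E K argAt s M M' = s') :
    GV (gstep E K argAt) gout w (n + 1) s ↔ GV (gstep E K argAt) gout w n s' := by
  rw [GV]
  constructor
  · rintro ⟨M, hM, h1⟩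
    have h2 := h1 (List.replicate w false) (by simp)
    rwa [h M _ hM] at h2
  · intro h1
    refine ⟨List.replicate w false, by simp, fun M' _ => ?_⟩
    rw [h _ _ (by simp)]
    exact h1

/-- A move of the first player that names a state. -/
theorem gv_ex {w n : ℕ} {s : Sta} {P : ℕ → Prop} {N : ℕ} (hN : N ≤ w) {f : ℕ → Sta} {g : Sta}
    (hg : g.1.1 = some false) (hf : ∀ u < N, (GV (gstep E K argAt) gout w n (f u) ↔ P u))
    (h : ∀ M M' : List Bool, gstep E K argAt s M M' = if valB M < N then f (valB M) else g) :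
    GV (gstep E K argAt) gout w (n + 1) s ↔ ∃ u < N, P u := by
  rw [GV]
  constructor
  · rintro ⟨M, hM, h1⟩
    have h2 := h1 (List.replicate w false) (by simp)
    rw [h] at h2
    by_cases h3 : valB M < N
    · rw [if_pos h3] at h2
      exact ⟨_, h3, (hf _ h3).1 h2⟩
    · rw [if_neg h3, gv_fin false n g hg] at h2
      cases h2
  · rintro ⟨u, hu, h1⟩
    obtain ⟨M, hM, hM'⟩ := exists_valB (hu.trans_le hN)
    refine ⟨M, hM, fun M' _ => ?_⟩
    rw [h, hM', if_pos hu]
    exact (hf u hu).2 h1

/-- A move of the second player that names a state. -/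
theorem gv_all {w n : ℕ} {s : Sta} {P : ℕ → Prop} {N : ℕ} (hN : N ≤ w) {f : ℕ → Sta} {g : Sta}
    (hg : g.1.1 = some true) (hf : ∀ u < N, (GV (gstep E K argAt) gout w n (f u) ↔ P u))
    (h : ∀ M M' : List Bool, gstep E K argAt s M M' = if valB M' < N then f (valB M') else g) :
    GV (gstep E K argAt) gout w (n + 1) s ↔ ∀ u < N, P u := by
  rw [GV]
  constructor
  · rintro ⟨M, hM, h1⟩ u hu
    obtain ⟨M', hM', hM''⟩ := exists_valB (hu.trans_le hN)
    have h2 := h1 M' hM'
    rw [h, hM'', if_pos hu] at h2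
    exact (hf u hu).1 h2
  · intro h1
    refine ⟨List.replicate w false, by simp, fun M' _ => ?_⟩
    rw [h]
    by_cases h3 : valB M' < N
    · rw [if_pos h3]
      exact (hf _ h3).2 (h1 _ h3)
    · rw [if_neg h3]
      exact (gv_fin true n g hg).2 rfl

/-- Truth in the model given by data. -/
noncomputable def cD (D : Dat) (φ : Form 𝔅) (g : ℕ → ℕ) (v : ℕ) : Bool := cv (KD D) (CD D) φ g v

theorem cD_prop (D : Dat) (i : ℕ) (g : ℕ → ℕ) (v : ℕ) :
    cD (𝔅 := 𝔅) D (.prop i) g v = decide ((i, v) ∈ D.2.1) := by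
  rw [Bool.eq_iff_iff, decide_eq_true_eq]
  exact @decide_eq_true_iff _ (Classical.propDecidable _)

theorem cD_nom (D : Dat) (i : ℕ) (g : ℕ → ℕ) (v : ℕ) :
    cD (𝔅 := 𝔅) D (.nom i) g v = decide (v = lk D.2.2 D.1 i) := by
  rw [Bool.eq_iff_iff, decide_eq_true_eq]
  exact @decide_eq_true_iff _ (Classical.propDecidable _)

theorem cD_var (D : Dat) (i : ℕ) (g : ℕ → ℕ) (v : ℕ) :
    cD (𝔅 := 𝔅) D (.var i) g v = decide (v = g i) := by
  rw [Bool.eq_iff_iff, decide_eq_true_eq]
  exact @decide_eq_true_iff _ (Classical.propDecidable _)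

theorem cD_app (D : Dat) (b : 𝔅.B) (φ : Fin (𝔅.ar b) → Form 𝔅) (g : ℕ → ℕ) (v : ℕ) :
    cD D (.app b φ) g v = 𝔅.ev b fun i => cD D (φ i) g v := rfl

theorem cD_dia (D : Dat) (φ : Form 𝔅) (g : ℕ → ℕ) (v : ℕ) :
    cD D (.dia φ) g v = true ↔ ∃ u < D.1, cD D φ g u = true :=
  cv_dia (K := KD D) (C := CD D) (φ := φ) (g := g) (w := v)

theorem cD_box (D : Dat) (φ : Form 𝔅) (g : ℕ → ℕ) (v : ℕ) :
    cD D (.box φ) g v = true ↔ ∀ u < D.1, cD D φ g u = true :=
  cv_box (K := KD D) (C := CD D) (φ := φ) (g := g) (w := v)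

theorem cD_bind (D : Dat) (x : ℕ) (φ : Form 𝔅) (g : ℕ → ℕ) (v : ℕ) :
    cD D (.bind x φ) g v = cD D φ (Function.update g x v) v := rfl

theorem lk_cons (x v : ℕ) (e : List (ℕ × ℕ)) (d : ℕ) :
    lk ((x, v) :: e) d = Function.update (lk e d) x v := by
  funext y
  rw [lk]
  by_cases h : y = x
  · rw [if_pos h, h, Function.update_self]
  · rw [if_neg h, Function.update_of_ne h]

/-- **The value of the game is the truth value of the formula.** -/
theorem gv_iff {w : ℕ} (hE : ∀ (b : 𝔅.B), K (𝔅.idx b) = 𝔅.ar b ∧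
      ∀ z : List Bool, E (𝔅.idx b) z = 𝔅.ev b (fun i => z.getD (i : ℕ) false))
    (hA : ∀ (b : 𝔅.B) (φ : Fin (𝔅.ar b) → Form 𝔅) (rest : List Tok) (i : Fin (𝔅.ar b)),
      ∃ rest' : List Tok, argAt (pr (.app b φ) ++ rest) (i : ℕ) = pr (φ i) ++ rest')
    (har : ∀ b : 𝔅.B, 𝔅.ar b < w) (D : Dat) (hD : D.1 ≤ w) :
    ∀ (φ : Form 𝔅), NoAt φ → ∀ (rest : List Tok) (e : List (ℕ × ℕ)) (v : ℕ) (b : Bool) (n : ℕ),
      v < D.1 → (pr φ).length ≤ n →
        (GV (gstep E K argAt) gout w n (sN D (pr φ ++ rest) e v b) ↔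
          cD D φ (lk e D.1) v = b) := by
  intro φ
  induction φ with
  | prop i =>
    intro _ rest e v b n hv hn
    obtain ⟨n, rfl⟩ : ∃ m, n = m + 1 := ⟨n - 1, by simp [pr] at hn; omega⟩
    rw [gv_const (s' := sF D rest e v b (decide (decide ((i, v) ∈ D.2.1) = b)))
      (fun M M' _ => by simp [pr, gstep_sN, rstep]), gv_sF, decide_eq_true_eq, cD_prop]
  | nom i =>
    intro _ rest e v b n hv hn
    obtain ⟨n, rfl⟩ : ∃ m, n = m + 1 := ⟨n - 1, by simp [pr] at hn; omega⟩
    rw [gv_const (s' := sF D rest e v b (decide (decide (v = lk D.2.2 D.1 i) = b)))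
      (fun M M' _ => by simp [pr, gstep_sN, rstep]), gv_sF, decide_eq_true_eq, cD_nom]
  | var x =>
    intro _ rest e v b n hv hn
    obtain ⟨n, rfl⟩ : ∃ m, n = m + 1 := ⟨n - 1, by simp [pr] at hn; omega⟩
    rw [gv_const (s' := sF D rest e v b (decide (decide (v = lk e D.1 x) = b)))
      (fun M M' _ => by simp [pr, gstep_sN, rstep]), gv_sF, decide_eq_true_eq, cD_var]
  | app c φ ih =>
    intro hφ rest e v b n hv hn
    have hlen : ∀ i, (pr (φ i)).length < (pr (.app c φ)).length := by
      intro i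
      rw [pr_app, List.length_cons, List.length_append, List.length_flatten, List.map_ofFn]
      have h1 : (pr (φ i)).length ≤ (List.ofFn (List.length ∘ fun i => pr (φ i) ++
          [((4, (i : ℕ)) : Tok)])).sum := by
        rw [List.sum_ofFn]
        refine le_trans ?_ (Finset.single_le_sum (f := fun i => (List.length ∘ fun i => pr (φ i) ++
          [((4, (i : ℕ)) : Tok)]) i) (fun _ _ => Nat.zero_le _) (Finset.mem_univ i))
        simp
      omega
    obtain ⟨n, rfl⟩ : ∃ m, n = m + 1 := ⟨n - 1, by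
      have : 0 < (pr (.app c φ)).length := by rw [pr_app]; simp
      omega⟩
    set tl := (List.ofFn (fun i => pr (φ i) ++ [((4, (i : ℕ)) : Tok)])).flatten ++ [(5, 0)] with htl
    have hpr : pr (.app c φ) ++ rest = (3, 𝔅.idx c) :: (tl ++ rest) := by
      rw [pr_app, List.cons_append]
    have hstep : ∀ M M', rstep E K argAt D (3, 𝔅.idx c) (tl ++ rest) e v b M M' =
        if E (𝔅.idx c) M = b then
          if valB M' < K (𝔅.idx c) then
            sN D (argAt (pr (.app c φ) ++ rest) (valB M')) e v (M.getD (valB M') false)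
          else sF D (tl ++ rest) e v b true
        else sF D (tl ++ rest) e v b false := by
      intro M M'
      rw [hpr]
      simp [rstep]
    rw [hpr, gv_succ, cD_app]
    constructor
    · rintro ⟨M, hM, h1⟩
      have hEM : E (𝔅.idx c) M = b := by
        by_contra h2
        have h3 := h1 (List.replicate w false) (by simp)
        rw [hstep, if_neg h2, gv_sF] at h3
        cases h3
      rw [← hEM, (hE c).2 M]
      congr 1
      funext i
      obtain ⟨M', hM', hi⟩ := exists_valB (i.2.trans (har c))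
      have h3 := h1 M' hM'
      rw [hstep, if_pos hEM, if_pos (by rw [hi, (hE c).1]; exact i.2), hi] at h3
      obtain ⟨rest', h4⟩ := hA c φ rest i
      rw [h4, ih i (hφ i) rest' e v _ n hv (by have := hlen i; omega)] at h3
      exact h3
    · intro h1
      refine ⟨List.ofFn (fun i : Fin w => if h : (i : ℕ) < 𝔅.ar c then
        cD D (φ ⟨i, h⟩) (lk e D.1) v else false), by simp, fun M' hM' => ?_⟩
      set M := List.ofFn (fun i : Fin w => if h : (i : ℕ) < 𝔅.ar c then
        cD D (φ ⟨i, h⟩) (lk e D.1) v else false) with hM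
      have hget : ∀ i : Fin (𝔅.ar c), M.getD (i : ℕ) false =
          cD D (φ i) (lk e D.1) v := by
        intro i
        have hi := i.2.trans (har c)
        rw [hM, List.getD_eq_getElem?_getD, List.getElem?_ofFn]
        simp [hi]
      have hEM : E (𝔅.idx c) M = b := by
        rw [(hE c).2 M, ← h1]
        congr 1
        funext i
        exact hget i
      rw [hstep, if_pos hEM]
      by_cases h3 : valB M' < K (𝔅.idx c)
      · rw [if_pos h3]
        have h4 : valB M' < 𝔅.ar c := by rw [← (hE c).1]; exact h3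
        obtain ⟨rest', h5⟩ := hA c φ rest ⟨valB M', h4⟩
        have h5' : argAt (pr (.app c φ) ++ rest) (valB M') = pr (φ ⟨valB M', h4⟩) ++ rest' := h5
        rw [h5', ih ⟨valB M', h4⟩ (hφ _) rest' e v _ n hv
          (by have := hlen ⟨valB M', h4⟩; omega)]
        exact (hget ⟨valB M', h4⟩).symm
      · rw [if_neg h3, gv_sF]
  | dia φ ih =>
    intro hφ rest e v b n hv hn
    obtain ⟨n, rfl⟩ : ∃ m, n = m + 1 := ⟨n - 1, by simp [pr] at hn; omega⟩
    have hn' : (pr φ).length ≤ n := by simp [pr] at hn; omega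
    have hpr : pr (.dia φ) ++ rest = (6, 0) :: (pr φ ++ ((5, 1) :: rest)) := by simp [pr]
    rw [hpr]
    cases b with
    | true =>
      rw [gv_ex (P := fun u => cD D φ (lk e D.1) u = true) hD
        (f := fun u => sN D (pr φ ++ ((5, 1) :: rest)) e u true)
        (g := sF D (pr φ ++ ((5, 1) :: rest)) e v true false) rfl
        (fun u hu => ih hφ _ e u true n hu hn') (fun M M' => by simp [gstep_sN, rstep]), cD_dia]
    | false =>
      rw [gv_all (P := fun u => cD D φ (lk e D.1) u = false) hD
        (f := fun u => sN D (pr φ ++ ((5, 1) :: rest)) e u false)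
        (g := sF D (pr φ ++ ((5, 1) :: rest)) e v false true) rfl
        (fun u hu => ih hφ _ e u false n hu hn') (fun M M' => by simp [gstep_sN, rstep]),
        ← Bool.not_eq_true, cD_dia]
      constructor
      · rintro h ⟨u, hu, h1⟩
        rw [h u hu] at h1
        cases h1
      · intro h u hu
        rw [← Bool.not_eq_true]
        exact fun h1 => h ⟨u, hu, h1⟩
  | box φ ih =>
    intro hφ rest e v b n hv hn
    obtain ⟨n, rfl⟩ : ∃ m, n = m + 1 := ⟨n - 1, by simp [pr] at hn; omega⟩
    have hn' : (pr φ).length ≤ n := by simp [pr] at hn; omega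
    have hpr : pr (.box φ) ++ rest = (7, 0) :: (pr φ ++ ((5, 1) :: rest)) := by simp [pr]
    rw [hpr]
    cases b with
    | true =>
      rw [gv_all (P := fun u => cD D φ (lk e D.1) u = true) hD
        (f := fun u => sN D (pr φ ++ ((5, 1) :: rest)) e u true)
        (g := sF D (pr φ ++ ((5, 1) :: rest)) e v true true) rfl
        (fun u hu => ih hφ _ e u true n hu hn') (fun M M' => by simp [gstep_sN, rstep]), cD_box]
    | false =>
      rw [gv_ex (P := fun u => cD D φ (lk e D.1) u = false) hD
        (f := fun u => sN D (pr φ ++ ((5, 1) :: rest)) e u false)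
        (g := sF D (pr φ ++ ((5, 1) :: rest)) e v false false) rfl
        (fun u hu => ih hφ _ e u false n hu hn') (fun M M' => by simp [gstep_sN, rstep]),
        ← Bool.not_eq_true, cD_box]
      constructor
      · rintro ⟨u, hu, h1⟩ h
        rw [h u hu] at h1
        cases h1
      · intro h
        by_contra h1
        refine h (fun u hu => ?_)
        rw [← Bool.not_eq_false]
        exact fun h2 => h1 ⟨u, hu, h2⟩
  | bind x φ ih =>
    intro hφ rest e v b n hv hn
    obtain ⟨n, rfl⟩ : ∃ m, n = m + 1 := ⟨n - 1, by simp [pr] at hn; omega⟩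
    have hn' : (pr φ).length ≤ n := by simp [pr] at hn; omega
    have hpr : pr (.bind x φ) ++ rest = (8, x) :: (pr φ ++ rest) := by simp [pr]
    rw [hpr, gv_const (s' := sN D (pr φ ++ rest) ((x, v) :: e) v b)
      (fun M M' hM => by
        have h1 : min v M.length = v := by rw [hM]; exact min_eq_left (hv.le.trans hD)
        simp [gstep_sN, rstep, h1]),
      ih hφ rest _ v b n hv hn', lk_cons, cD_bind]
  | atNom i φ ih => intro h; exact h.elim
  | atVar i φ ih => intro h; exact h.elim

end

end Pool.Agent.H75C.HY
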