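import Pool.Agent.H75C.HY.OneCode

/-!
# Statements of independent parts (membership in PSPACE of the satisfiability problem without `@`)

Nothing is proved here. `Poly` is `Pool.Agent.NPC.Poly`, `InPSPACE` is that of
`Pool.Agent.H623R2.PS`.
-/

set_option autoImplicit false

namespace Pool.Agent.H75C.HY

open Pool.Agent.NPC Pool.Agent.H623R2.PS

/-- PART A (syntax check). For every base there is a polynomial-time test whether a list of tokens is
the word of a formula without `@`. -/
def PartA : Prop :=
  ∀ 𝔅 : Base, ∃ wf : List Tok → Bool, NPC.Poly wf ∧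
    ∀ w : List Tok, wf w = true ↔ ∃ φ : Form 𝔅, NoAt φ ∧ pr φ = w

/-- PART B (finding the arguments). There is a polynomial-time function that finds the argument
number `i` in the word of `b (φ_0, ..., φ_(k-1))` (the result begins with its word), and a
polynomial-time function that evaluates `b`. -/
def PartB : Prop :=
  (∃ argAt : List Tok → ℕ → List Tok, NPC.Poly (fun p : List Tok × ℕ => argAt p.1 p.2) ∧
    (∀ w i, sz (argAt w i) ≤ sz w) ∧
    ∀ (𝔅 : Base) (b : 𝔅.B) (φ : Fin (𝔅.ar b) → Form 𝔅) (rest : List Tok) (i : Fin (𝔅.ar b)),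
      ∃ rest' : List Tok, argAt (pr (.app b φ) ++ rest) (i : ℕ) = pr (φ i) ++ rest') ∧
  ∀ 𝔅 : Base, ∃ (E : ℕ → List Bool → Bool) (K : ℕ → ℕ),
    NPC.Poly (fun p : ℕ × List Bool => E p.1 p.2) ∧ NPC.Poly K ∧
    ∀ (b : 𝔅.B), K (𝔅.idx b) = 𝔅.ar b ∧
      ∀ z : List Bool, E (𝔅.idx b) z = 𝔅.ev b (fun i => z.getD (i : ℕ) false)

/-- The value of a game with `r` rounds: in each round the first player chooses a bit string of length
`w`, then the second player does. -/
def GV {σ : Type} (step : σ → List Bool → List Bool → σ) (out : σ → Bool) (w : ℕ) : ℕ → σ → Prop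
  | 0, s => out s = true
  | r + 1, s => ∃ M : List Bool, M.length = w ∧ ∀ M' : List Bool, M'.length = w →
      GV step out w r (step s M M')

/-- PART C (games with polynomially many rounds are in PSPACE). Use `inPSPACE_of_evq` (Quant.lean),
`evq_exists` (Savitch.lean), `evq_forall` (H656R2/AK/GameIn.lean). -/
def PartC : Prop :=
  ∀ (α σ : Type) [TEnc α] [TEnc σ] (a : List Bool → α) (s0 : List Bool → σ) (w r : List Bool → ℕ)
    (step : α → σ → List Bool → List Bool → σ) (out : σ → Bool) (q : Polynomial ℕ)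
    (L : Set (List Bool)),
    NPC.Poly a → NPC.Poly s0 → UPoly w → UPoly r →
    NPC.Poly (fun p : α × σ × List Bool × List Bool => step p.1 p.2.1 p.2.2.1 p.2.2.2) →
    NPC.Poly out →
    (∀ a s M M', sz (step a s M M') ≤ sz s + q.eval (sz a + sz M + sz M')) →
    (∀ x, x ∈ L ↔ GV (step (a x)) out (w x) (r x) (s0 x)) → InPSPACE L

end Pool.Agent.H75C.HY
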