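import Pool.Agent.H75C.HY.Conc
import Pool.Agent.H75C.HY.Stm

/-!
# The game that evaluates a formula in a small model

In the first round the first player names a model, a state and an assignment. Afterwards the state of
the game holds a suffix of the word of the formula that begins with the current subformula, the
current assignment, the current state and a claimed truth value.
-/

set_option autoImplicit false

namespace Pool.Agent.H75C.HY

open Pool.Agent.NPC

/-- The state of the game: the result (if the game is over) and whether the first round was played;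
the model; the suffix of the word; the assignment; the current state; the claimed value. -/
abbrev Sta := (Option Bool × Bool) × Dat × List Tok × List (ℕ × ℕ) × ℕ × Bool

/-- The game is over, with the result `r`. -/
def sF (D : Dat) (tl : List Tok) (e : List (ℕ × ℕ)) (v : ℕ) (b r : Bool) : Sta :=
  ((some r, true), D, tl, e, v, b)

/-- The game goes on. -/
def sN (D : Dat) (tl : List Tok) (e : List (ℕ × ℕ)) (v : ℕ) (b : Bool) : Sta :=
  ((none, true), D, tl, e, v, b)

/-- The first player lost in the first round. -/
def sL : Sta := sF (0, [], []) [] [] 0 false false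

/-- A later round, at a nonempty suffix `t :: tl`. -/
def rstep (E : ℕ → List Bool → Bool) (K : ℕ → ℕ) (argAt : List Tok → ℕ → List Tok)
    (D : Dat) (t : Tok) (tl : List Tok) (e : List (ℕ × ℕ)) (v : ℕ) (b : Bool)
    (M M' : List Bool) : Sta :=
  if t.1 = 0 then sF D tl e v b (decide (decide ((t.2, v) ∈ D.2.1) = b))
  else if t.1 = 1 then sF D tl e v b (decide (decide (v = lk D.2.2 D.1 t.2) = b))
  else if t.1 = 2 then sF D tl e v b (decide (decide (v = lk e D.1 t.2) = b))
  else if t.1 = 3 then
    if E t.2 M = b then
      if valB M' < K t.2 then sN D (argAt (t :: tl) (valB M')) e v (M.getD (valB M') false)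
      else sF D tl e v b true
    else sF D tl e v b false
  else if t.1 = 6 ∨ t.1 = 7 then
    if decide (t.1 = 6) = b then
      if valB M < D.1 then sN D tl e (valB M) b else sF D tl e v b false
    else
      if valB M' < D.1 then sN D tl e (valB M') b else sF D tl e v b true
  else if t.1 = 8 then sN D tl ((t.2, min v M.length) :: e) v b
  else sF D tl e v b false

/-- The first round. -/
def first (tl : List Tok) (M : List Bool) : Sta :=
  match unbits (Dat × List (ℕ × ℕ) × ℕ) (unpair M).1 with
  | none => sL
  | some d => if d.2.2 < d.1.1 ∧ d.1.1 ≤ M.length then sN d.1 tl d.2.1 d.2.2 true else sL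

/-- A round. -/
def gstep (E : ℕ → List Bool → Bool) (K : ℕ → ℕ) (argAt : List Tok → ℕ → List Tok)
    (s : Sta) (M M' : List Bool) : Sta :=
  if s.1.1.isSome = true then s
  else if s.1.2 = false then first s.2.2.1 M
  else match s.2.2.1 with
    | [] => sL
    | t :: tl => rstep E K argAt s.2.1 t tl s.2.2.2.1 s.2.2.2.2.1 s.2.2.2.2.2 M M'

/-- The result. -/
def gout (s : Sta) : Bool := decide (s.1.1 = some true)

/-- Where the game starts, on the input `x`. -/
def gini (wf : List Tok → Bool) (x : List Bool) : Sta :=
  match unbits (List Tok) x with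
  | none => sL
  | some w => if wf w = true then ((none, false), (0, [], []), w, [], 0, false) else sL

/-- PART D (polynomial time). -/
def PartD : Prop :=
  ∀ (E : ℕ → List Bool → Bool) (K : ℕ → ℕ) (argAt : List Tok → ℕ → List Tok) (wf : List Tok → Bool),
    NPC.Poly (fun p : ℕ × List Bool => E p.1 p.2) → NPC.Poly K →
    NPC.Poly (fun p : List Tok × ℕ => argAt p.1 p.2) → NPC.Poly wf →
    NPC.Poly (fun p : Unit × Sta × List Bool × List Bool =>
      gstep E K argAt p.2.1 p.2.2.1 p.2.2.2) ∧ NPC.Poly gout ∧ NPC.Poly (gini wf)

/-- PART E (size). -/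
def PartE : Prop :=
  ∀ (E : ℕ → List Bool → Bool) (K : ℕ → ℕ) (argAt : List Tok → ℕ → List Tok),
    (∀ w i, sz (argAt w i) ≤ sz w) →
    ∃ q : Polynomial ℕ, ∀ (s : Sta) (M M' : List Bool),
      sz (gstep E K argAt s M M') ≤ sz s + q.eval (sz () + sz M + sz M')

end Pool.Agent.H75C.HY
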