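import Pool.Agent.H75C.HY.Game

/-!
# Membership in polynomial space
-/

set_option autoImplicit false

namespace Pool.Agent.H75C.HY

open Pool.Agent.NPC Pool.Agent.H623R2.PS

variable {𝔅 : Base}

section

variable {E : ℕ → List Bool → Bool} {K : ℕ → ℕ} {argAt : List Tok → ℕ → List Tok}

theorem first_some {tl : List Tok} {M : List Bool} {d : Dat × List (ℕ × ℕ) × ℕ}
    (h : unbits (Dat × List (ℕ × ℕ) × ℕ) (unpair M).1 = some d) :
    first tl M = if d.2.2 < d.1.1 ∧ d.1.1 ≤ M.length then sN d.1 tl d.2.1 d.2.2 true else sL := by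
  unfold first
  rw [h]

theorem first_none {tl : List Tok} {M : List Bool}
    (h : unbits (Dat × List (ℕ × ℕ) × ℕ) (unpair M).1 = none) : first tl M = sL := by
  unfold first
  rw [h]

/-- The value of the game at the start. -/
theorem gv_start {w : ℕ} (hE : ∀ (b : 𝔅.B), K (𝔅.idx b) = 𝔅.ar b ∧
      ∀ z : List Bool, E (𝔅.idx b) z = 𝔅.ev b (fun i => z.getD (i : ℕ) false))
    (hA : ∀ (b : 𝔅.B) (φ : Fin (𝔅.ar b) → Form 𝔅) (rest : List Tok) (i : Fin (𝔅.ar b)),
      ∃ rest' : List Tok, argAt (pr (.app b φ) ++ rest) (i : ℕ) = pr (φ i) ++ rest')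
    (har : ∀ b : 𝔅.B, 𝔅.ar b < w) (haff : ∀ b : 𝔅.B, Affine (𝔅.ev b)) {φ : Form 𝔅} (hφ : NoAt φ)
    {n : ℕ} (hn : (pr φ).length ≤ n) (hw1 : (2 * sz (pr φ) + 1) ^ 2 ≤ w)
    (hw2 : 2 * bnd (sz (pr φ)) + 1 ≤ w) :
    GV (gstep E K argAt) gout w (n + 1) ((none, false), (0, [], []), pr φ, [], 0, false) ↔
      Satisfiable .er φ := by
  have hst : ∀ M M', gstep E K argAt ((none, false), (0, [], []), pr φ, [], 0, false) M M' =
      first (pr φ) M := fun _ _ => rfl
  have hL : ¬ GV (gstep E K argAt) gout w n sL := by
    intro h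
    have := (gv_sF (E := E) (K := K) (argAt := argAt) (w := w) (n := n) (0, [], []) [] [] 0
      false false).1 h
    cases this
  rw [GV]
  constructor
  · rintro ⟨M, hM, h1⟩
    have h2 := h1 (List.replicate w false) (by simp)
    rw [hst] at h2
    cases h3 : unbits (Dat × List (ℕ × ℕ) × ℕ) (unpair M).1 with
    | none =>
      rw [first_none h3] at h2
      exact absurd h2 hL
    | some d =>
      rw [first_some h3] at h2
      by_cases h4 : d.2.2 < d.1.1 ∧ d.1.1 ≤ M.length
      · rw [if_pos h4] at h2
        have h5 := (gv_iff hE hA har d.1 (by rw [← hM]; exact h4.2) φ hφ [] d.2.1 d.2.2 true n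
          h4.1 hn).1 (by rw [List.append_nil]; exact h2)
        exact sat_er_of_data hφ h4.1 h5
      · rw [if_neg h4] at h2
        exact absurd h2 hL
  · intro h
    obtain ⟨D, l, v0, hv0, hD, hsz, h1⟩ := (sat_er_data haff hφ).1 h
    have hb : (bits (D, l, v0)).length ≤ bnd (sz (pr φ)) := by
      rw [bits_length]
      exact hsz
    have hpl : ∀ x y : List Bool, (pairBits x y).length = 2 * x.length + 1 + y.length := by
      intro x y
      unfold pairBits
      rw [List.length_append, List.length_cons, List.length_flatMap]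
      have : (List.map (fun b => ([true, b] : List Bool).length) x).sum = 2 * x.length := by
        induction x with
        | nil => rfl
        | cons a x ih =>
          rw [List.map_cons, List.sum_cons, ih]
          simp only [List.length_cons, List.length_nil]
          omega
      rw [this]
      omega
    set y := List.replicate (w - (2 * (bits (D, l, v0)).length + 1)) false with hy
    refine ⟨pairBits (bits (D, l, v0)) y, ?_, fun M' _ => ?_⟩
    · rw [hpl, hy, List.length_replicate]
      omega
    · have hlen : (pairBits (bits (D, l, v0)) y).length = w := by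
        rw [hpl, hy, List.length_replicate]
        omega
      have h3 : unbits (Dat × List (ℕ × ℕ) × ℕ) (unpair (pairBits (bits (D, l, v0)) y)).1 =
          some (D, l, v0) := by
        rw [unpair_pairBits]
        exact unbits_bits _
      rw [hst, first_some h3, if_pos ⟨hv0, by rw [hlen]; exact hD.trans hw1⟩]
      have h5 := (gv_iff hE hA har D (hD.trans hw1) φ hφ [] l v0 true n hv0 hn).2 h1
      rw [List.append_nil] at h5
      exact h5

end

theorem upoly_bnd : UPoly (fun x : List Bool => bnd x.length) := by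
  have h : UPoly (fun x : List Bool => x.length) := UPoly.length NPC.Poly.id
  have h2 : UPoly (fun x : List Bool => 2 * x.length + 2) :=
    UPoly.add (UPoly.mul (UPoly.const 2) h) (UPoly.const 2)
  have h3 : UPoly (fun x : List Bool => 20 * (x.length + 2) * ((2 * x.length + 2) *
      (2 * x.length + 2) * (2 * x.length + 2) * (2 * x.length + 2))) :=
    UPoly.mul (UPoly.mul (UPoly.const 20) (UPoly.add h (UPoly.const 2)))
      (UPoly.mul (UPoly.mul (UPoly.mul h2 h2) h2) h2)
  have e : (fun x : List Bool => bnd x.length) = (fun x : List Bool => 20 * (x.length + 2) *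
      ((2 * x.length + 2) * (2 * x.length + 2) * (2 * x.length + 2) * (2 * x.length + 2))) := by
    funext x
    unfold bnd
    ring
  rw [e]
  exact h3

/-- **Membership in polynomial space.** -/
theorem in_er_of (hA : PartA) (hB : PartB) (hC : PartC) (hD : PartD) (hE : PartE)
    (haff : ∀ b : 𝔅.B, Affine (𝔅.ev b)) : InPSPACE (SatO1 .er 𝔅) := by
  obtain ⟨wf, hwf, hwf'⟩ := hA 𝔅
  obtain ⟨⟨argAt, ha1, ha2, ha3⟩, hB2⟩ := hB
  obtain ⟨E, K, hE1, hK1, hEK⟩ := hB2 𝔅
  obtain ⟨hp1, hp2, hp3⟩ := hD E K argAt wf hE1 hK1 ha1 hwf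
  obtain ⟨q, hq⟩ := hE E K argAt ha2
  -- the arities are bounded
  obtain ⟨A, hA'⟩ : ∃ A : ℕ, ∀ b : 𝔅.B, 𝔅.ar b < A := by
    have := 𝔅.fin
    let _ : Fintype 𝔅.B := Fintype.ofFinite _
    refine ⟨Finset.univ.sup 𝔅.ar + 1, fun b => ?_⟩
    have := Finset.le_sup (f := 𝔅.ar) (Finset.mem_univ b)
    omega
  have hlen : UPoly (fun x : List Bool => x.length) := UPoly.length NPC.Poly.id
  set w : List Bool → ℕ := fun x => (2 * x.length + 1) * (2 * x.length + 1) +
    (2 * bnd x.length + 1) + A with hw
  have hwp : UPoly w := by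
    have h2 : UPoly (fun x : List Bool => 2 * x.length + 1) :=
      UPoly.add (UPoly.mul (UPoly.const 2) hlen) (UPoly.const 1)
    exact UPoly.add (UPoly.add (UPoly.mul h2 h2) (UPoly.add (UPoly.mul (UPoly.const 2) upoly_bnd)
      (UPoly.const 1))) (UPoly.const A)
  refine hC Unit Sta (fun _ => ()) (gini wf) w (fun x => x.length + 1)
    (fun _ => gstep E K argAt) gout q (SatO1 .er 𝔅) (NPC.Poly.const _) hp3 hwp
    (UPoly.add hlen (UPoly.const 1)) hp1 hp2 (fun _ => hq) (fun x => ?_)
  have hL : ¬ GV (gstep E K argAt) gout (w x) (x.length + 1) sL := by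
    intro h
    have := (gv_sF (E := E) (K := K) (argAt := argAt) (w := w x) (n := x.length + 1)
      (0, [], []) [] [] 0 false false).1 h
    cases this
  cases h : unbits (List Tok) x with
  | none =>
    have h1 : gini wf x = sL := by unfold gini; rw [h]
    rw [h1]
    constructor
    · rintro ⟨φ, _, h2, _⟩
      rw [← h2] at h
      have h3 : unbits (List Tok) (bits (pr φ)) = some (pr φ) := unbits_bits _
      exact absurd (h.symm.trans h3) (by simp)
    · exact fun h2 => absurd h2 hL
  | some u =>
    have hx : bits u = x := bits_of_unbits h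
    by_cases hu : wf u = true
    · have h1 : gini wf x = ((none, false), (0, [], []), u, [], 0, false) := by
        unfold gini
        rw [h]
        simp only [if_pos hu]
      obtain ⟨φ, hφ, rfl⟩ := (hwf' u).1 hu
      have hsz : x.length = sz (pr φ) := by rw [← hx, bits_length]
      rw [h1, gv_start hEK (fun b φ rest i => ha3 𝔅 b φ rest i)
        (fun b => (hA' b).trans_le (by simp only [hw]; omega)) haff hφ (n := x.length)
        (by rw [hsz]; exact (length_lt_sz _).le)
        (by
          rw [← hsz]
          have : (2 * x.length + 1) ^ 2 = (2 * x.length + 1) * (2 * x.length + 1) := by ring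
          rw [this]
          simp only [hw]
          omega)
        (by
          rw [← hsz]
          simp only [hw]
          omega)]
      constructor
      · rintro ⟨ψ, _, h2, h3⟩
        have h4 : ψ = φ := code_injective (h2.trans hx.symm)
        rw [← h4]
        exact h3
      · intro h2
        exact ⟨φ, hφ, hx, h2⟩
    · have h1 : gini wf x = sL := by
        unfold gini
        rw [h]
        simp only [if_neg hu]
      rw [h1]
      constructor
      · rintro ⟨φ, hφ, h2, _⟩
        have h3 : pr φ = u := bits_injective (h2.trans hx.symm)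
        exact absurd ((hwf' u).2 ⟨φ, hφ, h3⟩) hu
      · exact fun h2 => absurd h2 hL

end Pool.Agent.H75C.HY
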