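import Pool.Agent.H75C.HY.Read

/-!
# Reductions between the satisfiability problems of two bases
-/

set_option autoImplicit false

namespace Pool.Agent.H75C.HY

open Pool.Agent.NPC

/-- The satisfiability problem over frames of the class `𝔉` for the base `𝔅` reduces to that for the
base `𝔅'`: there is a translation `T` of formulas that is computable in polynomial time (by the
function `f` on codes) such that a formula is satisfiable if and only if its translation is. -/
def Reduces (𝔉 : FrameClass) (𝔅 𝔅' : Base) : Prop :=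
  ∃ (T : Form 𝔅 → Form 𝔅') (f : List Bool → List Bool), PolyTime f ∧
    (∀ φ, f (code φ) = code (T φ)) ∧ ∀ φ, Satisfiable 𝔉 φ ↔ Satisfiable 𝔉 (T φ)

theorem boolean_reduces {𝔅 : Base} (h : 𝔅.IsL) (𝔉 : FrameClass) : Reduces 𝔉 impBot 𝔅 := by
  obtain ⟨T, f, hf, h1, h2⟩ := main h
  exact ⟨T, f, hf, h1, fun φ => (h2 𝔉 φ).symm⟩

end Pool.Agent.H75C.HY
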