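import Pool.Agent.H75C.HY.OneCode
import Mathlib.Data.Finset.SymmDiff

/-!
# Supports of formulas over all frames and over total frames: definitions and statements

`τ = false`: all frames, `τ = true`: total frames (every state has a successor).

Names of states: nominals, variables that are free in the formula, and the states on the path from the
root to the current state (`lv d` is the state at depth `d`; the current state has depth `d`, and in
what is said about it the names `lv j` with `j < d` occur).

`T k` is the type of *tests* for modal depth at most `k`: the constant `one`, atomic propositions, and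
finite sets of names and tests of `T (k - 1)`. The support of a formula is a finite set of names and
tests; the support of `◇ψ` consists of the nonempty subsets of the support of `ψ`. The value of a
formula is the sum modulo `2` of the values of the elements of its support.
-/

set_option autoImplicit false

namespace Pool.Agent.H75C.HY.NF

open Pool.Agent.NPC Pool.Agent.H75C.HY

open Classical

inductive Nm
  | nom (i : ℕ)
  | fr (x : ℕ)
  | lv (d : ℕ)

/-- Tests. `none` is the constant one, `some i` the atomic proposition `i`. -/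
def T : ℕ → Type
  | 0 => Option ℕ
  | k + 1 => Option ℕ ⊕ Finset (Nm ⊕ T k)

abbrev E (k : ℕ) : Type := Nm ⊕ T k

def one : (k : ℕ) → T k
  | 0 => (none : Option ℕ)
  | _ + 1 => Sum.inl none

def pro : (k : ℕ) → ℕ → T k
  | 0, i => (some i : Option ℕ)
  | _ + 1, i => Sum.inl (some i)

/-- The test given by a set. -/
def tst {k : ℕ} (A : Finset (E k)) : T (k + 1) := Sum.inr A

/-- The test given by a set; over total frames the set that consists of the constant one is the
constant one. -/
noncomputable def tst' (τ : Bool) {k : ℕ} (A : Finset (E k)) : T (k + 1) :=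
  if τ = true ∧ A = {Sum.inr (one k)} then one (k + 1) else tst A

/-- The support of `◇` of a formula with support `c`. -/
noncomputable def dsup (τ : Bool) {k : ℕ} (c : Finset (E k)) : Finset (E (k + 1)) :=
  (c.powerset.erase ∅).image fun A => Sum.inr (tst' τ A)

variable {𝔅 : Base}

/-- The support of a formula (for formulas of modal depth at most `k`). The assignment `env` gives the
names of the variables, `d` is the depth of the current state. -/
noncomputable def sup (τ : Bool) : Form 𝔅 → (k : ℕ) → (ℕ → Nm) → ℕ → Finset (E k)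
  | .prop i, k, _, _ => {Sum.inr (pro k i)}
  | .nom i, _, _, _ => {Sum.inl (.nom i)}
  | .var x, k, env, d => if env x = .lv d then {Sum.inr (one k)} else {Sum.inl (env x)}
  | .app b φ, k, env, d =>
      (insert (Sum.inr (one k)) (Finset.univ.biUnion fun i => sup τ (φ i) k env d)).filter fun e =>
        xor (𝔅.ev b fun i => decide (e ∈ sup τ (φ i) k env d))
          (if e = Sum.inr (one k) then false else 𝔅.ev b fun _ => false) = true
  | .dia φ, k, env, d => match k with
    | 0 => ∅
    | k + 1 => dsup τ (sup τ φ k env (d + 1))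
  | .box φ, k, env, d => match k with
    | 0 => ∅
    | k + 1 => symmDiff {Sum.inr (one (k + 1))}
        (dsup τ (symmDiff {Sum.inr (one k)} (sup τ φ k env (d + 1))))
  | .bind x φ, k, env, d => sup τ φ k (Function.update env x (.lv d)) d
  | .atNom _ _, _, _, _ => ∅
  | .atVar _ _, _, _, _ => ∅

/-- Modal depth. -/
def md : Form 𝔅 → ℕ
  | .prop _ => 0
  | .nom _ => 0
  | .var _ => 0
  | .app _ φ => Finset.univ.sup fun i => md (φ i)
  | .dia φ => md φ + 1
  | .box φ => md φ + 1
  | .bind _ φ => md φ
  | .atNom _ _ => 0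
  | .atVar _ _ => 0

/-- The assignment of names at the start. -/
def env0 : ℕ → Nm := fun x => .fr x

/-! ### Values in a model -/

/-- The value of a name or a test, given the values of tests. -/
noncomputable def ve {K : Model} {k : ℕ} (ρ : Nm → K.W) (vt : T k → ZMod 2) (w : K.W) :
    E k → ZMod 2
  | .inl x => if w = ρ x then 1 else 0
  | .inr t => vt t

/-- The value of a test at the state `w` of depth `d`, where `ρ` gives the named states. -/
noncomputable def vt (K : Model) : (k : ℕ) → (Nm → K.W) → ℕ → K.W → T k → ZMod 2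
  | 0, _, _, w, t => match (t : Option ℕ) with
    | none => 1
    | some i => if K.V i w then 1 else 0
  | k + 1, ρ, d, w, t => match (t : Option ℕ ⊕ Finset (E k)) with
    | .inl none => 1
    | .inl (some i) => if K.V i w then 1 else 0
    | .inr A => ∑ B ∈ A.powerset, if ∃ v, K.R w v ∧
        ∑ e ∈ B, ve (Function.update ρ (.lv d) w) (vt K k (Function.update ρ (.lv d) w) (d + 1) v)
          v e = 1 then 1 else 0

/-- The value of a finite set of names and tests. -/
noncomputable def vs (K : Model) (k : ℕ) (ρ : Nm → K.W) (d : ℕ) (w : K.W) (B : Finset (E k)) :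
    ZMod 2 :=
  ∑ e ∈ B, ve ρ (vt K k ρ d w) w e

/-- STATEMENT A1 (the support determines the truth value). -/
def A1 : Prop :=
  ∀ (𝔅 : Base) (_ : ∀ b : 𝔅.B, Affine (𝔅.ev b)) (τ : Bool) (K : Model)
    (_ : τ = true → ∀ w, ∃ v, K.R w v) (φ : Form 𝔅), NoAt φ → ∀ (k : ℕ), md φ ≤ k →
    ∀ (env : ℕ → Nm) (d : ℕ), (∀ x j, env x = .lv j → j ≤ d) →
    ∀ (ρ : Nm → K.W), (∀ i, ρ (.nom i) = K.nm i) → ∀ (g : ℕ → K.W) (w : K.W),
      (∀ x, g x = if env x = .lv d then w else ρ (env x)) →
        (tv K φ g w = true ↔ vs K k ρ d w (sup τ φ k env d) = 1)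

/-! ### The order of the tests -/

/-- The order of names and tests, given the order of tests. -/
def eo {k : ℕ} (lt : T k → T k → Prop) : E k → E k → Prop
  | .inl x, .inl y => x = y
  | .inl _, .inr _ => False
  | .inr _, .inl _ => True
  | .inr s, .inr t => lt s t

/-- The order of sets, given the order of their elements: the elements of `A` come from elements of
`A'` by going down. -/
def so {α : Type} (r : α → α → Prop) (A A' : Finset α) : Prop :=
  ∃ h : α → Option α, (∀ a ∈ A', ∀ b, h a = some b → r b a) ∧ ∀ b ∈ A, ∃ a ∈ A', h a = some b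

/-- The order of the tests. -/
def le : (k : ℕ) → T k → T k → Prop
  | 0, s, t => s = (none : Option ℕ) ∨ s = t
  | k + 1, s, t => s = (Sum.inl none : Option ℕ ⊕ Finset (E k)) ∨ s = t ∨
      match (s : Option ℕ ⊕ Finset (E k)), (t : Option ℕ ⊕ Finset (E k)) with
      | .inr A, .inr A' => so (eo (le k)) A A'
      | _, _ => False

/-- STATEMENT A2 (the order is a partial order). -/
def A2 : Prop :=
  ∀ k : ℕ, (∀ t, le k t t) ∧ (∀ s t u, le k s t → le k t u → le k s u) ∧
    ∀ s t, le k s t → le k t s → s = t

/-- STATEMENT A3 (combinatorics). Let `e b a` (`a` in `A'`, the values at the successors) be `0` unless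
`b ≤ a`, and `e a a = 1`. -/
def A3 : Prop :=
  ∀ (α : Type) (r : α → α → Prop), (∀ a, r a a) → (∀ a b c, r a b → r b c → r a c) →
    (∀ a b, r a b → r b a → a = b) → ∀ (A' : Finset α) (e : α → α → ZMod 2) (A : Finset α),
      (∀ a ∈ A', ∀ b ∈ A, e b a ≠ 0 → r b a) →
        ((∑ B ∈ A.powerset, if ∃ a ∈ A', ∑ b ∈ B, e b a = 1 then (1 : ZMod 2) else 0) ≠ 0 →
          so r A A') ∧
        (A = A' → A.Nonempty → (∀ a ∈ A', e a a = 1) →
          (∑ B ∈ A.powerset, if ∃ a ∈ A', ∑ b ∈ B, e b a = 1 then (1 : ZMod 2) else 0) = 1)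

/-! ### Well-formed tests -/

/-- The names that may occur at depth `d`. -/
def outer (d : ℕ) : Nm → Prop
  | .nom _ => True
  | .fr _ => True
  | .lv j => j < d

/-- Well-formed names and tests, given well-formed tests. -/
def ewf {k : ℕ} (P : T k → Prop) (d : ℕ) : E k → Prop
  | .inl x => outer d x
  | .inr t => P t

/-- Well-formed tests at depth `d`. -/
def wf (τ : Bool) : (k : ℕ) → ℕ → T k → Prop
  | 0, _, _ => True
  | k + 1, d, t => match (t : Option ℕ ⊕ Finset (E k)) with
    | .inl _ => True
    | .inr A => A ≠ ∅ ∧ (τ = true → A ≠ {Sum.inr (one k)}) ∧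
        ∀ e ∈ A, ewf (wf τ k (d + 1)) (d + 1) e

/-- STATEMENT A4 (supports consist of well-formed names and tests). -/
def A4 : Prop :=
  ∀ (𝔅 : Base) (τ : Bool) (φ : Form 𝔅) (k : ℕ) (env : ℕ → Nm) (d : ℕ),
    (∀ x j, env x = .lv j → j ≤ d) → ∀ e ∈ sup τ φ k env d, ewf (wf τ k d) d e

/-! ### Gadgets -/

/-- A part of a model with edges to named states outside of the part. -/
structure Gd where
  P : Type
  root : P
  R : P → P → Prop
  out : P → Nm → Prop
  V : ℕ → P → Prop

/-- The model `K` contains the gadget `G`, placed at depth `d`. -/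
structure Host (d : ℕ) (G : Gd) (K : Model) (ρ : Nm → K.W) (ι : G.P → K.W) : Prop where
  inj : Function.Injective ι
  R : ∀ p v, K.R (ι p) v ↔ (∃ q, G.R p q ∧ v = ι q) ∨ ∃ x, outer d x ∧ G.out p x ∧ v = ρ x
  V : ∀ i p, K.V i (ι p) ↔ G.V i p
  ne : ∀ x, outer d x → ∀ p, ρ x ≠ ι p
  rinj : ∀ x y, outer d x → outer d y → ρ x = ρ y → x = y

/-- STATEMENT A5 (realisation): for every well-formed test `t` there is a gadget whose root makes `t`
true and of the other well-formed tests at most those below `t`. Every point of the gadget has a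
successor if `τ = true`. -/
def A5 : Prop :=
  ∀ (τ : Bool) (k d : ℕ) (t : T k), wf τ k d t → ∃ G : Gd,
    (∀ p x, G.out p x → outer d x) ∧
    (τ = true → ∀ p, (∃ q, G.R p q) ∨ ∃ x, G.out p x) ∧
    ∀ (K : Model) (ρ : Nm → K.W) (ι : G.P → K.W), Host d G K ρ ι →
      vt K k ρ d (ι G.root) t = 1 ∧
      ∀ t', wf τ k d t' → vt K k ρ d (ι G.root) t' ≠ 0 → le k t' t

/-- STATEMENT A6 (completeness): a nonempty set of well-formed names and tests has the value `1`
somewhere. -/
def A6 : Prop :=
  ∀ (τ : Bool) (k : ℕ) (s : Finset (E k)), s.Nonempty → (∀ e ∈ s, ewf (wf τ k 0) 0 e) →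
    ∃ (K : Model) (ρ : Nm → K.W) (w : K.W), (τ = true → ∀ w, ∃ v, K.R w v) ∧
      (∀ i, ρ (.nom i) = K.nm i) ∧ vs K k ρ 0 w s = 1

/-- Conclusion of the first part. -/
def Sem : Prop :=
  ∀ (𝔅 : Base) (_ : ∀ b : 𝔅.B, Affine (𝔅.ev b)) (φ : Form 𝔅), NoAt φ → ∀ k, md φ ≤ k →
    (Satisfiable .all φ ↔ (sup false φ k env0 0).Nonempty) ∧
    (Satisfiable .total φ ↔ (sup true φ k env0 0).Nonempty)

end Pool.Agent.H75C.HY.NF
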