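import Pool.Agent.H75C.HY.NF
import Pool.Agent.H75C.HY.Stm
import Pool.Agent.NPC.Num

/-!
# Normal forms of formulas over all frames and over total frames: algorithm and statements

The word of a formula is read from left to right. The algorithm keeps a table of the sets of items
that were found as arguments of `◇` (an entry is a number and a set; equal sets get the same number)
and a stack. Items: `(0, i)` proposition, `(1, i)` nominal, `(2, x)` variable that is free in the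
formula, `(3, j)` the state of depth `j` on the path, `(4, 0)` the constant one, `(6, q)` the formula
`◇ψ` where `q` is the number of the set of `ψ`. A set of items stands for the sum of its elements.
-/

set_option autoImplicit false

namespace Pool.Agent.H75C.HY.NF

open Pool.Agent.NPC Pool.Agent.H75C.HY

abbrev It := ℕ × ℕ

/-- A frame of the stack: the token that opened it, the number of the current argument, a sum. -/
abbrev Fr := Tok × ℕ × List It

abbrev Tab := List (ℕ × List It)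

/-- Adds an item to a sum. -/
def tog (l : List It) (a : It) : List It :=
  if a ∈ l then l.filter (fun b => decide (b ≠ a)) else a :: l

/-- The sum of two sums. -/
def xm (l l' : List It) : List It := l'.foldl tog l

def isD (f : Fr) : Bool := decide (f.1.1 = 6 ∨ f.1.1 = 7)

/-- The depth. -/
def dep (st : List Fr) : ℕ := (st.filter isD).length

/-- The name of the variable `x`. -/
def res (x : ℕ) : List Fr → It
  | [] => (2, x)
  | f :: st => if f.1 = (8, x) then (3, dep st) else res x st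

/-- The item for the variable `x`. -/
def rsv (p x : ℕ) (st : List Fr) : It :=
  if res x st = (3, dep st) then (4, 0)
  else if (res x st).1 = 3 then (3, min (res x st).2 p) else res x st

/-- A frame gets the value `s` of its argument. -/
def updF (C : ℕ → ℕ → Bool) (f : Fr) (s : List It) : Fr :=
  if f.1.1 = 3 then (f.1, f.2.1, if C f.1.2 f.2.1 = true then xm f.2.2 s else f.2.2)
  else (f.1, f.2.1, s)

/-- A formula with value `s` is complete. -/
def dlv (C : ℕ → ℕ → Bool) (s : List It) : List Fr → List Fr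
  | [] => []
  | f :: st => if f.1.1 = 8 then dlv C s st else updF C f s :: st

def eqs (s s' : List It) : Bool := s.all (fun a => decide (a ∈ s')) && s'.all (fun a => decide (a ∈ s))

def fnd (s : List It) : Tab → Option ℕ
  | [] => none
  | e :: Tb => if eqs e.2 s = true then some e.1 else fnd s Tb

/-- The value of `◇ψ` where `s` is the value of `ψ`. -/
def cls (τ : Bool) (p : ℕ) (Tb : Tab) (s : List It) : Tab × List It :=
  if s = [] then (Tb, [])
  else if τ = true ∧ s = [(4, 0)] then (Tb, [(4, 0)])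
  else match fnd s Tb with
    | some q => (Tb, [(6, min q p)])
    | none => (Tb ++ [(p, s)], [(6, p)])

def setI (i : ℕ) : List Fr → List Fr
  | [] => []
  | f :: st => (f.1, i, f.2.2) :: st

/-- A step; the input is a token and its position. -/
def stp (τ : Bool) (C : ℕ → ℕ → Bool) (c0 : ℕ → Bool) (S : Tab × List Fr) (x : Tok × ℕ) :
    Tab × List Fr :=
  if x.1.1 = 0 ∨ x.1.1 = 1 then (S.1, dlv C [x.1] S.2)
  else if x.1.1 = 2 then (S.1, dlv C [rsv x.2 x.1.2 S.2] S.2)
  else if x.1.1 = 3 then (S.1, (x.1, 0, if c0 x.1.2 = true then [(4, 0)] else []) :: S.2)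
  else if x.1.1 = 4 then (S.1, setI (x.1.2 + 1) S.2)
  else if x.1.1 = 5 then
    match S.2 with
    | [] => S
    | f :: st =>
      if x.1.2 = 0 then (S.1, dlv C f.2.2 st)
      else if f.1.1 = 7 then
        ((cls τ x.2 S.1 (xm f.2.2 [(4, 0)])).1,
          dlv C (xm (cls τ x.2 S.1 (xm f.2.2 [(4, 0)])).2 [(4, 0)]) st)
      else ((cls τ x.2 S.1 f.2.2).1, dlv C (cls τ x.2 S.1 f.2.2).2 st)
  else (S.1, (x.1, 0, []) :: S.2)

def rt : List Fr := [((9, 0), 0, [])]

/-- The decision. -/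
def dec (τ : Bool) (C : ℕ → ℕ → Bool) (c0 : ℕ → Bool) (w : List Tok) : Bool :=
  !(((w.zipIdx.foldl (stp τ C c0) ([], rt)).2.head?.getD ((9, 0), 0, [])).2.2.isEmpty)

/-- STATEMENT B1 (polynomial time). -/
def B1 : Prop :=
  ∀ (τ : Bool) (C : ℕ → ℕ → Bool) (c0 : ℕ → Bool), NPC.Poly (fun p : ℕ × ℕ => C p.1 p.2) →
    NPC.Poly c0 → NPC.Poly (dec τ C c0)

/-- STATEMENT B2 (the affine functions of the base). -/
def B2 : Prop :=
  ∀ 𝔅 : Base, ∃ (C : ℕ → ℕ → Bool) (c0 : ℕ → Bool), NPC.Poly (fun p : ℕ × ℕ => C p.1 p.2) ∧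
    NPC.Poly c0 ∧ ∀ b : 𝔅.B, c0 (𝔅.idx b) = 𝔅.ev b (fun _ => false) ∧
      ∀ i : Fin (𝔅.ar b), C (𝔅.idx b) i =
        xor (𝔅.ev b (fun j => decide (j = i))) (𝔅.ev b (fun _ => false))

open Classical

/-- The set with the number `q`. -/
def look (Tb : Tab) (q : ℕ) : List It := ((Tb.find? fun e => decide (e.1 = q)).map Prod.snd).getD []

/-- Items that are not of the form `◇ψ`. -/
noncomputable def base (k : ℕ) (a : It) : Finset (E k) :=
  if a.1 = 0 then {Sum.inr (pro k a.2)} else if a.1 = 1 then {Sum.inl (.nom a.2)}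
  else if a.1 = 2 then {Sum.inl (.fr a.2)} else if a.1 = 3 then {Sum.inl (.lv a.2)}
  else if a.1 = 4 then {Sum.inr (one k)} else ∅

/-- The support of an item. -/
noncomputable def isem (τ : Bool) (Tb : Tab) : (k : ℕ) → It → Finset (E k)
  | 0, a => base 0 a
  | k + 1, a => if a.1 = 6 then
      dsup τ (((look Tb a.2).map (isem τ Tb k)).foldr symmDiff ∅) else base (k + 1) a

/-- The support of a sum of items. -/
noncomputable def ISet (τ : Bool) (Tb : Tab) (k : ℕ) (s : List It) : Finset (E k) :=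
  (s.map (isem τ Tb k)).foldr symmDiff ∅

/-- Valid items of modal depth at most `k`. -/
def vit (Tb : Tab) : ℕ → It → Prop
  | 0, a => a.1 ≤ 3 ∨ a = (4, 0)
  | k + 1, a => a.1 ≤ 3 ∨ a = (4, 0) ∨
      (a.1 = 6 ∧ (∃ e ∈ Tb, e.1 = a.2) ∧ ∀ b ∈ look Tb a.2, vit Tb k b)

/-- Invariant of the table at position `q`. -/
structure Good (τ : Bool) (q : ℕ) (Tb : Tab) : Prop where
  nd : (Tb.map Prod.fst).Nodup
  lt : ∀ e ∈ Tb, e.1 < q
  ne : ∀ e ∈ Tb, e.2 ≠ []
  nds : ∀ e ∈ Tb, e.2.Nodup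
  no : τ = true → ∀ e ∈ Tb, e.2 ≠ [(4, 0)]
  inj : ∀ e ∈ Tb, ∀ e' ∈ Tb, e.2.toFinset = e'.2.toFinset → e = e'

/-- STATEMENT B3 (different sums have different supports). -/
def B3 : Prop :=
  ∀ (τ : Bool) (q : ℕ) (Tb : Tab), Good τ q Tb → ∀ (k : ℕ) (s : List It), s.Nodup →
    (∀ a ∈ s, vit Tb k a) → ISet τ Tb k s = ∅ → s = []

/-- STATEMENT B5 (sums of items, and the table). -/
def B5 : Prop :=
  (∀ (τ : Bool) (Tb : Tab) (k : ℕ) (s s' : List It), s.Nodup → s'.Nodup →
    (xm s s').Nodup ∧ (∀ a ∈ xm s s', a ∈ s ∨ a ∈ s') ∧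
      ISet τ Tb k (xm s s') = symmDiff (ISet τ Tb k s) (ISet τ Tb k s')) ∧
  (∀ (τ : Bool) (p : ℕ) (Tb Tb' : Tab), Good τ p Tb' → Tb <+: Tb' → ∀ (k : ℕ) (a : It),
    vit Tb k a → vit Tb' k a ∧ isem τ Tb' k a = isem τ Tb k a) ∧
  (∀ (τ : Bool) (p : ℕ) (Tb : Tab) (s : List It), Good τ p Tb → s.Nodup →
    Good τ (p + 1) (cls τ p Tb s).1 ∧ Tb <+: (cls τ p Tb s).1 ∧ (cls τ p Tb s).2.Nodup ∧
      ∀ k : ℕ, (∀ a ∈ s, vit Tb k a) →
        (∀ a ∈ (cls τ p Tb s).2, vit (cls τ p Tb s).1 (k + 1) a) ∧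
          ISet τ (cls τ p Tb s).1 (k + 1) (cls τ p Tb s).2 = dsup τ (ISet τ Tb k s))

/-- The names of the variables. -/
def nmO (a : It) : Nm := if a.1 = 3 then .lv a.2 else .fr a.2

def envO (st : List Fr) : ℕ → Nm := fun x => nmO (res x st)

/-- STATEMENT B4 (simulation). -/
def B4 : Prop :=
  ∀ (𝔅 : Base) (_ : ∀ b : 𝔅.B, Affine (𝔅.ev b)) (τ : Bool) (C : ℕ → ℕ → Bool) (c0 : ℕ → Bool),
    (∀ b : 𝔅.B, c0 (𝔅.idx b) = 𝔅.ev b (fun _ => false) ∧
      ∀ i : Fin (𝔅.ar b), C (𝔅.idx b) i =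
        xor (𝔅.ev b (fun j => decide (j = i))) (𝔅.ev b (fun _ => false))) →
    ∀ φ : Form 𝔅, NoAt φ → ∀ (p : ℕ) (Tb : Tab) (st : List Fr), Good τ p Tb → dep st ≤ p →
      ∃ (Tb' : Tab) (s : List It),
        ((pr φ).zipIdx p).foldl (stp τ C c0) (Tb, st) = (Tb', dlv C s st) ∧
        Good τ (p + (pr φ).length) Tb' ∧ Tb <+: Tb' ∧ s.Nodup ∧
        (∀ k, md φ ≤ k → (∀ a ∈ s, vit Tb' k a) ∧
          ISet τ Tb' k s = sup τ φ k (envO st) (dep st))

/-- Conclusion: there is a polynomial-time test whether the support is empty. -/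
def Alg : Prop :=
  ∀ (𝔅 : Base) (_ : ∀ b : 𝔅.B, Affine (𝔅.ev b)) (τ : Bool), ∃ f : List Tok → Bool, NPC.Poly f ∧
    ∀ φ : Form 𝔅, NoAt φ → ∀ k, md φ ≤ k → (f (pr φ) = true ↔ (sup τ φ k env0 0).Nonempty)

end Pool.Agent.H75C.HY.NF
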