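import Pool.Agent.H75C.HY.NF

/-!
# Supports consist of well-formed tests
-/

set_option autoImplicit false

namespace Pool.Agent.H75C.HY.NF

open Pool.Agent.NPC Pool.Agent.H75C.HY

open Classical

variable {𝔅 : Base}

theorem ewf_one (τ : Bool) (k d : ℕ) : ewf (wf τ k d) d (Sum.inr (one k) : E k) := by
  cases k <;> exact trivial

theorem ewf_pro (τ : Bool) (k d i : ℕ) : ewf (wf τ k d) d (Sum.inr (pro k i) : E k) := by
  cases k <;> exact trivial

theorem ewf_dsup {τ : Bool} {k d : ℕ} {c : Finset (E k)}
    (h : ∀ e ∈ c, ewf (wf τ k (d + 1)) (d + 1) e) :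
    ∀ e ∈ dsup τ c, ewf (wf τ (k + 1) d) d e := by
  intro e he
  unfold dsup at he
  rw [Finset.mem_image] at he
  obtain ⟨A, hA, rfl⟩ := he
  rw [Finset.mem_erase, Finset.mem_powerset] at hA
  unfold tst'
  by_cases h1 : τ = true ∧ A = {Sum.inr (one k)}
  · rw [if_pos h1]
    exact ewf_one τ (k + 1) d
  · rw [if_neg h1]
    exact ⟨hA.1, fun h2 h3 => h1 ⟨h2, h3⟩, fun e he => h e (hA.2 he)⟩

theorem ewf_symmDiff {τ : Bool} {k d : ℕ} {c c' : Finset (E k)}
    (h : ∀ e ∈ c, ewf (wf τ k d) d e) (h' : ∀ e ∈ c', ewf (wf τ k d) d e) :
    ∀ e ∈ symmDiff c c', ewf (wf τ k d) d e := by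
  intro e he
  rw [Finset.mem_symmDiff] at he
  rcases he with he | he
  · exact h e he.1
  · exact h' e he.1

theorem ewf_single_one (τ : Bool) (k d : ℕ) :
    ∀ e ∈ ({Sum.inr (one k)} : Finset (E k)), ewf (wf τ k d) d e := by
  intro e he
  rw [Finset.mem_singleton] at he
  rw [he]
  exact ewf_one τ k d

theorem a4 : A4 := by
  intro 𝔅 τ φ
  induction φ with
  | prop i =>
    intro k env d _ e he
    rw [sup, Finset.mem_singleton] at he
    rw [he]
    exact ewf_pro τ k d i
  | nom i =>
    intro k env d _ e he
    rw [sup, Finset.mem_singleton] at he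
    rw [he]
    exact trivial
  | var x =>
    intro k env d henv e he
    rw [sup] at he
    by_cases h : env x = .lv d
    · rw [if_pos h] at he
      exact ewf_single_one τ k d e he
    · rw [if_neg h, Finset.mem_singleton] at he
      rw [he]
      show outer d (env x)
      have h1 := henv x
      cases hx : env x with
      | nom i => exact trivial
      | fr i => exact trivial
      | lv j =>
        have h2 := h1 j hx
        have h3 : j ≠ d := fun h3 => h (by rw [hx, h3])
        show j < d
        omega
  | app b φ ih =>
    intro k env d henv e he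
    rw [sup, Finset.mem_filter, Finset.mem_insert, Finset.mem_biUnion] at he
    rcases he.1 with h | ⟨i, _, h⟩
    · rw [h]
      exact ewf_one τ k d
    · exact ih i k env d henv e h
  | dia φ ih =>
    intro k env d henv e he
    cases k with
    | zero => simp [sup] at he
    | succ k =>
      refine ewf_dsup (ih k env (d + 1) fun x j h => (henv x j h).trans (Nat.le_succ d)) e ?_
      simpa [sup] using he
  | box φ ih =>
    intro k env d henv e he
    cases k with
    | zero => simp [sup] at he
    | succ k =>
      refine ewf_symmDiff (ewf_single_one τ (k + 1) d) (ewf_dsup (ewf_symmDiff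
        (ewf_single_one τ k (d + 1))
        (ih k env (d + 1) fun x j h => (henv x j h).trans (Nat.le_succ d)))) e ?_
      simpa only [sup] using he
  | bind x φ ih =>
    intro k env d henv e he
    rw [sup] at he
    refine ih k _ d (fun y j h => ?_) e he
    by_cases hyx : y = x
    · rw [hyx, Function.update_self] at h
      injection h with h
      omega
    · rw [Function.update_of_ne hyx] at h
      exact henv y j h
  | atNom i φ ih => intro k env d _ e he; simp [sup] at he
  | atVar i φ ih => intro k env d _ e he; simp [sup] at he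

end Pool.Agent.H75C.HY.NF
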