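import Pool.Agent.H75C.HY.NF

/-!
# Every nonempty set of well-formed names and tests has the value one somewhere
-/

set_option autoImplicit false

namespace Pool.Agent.H75C.HY.NF

open Pool.Agent.NPC Pool.Agent.H75C.HY

open Classical

theorem exists_min {k : ℕ} (h2 : A2) (F : Finset (T k)) (hF : F.Nonempty) :
    ∃ m ∈ F, ∀ x ∈ F, le k x m → x = m := by
  obtain ⟨h, h', h''⟩ := h2 k
  let _ : PartialOrder (T k) :=
    { le := le k
      le_refl := h
      le_trans := h'
      le_antisymm := h'' }
  obtain ⟨m, hm⟩ := F.exists_minimal hF
  exact ⟨m, hm.1, fun x hx hle => h'' x m hle (hm.2 hx hle)⟩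

/-- The model for a gadget at depth `0`. -/
def Kg (τ : Bool) (G : Gd) : Model where
  W := G.P ⊕ Nm
  R := fun a b => match a, b with
    | .inl p, .inl q => G.R p q
    | .inl p, .inr x => G.out p x
    | .inr x, .inr y => τ = true ∧ x = y
    | .inr _, .inl _ => False
  V := fun i a => match a with
    | .inl p => G.V i p
    | .inr _ => False
  nm := fun i => Sum.inr (.nom i)

theorem a6 (h2 : A2) (h5 : A5) : A6 := by
  intro τ k s hs hwf
  by_cases ht : ∃ t, (Sum.inr t : E k) ∈ s
  · obtain ⟨t0, ht0⟩ := ht
    set F : Finset (T k) := s.preimage Sum.inr (Sum.inr_injective.injOn) with hF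
    have hFne : F.Nonempty := ⟨t0, by rw [hF, Finset.mem_preimage]; exact ht0⟩
    obtain ⟨t, htF, hmin⟩ := exists_min h2 F hFne
    have hts : (Sum.inr t : E k) ∈ s := by rw [hF, Finset.mem_preimage] at htF; exact htF
    obtain ⟨G, hout, htot, hG⟩ := h5 τ k 0 t (hwf _ hts)
    have hhost : Host 0 G (Kg τ G) (Sum.inr : Nm → (Kg τ G).W) (Sum.inl : G.P → (Kg τ G).W) := by
      constructor
      · exact Sum.inl_injective
      · intro p v
        cases v with
        | inl q =>
          constructor
          · intro h
            exact Or.inl ⟨q, h, rfl⟩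
          · rintro (⟨q', h, h'⟩ | ⟨x, _, _, h'⟩)
            · rw [Sum.inl_injective h']
              exact h
            · cases h'
        | inr x =>
          constructor
          · intro h
            exact Or.inr ⟨x, hout p x h, h, rfl⟩
          · rintro (⟨q', h, h'⟩ | ⟨y, _, h, h'⟩)
            · cases h'
            · rw [Sum.inr_injective h']
              exact h
      · exact fun i p => Iff.rfl
      · intro x _ p h
        cases h
      · intro x y _ _ h
        exact Sum.inr_injective h
    obtain ⟨hv, hle⟩ := hG (Kg τ G) Sum.inr Sum.inl hhost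
    refine ⟨Kg τ G, Sum.inr, Sum.inl G.root, ?_, fun i => rfl, ?_⟩
    · intro hτ w
      cases w with
      | inl p =>
        rcases htot hτ p with ⟨q, h⟩ | ⟨x, h⟩
        · exact ⟨Sum.inl q, h⟩
        · exact ⟨Sum.inr x, h⟩
      | inr x => exact ⟨Sum.inr x, hτ, rfl⟩
    · unfold vs
      rw [Finset.sum_eq_single (Sum.inr t : E k)]
      · exact hv
      · intro e he hne
        cases e with
        | inl x =>
          have h1 : ¬ ((Sum.inl G.root : (Kg τ G).W) = Sum.inr x) := by intro h; cases h
          unfold ve
          exact if_neg h1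
        | inr t' =>
          by_contra h
          have h1 := hle t' (hwf _ he) h
          have h3 := hmin t' (by rw [hF, Finset.mem_preimage]; exact he) h1
          exact hne (by rw [h3])
      · intro h
        exact absurd hts h
  · obtain ⟨e, he⟩ := hs
    cases e with
    | inr t => exact absurd ⟨t, he⟩ ht
    | inl x =>
      set K : Model := ⟨Nm, fun a b => τ = true ∧ a = b, fun _ _ => False, fun i => .nom i⟩ with hK
      refine ⟨K, fun y => y, x, fun hτ w => ⟨w, hτ, rfl⟩, fun i => rfl, ?_⟩
      unfold vs
      rw [Finset.sum_eq_single (Sum.inl x : E k)]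
      · show (if (x : Nm) = x then (1 : ZMod 2) else 0) = 1
        rw [if_pos rfl]
      · intro e' he' hne
        cases e' with
        | inr t => exact absurd ⟨t, he'⟩ ht
        | inl y =>
          show (if (x : Nm) = y then (1 : ZMod 2) else 0) = 0
          rw [if_neg (by intro h; exact hne (by rw [h]))]
      · intro h
        exact absurd he h

end Pool.Agent.H75C.HY.NF
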