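import Pool.Agent.H75C.HY.NFA

/-!
# Piece B1 of project NF: the decision runs in polynomial time (helper16)
-/

set_option autoImplicit false

namespace Pool.Agent.H75C.HY.NF

open Pool.Agent.NPC Pool.Agent.H75C.HY

namespace PB1

/-! ### Sizes -/

theorem sz_lin (n : ℕ) : sz n ≤ 4 * n + 1 := by
  have h1 := sz_nat_le n
  have h2 : n.size ≤ n := Nat.size_le.2 Nat.lt_two_pow_self
  omega

theorem sz_succ (n : ℕ) : sz (n + 1) ≤ 2 * sz n + 3 := by
  have h1 := sz_nat_le (n + 1)
  have h2 := size_le_sz n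
  have h3 : (n + 1).size ≤ n.size + 1 := by
    rw [Nat.size_le, pow_succ]
    have := Nat.lt_size_self n
    omega
  omega

theorem sz_filter_le {β : Type} [TEnc β] (p : β → Bool) (l : List β) : sz (l.filter p) ≤ sz l := by
  induction l with
  | nil => simp
  | cons a l ih =>
    rw [List.filter_cons]
    split_ifs
    · simp only [sz_list_cons]
      omega
    · simp only [sz_list_cons]
      omega

theorem sz_tog (l : List It) (a : It) : sz (tog l a) ≤ sz l + (sz a + 1) := by
  unfold tog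
  split_ifs
  · have := sz_filter_le (fun b => decide (b ≠ a)) l
    omega
  · simp only [sz_list_cons]
    omega

theorem sz_xm (l l' : List It) : sz (xm l l') ≤ sz l + sz l' := by
  unfold xm
  induction l' generalizing l with
  | nil => simp
  | cons a l' ih =>
    rw [List.foldl_cons]
    have h1 := ih (tog l a)
    have h2 := sz_tog l a
    simp only [sz_list_cons]
    omega

theorem dep_cons (f : Fr) (st : List Fr) :
    dep (f :: st) = if isD f = true then dep st + 1 else dep st := by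
  unfold dep
  rw [List.filter_cons]
  split_ifs
  · rfl
  · rfl

theorem dep_le (st : List Fr) : dep st ≤ st.length := List.length_filter_le _ _

theorem sz_res (x : ℕ) (st : List Fr) : sz (res x st) ≤ sz x + 4 * st.length + 20 := by
  induction st with
  | nil =>
    unfold res
    have := sz_lin 2
    simp only [sz_pair]
    omega
  | cons f st ih =>
    unfold res
    split_ifs
    · have h1 := sz_lin 3
      have h2 := sz_lin (dep st)
      have h3 := dep_le st
      simp only [sz_pair, List.length_cons]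
      omega
    · simp only [List.length_cons]
      omega

theorem res_fst (x : ℕ) (st : List Fr) : (res x st).1 = 3 ∨ res x st = (2, x) := by
  induction st with
  | nil => exact Or.inr rfl
  | cons f st ih =>
    unfold res
    split_ifs
    · exact Or.inl rfl
    · exact ih

theorem sz_rsv (p x : ℕ) (st : List Fr) : sz (rsv p x st) ≤ sz x + 2 * sz p + 20 := by
  unfold rsv
  have h2 := sz_lin 2
  have h3 := sz_lin 3
  have h4 := sz_lin 4
  have h0 := sz_lin 0
  split_ifs with h h'
  · simp only [sz_pair]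
    omega
  · have := sz_nat_mono_le (Nat.min_le_right (res x st).2 p)
    simp only [sz_pair]
    omega
  · rcases res_fst x st with h5 | h5
    · exact absurd h5 h'
    · rw [h5]
      simp only [sz_pair]
      omega

theorem sz_updF (C : ℕ → ℕ → Bool) (f : Fr) (s : List It) : sz (updF C f s) ≤ sz f + sz s := by
  obtain ⟨t, i, l⟩ := f
  unfold updF
  have h1 := sz_xm l s
  have h2 := sz_pos l
  split_ifs <;> simp only [sz_pair] <;> omega

theorem sz_dlv (C : ℕ → ℕ → Bool) (s : List It) (st : List Fr) :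
    sz (dlv C s st) ≤ sz st + sz s := by
  induction st with
  | nil =>
    unfold dlv
    omega
  | cons f st ih =>
    unfold dlv
    split_ifs
    · simp only [sz_list_cons]
      omega
    · have := sz_updF C f s
      simp only [sz_list_cons]
      omega

theorem sz_fnd (s : List It) (Tb : Tab) : sz (fnd s Tb) ≤ sz Tb + 2 := by
  induction Tb with
  | nil => simp [fnd]
  | cons e Tb ih =>
    obtain ⟨q, l⟩ := e
    unfold fnd
    split_ifs
    · simp only [sz_some, sz_list_cons, sz_pair]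
      omega
    · simp only [sz_list_cons]
      omega

theorem sz_one : sz ([(4, 0)] : List It) ≤ 22 := by
  have h4 := sz_lin 4
  have h0 := sz_lin 0
  simp only [sz_list_cons, sz_list_nil, sz_pair]
  omega

theorem sz_cls (τ : Bool) (p : ℕ) (Tb : Tab) (s : List It) :
    sz (cls τ p Tb s).1 + sz (cls τ p Tb s).2 ≤ sz Tb + sz s + 3 * sz p + 40 := by
  have h6 := sz_lin 6
  have h1 := sz_one
  have h2 := sz_pos s
  unfold cls
  split_ifs
  · simp only [sz_list_nil]
    omega
  · change sz Tb + sz ([(4, 0)] : List It) ≤ _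
    omega
  · split
    · rename_i q _
      have := sz_nat_mono_le (Nat.min_le_right q p)
      simp only [sz_list_cons, sz_list_nil, sz_pair]
      omega
    · have := sz_append Tb [(p, s)]
      simp only [sz_list_cons, sz_list_nil, sz_pair] at this ⊢
      omega

theorem sz_setI (i : ℕ) (st : List Fr) : sz (setI i st) ≤ sz st + sz i := by
  cases st with
  | nil =>
    simp only [setI]
    omega
  | cons f st =>
    obtain ⟨t, j, l⟩ := f
    simp only [setI, sz_list_cons, sz_pair]
    omega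

theorem sz_stp (τ : Bool) (C : ℕ → ℕ → Bool) (c0 : ℕ → Bool) (S : Tab × List Fr) (x : Tok × ℕ) :
    sz (stp τ C c0 S x).1 + sz (stp τ C c0 S x).2 ≤ sz S.1 + sz S.2 + (3 * sz x + 140) := by
  obtain ⟨Tb, st⟩ := S
  obtain ⟨⟨t, y⟩, p⟩ := x
  have g1 := sz_one
  have g0 := sz_lin 0
  have gt := sz_pos t
  have gy := sz_pos y
  have gp := sz_pos p
  by_cases c1 : t = 0 ∨ t = 1
  · have e : stp τ C c0 (Tb, st) ((t, y), p) = (Tb, dlv C [(t, y)] st) := by
      unfold stp
      rw [if_pos c1]
    rw [e]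
    have h1 := sz_dlv C [(t, y)] st
    simp only [sz_list_cons, sz_list_nil, sz_pair] at h1 ⊢
    omega
  by_cases c2 : t = 2
  · have e : stp τ C c0 (Tb, st) ((t, y), p) = (Tb, dlv C [rsv p y st] st) := by
      unfold stp
      rw [if_neg c1, if_pos c2]
    rw [e]
    have h1 := sz_dlv C [rsv p y st] st
    have h2 := sz_rsv p y st
    simp only [sz_list_cons, sz_list_nil, sz_pair] at h1 ⊢
    omega
  by_cases c3 : t = 3
  · have e : stp τ C c0 (Tb, st) ((t, y), p) =
        (Tb, ((t, y), 0, if c0 y = true then [(4, 0)] else []) :: st) := by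
      unfold stp
      rw [if_neg c1, if_neg c2, if_pos c3]
    rw [e]
    split_ifs
    · simp only [sz_list_cons, sz_list_nil, sz_pair] at g1 ⊢
      omega
    · simp only [sz_list_cons, sz_list_nil, sz_pair]
      omega
  by_cases c4 : t = 4
  · have e : stp τ C c0 (Tb, st) ((t, y), p) = (Tb, setI (y + 1) st) := by
      unfold stp
      rw [if_neg c1, if_neg c2, if_neg c3, if_pos c4]
    rw [e]
    have h1 := sz_setI (y + 1) st
    have h2 := sz_succ y
    simp only [sz_pair]
    omega
  by_cases c5 : t = 5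
  · cases st with
    | nil =>
      have e : stp τ C c0 (Tb, []) ((t, y), p) = (Tb, []) := by
        unfold stp
        rw [if_neg c1, if_neg c2, if_neg c3, if_neg c4, if_pos c5]
      rw [e]
      simp only
      omega
    | cons f st =>
      obtain ⟨⟨t', y'⟩, j, l⟩ := f
      have gl := sz_pos l
      by_cases c6 : y = 0
      · have e : stp τ C c0 (Tb, ((t', y'), j, l) :: st) ((t, y), p) = (Tb, dlv C l st) := by
          unfold stp
          rw [if_neg c1, if_neg c2, if_neg c3, if_neg c4, if_pos c5]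
          simp only
          rw [if_pos c6]
        rw [e]
        have h1 := sz_dlv C l st
        simp only [sz_list_cons, sz_pair]
        omega
      by_cases c7 : t' = 7
      · have e : stp τ C c0 (Tb, ((t', y'), j, l) :: st) ((t, y), p) =
            ((cls τ p Tb (xm l [(4, 0)])).1,
              dlv C (xm (cls τ p Tb (xm l [(4, 0)])).2 [(4, 0)]) st) := by
          unfold stp
          rw [if_neg c1, if_neg c2, if_neg c3, if_neg c4, if_pos c5]
          simp only
          rw [if_neg c6, if_pos c7]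
        rw [e]
        have h1 := sz_cls τ p Tb (xm l [(4, 0)])
        have h2 := sz_dlv C (xm (cls τ p Tb (xm l [(4, 0)])).2 [(4, 0)]) st
        have h3 := sz_xm (cls τ p Tb (xm l [(4, 0)])).2 [(4, 0)]
        have h4 := sz_xm l [(4, 0)]
        generalize sz ([(4, 0)] : List It) = z at *
        simp only [sz_list_cons, sz_pair]
        omega
      · have e : stp τ C c0 (Tb, ((t', y'), j, l) :: st) ((t, y), p) =
            ((cls τ p Tb l).1, dlv C (cls τ p Tb l).2 st) := by
          unfold stp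
          rw [if_neg c1, if_neg c2, if_neg c3, if_neg c4, if_pos c5]
          simp only
          rw [if_neg c6, if_neg c7]
        rw [e]
        have h1 := sz_cls τ p Tb l
        have h2 := sz_dlv C (cls τ p Tb l).2 st
        simp only [sz_list_cons, sz_pair] at h1 h2 ⊢
        omega
  · have e : stp τ C c0 (Tb, st) ((t, y), p) = (Tb, ((t, y), 0, []) :: st) := by
      unfold stp
      rw [if_neg c1, if_neg c2, if_neg c3, if_neg c4, if_neg c5]
    rw [e]
    simp only [sz_list_cons, sz_pair, sz_list_nil]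
    omega

theorem sz_fold (τ : Bool) (C : ℕ → ℕ → Bool) (c0 : ℕ → Bool) (B : ℕ) :
    ∀ (l : List (Tok × ℕ)), (∀ x ∈ l, sz x ≤ B) → ∀ S : Tab × List Fr,
    sz (l.foldl (stp τ C c0) S).1 + sz (l.foldl (stp τ C c0) S).2 ≤
      sz S.1 + sz S.2 + l.length * (3 * B + 140) := by
  intro l
  induction l with
  | nil =>
    intro _ S
    simp
  | cons x l ih =>
    intro h S
    rw [List.foldl_cons]
    have h1 := ih (fun y hy => h y (List.mem_cons_of_mem _ hy)) (stp τ C c0 S x)
    have h2 := sz_stp τ C c0 S x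
    have h3 := h x (by simp)
    rw [List.length_cons, Nat.add_mul, Nat.one_mul]
    omega

/-! ### Polynomial time -/

section

variable {α : Type} [TEnc α]

theorem tog_poly {l : α → List It} {a : α → It} (hl : NPC.Poly l) (ha : NPC.Poly a) :
    NPC.Poly (fun x => tog (l x) (a x)) := by
  unfold tog
  refine NPC.Poly.ite ((NPC.Poly.decide_mem ha hl).congr fun _ => decide_eq_decide.2 Iff.rfl) ?_
    (NPC.Poly.cons ha hl)
  refine NPC.Poly.filter (p := fun x b => decide (b ≠ a x)) hl ?_
  exact (NPC.Poly.not (NPC.Poly.decide_eq (NPC.Poly.snd NPC.Poly.id) (ha.comp (NPC.Poly.fst NPC.Poly.id)))).congr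
    fun x => by simp

theorem xm_poly {l l' : α → List It} (hl : NPC.Poly l) (hl' : NPC.Poly l') :
    NPC.Poly (fun x => xm (l x) (l' x)) := by
  obtain ⟨r, hr⟩ := hl.sz_le
  obtain ⟨r', hr'⟩ := hl'.sz_le
  refine NPC.Poly.foldl (l := l') (s := l) (F := fun _ s b => tog s b) hl' hl
    (tog_poly (NPC.Poly.fst (NPC.Poly.snd NPC.Poly.id)) (NPC.Poly.snd (NPC.Poly.snd NPC.Poly.id))) (r + r') ?_
  intro a k hk
  have h1 : sz (((l' a).take k).foldl (fun s b => tog s b) (l a)) ≤ _ :=
    sz_xm (l a) ((l' a).take k)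
  have h2 := NPC.Poly.sz_take_le (l' a) k
  have h3 := hr a
  have h4 := hr' a
  simp only [Polynomial.eval_add]
  omega

theorem isD_poly {f : α → Fr} (hf : NPC.Poly f) : NPC.Poly (fun x => isD (f x)) := by
  unfold isD
  exact NPC.Poly.decide_or (NPC.Poly.decide_eq (NPC.Poly.fst (NPC.Poly.fst hf)) (NPC.Poly.const 6))
    (NPC.Poly.decide_eq (NPC.Poly.fst (NPC.Poly.fst hf)) (NPC.Poly.const 7))

theorem dep_poly {st : α → List Fr} (h : NPC.Poly st) : NPC.Poly (fun x => dep (st x)) := by
  unfold dep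
  exact NPC.Poly.length (NPC.Poly.filter (p := fun _ b => isD b) h (isD_poly (NPC.Poly.snd NPC.Poly.id)))

/-- The step of the recursion for `dep` and `res`. -/
def resF (x : ℕ) (f : Fr) (s : ℕ × It) : ℕ × It :=
  (if isD f = true then s.1 + 1 else s.1, if f.1 = (8, x) then (3, s.1) else s.2)

theorem resF_foldr (x : ℕ) (st : List Fr) :
    st.foldr (resF x) (0, (2, x)) = (dep st, res x st) := by
  induction st with
  | nil => rfl
  | cons f st ih =>
    rw [List.foldr_cons, ih, dep_cons]
    rfl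

theorem res_poly {x : α → ℕ} {st : α → List Fr} (hx : NPC.Poly x) (h : NPC.Poly st) :
    NPC.Poly (fun a => res (x a) (st a)) := by
  obtain ⟨r, hr⟩ := h.sz_le
  obtain ⟨r', hr'⟩ := hx.sz_le
  have key : NPC.Poly (fun a => (st a).foldr (resF (x a)) (0, (2, x a))) := by
    refine NPC.Poly.foldr (l := st) (s := fun a => ((0, (2, x a)) : ℕ × It))
      (F := fun a f s => resF (x a) f s) h (NPC.Poly.pair (NPC.Poly.const 0) (NPC.Poly.pair (NPC.Poly.const 2) hx)) ?_
      (Polynomial.C 8 * r + r' + Polynomial.C 22) ?_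
    · unfold resF
      refine NPC.Poly.pair (NPC.Poly.ite (NPC.Poly.decide_bool (isD_poly (NPC.Poly.fst (NPC.Poly.snd NPC.Poly.id))))
        (NPC.Poly.succ (NPC.Poly.fst (NPC.Poly.snd (NPC.Poly.snd NPC.Poly.id)))) (NPC.Poly.fst (NPC.Poly.snd (NPC.Poly.snd NPC.Poly.id))))
        (NPC.Poly.ite (NPC.Poly.decide_eq (NPC.Poly.fst (NPC.Poly.fst (NPC.Poly.snd NPC.Poly.id)))
          (NPC.Poly.pair (NPC.Poly.const 8) (hx.comp (NPC.Poly.fst NPC.Poly.id))))
          (NPC.Poly.pair (NPC.Poly.const 3) (NPC.Poly.fst (NPC.Poly.snd (NPC.Poly.snd NPC.Poly.id))))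
          (NPC.Poly.snd (NPC.Poly.snd (NPC.Poly.snd NPC.Poly.id))))
    · intro a k hk
      rw [resF_foldr]
      have h1 := sz_lin (dep ((st a).drop k))
      have h2 := dep_le ((st a).drop k)
      have h3 := sz_res (x a) ((st a).drop k)
      have h4 : ((st a).drop k).length ≤ (st a).length := by simp
      have h5 := length_lt_sz (st a)
      have h6 := hr a
      have h7 := hr' a
      simp only [sz_pair, Polynomial.eval_add, Polynomial.eval_mul, Polynomial.eval_C]
      omega
  exact (NPC.Poly.snd key).congr fun a => by rw [resF_foldr]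

theorem rsv_poly {p x : α → ℕ} {st : α → List Fr} (hp : NPC.Poly p) (hx : NPC.Poly x) (h : NPC.Poly st) :
    NPC.Poly (fun a => rsv (p a) (x a) (st a)) := by
  unfold rsv
  refine NPC.Poly.ite (NPC.Poly.decide_eq (res_poly hx h) (NPC.Poly.pair (NPC.Poly.const 3) (dep_poly h)))
    (NPC.Poly.const _) (NPC.Poly.ite (NPC.Poly.decide_eq (NPC.Poly.fst (res_poly hx h)) (NPC.Poly.const 3))
      (NPC.Poly.pair (NPC.Poly.const 3) (NPC.Poly.min (NPC.Poly.snd (res_poly hx h)) hp)) (res_poly hx h))

theorem updF_poly {C : ℕ → ℕ → Bool} (hC : NPC.Poly (fun p : ℕ × ℕ => C p.1 p.2)) {f : α → Fr}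
    {s : α → List It} (hf : NPC.Poly f) (hs : NPC.Poly s) : NPC.Poly (fun a => updF C (f a) (s a)) := by
  unfold updF
  refine NPC.Poly.ite (NPC.Poly.decide_eq (NPC.Poly.fst (NPC.Poly.fst hf)) (NPC.Poly.const 3))
    (NPC.Poly.pair (NPC.Poly.fst hf) (NPC.Poly.pair (NPC.Poly.fst (NPC.Poly.snd hf)) (NPC.Poly.ite
      (NPC.Poly.decide_bool (hC.comp (NPC.Poly.pair (NPC.Poly.snd (NPC.Poly.fst hf)) (NPC.Poly.fst (NPC.Poly.snd hf)))))
      (xm_poly (NPC.Poly.snd (NPC.Poly.snd hf)) hs) (NPC.Poly.snd (NPC.Poly.snd hf)))))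
    (NPC.Poly.pair (NPC.Poly.fst hf) (NPC.Poly.pair (NPC.Poly.fst (NPC.Poly.snd hf)) hs))

/-- The step of the recursion for `dlv`. -/
def dlvF (C : ℕ → ℕ → Bool) (s : List It) (f : Fr) (r : List Fr × List Fr) : List Fr × List Fr :=
  (f :: r.1, if f.1.1 = 8 then r.2 else updF C f s :: r.1)

theorem dlvF_foldr (C : ℕ → ℕ → Bool) (s : List It) (st : List Fr) :
    st.foldr (dlvF C s) ([], []) = (st, dlv C s st) := by
  induction st with
  | nil => rfl
  | cons f st ih =>
    rw [List.foldr_cons, ih]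
    rfl

theorem dlv_poly {C : ℕ → ℕ → Bool} (hC : NPC.Poly (fun p : ℕ × ℕ => C p.1 p.2)) {s : α → List It}
    {st : α → List Fr} (hs : NPC.Poly s) (h : NPC.Poly st) : NPC.Poly (fun a => dlv C (s a) (st a)) := by
  obtain ⟨r, hr⟩ := h.sz_le
  obtain ⟨r', hr'⟩ := hs.sz_le
  have key : NPC.Poly (fun a => (st a).foldr (dlvF C (s a)) ([], [])) := by
    refine NPC.Poly.foldr (l := st) (s := fun _ => (([], []) : List Fr × List Fr))
      (F := fun a f r => dlvF C (s a) f r) h (NPC.Poly.const _) ?_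
      (Polynomial.C 2 * r + r' + Polynomial.C 1) ?_
    · unfold dlvF
      have f1 : NPC.Poly (fun p : α × Fr × List Fr × List Fr => p.2.1) := NPC.Poly.fst (NPC.Poly.snd NPC.Poly.id)
      have f2 : NPC.Poly (fun p : α × Fr × List Fr × List Fr => p.2.2) := NPC.Poly.snd (NPC.Poly.snd NPC.Poly.id)
      refine NPC.Poly.pair (NPC.Poly.cons f1 (NPC.Poly.fst f2))
        (NPC.Poly.ite (NPC.Poly.decide_eq (NPC.Poly.fst (NPC.Poly.fst f1)) (NPC.Poly.const 8)) (NPC.Poly.snd f2)
          (NPC.Poly.cons (updF_poly hC f1 (hs.comp (NPC.Poly.fst NPC.Poly.id))) (NPC.Poly.fst f2)))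
    · intro a k hk
      rw [dlvF_foldr]
      have h1 := NPC.Poly.sz_drop_le (st a) k
      have h2 := sz_dlv C (s a) ((st a).drop k)
      have h6 := hr a
      have h7 := hr' a
      simp only [sz_pair, Polynomial.eval_add, Polynomial.eval_mul, Polynomial.eval_C]
      omega
  exact (NPC.Poly.snd key).congr fun a => by rw [dlvF_foldr]

theorem eqs_poly {s s' : α → List It} (hs : NPC.Poly s) (hs' : NPC.Poly s') :
    NPC.Poly (fun a => eqs (s a) (s' a)) := by
  unfold eqs
  exact NPC.Poly.and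
    (NPC.Poly.all (p := fun x b => decide (b ∈ s' x)) hs
      ((NPC.Poly.decide_mem (NPC.Poly.snd NPC.Poly.id) (hs'.comp (NPC.Poly.fst NPC.Poly.id))).congr
        fun _ => decide_eq_decide.2 Iff.rfl))
    (NPC.Poly.all (p := fun x b => decide (b ∈ s x)) hs'
      ((NPC.Poly.decide_mem (NPC.Poly.snd NPC.Poly.id) (hs.comp (NPC.Poly.fst NPC.Poly.id))).congr
        fun _ => decide_eq_decide.2 Iff.rfl))

/-- The step of the recursion for `fnd`. -/
def fndF (s : List It) (e : ℕ × List It) (r : Option ℕ) : Option ℕ :=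
  if eqs e.2 s = true then some e.1 else r

theorem fndF_foldr (s : List It) (Tb : Tab) : Tb.foldr (fndF s) none = fnd s Tb := by
  induction Tb with
  | nil => rfl
  | cons e Tb ih =>
    rw [List.foldr_cons, ih]
    rfl

theorem fnd_poly {s : α → List It} {Tb : α → Tab} (hs : NPC.Poly s) (h : NPC.Poly Tb) :
    NPC.Poly (fun a => fnd (s a) (Tb a)) := by
  obtain ⟨r, hr⟩ := h.sz_le
  have key : NPC.Poly (fun a => (Tb a).foldr (fndF (s a)) none) := by
    refine NPC.Poly.foldr (l := Tb) (s := fun _ => (none : Option ℕ))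
      (F := fun a f r => fndF (s a) f r) h (NPC.Poly.const _) ?_ (r + Polynomial.C 2) ?_
    · unfold fndF
      have f1 : NPC.Poly (fun p : α × (ℕ × List It) × Option ℕ => p.2.1) := NPC.Poly.fst (NPC.Poly.snd NPC.Poly.id)
      exact NPC.Poly.ite (NPC.Poly.decide_bool (eqs_poly (NPC.Poly.snd f1) (hs.comp (NPC.Poly.fst NPC.Poly.id))))
        (NPC.Poly.some (NPC.Poly.fst f1)) (NPC.Poly.snd (NPC.Poly.snd NPC.Poly.id))
    · intro a k hk
      rw [fndF_foldr]
      have h1 := NPC.Poly.sz_drop_le (Tb a) k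
      have h2 := sz_fnd (s a) ((Tb a).drop k)
      have h6 := hr a
      simp only [Polynomial.eval_add, Polynomial.eval_C]
      omega
  exact key.congr fun a => by rw [fndF_foldr]

theorem cls_poly (τ : Bool) {p : α → ℕ} {Tb : α → Tab} {s : α → List It} (hp : NPC.Poly p)
    (h : NPC.Poly Tb) (hs : NPC.Poly s) : NPC.Poly (fun a => cls τ (p a) (Tb a) (s a)) := by
  have one : NPC.Poly (fun _ : α => ([(4, 0)] : List It)) := NPC.Poly.const _
  have o1 : NPC.Poly (fun x : α × ℕ => (((Tb x.1, [(6, Min.min x.2 (p x.1))]) : Tab × List It))) :=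
    NPC.Poly.pair (h.comp (NPC.Poly.fst NPC.Poly.id)) (NPC.Poly.cons (NPC.Poly.pair (NPC.Poly.const 6)
      (NPC.Poly.min (NPC.Poly.snd NPC.Poly.id) (hp.comp (NPC.Poly.fst NPC.Poly.id)))) (NPC.Poly.const []))
  have o2 : NPC.Poly (fun a : α => (((Tb a ++ [(p a, s a)], [(6, p a)]) : Tab × List It))) :=
    NPC.Poly.pair (NPC.Poly.append h (NPC.Poly.cons (NPC.Poly.pair hp hs) (NPC.Poly.const [])))
      (NPC.Poly.cons (NPC.Poly.pair (NPC.Poly.const 6) hp) (NPC.Poly.const []))
  have o3 := NPC.Poly.optCases (fnd_poly hs h) (g := fun a => (((Tb a ++ [(p a, s a)], [(6, p a)]) :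
    Tab × List It))) (h := fun a q => (((Tb a, [(6, Min.min q (p a))]) : Tab × List It))) o2 o1
  have o4 := NPC.Poly.ite (p := fun a => s a = []) (NPC.Poly.decide_eq hs (NPC.Poly.const []))
    (NPC.Poly.pair h (NPC.Poly.const ([] : List It)))
    (NPC.Poly.ite (p := fun a => τ = true ∧ s a = [(4, 0)])
      (NPC.Poly.decide_and (p := fun _ => τ = true) (NPC.Poly.const _) (NPC.Poly.decide_eq hs one))
      (NPC.Poly.pair h one) o3)
  refine o4.congr fun a => ?_
  unfold cls
  split_ifs
  · rfl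
  · rfl
  · cases fnd (s a) (Tb a) <;> rfl

theorem setI_poly {i : α → ℕ} {st : α → List Fr} (hi : NPC.Poly i) (h : NPC.Poly st) :
    NPC.Poly (fun a => setI (i a) (st a)) := by
  have f1 : NPC.Poly (fun p : α × Fr × List Fr => p.2.1) := NPC.Poly.fst (NPC.Poly.snd NPC.Poly.id)
  refine (NPC.Poly.listCases (l := st) (g := fun _ => ([] : List Fr))
    (h := fun a f t => ((f.1, i a, f.2.2) : Fr) :: t) h (NPC.Poly.const _)
    (NPC.Poly.cons (NPC.Poly.pair (NPC.Poly.fst f1) (NPC.Poly.pair (hi.comp (NPC.Poly.fst NPC.Poly.id))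
      (NPC.Poly.snd (NPC.Poly.snd f1)))) (NPC.Poly.snd (NPC.Poly.snd NPC.Poly.id)))).congr fun a => ?_
  cases st a <;> rfl

theorem stp_poly (τ : Bool) {C : ℕ → ℕ → Bool} {c0 : ℕ → Bool}
    (hC : NPC.Poly (fun p : ℕ × ℕ => C p.1 p.2)) (hc : NPC.Poly c0) {S : α → Tab × List Fr}
    {x : α → Tok × ℕ} (hS : NPC.Poly S) (hx : NPC.Poly x) : NPC.Poly (fun a => stp τ C c0 (S a) (x a)) := by
  have one : ∀ {β : Type} [TEnc β], NPC.Poly (fun _ : β => ([(4, 0)] : List It)) := NPC.Poly.const _
  have x1 := NPC.Poly.fst hx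
  have xt := NPC.Poly.fst x1
  have xy := NPC.Poly.snd x1
  have xp := NPC.Poly.snd hx
  have S1 := NPC.Poly.fst hS
  have S2 := NPC.Poly.snd hS
  -- the case of a closing token
  have h5 : NPC.Poly (fun a => match (S a).2 with
      | [] => S a
      | f :: st =>
        if (x a).1.2 = 0 then ((S a).1, dlv C f.2.2 st)
        else if f.1.1 = 7 then
          ((cls τ (x a).2 (S a).1 (xm f.2.2 [(4, 0)])).1,
            dlv C (xm (cls τ (x a).2 (S a).1 (xm f.2.2 [(4, 0)])).2 [(4, 0)]) st)
        else ((cls τ (x a).2 (S a).1 f.2.2).1, dlv C (cls τ (x a).2 (S a).1 f.2.2).2 st)) := by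
    have f1 : NPC.Poly (fun p : α × Fr × List Fr => p.2.1) := NPC.Poly.fst (NPC.Poly.snd NPC.Poly.id)
    have f2 : NPC.Poly (fun p : α × Fr × List Fr => p.2.2) := NPC.Poly.snd (NPC.Poly.snd NPC.Poly.id)
    have fl := NPC.Poly.snd (NPC.Poly.snd f1)
    have y1 := xy.comp (NPC.Poly.fst (NPC.Poly.id (α := α × Fr × List Fr)))
    have yp := xp.comp (NPC.Poly.fst (NPC.Poly.id (α := α × Fr × List Fr)))
    have T1 := S1.comp (NPC.Poly.fst (NPC.Poly.id (α := α × Fr × List Fr)))
    have c1 := cls_poly τ yp T1 (xm_poly fl one)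
    have c2 := cls_poly τ yp T1 fl
    refine (NPC.Poly.listCases (l := fun a => (S a).2) (g := fun a => S a)
      (h := fun a f st => if (x a).1.2 = 0 then ((S a).1, dlv C f.2.2 st)
        else if f.1.1 = 7 then
          ((cls τ (x a).2 (S a).1 (xm f.2.2 [(4, 0)])).1,
            dlv C (xm (cls τ (x a).2 (S a).1 (xm f.2.2 [(4, 0)])).2 [(4, 0)]) st)
        else ((cls τ (x a).2 (S a).1 f.2.2).1, dlv C (cls τ (x a).2 (S a).1 f.2.2).2 st))
      S2 hS ?_).congr fun a => by cases (S a).2 <;> rfl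
    exact NPC.Poly.ite (NPC.Poly.decide_eq y1 (NPC.Poly.const 0)) (NPC.Poly.pair T1 (dlv_poly hC fl f2))
      (NPC.Poly.ite (NPC.Poly.decide_eq (NPC.Poly.fst (NPC.Poly.fst f1)) (NPC.Poly.const 7))
        (NPC.Poly.pair (NPC.Poly.fst c1) (dlv_poly hC (xm_poly (NPC.Poly.snd c1) one) f2))
        (NPC.Poly.pair (NPC.Poly.fst c2) (dlv_poly hC (NPC.Poly.snd c2) f2)))
  have h0 := NPC.Poly.ite (p := fun a => (x a).1.1 = 0 ∨ (x a).1.1 = 1)
    (NPC.Poly.decide_or (NPC.Poly.decide_eq xt (NPC.Poly.const 0)) (NPC.Poly.decide_eq xt (NPC.Poly.const 1)))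
    (NPC.Poly.pair S1 (dlv_poly hC (NPC.Poly.cons x1 (NPC.Poly.const [])) S2))
    (NPC.Poly.ite (p := fun a => (x a).1.1 = 2) (NPC.Poly.decide_eq xt (NPC.Poly.const 2))
      (NPC.Poly.pair S1 (dlv_poly hC (NPC.Poly.cons (rsv_poly xp xy S2) (NPC.Poly.const [])) S2))
      (NPC.Poly.ite (p := fun a => (x a).1.1 = 3) (NPC.Poly.decide_eq xt (NPC.Poly.const 3))
        (NPC.Poly.pair S1 (NPC.Poly.cons (NPC.Poly.pair x1 (NPC.Poly.pair (NPC.Poly.const 0)
          (NPC.Poly.ite (NPC.Poly.decide_bool (hc.comp xy)) one (NPC.Poly.const [])))) S2))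
        (NPC.Poly.ite (p := fun a => (x a).1.1 = 4) (NPC.Poly.decide_eq xt (NPC.Poly.const 4))
          (NPC.Poly.pair S1 (setI_poly (NPC.Poly.succ xy) S2))
          (NPC.Poly.ite (p := fun a => (x a).1.1 = 5) (NPC.Poly.decide_eq xt (NPC.Poly.const 5)) h5
            (NPC.Poly.pair S1 (NPC.Poly.cons (NPC.Poly.pair x1 (NPC.Poly.pair (NPC.Poly.const 0) (NPC.Poly.const [])))
              S2))))))
  refine h0.congr fun a => ?_
  unfold stp
  cases h : (S a).2 <;> rfl

end

end PB1

open PB1

theorem b1 : B1 := by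
  intro τ C c0 hC hc
  have hz : NPC.Poly (fun w : List Tok => w.zipIdx) := NPC.Poly.zipIdx NPC.Poly.id
  obtain ⟨r, hr⟩ := hz.sz_le
  have hfold : NPC.Poly (fun w : List Tok => w.zipIdx.foldl (stp τ C c0) ([], rt)) := by
    refine NPC.Poly.foldl (l := fun w : List Tok => w.zipIdx)
      (s := fun _ => (([], rt) : Tab × List Fr)) (F := fun _ S x => stp τ C c0 S x) hz
      (NPC.Poly.const _) (stp_poly τ hC hc (NPC.Poly.fst (NPC.Poly.snd NPC.Poly.id)) (NPC.Poly.snd (NPC.Poly.snd NPC.Poly.id)))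
      (Polynomial.C (sz (([], rt) : Tab × List Fr)) + r * (Polynomial.C 3 * r + Polynomial.C 140)
        + Polynomial.C 1) ?_
    intro w k hk
    have h1 := sz_fold τ C c0 (r.eval (sz w)) (w.zipIdx.take k) (fun x hx => by
      have := sz_le_of_mem (List.mem_of_mem_take hx)
      have := hr w
      omega) ([], rt)
    have h2 : (w.zipIdx.take k).length ≤ r.eval (sz w) := by
      have e1 := length_lt_sz w.zipIdx
      have e2 := hr w
      have e3 : (w.zipIdx.take k).length ≤ w.zipIdx.length := by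
        rw [List.length_take]
        exact Nat.min_le_right _ _
      omega
    have h3 := Nat.mul_le_mul_right (3 * r.eval (sz w) + 140) h2
    simp only [Polynomial.eval_add, Polynomial.eval_mul, Polynomial.eval_C]
    have h4 : sz ((w.zipIdx.take k).foldl (stp τ C c0) ([], rt)) =
        sz ((w.zipIdx.take k).foldl (stp τ C c0) ([], rt)).1 +
          sz ((w.zipIdx.take k).foldl (stp τ C c0) ([], rt)).2 + 1 := sz_pair _ _
    rw [h4]
    have h5 : sz (([], rt) : Tab × List Fr) = sz (([], rt) : Tab × List Fr).1 +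
      sz (([], rt) : Tab × List Fr).2 + 1 := sz_pair _ _
    omega
  unfold dec
  exact NPC.Poly.not (NPC.Poly.isEmpty (NPC.Poly.snd (NPC.Poly.snd (NPC.Poly.head?_getD (NPC.Poly.snd hfold) _))))

end Pool.Agent.H75C.HY.NF
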