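import Pool.Agent.H75C.HY.NFA4

/-!
# Satisfiability in terms of supports
-/

set_option autoImplicit false

namespace Pool.Agent.H75C.HY.NF

open Pool.Agent.NPC Pool.Agent.H75C.HY

open Classical

theorem sem_aux (h1 : A1) (h4 : A4) (h6 : A6) {𝔅 : Base} (haff : ∀ b : 𝔅.B, Affine (𝔅.ev b))
    {φ : Form 𝔅} (hφ : NoAt φ) {k : ℕ} (hk : md φ ≤ k) (τ : Bool) {𝔉 : FrameClass}
    (h𝔉 : ∀ K : Model, 𝔉.Mem K.R ↔ (τ = true → ∀ w, ∃ v, K.R w v)) :
    Satisfiable 𝔉 φ ↔ (sup τ φ k env0 0).Nonempty := by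
  have henv : ∀ x j, env0 x = .lv j → j ≤ 0 := by
    intro x j h
    cases h
  constructor
  · rintro ⟨K, g, w, hK, h⟩
    rw [Finset.nonempty_iff_ne_empty]
    intro h0
    set ρ : Nm → K.W := fun n => match n with
      | .nom i => K.nm i
      | .fr x => g x
      | .lv _ => w with hρ
    have h2 := (h1 𝔅 haff τ K ((h𝔉 K).1 hK) φ hφ k hk env0 0 henv ρ (fun i => rfl) g w
      (fun x => by
        rw [if_neg (by intro h; cases h)]
        rfl)).1 h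
    rw [h0] at h2
    simp [vs] at h2
  · intro h
    obtain ⟨K, ρ, w, hτ, hnm, hv⟩ := h6 τ k _ h (h4 𝔅 τ φ k env0 0 henv)
    refine ⟨K, fun x => ρ (.fr x), w, (h𝔉 K).2 hτ, ?_⟩
    exact (h1 𝔅 haff τ K hτ φ hφ k hk env0 0 henv ρ hnm (fun x => ρ (.fr x)) w
      (fun x => by
        rw [if_neg (by intro h; cases h)]
        rfl)).2 hv

theorem sem_of (h1 : A1) (h4 : A4) (h6 : A6) : Sem := by
  intro 𝔅 haff φ hφ k hk
  refine ⟨sem_aux h1 h4 h6 haff hφ hk false (fun K => ?_),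
    sem_aux h1 h4 h6 haff hφ hk true (fun K => ?_)⟩
  · exact ⟨fun _ h => (by cases h), fun _ => trivial⟩
  · exact ⟨fun h _ => h, fun h => h rfl⟩

end Pool.Agent.H75C.HY.NF
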