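import Pool.Agent.H75C.HY.One

/-!
# Small models over equivalence relations, for formulas without `@` and with affine connectives
-/

set_option autoImplicit false

namespace Pool.Agent.H75C.HY

variable {𝔅 : Base}

/-! ### Affine functions -/

theorem zmod_parity {n : ℕ} : (n : ZMod 2) = if Odd n then 1 else 0 := by
  split_ifs with h
  · exact (ZMod.natCast_eq_one_iff_odd).2 h
  · rw [Nat.not_odd_iff_even] at h
    exact (ZMod.natCast_eq_zero_iff_even).2 h

theorem Affine.xor {n : ℕ} {f : (Fin n → Bool) → Bool} (hf : Affine f) (x y : Fin n → Bool) :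
    f (fun i => Bool.xor (x i) (y i)) = Bool.xor (f x) (Bool.xor (f y) (f fun _ => false)) := by
  obtain ⟨c, s, hs⟩ := hf
  have key : ∀ z : Fin n → Bool, ((s.filter (fun i => z i = true)).card : ZMod 2) =
      ∑ i ∈ s, (if z i = true then 1 else 0) := by
    intro z
    rw [Finset.card_filter]
    push_cast
    rfl
  have h1 : ((s.filter (fun i => Bool.xor (x i) (y i) = true)).card : ZMod 2) =
      ((s.filter (fun i => x i = true)).card : ZMod 2) +
        ((s.filter (fun i => y i = true)).card : ZMod 2) := by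
    rw [key, key, key, ← Finset.sum_add_distrib]
    refine Finset.sum_congr rfl fun i _ => ?_
    cases x i <;> cases y i <;> simp
    decide
  rw [zmod_parity, zmod_parity, zmod_parity] at h1
  rw [hs, hs, hs, hs]
  have h0 : (s.filter (fun _ : Fin n => (false : Bool) = true)).card = 0 := by simp
  rw [h0]
  by_cases a1 : Odd (s.filter (fun i => x i = true)).card <;>
    by_cases a2 : Odd (s.filter (fun i => y i = true)).card <;>
    by_cases a3 : Odd (s.filter (fun i => Bool.xor (x i) (y i) = true)).card <;>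
    simp only [a1, a2, a3, if_true, if_false, decide_true, decide_false] at h1 ⊢ <;>
    first
      | (exfalso; revert h1; decide)
      | (cases c <;> simp)

/-! ### Evaluation in a set of states -/

open Classical in
/-- The truth value, where `◇` and `□` quantify over the set `C`. -/
noncomputable def cv (K : Model) (C : Set K.W) : Form 𝔅 → (ℕ → K.W) → K.W → Bool
  | .prop i, _, w => decide (K.V i w)
  | .nom i, _, w => decide (w = K.nm i)
  | .var x, g, w => decide (w = g x)
  | .app b φ, g, w => 𝔅.ev b (fun i => cv K C (φ i) g w)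
  | .dia φ, g, _ => decide (∃ v ∈ C, cv K C φ g v = true)
  | .box φ, g, _ => decide (∀ v ∈ C, cv K C φ g v = true)
  | .bind x φ, g, w => cv K C φ (Function.update g x w) w
  | .atNom _ _, _, _ => false
  | .atVar _ _, _, _ => false

theorem cv_dia {K : Model} {C : Set K.W} {φ : Form 𝔅} {g : ℕ → K.W} {w : K.W} :
    cv K C (.dia φ) g w = true ↔ ∃ v ∈ C, cv K C φ g v = true := by
  simp [cv]

theorem cv_box {K : Model} {C : Set K.W} {φ : Form 𝔅} {g : ℕ → K.W} {w : K.W} :
    cv K C (.box φ) g w = true ↔ ∀ v ∈ C, cv K C φ g v = true := by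
  simp [cv]

theorem tv_eq_cv {K : Model} {C : Set K.W} (hC : Clus K C) : ∀ (φ : Form 𝔅), NoAt φ →
    ∀ (g : ℕ → K.W), ∀ w ∈ C, tv K φ g w = cv K C φ g w := by
  intro φ
  induction φ with
  | prop i => intro _ g w _; rfl
  | nom i => intro _ g w _; rfl
  | var x => intro _ g w _; rfl
  | app b φ ih =>
    intro h g w hw
    rw [tv, cv]
    congr 1
    funext i
    exact ih i (h i) g w hw
  | dia φ ih =>
    intro h g w hw
    rw [Bool.eq_iff_iff, dia_clus hC hw, cv_dia]
    exact exists_congr fun v => and_congr_right fun hv => by rw [ih h g v hv]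
  | box φ ih =>
    intro h g w hw
    rw [Bool.eq_iff_iff, box_clus hC hw, cv_box]
    exact forall_congr' fun v => imp_congr_right fun hv => by rw [ih h g v hv]
  | bind x φ ih =>
    intro h g w hw
    rw [tv_bind, cv]
    exact ih h _ w hw
  | atNom i φ ih => intro h; exact h.elim
  | atVar i φ ih => intro h; exact h.elim

open Classical in
/-- The part of the value that comes from the propositions at the state. -/
noncomputable def tp (K : Model) : Form 𝔅 → K.W → Bool
  | .prop i, w => decide (K.V i w)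
  | .nom _, _ => false
  | .var _, _ => false
  | .app b φ, w => Bool.xor (𝔅.ev b (fun i => tp K (φ i) w)) (𝔅.ev b (fun _ => false))
  | .dia _, _ => false
  | .box _, _ => false
  | .bind _ φ, w => tp K φ w
  | .atNom _ _, _ => false
  | .atVar _ _, _ => false

/-- All propositions, nominals and variables of the formula are in `A`. -/
def Names (A : Finset ℕ) : Form 𝔅 → Prop
  | .prop i => i ∈ A
  | .nom i => i ∈ A
  | .var x => x ∈ A
  | .app _ φ => ∀ i, Names A (φ i)
  | .dia φ => Names A φ
  | .box φ => Names A φ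
  | .bind x φ => x ∈ A ∧ Names A φ
  | .atNom _ _ => True
  | .atVar _ _ => True

/-- The functions `tp` of all arguments of `◇` and `□`. -/
noncomputable def qfl (K : Model) : Form 𝔅 → List (K.W → Bool)
  | .prop _ => []
  | .nom _ => []
  | .var _ => []
  | .app _ φ => (List.ofFn (fun i => qfl K (φ i))).flatten
  | .dia φ => tp K φ :: qfl K φ
  | .box φ => tp K φ :: qfl K φ
  | .bind _ φ => qfl K φ
  | .atNom _ φ => qfl K φ
  | .atVar _ φ => qfl K φ

section Inv

variable {K : Model} {A : Finset ℕ} {S C C' : Set K.W}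

/-- The assignments are matched. -/
structure Mt (A : Finset ℕ) (S C C' : Set K.W) (g g' : ℕ → K.W) : Prop where
  inC : ∀ x ∈ A, g x ∈ C ↔ g' x ∈ C'
  inS : ∀ x ∈ A, (g x ∈ S ∨ g' x ∈ S) → g x = g' x
  eq : ∀ x ∈ A, ∀ y ∈ A, g x ∈ C → g y ∈ C → (g x = g y ↔ g' x = g' y)

/-- The states are matched. -/
structure Ms (A : Finset ℕ) (S C C' : Set K.W) (g g' : ℕ → K.W) (w w' : K.W) : Prop where
  hw : w ∈ C
  hw' : w' ∈ C'
  inS : (w ∈ S ∨ w' ∈ S) → w = w'
  eq : ∀ x ∈ A, w = g x ↔ w' = g' x

theorem Mt.symm {g g' : ℕ → K.W} (h : Mt A S C C' g g') : Mt A S C' C g' g where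
  inC := fun x hx => (h.inC x hx).symm
  inS := fun x hx h1 => (h.inS x hx h1.symm).symm
  eq := fun x hx y hy h1 h2 => (h.eq x hx y hy ((h.inC x hx).2 h1) ((h.inC y hy).2 h2)).symm

theorem Ms.symm {g g' : ℕ → K.W} {w w' : K.W} (h : Ms A S C C' g g' w w') :
    Ms A S C' C g' g w' w where
  hw := h.hw'
  hw' := h.hw
  inS := fun h1 => (h.inS h1.symm).symm
  eq := fun x hx => (h.eq x hx).symm

theorem Mt.update {g g' : ℕ → K.W} {w w' : K.W} (h : Mt A S C C' g g')
    (h' : Ms A S C C' g g' w w') (x : ℕ) :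
    Mt A S C C' (Function.update g x w) (Function.update g' x w') where
  inC := by
    intro y hy
    by_cases hyx : y = x
    · subst hyx
      rw [Function.update_self, Function.update_self]
      exact ⟨fun _ => h'.hw', fun _ => h'.hw⟩
    · rw [Function.update_of_ne hyx, Function.update_of_ne hyx]
      exact h.inC y hy
  inS := by
    intro y hy
    by_cases hyx : y = x
    · subst hyx
      rw [Function.update_self, Function.update_self]
      exact h'.inS
    · rw [Function.update_of_ne hyx, Function.update_of_ne hyx]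
      exact h.inS y hy
  eq := by
    intro y hy z hz
    by_cases hyx : y = x
    · subst hyx
      rw [Function.update_self, Function.update_self]
      by_cases hzy : z = y
      · subst hzy
        rw [Function.update_self, Function.update_self]
        exact fun _ _ => ⟨fun _ => rfl, fun _ => rfl⟩
      · rw [Function.update_of_ne hzy, Function.update_of_ne hzy]
        exact fun _ _ => h'.eq z hz
    · rw [Function.update_of_ne hyx, Function.update_of_ne hyx]
      by_cases hzx : z = x
      · subst hzx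
        rw [Function.update_self, Function.update_self]
        intro _ _
        rw [eq_comm, h'.eq y hy, eq_comm]
      · rw [Function.update_of_ne hzx, Function.update_of_ne hzx]
        exact h.eq y hy z hz

theorem Ms.update {g g' : ℕ → K.W} {w w' : K.W} (h' : Ms A S C C' g g' w w') (x : ℕ) :
    Ms A S C C' (Function.update g x w) (Function.update g' x w') w w' where
  hw := h'.hw
  hw' := h'.hw'
  inS := h'.inS
  eq := by
    intro y hy
    by_cases hyx : y = x
    · subst hyx
      rw [Function.update_self, Function.update_self]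
      exact ⟨fun _ => rfl, fun _ => rfl⟩
    · rw [Function.update_of_ne hyx, Function.update_of_ne hyx]
      exact h'.eq y hy

/-- More than `n` elements of `D` have the value `c`. -/
def Many {W : Type} (n : ℕ) (D : Set W) (f : W → Bool) (c : Bool) : Prop :=
  ∃ t : Finset W, n < t.card ∧ ∀ v ∈ t, v ∈ D ∧ f v = c

theorem Many.fresh {W : Type} {A : Finset ℕ} {D : Set W} {f : W → Bool} {c : Bool}
    (h : Many A.card D f c) (g : ℕ → W) : ∃ v ∈ D, f v = c ∧ ∀ x ∈ A, v ≠ g x := by
  classical
  obtain ⟨t, ht, h1⟩ := h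
  have h2 : (A.image g).card < t.card := lt_of_le_of_lt Finset.card_image_le ht
  obtain ⟨v, hv, hv'⟩ := Finset.exists_mem_notMem_of_card_lt_card h2
  refine ⟨v, (h1 v hv).1, (h1 v hv).2, fun x hx h3 => hv' ?_⟩
  rw [h3]
  exact Finset.mem_image_of_mem g hx

theorem Many.exists {W : Type} {n : ℕ} {D : Set W} {f : W → Bool} {c : Bool}
    (h : Many n D f c) : ∃ v ∈ D, f v = c := by
  obtain ⟨t, ht, h1⟩ := h
  obtain ⟨v, hv⟩ := Finset.card_pos.1 (lt_of_le_of_lt (Nat.zero_le _) ht)
  exact ⟨v, h1 v hv⟩

theorem ms_of_fresh {g g' : ℕ → K.W} {u u' : K.W} (hu : u ∈ C \ S) (hu' : u' ∈ C' \ S)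
    (h : ∀ x ∈ A, u ≠ g x) (h' : ∀ x ∈ A, u' ≠ g' x) : Ms A S C C' g g' u u' where
  hw := hu.1
  hw' := hu'.1
  inS := fun h1 => (h1.elim hu.2 hu'.2).elim
  eq := fun x hx => ⟨fun h1 => (h x hx h1).elim, fun h1 => (h' x hx h1).elim⟩

/-- The existence of a state with value `t` is transferred. -/
theorem transfer {g g' : ℕ → K.W} (hg : Mt A S C C' g g') (hS' : S ⊆ C')
    (f : K.W → Bool) (F F' : K.W → Bool)
    (hM : ∀ c, (∃ v ∈ C \ S, f v = c) → Many A.card (C \ S) f c ∧ Many A.card (C' \ S) f c)
    (hM' : ∀ c, (∃ v ∈ C' \ S, f v = c) → Many A.card (C \ S) f c ∧ Many A.card (C' \ S) f c)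
    (ih : ∀ v v', Ms A S C C' g g' v v' → Bool.xor (F v) (f v) = Bool.xor (F' v') (f v'))
    (t : Bool) (h : ∃ v ∈ C, F v = t) : ∃ v ∈ C', F' v = t := by
  obtain ⟨v, hv, ht⟩ := h
  by_cases hvS : v ∈ S
  · refine ⟨v, hS' hvS, ?_⟩
    have h1 := ih v v ⟨hv, hS' hvS, fun _ => rfl, fun x hx => ?_⟩
    · rw [← ht]
      revert h1
      cases F v <;> cases f v <;> cases F' v <;> simp
    · constructor
      · intro h2
        rw [h2] at hvS ⊢
        exact hg.inS x hx (Or.inl hvS)
      · intro h2
        rw [h2] at hvS ⊢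
        exact (hg.inS x hx (Or.inr hvS)).symm
  · by_cases hx : ∃ x ∈ A, v = g x
    · obtain ⟨x, hx, rfl⟩ := hx
      have h1 : g' x ∈ C' := (hg.inC x hx).1 hv
      have h2 : g' x ∉ S := fun h2 => hvS (by rw [hg.inS x hx (Or.inr h2)]; exact h2)
      have h3 := ih (g x) (g' x) ⟨hv, h1, fun h3 => (h3.elim hvS h2).elim, fun y hy => by
        constructor
        · intro h4
          exact (hg.eq x hx y hy hv (h4 ▸ hv)).1 h4
        · intro h4
          exact (hg.eq x hx y hy hv ((hg.inC y hy).2 (h4 ▸ h1))).2 h4⟩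
      by_cases h4 : f (g x) = f (g' x)
      · refine ⟨g' x, h1, ?_⟩
        rw [← h4, ht] at h3
        revert h3
        cases t <;> cases f (g x) <;> cases F' (g' x) <;> simp
      · obtain ⟨m1, m2⟩ := hM (f (g x)) ⟨g x, ⟨hv, hvS⟩, rfl⟩
        obtain ⟨m3, m4⟩ := hM' (f (g' x)) ⟨g' x, ⟨h1, h2⟩, rfl⟩
        obtain ⟨u, hu, hfu, hu2⟩ := m1.fresh g
        have m5 : ∀ c, Many A.card (C' \ S) f c := by
          intro c
          by_cases hc : c = f (g x)
          · rw [hc]; exact m2
          · have : c = f (g' x) := by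
              revert hc h4
              cases c <;> cases f (g x) <;> cases f (g' x) <;> simp
            rw [this]; exact m4
        obtain ⟨u', hu', hfu', hu2'⟩ :=
          (m5 (Bool.xor (F u) (Bool.xor (f u) t))).fresh g'
        have h5 := ih u u' (ms_of_fresh hu hu' hu2 hu2')
        refine ⟨u', hu'.1, ?_⟩
        rw [hfu'] at h5
        revert h5
        cases F u <;> cases f u <;> cases t <;> cases F' u' <;> simp
    · push Not at hx
      obtain ⟨_, m2⟩ := hM (f v) ⟨v, ⟨hv, hvS⟩, rfl⟩
      obtain ⟨u', hu', hfu', hu2'⟩ := m2.fresh g'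
      have h5 := ih v u' (ms_of_fresh ⟨hv, hvS⟩ hu' hx hu2')
      refine ⟨u', hu'.1, ?_⟩
      rw [hfu', ht] at h5
      revert h5
      cases t <;> cases f v <;> cases F' u' <;> simp

/-- **Invariance.** -/
theorem inv (haff : ∀ b : 𝔅.B, Affine (𝔅.ev b)) (hS : S ⊆ C) (hS' : S ⊆ C')
    (hN : ∀ i ∈ A, K.nm i ∈ C → K.nm i ∈ S) (hN' : ∀ i ∈ A, K.nm i ∈ C' → K.nm i ∈ S) :
    ∀ (φ : Form 𝔅), NoAt φ → Names A φ →
      (∀ f ∈ qfl K φ, ∀ c, ((∃ v ∈ C \ S, f v = c) ∨ (∃ v ∈ C' \ S, f v = c)) →
        Many A.card (C \ S) f c ∧ Many A.card (C' \ S) f c) →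
      ∀ (g g' : ℕ → K.W) (w w' : K.W), Mt A S C C' g g' → Ms A S C C' g g' w w' →
        Bool.xor (cv K C φ g w) (tp K φ w) = Bool.xor (cv K C' φ g' w') (tp K φ w') := by
  intro φ
  induction φ with
  | prop i => intro _ _ _ g g' w w' _ _; simp [cv, tp]
  | nom i =>
    intro _ hA _ g g' w w' _ h'
    have : w = K.nm i ↔ w' = K.nm i := by
      constructor
      · intro h
        have h1 : K.nm i ∈ S := hN i hA (h ▸ h'.hw)
        rw [← h'.inS (Or.inl (h ▸ h1)), h]
      · intro h
        have h1 : K.nm i ∈ S := hN' i hA (h ▸ h'.hw')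
        rw [h'.inS (Or.inr (h ▸ h1)), h]
    simp [cv, tp, this]
  | var x =>
    intro _ hA _ g g' w w' _ h'
    have := h'.eq x hA
    simp [cv, tp, this]
  | app b φ ih =>
    intro hφ hA hQ g g' w w' h h'
    have e : ∀ (D : Set K.W) (g : ℕ → K.W) (w : K.W),
        Bool.xor (cv K D (Form.app b φ) g w) (tp K (Form.app b φ) w) =
          𝔅.ev b (fun i => Bool.xor (cv K D (φ i) g w) (tp K (φ i) w)) := by
      intro D g w
      rw [(haff b).xor]
      rfl
    rw [e, e]
    congr 1
    funext i
    exact ih i (hφ i) (hA i) (fun f hf => hQ f (by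
      rw [qfl, List.mem_flatten]
      exact ⟨_, List.mem_ofFn.2 ⟨i, rfl⟩, hf⟩)) g g' w w' h h'
  | dia φ ih =>
    intro hφ hA hQ g g' w w' h h'
    have hq := hQ (tp K φ) (by rw [qfl]; exact List.mem_cons_self)
    have ih' := ih hφ hA (fun f hf => hQ f (by rw [qfl]; exact List.mem_cons_of_mem _ hf))
    have : (∃ v ∈ C, cv K C φ g v = true) ↔ ∃ v ∈ C', cv K C' φ g' v = true := by
      constructor
      · exact transfer h hS' (tp K φ) _ _ (fun c hc => hq c (Or.inl hc))
          (fun c hc => hq c (Or.inr hc)) (fun v v' hv => ih' g g' v v' h hv) true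
      · exact transfer h.symm hS (tp K φ) _ _ (fun c hc => (hq c (Or.inr hc)).symm)
          (fun c hc => (hq c (Or.inl hc)).symm) (fun v v' hv => (ih' g g' v' v h hv.symm).symm) true
    simp [cv, tp, this]
  | box φ ih =>
    intro hφ hA hQ g g' w w' h h'
    have hq := hQ (tp K φ) (by rw [qfl]; exact List.mem_cons_self)
    have ih' := ih hφ hA (fun f hf => hQ f (by rw [qfl]; exact List.mem_cons_of_mem _ hf))
    have h1 : (∃ v ∈ C, cv K C φ g v = false) ↔ ∃ v ∈ C', cv K C' φ g' v = false := by
      constructor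
      · exact transfer h hS' (tp K φ) _ _ (fun c hc => hq c (Or.inl hc))
          (fun c hc => hq c (Or.inr hc)) (fun v v' hv => ih' g g' v v' h hv) false
      · exact transfer h.symm hS (tp K φ) _ _ (fun c hc => (hq c (Or.inr hc)).symm)
          (fun c hc => (hq c (Or.inl hc)).symm)
            (fun v v' hv => (ih' g g' v' v h hv.symm).symm) false
    have : (∀ v ∈ C, cv K C φ g v = true) ↔ ∀ v ∈ C', cv K C' φ g' v = true := by
      rw [← not_iff_not]
      push Not
      simp only [Bool.not_eq_true]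
      exact h1
    simp [cv, tp, this]
  | bind x φ ih =>
    intro hφ hA hQ g g' w w' h h'
    exact ih hφ hA.2 hQ _ _ w w' (h.update h' x) (h'.update x)
  | atNom i φ ih => intro h; exact h.elim
  | atVar i φ ih => intro h; exact h.elim

end Inv

end Pool.Agent.H75C.HY
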