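import Pool.Agent.H75C.HY.NFA
import Pool.Agent.H75C.HY.Small
import Pool.Agent.NPC.Classes

/-!
# Polynomial time over all frames and over total frames: conclusion
-/

set_option autoImplicit false

namespace Pool.Agent.H75C.HY.NF

open Pool.Agent.NPC Pool.Agent.H75C.HY

variable {𝔅 : Base}

theorem alg_of (h1 : B1) (h2 : B2) (h3 : B3) (h4 : B4) : Alg := by
  intro 𝔅 haff τ
  obtain ⟨C, c0, hC, hc0, hb⟩ := h2 𝔅
  refine ⟨dec τ C c0, h1 τ C c0 hC hc0, fun φ hφ k hk => ?_⟩
  have hg : Good τ 0 [] := ⟨by simp, by simp, by simp, by simp, by simp, by simp⟩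
  obtain ⟨Tb', s, hfold, hgood, _, hs, hk'⟩ := h4 𝔅 haff τ C c0 hb φ hφ 0 [] rt hg (by simp [dep, rt, isD])
  obtain ⟨hv, hsup⟩ := hk' k hk
  have hdec : dec τ C c0 (pr φ) = !s.isEmpty := by
    unfold dec
    rw [hfold]
    simp [rt, dlv, updF]
  have henv : envO rt = env0 := by
    funext x
    simp [envO, rt, res, nmO, env0]
  have hdep : dep rt = 0 := by simp [dep, rt, isD]
  rw [henv, hdep] at hsup
  rw [hdec, ← hsup]
  constructor
  · intro h
    rw [Finset.nonempty_iff_ne_empty]
    intro h0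
    have := h3 τ _ Tb' hgood k s hs hv h0
    rw [this] at h
    simp at h
  · rintro h
    cases s with
    | nil =>
      exfalso
      obtain ⟨e, he⟩ := h
      simp [ISet] at he
    | cons a s => simp

theorem md_le_length (φ : Form 𝔅) : md φ ≤ (pr φ).length := by
  induction φ with
  | prop i => simp [md]
  | nom i => simp [md]
  | var x => simp [md]
  | app b φ ih =>
    rw [md, Finset.sup_le_iff]
    intro i _
    refine (ih i).trans ?_
    rw [pr_app, List.length_cons, List.length_append, List.length_flatten, List.map_ofFn]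
    have h1 : (pr (φ i)).length ≤ (List.ofFn (List.length ∘ fun i => pr (φ i) ++
        [((4, (i : ℕ)) : Tok)])).sum := by
      rw [List.sum_ofFn]
      refine le_trans ?_ (Finset.single_le_sum (f := fun i => (List.length ∘ fun i => pr (φ i) ++
        [((4, (i : ℕ)) : Tok)]) i) (fun _ _ => Nat.zero_le _) (Finset.mem_univ i))
      simp
    omega
  | dia φ ih => simp only [md, pr, List.length_cons, List.length_append, List.length_nil]; omega
  | box φ ih => simp only [md, pr, List.length_cons, List.length_append, List.length_nil]; omega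
  | bind x φ ih => simp only [md, pr, List.length_cons]; omega
  | atNom i φ ih => simp [md]
  | atVar i φ ih => simp [md]

/-- **Satisfiability over all frames and over total frames is in `P`.** -/
theorem inP_of (hA : PartA) (hsem : Sem) (halg : Alg) (haff : ∀ b : 𝔅.B, Affine (𝔅.ev b))
    {𝔉 : FrameClass} (h𝔉 : 𝔉 = .all ∨ 𝔉 = .total) : InP (SatO1 𝔉 𝔅) := by
  obtain ⟨wf, hwf, hwf'⟩ := hA 𝔅
  obtain ⟨f, hf, hf'⟩ : ∃ f : List Tok → Bool, NPC.Poly f ∧ ∀ φ : Form 𝔅, NoAt φ →
      (f (pr φ) = true ↔ Satisfiable 𝔉 φ) := by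
    rcases h𝔉 with rfl | rfl
    · obtain ⟨f, hf, h⟩ := halg 𝔅 haff false
      exact ⟨f, hf, fun φ hφ => (h φ hφ _ le_rfl).trans (hsem 𝔅 haff φ hφ _ le_rfl).1.symm⟩
    · obtain ⟨f, hf, h⟩ := halg 𝔅 haff true
      exact ⟨f, hf, fun φ hφ => (h φ hφ _ le_rfl).trans (hsem 𝔅 haff φ hφ _ le_rfl).2.symm⟩
  set d : List Bool → Bool := fun x => match unbits (List Tok) x with
    | none => false
    | some w => wf w && f w with hd
  have hdp : NPC.Poly d := by
    refine (NPC.Poly.optCases (o := fun x : List Bool => unbits (List Tok) x) (g := fun _ => false)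
      (h := fun _ w => wf w && f w) poly_unbits (NPC.Poly.const _)
      (NPC.Poly.and (hwf.comp (NPC.Poly.snd NPC.Poly.id)) (hf.comp (NPC.Poly.snd NPC.Poly.id)))).congr ?_
    intro x
    simp only [hd]
    cases unbits (List Tok) x <;> rfl
  refine ⟨fun x => [d x], polyTime_of_poly hdp, fun x => ?_⟩
  rw [List.cons.injEq, and_iff_left rfl]
  cases h : unbits (List Tok) x with
  | none =>
    have h0 : d x = false := by simp only [hd, h]
    rw [h0]
    constructor
    · rintro ⟨φ, _, h2, _⟩
      rw [← h2] at h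
      have h3 : unbits (List Tok) (bits (pr φ)) = some (pr φ) := unbits_bits _
      exact absurd (h.symm.trans h3) (by simp)
    · intro h1
      cases h1
  | some u =>
    have hx : bits u = x := bits_of_unbits h
    have h0 : d x = (wf u && f u) := by simp only [hd, h]
    rw [h0, Bool.and_eq_true]
    constructor
    · rintro ⟨φ, hφ, h2, h3⟩
      have h4 : pr φ = u := bits_injective (h2.trans hx.symm)
      rw [← h4]
      exact ⟨(hwf' _).2 ⟨φ, hφ, rfl⟩, (hf' φ hφ).2 h3⟩
    · rintro ⟨h1, h2⟩
      obtain ⟨φ, hφ, rfl⟩ := (hwf' u).1 h1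
      exact ⟨φ, hφ, hx, (hf' φ hφ).1 h2⟩

end Pool.Agent.H75C.HY.NF
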