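import Pool.Agent.H75C.HY.Clone

/-!
# Formulas without `@` in a cluster
-/

set_option autoImplicit false

namespace Pool.Agent.H75C.HY

variable {𝔅 : Base}

/-- `C` is a set of states each of which sees exactly the elements of `C`. -/
def Clus (K : Model) (C : Set K.W) : Prop := ∀ w ∈ C, ∀ v, K.R w v ↔ v ∈ C

/-- The set has three distinct elements. -/
def Three {W : Type} (C : Set W) : Prop := ∃ p ∈ C, ∃ q ∈ C, ∃ r ∈ C, p ≠ q ∧ p ≠ r ∧ q ≠ r

theorem Three.third {W : Type} {C : Set W} (h : Three C) (x y : W) : ∃ z ∈ C, z ≠ x ∧ z ≠ y := by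
  obtain ⟨p, hp, q, hq, r, hr, hpq, hpr, hqr⟩ := h
  by_cases h1 : p = x ∨ p = y
  · by_cases h2 : q = x ∨ q = y
    · refine ⟨r, hr, ?_, ?_⟩
      · rintro rfl
        rcases h1 with h1 | h1 <;> rcases h2 with h2 | h2 <;> simp_all
      · rintro rfl
        rcases h1 with h1 | h1 <;> rcases h2 with h2 | h2 <;> simp_all
    · push Not at h2
      exact ⟨q, hq, h2⟩
  · push Not at h1
    exact ⟨p, hp, h1⟩

namespace Gad

variable (G : Gad 𝔅)

/-- The gadget for the implication from `β` to `α`; the variable `2` names a state. -/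
def imp1 (β α : Form 𝔅) : Form 𝔅 :=
  .dia (.bind 1 (G.X β (.dia (G.X (.var 1) (G.X (.var 2) (G.X G.one α))))))

/-- The variables `j` and `2` name different states. -/
def ne (j : ℕ) : Form 𝔅 := .dia (G.X (.var j) (.var 2))

def neg1 (α : Form 𝔅) : Form 𝔅 := G.X G.one α

def rest1 (ψ : Form 𝔅) : Form 𝔅 := .dia (G.X G.one ψ)

def quant1 (ψ : Form 𝔅) : Form 𝔅 :=
  .dia (.bind 0 (.dia (.bind 1 (.box (G.X (.var 0) (G.X (.var 1) (G.X G.one ψ)))))))

/-- `ψ`, and the cluster does not have exactly two elements. -/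
def cX1 (ψ : Form 𝔅) : Form 𝔅 := G.X ψ (G.X (G.quant1 ψ) (G.rest1 ψ))

def pairs1 (ψ : Form 𝔅) : Form 𝔅 := .dia (.bind 0 (.dia (G.X (.var 0) ψ)))

/-- `ψ`, and the cluster has at least two elements. -/
def cD1 (ψ : Form 𝔅) : Form 𝔅 := G.X (G.pairs1 ψ) (G.rest1 ψ)

/-- The state named by the variable `2` is a successor, and all other successors satisfy `δ`. -/
def gu (δ : Form 𝔅) : Form 𝔅 :=
  G.X (.dia (G.X G.one δ)) (.dia (G.X (.var 2) (G.X G.one δ)))

/-- The whole formula. -/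
def whole (ψ : Form 𝔅) : Form 𝔅 :=
  .bind 2 (G.X (G.gu (G.gu (G.cD1 (G.cX1 ψ)))) (G.gu G.zero))

end Gad

section Sem

variable (G : Gad 𝔅) {K : Model}

theorem tv_gu {δ : Form 𝔅} {g : ℕ → K.W} {w : K.W} : tv K (G.gu δ) g w = true ↔
    (K.R w (g 2) ∧ ∀ v, K.R w v → v ≠ g 2 → tv K δ g v = true) := by
  unfold Gad.gu
  rw [X_iff, tv_dia, tv_dia]
  have e1 : ∀ v, tv K (G.X G.one δ) g v = true ↔ ¬ tv K δ g v = true := by
    intro v
    rw [X_iff, G.tv_one]
    simp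
  have e2 : ∀ v, tv K (G.X (.var 2) (G.X G.one δ)) g v = true ↔
      ¬ (v = g 2 ↔ ¬ tv K δ g v = true) := by
    intro v
    rw [X_iff, e1, tv_var]
  simp only [e1, e2]
  by_cases h : ∃ v, K.R w v ∧ v ≠ g 2 ∧ ¬ tv K δ g v = true
  · obtain ⟨v, h1, h2, h3⟩ := h
    have a1 : ∃ v, K.R w v ∧ ¬ tv K δ g v = true := ⟨v, h1, h3⟩
    have a2 : ∃ v, K.R w v ∧ ¬ (v = g 2 ↔ ¬ tv K δ g v = true) :=
      ⟨v, h1, fun h => h2 (h.2 h3)⟩
    have a3 : ¬ (K.R w (g 2) ∧ ∀ v, K.R w v → v ≠ g 2 → tv K δ g v = true) :=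
      fun h => h3 (h.2 v h1 h2)
    simp only [a1, a2, a3, not_true_eq_false]
  · push Not at h
    have a1 : (∃ v, K.R w v ∧ ¬ tv K δ g v = true) ↔
        (K.R w (g 2) ∧ ¬ tv K δ g (g 2) = true) := by
      constructor
      · rintro ⟨v, h1, h2⟩
        by_cases hv : v = g 2
        · subst hv; exact ⟨h1, h2⟩
        · exact (h2 (h v h1 hv)).elim
      · rintro ⟨h1, h2⟩
        exact ⟨_, h1, h2⟩
    have a2 : (∃ v, K.R w v ∧ ¬ (v = g 2 ↔ ¬ tv K δ g v = true)) ↔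
        (K.R w (g 2) ∧ tv K δ g (g 2) = true) := by
      constructor
      · rintro ⟨v, h1, h2⟩
        by_cases hv : v = g 2
        · subst hv
          refine ⟨h1, ?_⟩
          by_contra h3
          exact h2 ⟨fun _ => h3, fun _ => rfl⟩
        · exact (h2 ⟨fun h => (hv h).elim, fun h3 => (h3 (h v h1 hv)).elim⟩).elim
      · rintro ⟨h1, h2⟩
        exact ⟨_, h1, fun h => h.1 rfl h2⟩
    rw [a1, a2]
    have a3 : (K.R w (g 2) ∧ ∀ v, K.R w v → v ≠ g 2 → tv K δ g v = true) ↔ K.R w (g 2) :=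
      ⟨fun h => h.1, fun h' => ⟨h', h⟩⟩
    rw [a3]
    tauto

variable {C : Set K.W} (hC : Clus K C)

include hC

theorem dia_clus {α : Form 𝔅} {g : ℕ → K.W} {w : K.W} (hw : w ∈ C) :
    tv K (.dia α) g w = true ↔ ∃ v ∈ C, tv K α g v = true := by
  rw [tv_dia]
  exact exists_congr fun v => by rw [hC w hw v]

theorem box_clus {α : Form 𝔅} {g : ℕ → K.W} {w : K.W} (hw : w ∈ C) :
    tv K (.box α) g w = true ↔ ∀ v ∈ C, tv K α g v = true := by
  rw [tv_box]
  exact forall_congr' fun v => by rw [hC w hw v]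

theorem tv_ne {j : ℕ} {g : ℕ → K.W} {w : K.W} (hw : w ∈ C) (hj : g j ∈ C) :
    tv K (G.ne j) g w = true ↔ g j ≠ g 2 := by
  unfold Gad.ne
  rw [dia_clus hC hw]
  constructor
  · rintro ⟨v, _, h⟩ h1
    rw [X_iff, tv_var, tv_var, h1] at h
    exact h Iff.rfl
  · intro h
    refine ⟨g j, hj, ?_⟩
    rw [X_iff, tv_var, tv_var]
    simp [h]

/-- The semantics of the gadget for the implication. -/
theorem tv_imp1 (hT : Three C) {β α : Form 𝔅} {g : ℕ → K.W} {w : K.W} {b a : Prop} (hw : w ∈ C)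
    (h2 : g 2 ∈ C) (hβ : ∀ u ∈ C, ∀ v ∈ C, tv K β (Function.update g 1 u) v = true ↔ b)
    (hα : ∀ u ∈ C, ∀ v ∈ C, tv K α (Function.update g 1 u) v = true ↔ a) :
    tv K (G.imp1 β α) g w = true ↔ (b → a) := by
  unfold Gad.imp1
  rw [dia_clus hC hw]
  have key : ∀ u ∈ C, (tv K (.bind 1 (G.X β (.dia (G.X (.var 1) (G.X (.var 2)
      (G.X G.one α)))))) g u = true ↔ ¬ (b ↔ ¬ (u = g 2 ∧ a))) := by
    intro u hu
    rw [tv_bind, X_iff, hβ u hu u hu, dia_clus hC hu]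
    have e : ∀ v ∈ C, (tv K (G.X (.var 1) (G.X (.var 2) (G.X G.one α)))
        (Function.update g 1 u) v = true ↔ ¬ (v = u ↔ ¬ (v = g 2 ↔ ¬ a))) := by
      intro v hv
      rw [X_iff, X_iff, X_iff, G.tv_one, hα u hu v hv, tv_var, tv_var, Function.update_self,
        Function.update_of_ne (by omega)]
      simp
    have e2 : (∃ v ∈ C, tv K (G.X (.var 1) (G.X (.var 2) (G.X G.one α)))
        (Function.update g 1 u) v = true) ↔ ¬ (u = g 2 ∧ a) := by
      by_cases ha : a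
      · simp only [ha, and_true]
        constructor
        · rintro ⟨v, hv, h⟩ h1
          rw [e v hv, h1] at h
          exact h (by tauto)
        · intro h1
          refine ⟨u, hu, ?_⟩
          rw [e u hu]
          simp [h1, ha]
      · simp only [ha, and_false, not_false_eq_true, iff_true]
        by_cases h1 : u = g 2
        · refine ⟨u, hu, ?_⟩
          rw [e u hu]
          simp [h1, ha]
        · obtain ⟨z, hz, h4, h5⟩ := hT.third u (g 2)
          refine ⟨z, hz, ?_⟩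
          rw [e z hz]
          simp [h4, h5, ha]
    rw [e2]
  constructor
  · rintro ⟨u, hu, h⟩ hb
    rw [key u hu] at h
    by_contra ha
    exact h (by simp [ha, hb])
  · intro h
    by_cases hb : b
    · refine ⟨g 2, h2, ?_⟩
      rw [key _ h2]
      simp [hb, h hb]
    · obtain ⟨z, hz, h4, _⟩ := hT.third (g 2) (g 2)
      refine ⟨z, hz, ?_⟩
      rw [key z hz]
      simp [hb, h4]

/-- Two assignments that agree at `2`. -/
theorem tv_rest1 {ψ : Form 𝔅} {g : ℕ → K.W} {c : Prop} {w : K.W} (hw : w ∈ C)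
    (hψ : ∀ v ∈ C, tv K ψ g v = true ↔ c) : tv K (G.rest1 ψ) g w = true ↔ ¬ c := by
  unfold Gad.rest1
  rw [dia_clus hC hw]
  have : ∀ v ∈ C, (tv K (G.X G.one ψ) g v = true ↔ ¬ c) := by
    intro v hv
    rw [X_iff, G.tv_one, hψ v hv]
    simp
  constructor
  · rintro ⟨v, hv, h⟩
    exact (this v hv).1 h
  · intro h
    exact ⟨w, hw, (this w hw).2 h⟩

theorem tv_cX1 {ψ : Form 𝔅} {g : ℕ → K.W} {c : Prop} {w : K.W} (hw : w ∈ C)
    (hψ : ∀ g' : ℕ → K.W, g' 2 = g 2 → ∀ v ∈ C, tv K ψ g' v = true ↔ c) :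
    tv K (G.cX1 ψ) g w = true ↔ (c ∧ ¬ ∃ u ∈ C, ∃ v ∈ C, u ≠ v ∧ ∀ z ∈ C, z = u ∨ z = v) := by
  have h3 : tv K (G.quant1 ψ) g w = true ↔ ∃ u ∈ C, ∃ v ∈ C,
      ∀ z ∈ C, ¬ (z = u ↔ ¬ (z = v ↔ ¬ c)) := by
    unfold Gad.quant1
    rw [dia_clus hC hw]
    refine exists_congr fun u => and_congr_right fun hu => ?_
    rw [tv_bind, dia_clus hC hu]
    refine exists_congr fun v => and_congr_right fun hv => ?_
    rw [tv_bind, box_clus hC hv]
    refine forall_congr' fun z => imp_congr_right fun hz => ?_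
    rw [X_iff, X_iff, X_iff, G.tv_one, tv_var, tv_var, hψ _ (by
      rw [Function.update_of_ne (by omega), Function.update_of_ne (by omega)]) z hz,
      Function.update_of_ne (by omega), Function.update_self, Function.update_self]
    simp
  unfold Gad.cX1
  rw [X_iff, X_iff, hψ g rfl w hw, tv_rest1 G hC hw (hψ g rfl), h3]
  by_cases hc : c
  · simp only [hc, not_true_eq_false, iff_false, and_false, not_not, true_iff, true_and]
    refine not_congr ⟨?_, ?_⟩
    · rintro ⟨u, hu, v, hv, h⟩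
      refine ⟨u, hu, v, hv, ?_, fun z hz => ?_⟩
      · rintro rfl
        have := h u hu
        tauto
      · have := h z hz
        tauto
    · rintro ⟨u, hu, v, hv, huv, h⟩
      refine ⟨u, hu, v, hv, fun z hz => ?_⟩
      rcases h z hz with rfl | rfl
      · tauto
      · have : ¬ z = u := fun h => huv h.symm
        tauto
  · have hQ : (∃ u ∈ C, ∃ v ∈ C, ∀ z ∈ C, ¬ (z = u ↔ ¬ (z = v ↔ ¬ c))) ↔ True := by
      refine ⟨fun _ => trivial, fun _ => ⟨w, hw, w, hw, fun z _ => by tauto⟩⟩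
    rw [hQ]
    tauto

theorem tv_cD1 {ψ : Form 𝔅} {g : ℕ → K.W} {c : Prop} {w : K.W} (hw : w ∈ C)
    (hψ : ∀ g' : ℕ → K.W, g' 2 = g 2 → ∀ v ∈ C, tv K ψ g' v = true ↔ c) :
    tv K (G.cD1 ψ) g w = true ↔ (c ∧ ∃ u ∈ C, ∃ v ∈ C, u ≠ v) := by
  have h3 : tv K (G.pairs1 ψ) g w = true ↔ ∃ u ∈ C, ∃ v ∈ C, ¬ (v = u ↔ c) := by
    unfold Gad.pairs1
    rw [dia_clus hC hw]
    refine exists_congr fun u => and_congr_right fun hu => ?_
    rw [tv_bind, dia_clus hC hu]
    refine exists_congr fun v => and_congr_right fun hv => ?_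
    rw [X_iff, tv_var, hψ _ (Function.update_of_ne (by omega) _ _) v hv]
    simp
  unfold Gad.cD1
  rw [X_iff, tv_rest1 G hC hw (hψ g rfl), h3]
  by_cases hc : c
  · simp only [hc, not_true_eq_false, iff_false, not_not, iff_true, true_and]
    constructor
    · rintro ⟨u, hu, v, hv, h⟩
      exact ⟨u, hu, v, hv, fun h' => h h'.symm⟩
    · rintro ⟨u, hu, v, hv, h⟩
      exact ⟨u, hu, v, hv, fun h' => h h'.symm⟩
  · simp only [hc, not_false_eq_true, iff_false, false_and, not_not]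
    refine ⟨fun _ => ?_, fun h => ?_⟩
    · tauto
    · tauto

omit hC in
theorem not_two_iff {W : Type} {C : Set W} : (¬ (∃ u ∈ C, ∃ v ∈ C, u ≠ v ∧ ∀ z ∈ C, z = u ∨ z = v) ∧
    ∃ u ∈ C, ∃ v ∈ C, u ≠ v) ↔ Three C := by
  constructor
  · rintro ⟨h4, u, hu, v, hv, huv⟩
    push Not at h4
    obtain ⟨z, hz, h5, h6⟩ := h4 u hu v hv huv
    exact ⟨u, hu, v, hv, z, hz, huv, h5.symm, h6.symm⟩
  · rintro ⟨p, hp, q, hq, r, hr, hpq, hpr, hqr⟩
    refine ⟨?_, p, hp, q, hq, hpq⟩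
    rintro ⟨u, _, v, _, _, h⟩
    rcases h p hp with rfl | rfl <;> rcases h q hq with rfl | rfl <;>
      rcases h r hr with rfl | rfl <;> simp_all

theorem tv_cDX {ψ : Form 𝔅} {g : ℕ → K.W} {c : Prop} {w : K.W} (hw : w ∈ C)
    (hψ : ∀ g' : ℕ → K.W, g' 2 = g 2 → ∀ v ∈ C, tv K ψ g' v = true ↔ c) :
    tv K (G.cD1 (G.cX1 ψ)) g w = true ↔ (c ∧ Three C) := by
  rw [tv_cD1 G hC hw (fun g' hg' v hv => tv_cX1 G hC hv
    (fun g'' hg'' v' hv' => hψ g'' (hg''.trans hg') v' hv')), ← not_two_iff, and_assoc]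

end Sem

/-- The semantics of the whole formula over transitive frames. -/
theorem tv_whole (G : Gad 𝔅) {K : Model} (hK : ∀ u v w, K.R u v → K.R v w → K.R u w)
    {ψ : Form 𝔅} {g : ℕ → K.W} {w : K.W} {c : Prop}
    (hψ : ∀ C : Set K.W, Clus K C → w ∈ C → ∀ g' : ℕ → K.W, g' 2 = w → Three C →
      ∀ v ∈ C, tv K ψ g' v = true ↔ c) (hst : ∀ C : Set K.W, Clus K C → w ∈ C →
        ∃ c', ∀ g' : ℕ → K.W, g' 2 = w → ∀ v ∈ C, tv K ψ g' v = true ↔ c') :
    tv K (G.whole ψ) g w = true ↔ (c ∧ ∃ C : Set K.W, Clus K C ∧ w ∈ C ∧ Three C) := by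
  unfold Gad.whole
  rw [tv_bind, X_iff, tv_gu, tv_gu, Function.update_self]
  have hz : ∀ v, ¬ tv K G.zero (Function.update g 2 w) v = true := by
    intro v
    rw [tv_zero]
    simp
  constructor
  · intro h
    have hww : K.R w w := by
      by_contra h1
      exact h ⟨fun h => (h1 h.1).elim, fun h => (h1 h.1).elim⟩
    have h1 : ∃ v, K.R w v ∧ v ≠ w := by
      by_contra h1
      push Not at h1
      exact h ⟨fun _ => ⟨hww, fun v h2 h3 => (h3 (h1 v h2)).elim⟩,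
        fun _ => ⟨hww, fun v h2 h3 => (h3 (h1 v h2)).elim⟩⟩
    obtain ⟨v, hv, hvw⟩ := h1
    have h2 : ∀ v, K.R w v → v ≠ w → tv K (G.gu (G.cD1 (G.cX1 ψ)))
        (Function.update g 2 w) v = true := by
      by_contra h2
      refine h ⟨fun h3 => (h2 h3.2).elim, fun h3 => ?_⟩
      exact (hz v (h3.2 v hv hvw)).elim
    have hC : Clus K {v | K.R w v} := by
      intro u hu v'
      by_cases huw : u = w
      · subst huw; rfl
      · have h3 := h2 u hu huw
        rw [tv_gu, Function.update_self] at h3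
        exact ⟨fun h4 => hK _ _ _ hu h4, fun h4 => hK _ _ _ h3.1 h4⟩
    have hvv : K.R v v := (hC v hv v).2 hv
    have h3 := h2 v hv hvw
    rw [tv_gu, Function.update_self] at h3
    have h4 := h3.2 v hvv hvw
    obtain ⟨c', hc'⟩ := hst _ hC hww
    rw [tv_cDX G hC (c := c') hv (fun g' hg' v hv => hc' g' (by
      rw [hg', Function.update_self]) v hv)] at h4
    obtain ⟨h5, h6⟩ := h4
    refine ⟨?_, _, hC, hww, h6⟩
    rw [← hψ _ hC hww (Function.update g 2 w) (by rw [Function.update_self]) h6 v hv,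
      hc' _ (by rw [Function.update_self]) v hv]
    exact h5
  · rintro ⟨hc, C, hC, hw, hT⟩
    have hcd : ∀ v ∈ C, tv K (G.cD1 (G.cX1 ψ)) (Function.update g 2 w) v = true := by
      intro v hv
      rw [tv_cDX G hC (c := c) hv (fun g' hg' v hv => hψ C hC hw g' (by
        rw [hg', Function.update_self]) hT v hv)]
      exact ⟨hc, hT⟩
    intro h
    obtain ⟨z, hz1, hz2, _⟩ := hT.third w w
    have h1 := h.1 ⟨(hC w hw w).2 hw, fun v hv hvw => by
      rw [tv_gu, Function.update_self]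
      have hv' := (hC w hw v).1 hv
      exact ⟨(hC v hv' w).2 hw, fun u hu _ => hcd u ((hC v hv' u).1 hu)⟩⟩
    exact hz z (h1.2 z ((hC w hw z).2 hz1) hz2)

end Pool.Agent.H75C.HY
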