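import Pool.Agent.H75C.HY.Code

/-!
# Unique readability: different formulas have different words
-/

set_option autoImplicit false

namespace Pool.Agent.H75C.HY

open Pool.Agent.NPC

variable {𝔅 : Base}

theorem args_unique {n : ℕ} (F F' : Fin n → Form 𝔅) (m : Fin n → Tok)
    (ih : ∀ i (ψ : Form 𝔅) (r s : List Tok), pr (F i) ++ r = pr ψ ++ s → F i = ψ ∧ r = s)
    (r s : List Tok)
    (h : (List.ofFn (fun i => pr (F i) ++ [m i])).flatten ++ r =
      (List.ofFn (fun i => pr (F' i) ++ [m i])).flatten ++ s) : F = F' ∧ r = s := by
  induction n with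
  | zero => exact ⟨funext fun i => i.elim0, by simpa using h⟩
  | succ n IH =>
    rw [List.ofFn_succ, List.ofFn_succ, List.flatten_cons, List.flatten_cons, List.append_assoc,
      List.append_assoc, List.append_assoc, List.append_assoc] at h
    obtain ⟨h1, h2⟩ := ih 0 _ _ _ h
    rw [List.singleton_append, List.singleton_append, List.cons.injEq] at h2
    obtain ⟨h3, h4⟩ := IH (fun i => F i.succ) (fun i => F' i.succ) (fun i => m i.succ)
      (fun i => ih i.succ) h2.2
    refine ⟨funext fun i => ?_, h4⟩
    refine Fin.cases h1 (fun k => ?_) i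
    exact congrFun h3 k

theorem pr_unique (φ : Form 𝔅) : ∀ (ψ : Form 𝔅) (r s : List Tok), pr φ ++ r = pr ψ ++ s →
    φ = ψ ∧ r = s := by
  induction φ with
  | prop i =>
    intro ψ r s h
    cases ψ with
    | prop j => simpa [pr] using h
    | _ => exact absurd h (by simp [pr])
  | nom i =>
    intro ψ r s h
    cases ψ with
    | nom j => simpa [pr] using h
    | _ => exact absurd h (by simp [pr])
  | var x =>
    intro ψ r s h
    cases ψ with
    | var j => simpa [pr] using h
    | _ => exact absurd h (by simp [pr])
  | app b φ ih =>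
    intro ψ r s h
    cases ψ with
    | app b' φ' =>
      rw [pr_app, pr_app, List.cons_append, List.cons_append, List.cons.injEq] at h
      obtain ⟨h1, h2⟩ := h
      have hb : b = b' := 𝔅.inj (Prod.mk.inj h1).2
      subst hb
      rw [List.append_assoc, List.append_assoc] at h2
      obtain ⟨h3, h4⟩ := args_unique φ φ' _ ih _ _ h2
      exact ⟨by rw [h3], by simpa using h4⟩
    | _ => exact absurd h (by simp [pr])
  | dia φ ih =>
    intro ψ r s h
    cases ψ with
    | dia φ' =>
      simp only [pr, List.cons_append, List.cons.injEq, true_and, List.append_assoc] at h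
      obtain ⟨h1, h2⟩ := ih _ _ _ h
      exact ⟨by rw [h1], by simpa using h2⟩
    | _ => exact absurd h (by simp [pr])
  | box φ ih =>
    intro ψ r s h
    cases ψ with
    | box φ' =>
      simp only [pr, List.cons_append, List.cons.injEq, true_and, List.append_assoc] at h
      obtain ⟨h1, h2⟩ := ih _ _ _ h
      exact ⟨by rw [h1], by simpa using h2⟩
    | _ => exact absurd h (by simp [pr])
  | bind x φ ih =>
    intro ψ r s h
    cases ψ with
    | bind y φ' =>
      simp only [pr, List.cons_append, List.cons.injEq, Prod.mk.injEq, true_and] at h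
      obtain ⟨h1, h2⟩ := ih _ _ _ h.2
      exact ⟨by rw [h1, h.1], h2⟩
    | _ => exact absurd h (by simp [pr])
  | atNom x φ ih =>
    intro ψ r s h
    cases ψ with
    | atNom y φ' =>
      simp only [pr, List.cons_append, List.cons.injEq, Prod.mk.injEq, true_and] at h
      obtain ⟨h1, h2⟩ := ih _ _ _ h.2
      exact ⟨by rw [h1, h.1], h2⟩
    | _ => exact absurd h (by simp [pr])
  | atVar x φ ih =>
    intro ψ r s h
    cases ψ with
    | atVar y φ' =>
      simp only [pr, List.cons_append, List.cons.injEq, Prod.mk.injEq, true_and] at h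
      obtain ⟨h1, h2⟩ := ih _ _ _ h.2
      exact ⟨by rw [h1, h.1], h2⟩
    | _ => exact absurd h (by simp [pr])

/-- Different formulas have different codes. -/
theorem code_injective : Function.Injective (code : Form 𝔅 → List Bool) := by
  intro φ ψ h
  have h1 : pr φ = pr ψ := bits_injective h
  exact (pr_unique φ ψ [] [] (by simpa using h1)).1

end Pool.Agent.H75C.HY
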