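import Pool.Agent.H75C.HY.OneQ
import Pool.Agent.H75C.HY.Read
import Pool.Agent.H656R2.AK.TQPoly

/-!
# Hardness for polynomial space of the satisfiability problems without `@`
-/

set_option autoImplicit false

namespace Pool.Agent.H75C.HY

open Pool.Agent.NPC Pool.Agent.H656R2.AK Pool.Agent.H623R2.PS

variable {𝔅 : Base}

/-- The satisfiability problem over frames of the class `𝔉` for the operators `◇`, `□`, `↓`, as a
language. -/
def SatO1 (𝔉 : FrameClass) (𝔅 : Base) : Set (List Bool) :=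
  {x | ∃ φ : Form 𝔅, NoAt φ ∧ code φ = x ∧ Satisfiable 𝔉 φ}

section Words

variable (A0 A1 A2 one : List Tok)

def rp (n : ℕ) (u : List Tok) : List Tok := (List.replicate n u).flatten

def i0 : List Tok := [(6, 0), (8, 1)] ++ A0

def i1 : List Tok := A1 ++ ([(6, 0)] ++ (A0 ++ ([(2, 1)] ++ (A1 ++ (A0 ++ ([(2, 2)] ++ (A1 ++
  (A0 ++ (one ++ A1)))))))))

def i2 : List Tok := A2 ++ (A2 ++ (A2 ++ ([(5, 1)] ++ (A2 ++ [(5, 1)]))))

def neW (j : ℕ) : List Tok := [(6, 0)] ++ (xw A0 A1 A2 [(2, j)] [(2, 2)] ++ [(5, 1)])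

def negLitW (l : Bool × ℕ) : List Tok :=
  if l.1 = true then neW A0 A1 A2 (10 + l.2) else xw A0 A1 A2 one (neW A0 A1 A2 (10 + l.2))

def impLW (ws : List (List Tok)) : List Tok :=
  (ws.map (fun u => i0 A0 ++ (u ++ i1 A0 A1 one))).flatten ++
    (xw A0 A1 A2 one one ++ rp ws.length (i2 A2))

def clauseW (c : List (Bool × ℕ)) : List Tok := impLW A0 A1 A2 one (c.map (negLitW A0 A1 A2 one))

def matW (C : List (List (Bool × ℕ))) : List Tok :=
  xw A0 A1 A2 one (impLW A0 A1 A2 one (C.map (clauseW A0 A1 A2 one)))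

def prefW (qs : List Bool) : List Tok :=
  (qs.zipIdx.map (fun p : Bool × ℕ => [((if p.1 = true then 7 else 6, 0) : Tok),
    (8, 10 + p.2)])).flatten

def qW (Q : QF) : List Tok :=
  prefW Q.1 ++ (matW A0 A1 A2 one Q.2 ++ rp Q.1.length [(5, 1)])

def restW1 (p : List Tok) : List Tok := [(6, 0)] ++ (xw A0 A1 A2 one p ++ [(5, 1)])

def quantW1 (p : List Tok) : List Tok :=
  [(6, 0), (8, 0), (6, 0), (8, 1), (7, 0)] ++
    (xw A0 A1 A2 [(2, 0)] (xw A0 A1 A2 [(2, 1)] (xw A0 A1 A2 one p)) ++ [(5, 1), (5, 1), (5, 1)])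

def cXW1 (p : List Tok) : List Tok :=
  xw A0 A1 A2 p (xw A0 A1 A2 (quantW1 A0 A1 A2 one p) (restW1 A0 A1 A2 one p))

def pairsW1 (p : List Tok) : List Tok :=
  [(6, 0), (8, 0), (6, 0)] ++ (xw A0 A1 A2 [(2, 0)] p ++ [(5, 1), (5, 1)])

def cDW1 (p : List Tok) : List Tok :=
  xw A0 A1 A2 (pairsW1 A0 A1 A2 p) (restW1 A0 A1 A2 one p)

def guW (p : List Tok) : List Tok :=
  xw A0 A1 A2 ([(6, 0)] ++ (xw A0 A1 A2 one p ++ [(5, 1)]))
    ([(6, 0)] ++ (xw A0 A1 A2 [(2, 2)] (xw A0 A1 A2 one p) ++ [(5, 1)]))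

def wholeW (p : List Tok) : List Tok :=
  [(8, 2)] ++ xw A0 A1 A2 (guW A0 A1 A2 one (guW A0 A1 A2 one (cDW1 A0 A1 A2 one
    (cXW1 A0 A1 A2 one p)))) (guW A0 A1 A2 one (xw A0 A1 A2 one one))

end Words

/-! ### Polynomial time -/

section Pol

variable (A0 A1 A2 one : List Tok) {α : Type} [TEnc α]

theorem poly_rp {n : α → List Unit} (hn : Poly n) (u : List Tok) :
    Poly (fun a => rp (n a).length u) := by
  have h : Poly (fun a => ((n a).map (fun _ => u)).flatten) :=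
    NPC.Poly.flatten (NPC.Poly.map hn (NPC.Poly.const _))
  refine h.congr fun a => ?_
  unfold rp
  rw [List.map_const']

theorem poly_box {w : α → List Tok} (hw : Poly w) :
    Poly (fun a => [((6, 0) : Tok)] ++ (w a ++ [(5, 1)])) := by fun_prop

theorem poly_guW {p : α → List Tok} (hp : Poly p) : Poly (fun a => guW A0 A1 A2 one (p a)) := by
  have h1 := poly_xw A0 A1 A2 (NPC.Poly.const one) hp
  have h2 := poly_xw A0 A1 A2 (NPC.Poly.const [((2, 2) : Tok)]) h1
  exact poly_xw A0 A1 A2 (poly_box h1) (poly_box h2)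

theorem poly_wholeW {p : α → List Tok} (hp : Poly p) :
    Poly (fun a => wholeW A0 A1 A2 one (p a)) := by
  have hr : ∀ {u : α → List Tok}, Poly u → Poly (fun p => restW1 A0 A1 A2 one (u p)) :=
    fun hu => poly_box (poly_xw A0 A1 A2 (NPC.Poly.const _) hu)
  have hq : ∀ {u : α → List Tok}, Poly u → Poly (fun p => quantW1 A0 A1 A2 one (u p)) :=
    fun hu => NPC.Poly.append (NPC.Poly.const _) (NPC.Poly.append
      (poly_xw A0 A1 A2 (NPC.Poly.const _) (poly_xw A0 A1 A2 (NPC.Poly.const _)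
      (poly_xw A0 A1 A2 (NPC.Poly.const _) hu))) (NPC.Poly.const _))
  have hpr : ∀ {u : α → List Tok}, Poly u → Poly (fun p => pairsW1 A0 A1 A2 (u p)) :=
    fun hu => NPC.Poly.append (NPC.Poly.const _) (NPC.Poly.append
      (poly_xw A0 A1 A2 (NPC.Poly.const _) hu) (NPC.Poly.const _))
  have h2 := poly_xw A0 A1 A2 hp (poly_xw A0 A1 A2 (hq hp) (hr hp))
  have h3 := poly_xw A0 A1 A2 (hpr h2) (hr h2)
  have h4 := poly_guW A0 A1 A2 one (poly_guW A0 A1 A2 one h3)
  exact NPC.Poly.append (NPC.Poly.const _) (poly_xw A0 A1 A2 h4 (NPC.Poly.const _))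

theorem poly_impLW {ws : α → List (List Tok)} (hws : Poly ws) :
    Poly (fun a => impLW A0 A1 A2 one (ws a)) := by
  unfold impLW
  have h1 : Poly (fun a => ((ws a).map (fun u => i0 A0 ++ (u ++ i1 A0 A1 one))).flatten) :=
    NPC.Poly.flatten (NPC.Poly.map hws (NPC.Poly.append (NPC.Poly.const _)
      (NPC.Poly.append (NPC.Poly.snd NPC.Poly.id) (NPC.Poly.const _))))
  have h2 : Poly (fun a => rp (ws a).length (i2 A2)) := by
    have h : Poly (fun a => ((ws a).map (fun _ => i2 A2)).flatten) :=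
      NPC.Poly.flatten (NPC.Poly.map hws (NPC.Poly.const _))
    refine h.congr fun a => ?_
    unfold rp
    rw [List.map_const']
  exact NPC.Poly.append h1 (NPC.Poly.append (NPC.Poly.const _) h2)

theorem poly_negLitW {l : α → Bool × ℕ} (hl : Poly l) :
    Poly (fun a => negLitW A0 A1 A2 one (l a)) := by
  unfold negLitW
  have h1 : Poly (fun a => neW A0 A1 A2 (10 + (l a).2)) := by
    unfold neW
    refine NPC.Poly.append (NPC.Poly.const _) (NPC.Poly.append (poly_xw A0 A1 A2 ?_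
      (NPC.Poly.const _)) (NPC.Poly.const _))
    exact NPC.Poly.cons (NPC.Poly.pair (NPC.Poly.const _) (NPC.Poly.add (NPC.Poly.const _)
      (NPC.Poly.snd hl))) (NPC.Poly.const _)
  exact NPC.Poly.ite (NPC.Poly.decide_bool (NPC.Poly.fst hl)) h1
    (poly_xw A0 A1 A2 (NPC.Poly.const _) h1)

theorem poly_matW {C : α → List (List (Bool × ℕ))} (hC : Poly C) :
    Poly (fun a => matW A0 A1 A2 one (C a)) := by
  unfold matW clauseW
  refine poly_xw A0 A1 A2 (NPC.Poly.const _) (poly_impLW A0 A1 A2 one ?_)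
  refine NPC.Poly.map hC (poly_impLW A0 A1 A2 one ?_)
  exact NPC.Poly.map (NPC.Poly.snd NPC.Poly.id) (poly_negLitW A0 A1 A2 one
    (NPC.Poly.snd NPC.Poly.id))

theorem poly_prefW {qs : α → List Bool} (hqs : Poly qs) : Poly (fun a => prefW (qs a)) := by
  unfold prefW
  refine NPC.Poly.flatten (NPC.Poly.map (NPC.Poly.zipIdx hqs) ?_)
  refine NPC.Poly.cons (NPC.Poly.pair (NPC.Poly.ite (NPC.Poly.decide_bool (NPC.Poly.fst
    (NPC.Poly.snd NPC.Poly.id))) (NPC.Poly.const _) (NPC.Poly.const _)) (NPC.Poly.const _)) ?_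
  exact NPC.Poly.cons (NPC.Poly.pair (NPC.Poly.const _) (NPC.Poly.add (NPC.Poly.const _)
    (NPC.Poly.snd (NPC.Poly.snd NPC.Poly.id)))) (NPC.Poly.const _)

theorem poly_qW {Q : α → QF} (hQ : Poly Q) : Poly (fun a => qW A0 A1 A2 one (Q a)) := by
  unfold qW
  refine NPC.Poly.append (poly_prefW (NPC.Poly.fst hQ)) (NPC.Poly.append
    (poly_matW A0 A1 A2 one (NPC.Poly.snd hQ)) ?_)
  have h : Poly (fun a => ((Q a).1.map (fun _ => [((5, 1) : Tok)])).flatten) :=
    NPC.Poly.flatten (NPC.Poly.map (NPC.Poly.fst hQ) (NPC.Poly.const _))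
  refine h.congr fun a => ?_
  unfold rp
  rw [List.map_const']

end Pol

/-! ### The words of the formulas -/

section Pr

variable (G : GadP 𝔅)

theorem pr_zero1 : pr G.toGad.zero = xw G.A0 G.A1 G.A2 (pr G.one) (pr G.one) := pr_zero G

theorem pr_ne (j : ℕ) : pr (G.toGad.ne j) = neW G.A0 G.A1 G.A2 j := by
  unfold Gad.ne neW xw
  simp [pr, G.pr_X]

theorem pr_negLit (l : Bool × ℕ) :
    pr (negLit G.toGad l) = negLitW G.A0 G.A1 G.A2 (pr G.one) l := by
  unfold negLit negLitW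
  split_ifs
  · rw [pr_ne]
  · rw [Gad.neg1, G.pr_X, pr_ne]
    rfl

theorem pr_imp1 (α β : Form 𝔅) : pr (G.toGad.imp1 β α) = i0 G.A0 ++ (pr β ++
    (i1 G.A0 G.A1 (pr G.one) ++ (pr α ++ i2 G.A2))) := by
  unfold Gad.imp1 i0 i1 i2
  simp only [pr, G.pr_X, List.append_assoc, List.cons_append, List.nil_append]

theorem pr_impL (l : List (Form 𝔅)) :
    pr (impL G.toGad l) = impLW G.A0 G.A1 G.A2 (pr G.one) (l.map pr) := by
  induction l with
  | nil =>
    rw [impL, pr_zero1]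
    simp [impLW, rp]
  | cons α l ih =>
    rw [impL, pr_imp1, ih]
    simp only [impLW, List.map_cons, List.flatten_cons, List.append_assoc, List.length_cons,
      List.length_map, rp, List.replicate_succ', List.flatten_append, List.flatten_nil,
      List.append_nil, List.map_map]

theorem pr_mat (C : List (List (Bool × ℕ))) :
    pr (mat G.toGad C) = matW G.A0 G.A1 G.A2 (pr G.one) C := by
  unfold mat matW clauseW Gad.neg1
  rw [G.pr_X, pr_impL, List.map_map]
  have : (pr ∘ clause G.toGad) = fun c => impLW G.A0 G.A1 G.A2 (pr G.one)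
      (List.map (negLitW G.A0 G.A1 G.A2 (pr G.one)) c) := by
    funext c
    rw [Function.comp, clause, pr_impL, List.map_map]
    congr 1
    exact List.map_congr_left fun l _ => pr_negLit G l
  rw [this]
  rfl

theorem pr_pref (qs : List Bool) : ∀ (j : ℕ) (β : Form 𝔅), pr (pref qs j β) =
    ((qs.zipIdx j).map (fun p : Bool × ℕ => [((if p.1 = true then 7 else 6, 0) : Tok),
      (8, 10 + p.2)])).flatten ++ (pr β ++ rp qs.length [(5, 1)]) := by
  induction qs with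
  | nil => intro j β; simp [pref, rp]
  | cons q qs ih =>
    intro j β
    rw [pref]
    cases q with
    | true =>
      rw [if_pos rfl]
      simp [pr, ih, rp, List.replicate_succ']
    | false =>
      rw [if_neg (by simp)]
      simp [pr, ih, rp, List.replicate_succ']

theorem pr_Xw (α β : Form 𝔅) : pr (G.X α β) = xw G.A0 G.A1 G.A2 (pr α) (pr β) := G.pr_X α β

theorem pr_rest1 (ψ : Form 𝔅) :
    pr (G.toGad.rest1 ψ) = restW1 G.A0 G.A1 G.A2 (pr G.one) (pr ψ) := by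
  unfold Gad.rest1 restW1
  simp only [pr, pr_Xw, List.cons_append, List.nil_append]

theorem pr_quant1 (ψ : Form 𝔅) :
    pr (G.toGad.quant1 ψ) = quantW1 G.A0 G.A1 G.A2 (pr G.one) (pr ψ) := by
  unfold Gad.quant1 quantW1
  simp only [pr, pr_Xw, List.cons_append, List.nil_append, List.append_assoc]

theorem pr_cX1 (ψ : Form 𝔅) :
    pr (G.toGad.cX1 ψ) = cXW1 G.A0 G.A1 G.A2 (pr G.one) (pr ψ) := by
  unfold Gad.cX1 cXW1
  rw [pr_Xw, pr_Xw, pr_quant1, pr_rest1]

theorem pr_pairs1 (ψ : Form 𝔅) :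
    pr (G.toGad.pairs1 ψ) = pairsW1 G.A0 G.A1 G.A2 (pr ψ) := by
  unfold Gad.pairs1 pairsW1
  simp only [pr, pr_Xw, List.cons_append, List.nil_append, List.append_assoc]

theorem pr_cD1 (ψ : Form 𝔅) :
    pr (G.toGad.cD1 ψ) = cDW1 G.A0 G.A1 G.A2 (pr G.one) (pr ψ) := by
  unfold Gad.cD1 cDW1
  rw [pr_Xw, pr_pairs1, pr_rest1]

theorem pr_gu (δ : Form 𝔅) : pr (G.toGad.gu δ) = guW G.A0 G.A1 G.A2 (pr G.one) (pr δ) := by
  unfold Gad.gu guW
  simp only [pr, pr_Xw, List.cons_append, List.nil_append]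

theorem pr_whole (ψ : Form 𝔅) :
    pr (G.toGad.whole ψ) = wholeW G.A0 G.A1 G.A2 (pr G.one) (pr ψ) := by
  unfold Gad.whole wholeW
  rw [pr, pr_Xw, pr_gu, pr_gu, pr_gu, pr_cD1, pr_cX1, pr_zero1]
  rfl

theorem pr_qform (Q : QF) : pr (qform G.toGad Q) =
    wholeW G.A0 G.A1 G.A2 (pr G.one) (qW G.A0 G.A1 G.A2 (pr G.one) Q) := by
  rw [qform, pr_whole, pr_pref, pr_mat]
  rfl

end Pr

/-- **Hardness for polynomial space**, over transitive frames and over equivalence relations. -/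
theorem hard_SatO1 (h : 𝔅.IsL) {𝔉 : FrameClass} (h𝔉 : 𝔉 = .trans ∨ 𝔉 = .er) :
    PSPACEHard (SatO1 𝔉 𝔅) := by
  obtain ⟨G⟩ := exists_gad h
  intro L hL
  obtain ⟨f, hf, hwf, hf'⟩ := qbf_hard hL
  refine ⟨fun x => bits (wholeW G.A0 G.A1 G.A2 (pr G.one)
    (qW G.A0 G.A1 G.A2 (pr G.one) (f x))), polyTime_bits (poly_wholeW _ _ _ _
      (poly_qW _ _ _ _ hf)), fun x => ?_⟩
  rw [hf' x, ← satisfiable_qform G.toGad (hwf x) h𝔉]
  constructor
  · intro h1
    refine ⟨qform G.toGad (f x), noAt_qform G _, ?_, h1⟩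
    rw [code, pr_qform]
  · rintro ⟨φ, _, h2, h3⟩
    change code φ = bits (wholeW G.A0 G.A1 G.A2 (pr G.one)
      (qW G.A0 G.A1 G.A2 (pr G.one) (f x))) at h2
    rw [← pr_qform] at h2
    have : φ = qform G.toGad (f x) := code_injective h2
    rw [← this]
    exact h3

end Pool.Agent.H75C.HY
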