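import Pool.Agent.H75C.HY.One
import Pool.Agent.H656R2.AK.QG

/-!
# Quantified Boolean formulas as formulas without `@`
-/

set_option autoImplicit false

namespace Pool.Agent.H75C.HY

open Pool.Agent.H656R2.AK Pool.Agent.H623R2.PS

variable {𝔅 : Base}

/-! ### Independence of the state and of variables -/

/-- The value at states of `C` depends only on the state and on the variables in `A`. -/
def WI (K : Model) (C : Set K.W) (A : Set ℕ) (β : Form 𝔅) : Prop :=
  ∀ (g g' : ℕ → K.W), ∀ v ∈ C, (∀ x ∈ A, g x = g' x) → tv K β g v = tv K β g' v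

/-- The value at states of `C` depends only on the variables in `A`. -/
def SI (K : Model) (C : Set K.W) (A : Set ℕ) (β : Form 𝔅) : Prop :=
  ∀ (g g' : ℕ → K.W), ∀ v ∈ C, ∀ v' ∈ C, (∀ x ∈ A, g x = g' x) → tv K β g v = tv K β g' v'

section

variable {K : Model} {C : Set K.W} {A A' : Set ℕ} {α β : Form 𝔅}

theorem SI.wi (h : SI K C A β) : WI K C A β := fun g g' v hv hg => h g g' v hv v hv hg

theorem WI.mono (h : WI K C A β) (hA : A ⊆ A') : WI K C A' β :=
  fun g g' v hv hg => h g g' v hv fun x hx => hg x (hA hx)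

theorem SI.mono (h : SI K C A β) (hA : A ⊆ A') : SI K C A' β :=
  fun g g' v hv v' hv' hg => h g g' v hv v' hv' fun x hx => hg x (hA hx)

theorem wi_var {x : ℕ} (hx : x ∈ A) : WI K C A (.var x : Form 𝔅) :=
  fun _ _ _ _ hg => var_congr (hg x hx)

theorem wi_bind {x : ℕ} (h : WI K C (insert x A) β) : WI K C A (.bind x β) := by
  intro g g' v hv hg
  rw [tv_bind, tv_bind]
  refine h _ _ v hv fun y hy => ?_
  by_cases hyx : y = x
  · subst hyx; simp
  · rw [Function.update_of_ne hyx, Function.update_of_ne hyx]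
    exact hg y (hy.resolve_left hyx)

theorem wi_X (G : Gad 𝔅) (hα : WI K C A α) (hβ : WI K C A β) : WI K C A (G.X α β) :=
  fun g g' v hv hg => X_congr G (hα g g' v hv hg) (hβ g g' v hv hg)

theorem si_X (G : Gad 𝔅) (hα : SI K C A α) (hβ : SI K C A β) : SI K C A (G.X α β) := by
  intro g g' v hv v' hv' hg
  rw [G.tv_X, G.tv_X, hα g g' v hv v' hv' hg, hβ g g' v hv v' hv' hg]

theorem si_one (G : Gad 𝔅) : SI K C A G.one := by
  intro g g' v _ v' _ _
  rw [G.tv_one, G.tv_one]

theorem si_zero (G : Gad 𝔅) : SI K C A G.zero := by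
  intro g g' v _ v' _ _
  rw [tv_zero, tv_zero]

theorem si_dia (hC : Clus K C) (h : WI K C A β) : SI K C A (.dia β) := by
  intro g g' v hv v' hv' hg
  rw [Bool.eq_iff_iff, dia_clus hC hv, dia_clus hC hv']
  exact exists_congr fun u => and_congr_right fun hu => by rw [h g g' u hu hg]

theorem si_box (hC : Clus K C) (h : WI K C A β) : SI K C A (.box β) := by
  intro g g' v hv v' hv' hg
  rw [Bool.eq_iff_iff, box_clus hC hv, box_clus hC hv']
  exact forall_congr' fun u => imp_congr_right fun hu => by rw [h g g' u hu hg]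

theorem si_imp1 (G : Gad 𝔅) (hC : Clus K C) (h2 : 2 ∈ A) (hα : SI K C A α) (hβ : SI K C A β) :
    SI K C A (G.imp1 β α) := by
  have h1 : A ⊆ insert 1 A := Set.subset_insert _ _
  exact si_dia hC (wi_bind (wi_X G (hβ.wi.mono h1) (si_dia hC (wi_X G (wi_var (by simp))
    (wi_X G (wi_var (h1 h2)) (wi_X G (si_one G).wi (hα.wi.mono h1))))).wi))

theorem si_ne (G : Gad 𝔅) (hC : Clus K C) {j : ℕ} (h2 : 2 ∈ A) (hj : j ∈ A) :
    SI K C A (G.ne j) := si_dia hC (wi_X G (wi_var hj) (wi_var h2))

end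

/-! ### The formulas -/

/-- The negation of a literal. -/
def negLit (G : Gad 𝔅) (l : Bool × ℕ) : Form 𝔅 :=
  if l.1 = true then G.ne (10 + l.2) else G.neg1 (G.ne (10 + l.2))

/-- The implication from all formulas of a list to falsity. -/
def impL (G : Gad 𝔅) : List (Form 𝔅) → Form 𝔅
  | [] => G.zero
  | α :: l => G.imp1 α (impL G l)

def clause (G : Gad 𝔅) (c : List (Bool × ℕ)) : Form 𝔅 := impL G (c.map (negLit G))

def mat (G : Gad 𝔅) (C : List (List (Bool × ℕ))) : Form 𝔅 := G.neg1 (impL G (C.map (clause G)))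

def pref : List Bool → ℕ → Form 𝔅 → Form 𝔅
  | [], _, β => β
  | q :: qs, j, β => if q = true then .box (.bind (10 + j) (pref qs (j + 1) β))
      else .dia (.bind (10 + j) (pref qs (j + 1) β))

/-- The formula of a quantified Boolean formula. -/
def qform (G : Gad 𝔅) (Q : QF) : Form 𝔅 := G.whole (pref Q.1 0 (mat G Q.2))

/-! ### Independence -/

section Ind

variable {K : Model} {C : Set K.W} (G : Gad 𝔅) (hC : Clus K C)

include hC

theorem si_impL {A : Set ℕ} (h2 : 2 ∈ A) {l : List (Form 𝔅)} (h : ∀ α ∈ l, SI K C A α) :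
    SI K C A (impL G l) := by
  induction l with
  | nil => exact si_zero G
  | cons α l ih =>
    exact si_imp1 G hC h2 (ih fun β hβ => h β (List.mem_cons_of_mem _ hβ))
      (h α List.mem_cons_self)

theorem si_mat {A : Set ℕ} (h2 : 2 ∈ A) {D : List (List (Bool × ℕ))} {n : ℕ}
    (hA : ∀ j < n, 10 + j ∈ A) (hD : ∀ c ∈ D, ∀ l ∈ c, l.2 < n) : SI K C A (mat G D) := by
  refine si_X G (si_one G) (si_impL G hC h2 fun α hα => ?_)
  obtain ⟨c, hc, rfl⟩ := List.mem_map.1 hα
  refine si_impL G hC h2 fun β hβ => ?_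
  obtain ⟨l, hl, rfl⟩ := List.mem_map.1 hβ
  unfold negLit
  split_ifs
  · exact si_ne G hC h2 (hA _ (hD c hc l hl))
  · exact si_X G (si_one G) (si_ne G hC h2 (hA _ (hD c hc l hl)))

theorem si_pref (qs : List Bool) : ∀ (j : ℕ) (β : Form 𝔅) (A : Set ℕ),
    (∀ A', A ⊆ A' → (∀ i < qs.length, 10 + (j + i) ∈ A') → SI K C A' β) →
      SI K C A (pref qs j β) := by
  induction qs with
  | nil =>
    intro j β A h
    exact h A (fun _ hx => hx) (fun i hi => by simp at hi)
  | cons q qs ih =>
    intro j β A h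
    have key : SI K C (insert (10 + j) A) (pref qs (j + 1) β) := by
      refine ih _ _ _ fun A' hA' h' => h A' (fun x hx => hA' (Set.mem_insert_of_mem _ hx)) ?_
      intro i hi
      rcases Nat.eq_zero_or_pos i with rfl | hi0
      · exact hA' (Set.mem_insert _ _)
      · have := h' (i - 1) (by simp at hi; omega)
        rwa [show 10 + (j + 1 + (i - 1)) = 10 + (j + i) by omega] at this
    rw [pref]
    split_ifs
    · exact si_box hC (wi_bind key.wi)
    · exact si_dia hC (wi_bind key.wi)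

theorem si_qf {Q : QF} (hQ : QFwf Q) : SI K C {2} (pref Q.1 0 (mat G Q.2)) := by
  refine si_pref hC _ _ _ _ fun A' hA' h' => si_mat G hC (hA' rfl) (n := Q.1.length)
    (fun j hj => ?_) hQ
  have := h' j hj
  rwa [Nat.zero_add] at this

end Ind

/-! ### Semantics in clusters with three elements -/

section Sem3

variable {K : Model} {C : Set K.W} (G : Gad 𝔅) (hC : Clus K C) (hT : Three C)

open Classical in
/-- Equality as a bit. -/
noncomputable def eqb {W : Type} (x y : W) : Bool := decide (x = y)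

theorem eqb_true {W : Type} {x y : W} : eqb x y = true ↔ x = y := by
  unfold eqb
  simp

theorem eqb_false {W : Type} {x y : W} (h : x ≠ y) : eqb x y = false := by
  unfold eqb
  simp [h]

/-- The bits given by the variables `10`, `11`, …. -/
noncomputable def bitL (g : ℕ → K.W) (n : ℕ) : List Bool :=
  (List.range n).map fun j => eqb (g (10 + j)) (g 2)

theorem bitL_update {g : ℕ → K.W} {j : ℕ} {x : K.W} :
    bitL (Function.update g (10 + j) x) (j + 1) = bitL g j ++ [eqb x (g 2)] := by
  unfold bitL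
  rw [List.range_succ, List.map_append, List.map_singleton, Function.update_self,
    Function.update_of_ne (by omega)]
  congr 1
  refine List.map_congr_left fun i hi => ?_
  rw [List.mem_range] at hi
  rw [Function.update_of_ne (by omega)]

include hC hT

theorem tv_impL {τ : Type} (f : τ → Form 𝔅) (P : τ → Prop) {g : ℕ → K.W} {w : K.W} (hw : w ∈ C)
    (h2 : g 2 ∈ C) (l : List τ) (h : ∀ t ∈ l, ∀ g' : ℕ → K.W, (∀ x, x ≠ 1 → g' x = g x) →
      ∀ v ∈ C, (tv K (f t) g' v = true ↔ P t)) :
    tv K (impL G (l.map f)) g w = true ↔ ¬ ∀ t ∈ l, P t := by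
  have key : ∀ (g' : ℕ → K.W), (∀ x, x ≠ 1 → g' x = g x) → ∀ v ∈ C,
      (tv K (impL G (l.map f)) g' v = true ↔ ¬ ∀ t ∈ l, P t) := by
    induction l with
    | nil =>
      intro g' _ v _
      rw [List.map_nil, impL, tv_zero]
      simp
    | cons t l ih =>
      intro g' hg' v hv
      rw [List.map_cons, impL, tv_imp1 G hC hT (b := P t) (a := ¬ ∀ t ∈ l, P t) hv
        (by rw [hg' 2 (by omega)]; exact h2)]
      · simp only [List.mem_cons, forall_eq_or_imp]
        tauto
      · intro u _ v hv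
        refine h t List.mem_cons_self _ (fun x hx => ?_) v hv
        rw [Function.update_of_ne hx, hg' x hx]
      · intro u _ v hv
        refine ih (fun β hβ => h β (List.mem_cons_of_mem _ hβ)) _ (fun x hx => ?_) v hv
        rw [Function.update_of_ne hx, hg' x hx]
  exact key g (fun _ _ => rfl) w hw

omit hT in
theorem tv_negLit {g : ℕ → K.W} {w : K.W} (hw : w ∈ C) {l : Bool × ℕ} (hl : g (10 + l.2) ∈ C) :
    tv K (negLit G l) g w = true ↔ ¬ (g (10 + l.2) = g 2 ↔ l.1 = true) := by
  unfold negLit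
  by_cases h : l.1 = true
  · rw [if_pos h, tv_ne G hC hw hl]
    simp [h]
  · rw [if_neg h, Gad.neg1, X_iff, G.tv_one, tv_ne G hC hw hl]
    simp [h]

theorem tv_mat {g : ℕ → K.W} {w : K.W} (hw : w ∈ C) (h2 : g 2 ∈ C) {n : ℕ}
    (hg : ∀ j < n, g (10 + j) ∈ C) {D : List (List (Bool × ℕ))}
    (hD : ∀ c ∈ D, ∀ l ∈ c, l.2 < n) :
    tv K (mat G D) g w = true ↔ evc (bitL g n) D = true := by
  have hlit : ∀ l : Bool × ℕ, l.2 < n → (((bitL g n).getD l.2 false == l.1) = true ↔
      (g (10 + l.2) = g 2 ↔ l.1 = true)) := by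
    intro l hl
    have : (bitL g n).getD l.2 false = eqb (g (10 + l.2)) (g 2) := by
      unfold bitL
      rw [List.getD_eq_getElem?_getD, List.getElem?_map, List.getElem?_range hl]
      rfl
    rw [this]
    by_cases h1 : g (10 + l.2) = g 2
    · rw [eqb_true.2 h1]
      cases l.1 <;> simp [h1]
    · rw [eqb_false h1]
      cases l.1 <;> simp [h1]
  have hcl : ∀ c ∈ D, ∀ g' : ℕ → K.W, (∀ x, x ≠ 1 → g' x = g x) → ∀ v ∈ C,
      (tv K (clause G c) g' v = true ↔
        (c.any fun l => (bitL g n).getD l.2 false == l.1) = true) := by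
    intro c hc g' hg' v hv
    rw [clause, tv_impL G hC hT _ (fun l => ¬ (g (10 + l.2) = g 2 ↔ l.1 = true)) hv
      (by rw [hg' 2 (by omega)]; exact h2)]
    · rw [List.any_eq_true]
      push Not
      exact exists_congr fun l => and_congr_right fun hl => by rw [hlit l (hD c hc l hl)]
    · intro l hl g'' hg'' v hv
      have e : ∀ x, x ≠ 1 → g'' x = g x := fun x hx => (hg'' x hx).trans (hg' x hx)
      rw [tv_negLit G hC hv (by rw [e _ (by omega)]; exact hg _ (hD c hc l hl)),
        e _ (by omega), e 2 (by omega)]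
  rw [mat, Gad.neg1, X_iff, G.tv_one, tv_impL G hC hT _
    (fun c => (c.any fun l => (bitL g n).getD l.2 false == l.1) = true) hw h2 D hcl, evc,
    List.all_eq_true]
  simp only [true_iff, not_not]

theorem tv_pref {D : List (List (Bool × ℕ))} (n : ℕ) (hD : ∀ c ∈ D, ∀ l ∈ c, l.2 < n)
    (qs : List Bool) : ∀ (j : ℕ) (g : ℕ → K.W), j + qs.length = n → g 2 ∈ C →
      (∀ i < j, g (10 + i) ∈ C) → ∀ w ∈ C, (tv K (pref qs j (mat G D)) g w = true ↔
        evq qs (fun u => evc (bitL g j ++ u) D) = true) := by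
  induction qs with
  | nil =>
    intro j g hj h2 hg w hw
    rw [pref, tv_mat G hC hT hw h2 (n := j) hg (by simpa [← hj] using hD), evq]
    simp
  | cons q qs ih =>
    intro j g hj h2 hg w hw
    have key : ∀ x ∈ C, (tv K (.bind (10 + j) (pref qs (j + 1) (mat G D))) g x = true ↔
        evq qs (fun u => evc (bitL g j ++ (eqb x (g 2) :: u)) D) = true) := by
      intro x hx
      rw [tv_bind, ih (j + 1) _ (by simp at hj; omega)
        (by rw [Function.update_of_ne (by omega)]; exact h2) ?_ x hx, bitL_update]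
      · simp only [List.append_assoc, List.singleton_append]
      · intro i hi
        by_cases hij : i = j
        · subst hij
          rw [Function.update_self]
          exact hx
        · rw [Function.update_of_ne (by omega)]
          exact hg i (by omega)
    obtain ⟨z, hz, hz1, _⟩ := hT.third (g 2) (g 2)
    have kz := key z hz
    have k2 := key _ h2
    rw [eqb_false hz1] at kz
    rw [eqb_true.2 rfl] at k2
    rw [pref, evq]
    cases q with
    | true =>
      rw [if_pos rfl, box_clus hC hw, cond_true, Bool.and_eq_true, ← kz, ← k2]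
      constructor
      · intro h
        exact ⟨h z hz, h _ h2⟩
      · rintro ⟨h3, h4⟩ x hx
        by_cases hx2 : x = g 2
        · rw [hx2]; exact h4
        · rw [key x hx, eqb_false hx2]
          exact kz.1 h3
    | false =>
      rw [if_neg (by simp), dia_clus hC hw, cond_false, Bool.or_eq_true, ← kz, ← k2]
      constructor
      · rintro ⟨x, hx, h⟩
        by_cases hx2 : x = g 2
        · rw [hx2] at h; exact Or.inr h
        · rw [key x hx, eqb_false hx2] at h
          exact Or.inl (kz.2 h)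
      · rintro (h | h)
        · exact ⟨z, hz, h⟩
        · exact ⟨_, h2, h⟩

end Sem3

/-- The model with three states, all of which see each other. -/
def three : Model := ⟨Fin 3, fun _ _ => True, fun _ _ => False, fun _ => 0⟩

theorem mem_three (𝔉 : FrameClass) : 𝔉.Mem three.R := by
  cases 𝔉 with
  | all => trivial
  | trans => exact fun _ _ _ _ _ => trivial
  | total => exact fun w => ⟨w, trivial⟩
  | er => exact ⟨fun _ => trivial, fun _ => trivial, fun _ _ => trivial⟩

/-- **Correctness of the reduction** over transitive frames and over equivalence relations. -/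
theorem satisfiable_qform (G : Gad 𝔅) {Q : QF} (hQ : QFwf Q) {𝔉 : FrameClass}
    (h𝔉 : 𝔉 = .trans ∨ 𝔉 = .er) :
    Satisfiable 𝔉 (qform G Q) ↔ evq Q.1 (fun v => evc v Q.2) = true := by
  have htr : ∀ {K : Model}, 𝔉.Mem K.R → ∀ u v w, K.R u v → K.R v w → K.R u w := by
    intro K hK
    rcases h𝔉 with rfl | rfl
    · exact hK
    · exact fun u v w h1 h2 => hK.trans h1 h2
  have main : ∀ (K : Model), 𝔉.Mem K.R → ∀ (g : ℕ → K.W) (w : K.W),
      (tv K (qform G Q) g w = true ↔ (evq Q.1 (fun v => evc v Q.2) = true ∧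
        ∃ C : Set K.W, Clus K C ∧ w ∈ C ∧ Three C)) := by
    intro K hK g w
    refine tv_whole G (htr hK) ?_ ?_
    · intro C hC hw g' hg' hT v hv
      rw [tv_pref G hC hT Q.1.length hQ Q.1 0 g' (by simp) (by rw [hg']; exact hw)
        (fun i hi => by omega) v hv]
      simp [bitL]
    · intro C hC hw
      refine ⟨tv K (pref Q.1 0 (mat G Q.2)) (fun _ => w) w = true, fun g' hg' v hv => ?_⟩
      rw [si_qf G hC hQ g' (fun _ => w) v hv w hw (by
        intro x hx
        rw [Set.mem_singleton_iff.1 hx, hg'])]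
  constructor
  · rintro ⟨K, g, w, hK, h⟩
    exact ((main K hK g w).1 h).1
  · intro h
    refine ⟨three, fun _ => (0 : Fin 3), (0 : Fin 3), mem_three 𝔉, ?_⟩
    refine (main three (mem_three 𝔉) _ _).2 ?_
    refine ⟨h, Set.univ, fun w _ v => ⟨fun _ => trivial, fun _ => trivial⟩, trivial, ?_⟩
    have h01 : (0 : Fin 3) ≠ 1 := by decide
    have h02 : (0 : Fin 3) ≠ 2 := by decide
    have h12 : (1 : Fin 3) ≠ 2 := by decide
    exact ⟨(0 : Fin 3), trivial, (1 : Fin 3), trivial, (2 : Fin 3), trivial, h01, h02, h12⟩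

/-! ### No `@` -/

theorem noAt_zero (G : GadP 𝔅) : NoAt G.toGad.zero := G.noAt_X _ _ G.noAt_one G.noAt_one

theorem noAt_ne (G : GadP 𝔅) (j : ℕ) : NoAt (G.toGad.ne j) := G.noAt_X _ _ trivial trivial

theorem noAt_imp1 (G : GadP 𝔅) {α β : Form 𝔅} (hα : NoAt α) (hβ : NoAt β) :
    NoAt (G.toGad.imp1 β α) :=
  G.noAt_X _ _ hβ (G.noAt_X _ _ trivial (G.noAt_X _ _ trivial (G.noAt_X _ _ G.noAt_one hα)))

theorem noAt_impL (G : GadP 𝔅) {l : List (Form 𝔅)} (h : ∀ α ∈ l, NoAt α) :
    NoAt (impL G.toGad l) := by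
  induction l with
  | nil => exact noAt_zero G
  | cons α l ih =>
    exact noAt_imp1 G (ih fun β hβ => h β (List.mem_cons_of_mem _ hβ)) (h α List.mem_cons_self)

theorem noAt_qform (G : GadP 𝔅) (Q : QF) : NoAt (qform G.toGad Q) := by
  have h1 : NoAt (mat G.toGad Q.2) := by
    refine G.noAt_X _ _ G.noAt_one (noAt_impL G fun α hα => ?_)
    obtain ⟨c, _, rfl⟩ := List.mem_map.1 hα
    refine noAt_impL G fun β hβ => ?_
    obtain ⟨l, _, rfl⟩ := List.mem_map.1 hβ
    unfold negLit
    split_ifs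
    · exact noAt_ne G _
    · exact G.noAt_X _ _ G.noAt_one (noAt_ne G _)
  have h2 : ∀ (qs : List Bool) (j : ℕ) (β : Form 𝔅), NoAt β → NoAt (pref qs j β) := by
    intro qs
    induction qs with
    | nil => intro j β hβ; exact hβ
    | cons q qs ih =>
      intro j β hβ
      rw [pref]
      split_ifs
      · exact ih _ _ hβ
      · exact ih _ _ hβ
  have h3 := h2 Q.1 0 _ h1
  have n1 := G.noAt_one
  have hx := G.noAt_X
  have h4 : NoAt (G.toGad.cX1 (pref Q.1 0 (mat G.toGad Q.2))) :=
    hx _ _ h3 (hx _ _ (hx _ _ trivial (hx _ _ trivial (hx _ _ n1 h3))) (hx _ _ n1 h3))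
  have h5 : NoAt (G.toGad.cD1 (G.toGad.cX1 (pref Q.1 0 (mat G.toGad Q.2)))) :=
    hx _ _ (hx _ _ trivial h4) (hx _ _ n1 h4)
  have h6 : ∀ δ : Form 𝔅, NoAt δ → NoAt (G.toGad.gu δ) := fun δ h =>
    hx _ _ (hx _ _ n1 h) (hx _ _ trivial (hx _ _ n1 h))
  exact hx _ _ (h6 _ (h6 _ h5)) (h6 _ (noAt_zero G))

end Pool.Agent.H75C.HY
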