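import Pool.Agent.H75C.HY.Stm
import Pool.Agent.H75C.NX.Enum
import Pool.Agent.H656R2.AK.GameIn

/-!
# Games with polynomially many rounds are in PSPACE (part C of `Pool.Agent.H75C.HY.Stm`)
-/

set_option autoImplicit false

namespace Pool.Agent.H75C.HY.GC

open Pool.Agent.NPC Pool.Agent.H623R2.PS

/-- The quantifiers of `r` rounds. -/
def rnd (w : ℕ) : ℕ → List Bool
  | 0 => []
  | r + 1 => List.replicate w false ++ (List.replicate w true ++ rnd w r)

/-- One round, reading the choices from a list of bits. -/
def rstep {σ : Type} (w : ℕ) (step : σ → List Bool → List Bool → σ) (p : σ × List Bool) :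
    σ × List Bool :=
  (step p.1 (p.2.take w) ((p.2.drop w).take w), (p.2.drop w).drop w)

theorem rstep_append {σ : Type} {w : ℕ} (step : σ → List Bool → List Bool → σ) (s : σ)
    {M M' : List Bool} (hM : M.length = w) (hM' : M'.length = w) (u : List Bool) :
    rstep w step (s, M ++ (M' ++ u)) = (step s M M', u) := by
  subst hM
  unfold rstep
  simp only [List.take_left', List.drop_left']
  rw [← hM']
  simp

theorem evq_rnd {σ : Type} (step : σ → List Bool → List Bool → σ) (out : σ → Bool) (w r : ℕ) :
    ∀ s : σ, evq (rnd w r) (fun u => out ((rstep w step)^[r] (s, u)).1) = true ↔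
      GV step out w r s := by
  induction r with
  | zero => intro s; exact Iff.rfl
  | succ r ih =>
    intro s
    rw [rnd, evq_exists]
    refine exists_congr fun M => and_congr_right fun hM => ?_
    rw [H656R2.AK.evq_forall]
    refine forall_congr' fun M' => imp_congr_right fun hM' => ?_
    rw [← ih]
    have : (fun u : List Bool => out ((rstep w step)^[r + 1] (s, M ++ (M' ++ u))).1) =
        fun u => out ((rstep w step)^[r] (step s M M', u)).1 := by
      funext u
      rw [Function.iterate_succ_apply, rstep_append step s hM hM']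
    rw [this]

theorem rnd_eq (w r : ℕ) : rnd w r = (List.range r).flatMap fun _ =>
    List.replicate w false ++ List.replicate w true := by
  induction r with
  | zero => rfl
  | succ r ih =>
    rw [rnd, ih, List.range_succ_eq_map, List.flatMap_cons, List.flatMap_map, List.append_assoc]

theorem poly_drop {α β : Type} [TEnc α] [TEnc β] {l : α → List β} {n : α → ℕ} (hl : NPC.Poly l)
    (hn : NPC.Poly n) : NPC.Poly (fun a => (l a).drop (n a)) := by
  have h1 : NPC.Poly (fun a => (l a).reverse) := by fun_prop
  have h2 : NPC.Poly (fun a => (l a).length - n a) := by fun_prop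
  have h3 := NX.poly_take h1 h2
  have h4 : NPC.Poly (fun a => ((l a).reverse.take ((l a).length - n a)).reverse) := by fun_prop
  refine h4.congr fun a => ?_
  rw [List.reverse_take, List.reverse_reverse, List.length_reverse]
  by_cases h : n a ≤ (l a).length
  · congr 1; omega
  · rw [List.drop_of_length_le (by omega), List.drop_of_length_le (by omega)]

theorem sz_iter {α σ : Type} [TEnc α] [TEnc σ] (step : α → σ → List Bool → List Bool → σ)
    (q : Polynomial ℕ)
    (hsz : ∀ a s M M', sz (step a s M M') ≤ sz s + q.eval (sz a + sz M + sz M'))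
    (a : α) (w : ℕ) (s : σ) (u : List Bool) (k : ℕ) :
    sz ((rstep w (step a))^[k] (s, u)).1 ≤ sz s + k * q.eval (sz a + sz u + sz u) ∧
      sz ((rstep w (step a))^[k] (s, u)).2 ≤ sz u := by
  induction k with
  | zero => simp
  | succ k ih =>
    rw [Function.iterate_succ_apply']
    set y := (rstep w (step a))^[k] (s, u) with hy
    obtain ⟨h1, h2⟩ := ih
    have e1 : sz (y.2.take w) ≤ sz u := (Poly.sz_take_le _ _).trans h2
    have e2 : sz ((y.2.drop w).take w) ≤ sz u :=
      (Poly.sz_take_le _ _).trans ((Poly.sz_drop_le _ _).trans h2)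
    have e3 : sz ((y.2.drop w).drop w) ≤ sz u :=
      (Poly.sz_drop_le _ _).trans ((Poly.sz_drop_le _ _).trans h2)
    refine ⟨?_, e3⟩
    have e4 := hsz a y.1 (y.2.take w) ((y.2.drop w).take w)
    have e5 : q.eval (sz a + sz (y.2.take w) + sz ((y.2.drop w).take w)) ≤
        q.eval (sz a + sz u + sz u) := eval_mono q (by omega)
    unfold rstep
    simp only
    rw [Nat.succ_mul]
    omega

theorem partC : PartC := by
  intro α σ _ _ a s0 w r step out q L ha hs0 hw hr hstep hout hsz hL
  have hwp := hw.toPoly
  have hrl : NPC.Poly (fun x => List.replicate (r x) ()) := hr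
  refine inPSPACE_of_evq (α := α × σ × ℕ × List Unit)
    (init := fun x => (a x, s0 x, w x, List.replicate (r x) ())) (by fun_prop)
    (qs := fun x => rnd (w x) (r x)) ?_
    (φ := fun p u => out ((rstep p.2.2.1 (step p.1))^[p.2.2.2.length] (p.2.1, u)).1) ?_ ?_
  · have h1 : NPC.Poly (fun x => List.replicate (w x) false) :=
      (NPC.Poly.map (F := fun _ _ => false) (show NPC.Poly (fun x => List.replicate (w x) ())
        from hw) (by fun_prop)).congr fun x => by simp
    have h2 : NPC.Poly (fun x => List.replicate (w x) true) :=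
      (NPC.Poly.map (F := fun _ _ => true) (show NPC.Poly (fun x => List.replicate (w x) ())
        from hw) (by fun_prop)).congr fun x => by simp
    have h3 : NPC.Poly (fun x => (List.range (r x)).flatMap fun _ =>
        List.replicate (w x) false ++ List.replicate (w x) true) := by
      refine NPC.Poly.flatMap (l := fun x => List.range (r x))
        (F := fun x _ => List.replicate (w x) false ++ List.replicate (w x) true) hr.range ?_
      have h12 := NPC.Poly.append h1 h2
      exact h12.comp (f := fun p : List Bool × ℕ => p.1) (by fun_prop)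
    exact h3.congr fun x => (rnd_eq _ _).symm
  · have h1 : NPC.Poly (fun p : (α × σ × ℕ × List Unit) × List Bool =>
        (rstep p.1.2.2.1 (step p.1.1))^[p.1.2.2.2.length] (p.1.2.1, p.2)) := by
      refine NPC.Poly.iterLen (l := fun p : (α × σ × ℕ × List Unit) × List Bool => p.1.2.2.2)
        (s := fun p => (p.1.2.1, p.2))
        (F := fun p y => rstep p.1.2.2.1 (step p.1.1) y) (by fun_prop) (by fun_prop) ?_
        (Polynomial.X + Polynomial.X * q.comp (3 * Polynomial.X) + Polynomial.X + 1) ?_
      · unfold rstep
        have t1 : NPC.Poly (fun p : ((α × σ × ℕ × List Unit) × List Bool) × (σ × List Bool) =>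
            p.2.2.take p.1.1.2.2.1) := NX.poly_take (by fun_prop) (by fun_prop)
        have t2 : NPC.Poly (fun p : ((α × σ × ℕ × List Unit) × List Bool) × (σ × List Bool) =>
            p.2.2.drop p.1.1.2.2.1) := poly_drop (by fun_prop) (by fun_prop)
        have t3 : NPC.Poly (fun p : ((α × σ × ℕ × List Unit) × List Bool) × (σ × List Bool) =>
            (p.2.2.drop p.1.1.2.2.1).take p.1.1.2.2.1) := NX.poly_take t2 (by fun_prop)
        have t4 : NPC.Poly (fun p : ((α × σ × ℕ × List Unit) × List Bool) × (σ × List Bool) =>
            (p.2.2.drop p.1.1.2.2.1).drop p.1.1.2.2.1) := poly_drop t2 (by fun_prop)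
        refine NPC.Poly.pair ?_ t4
        exact hstep.comp (f := fun p : ((α × σ × ℕ × List Unit) × List Bool) × (σ × List Bool) =>
          (p.1.1.1, p.2.1, p.2.2.take p.1.1.2.2.1, (p.2.2.drop p.1.1.2.2.1).take p.1.1.2.2.1))
          (by fun_prop)
      · rintro ⟨⟨a1, s1, w1, l1⟩, u⟩ k hk
        obtain ⟨g1, g2⟩ := sz_iter step q hsz a1 w1 s1 u k
        simp only at hk ⊢
        set y := (rstep w1 (step a1))^[k] (s1, u) with hy
        have e1 : sz y = sz y.1 + sz y.2 + 1 := by
          obtain ⟨y1, y2⟩ := y
          simp
        have e2 := length_lt_sz l1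
        have e3 : sz (((a1, s1, w1, l1), u) : (α × σ × ℕ × List Unit) × List Bool) =
            (sz a1 + (sz s1 + (sz w1 + sz l1 + 1) + 1) + 1) + sz u + 1 := by simp
        set N := sz (((a1, s1, w1, l1), u) : (α × σ × ℕ × List Unit) × List Bool) with hN
        have e4 : q.eval (sz a1 + sz u + sz u) ≤ q.eval (3 * N) := eval_mono q (by omega)
        have e5 : k * q.eval (sz a1 + sz u + sz u) ≤ N * q.eval (3 * N) :=
          Nat.mul_le_mul (by omega) e4
        simp only [Polynomial.eval_add, Polynomial.eval_mul, Polynomial.eval_X,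
          Polynomial.eval_ofNat, Polynomial.eval_comp, Polynomial.eval_one]
        omega
    exact hout.comp (NPC.Poly.fst h1)
  · intro x
    rw [hL]
    have h := evq_rnd (step (a x)) out (w x) (r x) (s0 x)
    simp only [List.length_replicate]
    exact h.symm

end Pool.Agent.H75C.HY.GC
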