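import Pool.Agent.H75C.HY.Sem

/-!
# The reduction preserves satisfiability
-/

set_option autoImplicit false

namespace Pool.Agent.H75C.HY

variable {𝔅 : Base}

/-- The relation of the added component, with the hub `0`. -/
def gad : FrameClass → Fin 4 → Fin 4 → Prop
  | .er, _, _ => True
  | _, i, j => j ≠ 0 ∧ (i = 0 ∨ i = j)

theorem gad_hub (𝔉 : FrameClass) {j : Fin 4} (hj : j ≠ 0) : gad 𝔉 0 j := by
  cases 𝔉 <;> simp [gad, hj]

/-- The relation of the disjoint sum. -/
def sumRel (𝔉 : FrameClass) (K : Model) : K.W ⊕ Fin 4 → K.W ⊕ Fin 4 → Prop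
  | .inl a, .inl b => K.R a b
  | .inr i, .inr j => gad 𝔉 i j
  | _, _ => False

/-- The disjoint sum of a model and the component with the hub, which is named by the nominal `0`. -/
def sumModel (𝔉 : FrameClass) (K : Model) : Model where
  W := K.W ⊕ Fin 4
  R := sumRel 𝔉 K
  V := fun i w => match w with
    | .inl a => K.V i a
    | .inr _ => False
  nm := fun i => match i with
    | 0 => .inr 0
    | i + 1 => .inl (K.nm i)

theorem mem_sum {𝔉 : FrameClass} {K : Model} (h : 𝔉.Mem K.R) : 𝔉.Mem (sumModel 𝔉 K).R := by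
  cases 𝔉 with
  | all => trivial
  | trans =>
    rintro (a | i) (b | j) (c | k) h1 h2
    · exact h a b c h1 h2
    · exact h2
    · exact h1.elim
    · exact h1.elim
    · exact h1.elim
    · exact h1.elim
    · exact h2.elim
    · obtain ⟨_, h3⟩ := h1
      obtain ⟨h4, h5⟩ := h2
      refine ⟨h4, ?_⟩
      rcases h3 with h3 | h3
      · exact Or.inl h3
      · rcases h5 with h5 | h5
        · exact Or.inl (h3.trans h5)
        · exact Or.inr (h3.trans h5)
  | total =>
    rintro (a | i)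
    · obtain ⟨b, hb⟩ := h a
      exact ⟨.inl b, hb⟩
    · by_cases hi : i = 0
      · exact ⟨.inr 1, by decide, Or.inl hi⟩
      · exact ⟨.inr i, hi, Or.inr rfl⟩
  | er =>
    refine ⟨?_, ?_, ?_⟩
    · rintro (a | i)
      · exact h.refl a
      · trivial
    · rintro (a | i) (b | j) h1
      · exact h.symm h1
      · exact h1.elim
      · exact h1.elim
      · trivial
    · rintro (a | i) (b | j) (c | k) h1 h2
      · exact h.trans h1 h2
      · exact h2.elim
      · exact h1.elim
      · exact h1.elim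
      · exact h1.elim
      · exact h1.elim
      · exact h2.elim
      · trivial

theorem hub_sum (𝔉 : FrameClass) (K : Model) : Hub (sumModel 𝔉 K) := by
  refine ⟨.inr 1, .inr 2, .inr 3, gad_hub 𝔉 (by decide), gad_hub 𝔉 (by decide),
    gad_hub 𝔉 (by decide), ?_, ?_, ?_⟩ <;>
  · intro h
    exact absurd (Sum.inr.inj h) (by decide)

/-- The embedding of the model. -/
def inL (𝔉 : FrameClass) (K : Model) : K.W → (sumModel 𝔉 K).W := Sum.inl

/-- The embedding of the added component. -/
def inR (𝔉 : FrameClass) (K : Model) : Fin 4 → (sumModel 𝔉 K).W := Sum.inr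

theorem R_inL (𝔉 : FrameClass) (K : Model) (a : K.W) (v' : (sumModel 𝔉 K).W) :
    (sumModel 𝔉 K).R (inL 𝔉 K a) v' ↔ ∃ v, v' = inL 𝔉 K v ∧ K.R a v := by
  rcases v' with b | j
  · constructor
    · intro h1
      exact ⟨b, rfl, h1⟩
    · rintro ⟨v, h1, h2⟩
      cases h1
      exact h2
  · constructor
    · intro h1
      exact h1.elim
    · rintro ⟨v, h1, _⟩
      cases h1

theorem R_hub (𝔉 : FrameClass) (K : Model) :
    (sumModel 𝔉 K).R ((sumModel 𝔉 K).nm 0) (inR 𝔉 K 1) := gad_hub 𝔉 (by decide)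

/-- The assignment in the sum. -/
def sumAsg (𝔉 : FrameClass) (K : Model) (g : ℕ → K.W) : ℕ → (sumModel 𝔉 K).W :=
  fun x => if 5 ≤ x then inL 𝔉 K (g (x - 5)) else inR 𝔉 K 1

/-- **The reduction is correct.** -/
theorem satisfiable_red (G : Gad 𝔅) (𝔉 : FrameClass) (φ : Form impBot) :
    Satisfiable 𝔉 (red G φ) ↔ Satisfiable 𝔉 φ := by
  constructor
  · rintro ⟨K, g, w, hF, h⟩
    rw [tv_red] at h
    obtain ⟨hK, a, ha, h⟩ := h
    set K0 : Model := ⟨K.W, K.R, K.V, fun i => K.nm (i + 1)⟩ with hK0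
    refine ⟨K0, fun x => g (x + 5), w, hF, ?_⟩
    have key := tv_tr G (K := K0) (K' := K) hK id Function.injective_id
      (fun w v' => ⟨fun h => ⟨v', rfl, h⟩, fun ⟨v, h1, h2⟩ => h1 ▸ h2⟩) (fun i w => Iff.rfl)
      (fun i => rfl) φ (fun x => g (x + 5))
      (Function.update (Function.update g 3 w) 2 a) w ?_ ?_
    · exact key.1 h
    · intro x
      rw [Function.update_of_ne (by omega), Function.update_of_ne (by omega)]
      rfl
    · simpa using ha
  · rintro ⟨K, g, w, hF, h⟩
    refine ⟨sumModel 𝔉 K, sumAsg 𝔉 K g, inL 𝔉 K w, mem_sum hF, ?_⟩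
    rw [tv_red]
    refine ⟨hub_sum 𝔉 K, inR 𝔉 K 1, R_hub 𝔉 K, ?_⟩
    refine (tv_tr G (hub_sum 𝔉 K) (inL 𝔉 K) Sum.inl_injective (R_inL 𝔉 K) (fun i w => Iff.rfl)
      (fun i => rfl) φ g _ w ?_ ?_).2 h
    · intro x
      rw [Function.update_of_ne (by omega), Function.update_of_ne (by omega), sumAsg,
        if_pos (by omega)]
      rfl
    · rw [Function.update_self]
      exact R_hub 𝔉 K

end Pool.Agent.H75C.HY
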