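import Pool.Agent.H75C.HY.Defs

/-!
# The gadgets and their semantics
-/

set_option autoImplicit false

namespace Pool.Agent.H75C.HY

/-! ### Truth values -/

section Basic

variable {𝔅 : Base} {K : Model} {g g' : ℕ → K.W} {w w' : K.W}

theorem tv_prop {i : ℕ} : tv K (.prop i : Form 𝔅) g w = true ↔ K.V i w := by
  simp [tv]

theorem tv_nom {i : ℕ} : tv K (.nom i : Form 𝔅) g w = true ↔ w = K.nm i := by
  simp [tv]

theorem tv_var {x : ℕ} : tv K (.var x : Form 𝔅) g w = true ↔ w = g x := by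
  simp [tv]

theorem tv_dia {φ : Form 𝔅} : tv K (.dia φ) g w = true ↔ ∃ v, K.R w v ∧ tv K φ g v = true := by
  simp [tv]

theorem tv_box {φ : Form 𝔅} : tv K (.box φ) g w = true ↔ ∀ v, K.R w v → tv K φ g v = true := by
  simp [tv]

theorem tv_bind {x : ℕ} {φ : Form 𝔅} :
    tv K (.bind x φ) g w = tv K φ (Function.update g x w) w := rfl

theorem tv_atNom {i : ℕ} {φ : Form 𝔅} : tv K (.atNom i φ) g w = tv K φ g (K.nm i) := rfl

theorem tv_atVar {x : ℕ} {φ : Form 𝔅} : tv K (.atVar x φ) g w = tv K φ g (g x) := rfl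

theorem var_congr {x : ℕ} (h : g x = g' x) :
    tv K (.var x : Form 𝔅) g w = tv K (.var x : Form 𝔅) g' w := by
  rw [Bool.eq_iff_iff, tv_var, tv_var, h]

theorem dia_congr {φ : Form 𝔅} (h : ∀ v, tv K φ g v = tv K φ g' v) :
    tv K (.dia φ) g w = tv K (.dia φ) g' w := by
  rw [Bool.eq_iff_iff, tv_dia, tv_dia]
  exact exists_congr fun v => by rw [h v]

theorem dia_congr' {φ ψ : Form 𝔅} (h : ∀ v, tv K φ g v = tv K ψ g' v) :
    tv K (.dia φ) g w = tv K (.dia ψ) g' w := by
  rw [Bool.eq_iff_iff, tv_dia, tv_dia]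
  exact exists_congr fun v => by rw [h v]

theorem box_congr {φ : Form 𝔅} (h : ∀ v, tv K φ g v = tv K φ g' v) :
    tv K (.box φ) g w = tv K (.box φ) g' w := by
  rw [Bool.eq_iff_iff, tv_box, tv_box]
  exact forall_congr' fun v => by rw [h v]

end Basic

/-- The formulas from which all gadgets are built: an exclusive disjunction and a constant. -/
structure Gad (𝔅 : Base) where
  X : Form 𝔅 → Form 𝔅 → Form 𝔅
  one : Form 𝔅
  tv_X : ∀ (K : Model) (α β : Form 𝔅) (g : ℕ → K.W) (w : K.W),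
    tv K (X α β) g w = xor (tv K α g w) (tv K β g w)
  tv_one : ∀ (K : Model) (g : ℕ → K.W) (w : K.W), tv K one g w = true

variable {𝔅 : Base}

namespace Gad

variable (G : Gad 𝔅)

/-- Falsity. -/
def zero : Form 𝔅 := G.X G.one G.one

/-- The inner part of the gadget for the implication. -/
def inner (α : Form 𝔅) : Form 𝔅 :=
  .atNom 0 (.dia (G.X (.var 1) (G.X (.var 2) (G.X G.one (.atVar 0 α)))))

/-- The gadget for the implication from `β` to `α`. The nominal `0` names the hub, the variable `2`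
one of its successors. -/
def imp (β α : Form 𝔅) : Form 𝔅 :=
  .bind 0 (.atNom 0 (.dia (.bind 1 (G.X (.atVar 0 β) (G.inner α)))))

/-- Nonzero iff `ψ` is false and the hub has a successor. -/
def rest (ψ : Form 𝔅) : Form 𝔅 := .atNom 0 (.dia (G.X G.one ψ))

/-- The part of `cX` with quantifiers. -/
def quant (ψ : Form 𝔅) : Form 𝔅 :=
  .atNom 0 (.dia (.bind 0 (.atNom 0 (.dia (.bind 1 (.atNom 0 (.box
    (G.X (.var 0) (G.X (.var 1) (G.X G.one ψ))))))))))

/-- `ψ`, and the hub does not have exactly two successors. -/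
def cX (ψ : Form 𝔅) : Form 𝔅 := G.X ψ (G.X (G.quant ψ) (G.rest ψ))

/-- The part of `cD` with quantifiers. -/
def pairs (ψ : Form 𝔅) : Form 𝔅 := .atNom 0 (.dia (.bind 0 (.atNom 0 (.dia (G.X (.var 0) ψ)))))

/-- `ψ`, and the hub has at least two successors. -/
def cD (ψ : Form 𝔅) : Form 𝔅 := G.X (G.pairs ψ) (G.rest ψ)

end Gad

/-! ### The translation -/

/-- The translation into formulas with connectives from `𝔅`. -/
def tr (G : Gad 𝔅) : Form impBot → Form 𝔅
  | .prop i => .prop i
  | .nom i => .nom (i + 1)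
  | .var x => .var (x + 5)
  | .app .imp φ => G.imp (tr G (φ (0 : Fin 2))) (tr G (φ (1 : Fin 2)))
  | .app .bot _ => G.zero
  | .dia φ => .dia (tr G φ)
  | .box φ => .box (tr G φ)
  | .bind x φ => .bind (x + 5) (tr G φ)
  | .atNom i φ => .atNom (i + 1) (tr G φ)
  | .atVar x φ => .atVar (x + 5) (tr G φ)

/-- The translation relative to the hub, at the state named by the variable `3`. -/
def psi (G : Gad 𝔅) (φ : Form impBot) : Form 𝔅 :=
  .atNom 0 (.dia (.bind 2 (.atVar 3 (tr G φ))))

/-- The reduction. -/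
def red (G : Gad 𝔅) (φ : Form impBot) : Form 𝔅 := .bind 3 (G.cD (G.cX (psi G φ)))

/-! ### Semantics of the gadgets -/

/-- The hub has three distinct successors. -/
def Hub (K : Model) : Prop :=
  ∃ p q r, K.R (K.nm 0) p ∧ K.R (K.nm 0) q ∧ K.R (K.nm 0) r ∧ p ≠ q ∧ p ≠ r ∧ q ≠ r

theorem Hub.third {K : Model} (h : Hub K) (x y : K.W) : ∃ z, K.R (K.nm 0) z ∧ z ≠ x ∧ z ≠ y := by
  obtain ⟨p, q, r, hp, hq, hr, hpq, hpr, hqr⟩ := h
  by_cases h1 : p = x ∨ p = y
  · by_cases h2 : q = x ∨ q = y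
    · refine ⟨r, hr, ?_, ?_⟩
      · rintro rfl
        rcases h1 with h1 | h1 <;> rcases h2 with h2 | h2 <;> simp_all
      · rintro rfl
        rcases h1 with h1 | h1 <;> rcases h2 with h2 | h2 <;> simp_all
    · push Not at h2
      exact ⟨q, hq, h2⟩
  · push Not at h1
    exact ⟨p, hp, h1⟩

theorem tv_zero (G : Gad 𝔅) (K : Model) (g : ℕ → K.W) (w : K.W) : tv K G.zero g w = false := by
  unfold Gad.zero
  rw [G.tv_X, G.tv_one]
  rfl

theorem X_iff (G : Gad 𝔅) {K : Model} {α β : Form 𝔅} {g : ℕ → K.W} {w : K.W} :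
    tv K (G.X α β) g w = true ↔ ¬ (tv K α g w = true ↔ tv K β g w = true) := by
  rw [G.tv_X]
  cases tv K α g w <;> cases tv K β g w <;> simp

theorem X_congr (G : Gad 𝔅) {K : Model} {α β : Form 𝔅} {g g' : ℕ → K.W} {w w' : K.W}
    (h1 : tv K α g w = tv K α g' w') (h2 : tv K β g w = tv K β g' w') :
    tv K (G.X α β) g w = tv K (G.X α β) g' w' := by
  rw [G.tv_X, G.tv_X, h1, h2]

/-- The semantics of the inner part. -/
theorem tv_inner (G : Gad 𝔅) {K : Model} (hK : Hub K) {α : Form 𝔅} {g : ℕ → K.W}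
    (hu : K.R (K.nm 0) (g 1)) (v : K.W) :
    tv K (G.inner α) g v = true ↔ ¬ (g 1 = g 2 ∧ tv K α g (g 0) = true) := by
  unfold Gad.inner
  rw [tv_atNom, tv_dia]
  have key : ∀ v, tv K (G.X (.var 1) (G.X (.var 2) (G.X G.one (.atVar 0 α)))) g v = true ↔
      ¬ (v = g 1 ↔ ¬ (v = g 2 ↔ ¬ tv K α g (g 0) = true)) := by
    intro v
    rw [X_iff, X_iff, X_iff, G.tv_one, tv_atVar, tv_var, tv_var]
    simp
  simp only [key]
  by_cases ha : tv K α g (g 0) = true
  · simp only [ha, not_true_eq_false, iff_false, and_true]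
    constructor
    · rintro ⟨v, _, h⟩ h1
      rw [h1] at h
      exact h (by tauto)
    · intro h1
      refine ⟨g 1, hu, ?_⟩
      simp [h1]
  · simp only [ha, Bool.false_eq_true, not_false_eq_true, iff_true, and_false]
    by_cases h1 : g 1 = g 2
    · refine ⟨g 1, hu, ?_⟩
      simp [h1]
    · obtain ⟨z, hz, h4, h5⟩ := hK.third (g 1) (g 2)
      exact ⟨z, hz, by simp [h4, h5]⟩

/-- The semantics of the gadget for the implication. -/
theorem tv_imp (G : Gad 𝔅) {K : Model} (hK : Hub K) {β α : Form 𝔅} {g : ℕ → K.W} {w : K.W}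
    {b a : Prop} (h2 : K.R (K.nm 0) (g 2))
    (hβ : ∀ u, tv K β (Function.update (Function.update g 0 w) 1 u) w = true ↔ b)
    (hα : ∀ u, tv K α (Function.update (Function.update g 0 w) 1 u) w = true ↔ a) :
    tv K (G.imp β α) g w = true ↔ (b → a) := by
  have e1 : ∀ u, Function.update (Function.update g 0 w) 1 u 1 = u := by simp
  have e2 : ∀ u, Function.update (Function.update g 0 w) 1 u 2 = g 2 := by simp
  have e3 : ∀ u, Function.update (Function.update g 0 w) 1 u 0 = w := by simp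
  unfold Gad.imp
  rw [tv_bind, tv_atNom, tv_dia]
  have key : (∃ v, K.R (K.nm 0) v ∧ tv K (.bind 1 (G.X (.atVar 0 β) (G.inner α)))
      (Function.update g 0 w) v = true) ↔ ∃ v, K.R (K.nm 0) v ∧ ¬ (b ↔ ¬ (v = g 2 ∧ a)) := by
    refine exists_congr fun v => and_congr_right fun hv => ?_
    rw [tv_bind, X_iff, tv_atVar, e3, hβ, tv_inner G hK (by rw [e1]; exact hv), e1, e2, e3, hα]
  rw [key]
  by_cases hb : b
  · simp only [hb, true_iff, not_not, forall_const]
    constructor
    · rintro ⟨_, _, _, h⟩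
      exact h
    · intro h
      exact ⟨g 2, h2, rfl, h⟩
  · simp only [hb, false_iff, not_not, false_imp_iff, iff_true]
    obtain ⟨z, hz, h4, _⟩ := hK.third (g 2) (g 2)
    exact ⟨z, hz, fun h => h4 h.1⟩

/-- The translation depends on the values of the variables `2` and `x ≥ 5` only. -/
theorem tv_tr_congr (G : Gad 𝔅) (K : Model) : ∀ (φ : Form impBot) (g g' : ℕ → K.W) (w : K.W),
    g 2 = g' 2 → (∀ x, g (x + 5) = g' (x + 5)) → tv K (tr G φ) g w = tv K (tr G φ) g' w := by
  intro φ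
  induction φ with
  | prop i => intro g g' w _ _; rfl
  | nom i => intro g g' w _ _; rfl
  | var x => intro g g' w _ h; exact var_congr (h x)
  | app b φ ih =>
    intro g g' w h2 h5
    cases b with
    | bot => rw [tr, tv_zero, tv_zero]
    | imp =>
      have e : ∀ (i : Fin 2) (u : K.W), tv K (tr G (φ i))
          (Function.update (Function.update g 0 w) 1 u) w =
          tv K (tr G (φ i)) (Function.update (Function.update g' 0 w) 1 u) w := by
        intro i u
        refine ih i _ _ w ?_ ?_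
        · simp [h2]
        · intro x
          rw [Function.update_of_ne (by omega), Function.update_of_ne (by omega),
            Function.update_of_ne (by omega), Function.update_of_ne (by omega), h5 x]
      rw [tr]
      unfold Gad.imp
      rw [tv_bind, tv_bind, tv_atNom, tv_atNom]
      refine dia_congr' fun u => ?_
      rw [tv_bind, tv_bind]
      refine X_congr G ?_ ?_
      · rw [tv_atVar, tv_atVar]
        simpa using e 0 u
      · unfold Gad.inner
        rw [tv_atNom, tv_atNom]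
        refine dia_congr' fun v => ?_
        refine X_congr G (by rw [Bool.eq_iff_iff, tv_var, tv_var]; simp) (X_congr G
          (by rw [Bool.eq_iff_iff, tv_var, tv_var]; simp [h2]) (X_congr G
            (by rw [G.tv_one, G.tv_one]) ?_))
        rw [tv_atVar, tv_atVar]
        simpa using e 1 u
  | dia φ ih =>
    intro g g' w h2 h5
    exact dia_congr fun v => ih g g' v h2 h5
  | box φ ih =>
    intro g g' w h2 h5
    exact box_congr fun v => ih g g' v h2 h5
  | bind x φ ih =>
    intro g g' w h2 h5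
    rw [tr, tv_bind, tv_bind]
    refine ih _ _ w ?_ ?_
    · rw [Function.update_of_ne (by omega), Function.update_of_ne (by omega), h2]
    · intro y
      by_cases hxy : y = x
      · subst hxy; simp
      · rw [Function.update_of_ne (by omega), Function.update_of_ne (by omega), h5]
  | atNom i φ ih =>
    intro g g' w h2 h5
    exact ih g g' _ h2 h5
  | atVar x φ ih =>
    intro g g' w h2 h5
    rw [tr, tv_atVar, tv_atVar, h5 x]
    exact ih g g' _ h2 h5

/-- Two assignments that agree at `3` and at all `x ≥ 5`. -/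
def Agree {K : Model} (g g' : ℕ → K.W) : Prop := g' 3 = g 3 ∧ ∀ x, g' (x + 5) = g (x + 5)

theorem Agree.refl {K : Model} (g : ℕ → K.W) : Agree g g := ⟨rfl, fun _ => rfl⟩

theorem Agree.update {K : Model} {g g' : ℕ → K.W} (h : Agree g g') {y : ℕ} (hy : y < 3) (v : K.W) :
    Agree g (Function.update g' y v) := by
  refine ⟨?_, fun x => ?_⟩
  · rw [Function.update_of_ne (by omega)]; exact h.1
  · rw [Function.update_of_ne (by omega)]; exact h.2 x

theorem tv_psi (G : Gad 𝔅) {K : Model} (φ : Form impBot) {g g' : ℕ → K.W} (h : Agree g g')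
    (w' : K.W) : tv K (psi G φ) g' w' = true ↔
      ∃ a, K.R (K.nm 0) a ∧ tv K (tr G φ) (Function.update g 2 a) (g 3) = true := by
  rw [psi, tv_atNom, tv_dia]
  refine exists_congr fun v => and_congr_right fun _ => ?_
  have e1 : Function.update g' 2 v 3 = g 3 := by
    rw [Function.update_of_ne (by omega)]; exact h.1
  rw [tv_bind, tv_atVar, e1, tv_tr_congr G K φ (Function.update g' 2 v) (Function.update g 2 v)]
  · simp
  · intro x
    rw [Function.update_of_ne (by omega), Function.update_of_ne (by omega), h.2 x]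

/-- The hub has exactly two successors. -/
def Two (K : Model) : Prop := ∃ u v, K.R (K.nm 0) u ∧ K.R (K.nm 0) v ∧ u ≠ v ∧
  ∀ w, K.R (K.nm 0) w → w = u ∨ w = v

theorem tv_rest (G : Gad 𝔅) {K : Model} {ψ : Form 𝔅} {g : ℕ → K.W} {c : Prop}
    (hψ : ∀ g' w, Agree g g' → (tv K ψ g' w = true ↔ c)) {g' : ℕ → K.W} (hg : Agree g g')
    (w : K.W) : tv K (G.rest ψ) g' w = true ↔ (∃ v, K.R (K.nm 0) v) ∧ ¬ c := by
  rw [Gad.rest, tv_atNom, tv_dia]
  have : ∀ v, tv K (G.X G.one ψ) g' v = true ↔ ¬ c := by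
    intro v
    rw [X_iff, G.tv_one, hψ g' v hg]
    simp
  simp only [this]
  constructor
  · rintro ⟨v, h1, h2⟩
    exact ⟨⟨v, h1⟩, h2⟩
  · rintro ⟨⟨v, h1⟩, h2⟩
    exact ⟨v, h1, h2⟩

theorem tv_cX (G : Gad 𝔅) {K : Model} {ψ : Form 𝔅} {g : ℕ → K.W} {c : Prop}
    (hψ : ∀ g' w, Agree g g' → (tv K ψ g' w = true ↔ c)) {g' : ℕ → K.W} (hg : Agree g g')
    (w : K.W) : tv K (G.cX ψ) g' w = true ↔ (c ∧ ¬ Two K) := by
  have h3 : tv K (G.quant ψ) g' w = true ↔ ∃ u, K.R (K.nm 0) u ∧ ∃ v, K.R (K.nm 0) v ∧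
      ∀ z, K.R (K.nm 0) z → ¬ (z = u ↔ ¬ (z = v ↔ ¬ c)) := by
    unfold Gad.quant
    rw [tv_atNom, tv_dia]
    refine exists_congr fun u => and_congr_right fun _ => ?_
    rw [tv_bind, tv_atNom, tv_dia]
    refine exists_congr fun v => and_congr_right fun _ => ?_
    rw [tv_bind, tv_atNom, tv_box]
    refine forall_congr' fun z => imp_congr_right fun _ => ?_
    rw [X_iff, X_iff, X_iff, G.tv_one, tv_var, tv_var,
      hψ _ z ((hg.update (by omega) u).update (by omega) v)]
    simp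
  unfold Gad.cX
  rw [X_iff, X_iff, hψ _ _ hg, tv_rest G hψ hg, h3]
  by_cases hc : c
  · simp only [hc, not_true_eq_false, iff_false, and_false, not_not, true_iff, true_and]
    refine not_congr ⟨?_, ?_⟩
    · rintro ⟨u, hu, v, hv, h⟩
      refine ⟨u, v, hu, hv, ?_, fun z hz => ?_⟩
      · rintro rfl
        have := h u hu
        tauto
      · have := h z hz
        tauto
    · rintro ⟨u, v, hu, hv, huv, h⟩
      refine ⟨u, hu, v, hv, fun z hz => ?_⟩
      rcases h z hz with rfl | rfl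
      · tauto
      · have : ¬ z = u := fun h => huv h.symm
        tauto
  · have hQ : (∃ u, K.R (K.nm 0) u ∧ ∃ v, K.R (K.nm 0) v ∧
        ∀ z, K.R (K.nm 0) z → ¬ (z = u ↔ ¬ (z = v ↔ ¬ c))) ↔ ∃ v, K.R (K.nm 0) v := by
      constructor
      · rintro ⟨u, hu, _⟩
        exact ⟨u, hu⟩
      · rintro ⟨u, hu⟩
        exact ⟨u, hu, u, hu, fun z _ => by tauto⟩
    rw [hQ]
    tauto

theorem tv_cD (G : Gad 𝔅) {K : Model} {ψ : Form 𝔅} {g : ℕ → K.W} {c : Prop}
    (hψ : ∀ g' w, Agree g g' → (tv K ψ g' w = true ↔ c)) {g' : ℕ → K.W} (hg : Agree g g')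
    (w : K.W) : tv K (G.cD ψ) g' w = true ↔
      (c ∧ ∃ u v, K.R (K.nm 0) u ∧ K.R (K.nm 0) v ∧ u ≠ v) := by
  have h3 : tv K (G.pairs ψ) g' w = true ↔ ∃ u, K.R (K.nm 0) u ∧ ∃ v, K.R (K.nm 0) v ∧
      ¬ (v = u ↔ c) := by
    unfold Gad.pairs
    rw [tv_atNom, tv_dia]
    refine exists_congr fun u => and_congr_right fun _ => ?_
    rw [tv_bind, tv_atNom, tv_dia]
    refine exists_congr fun v => and_congr_right fun _ => ?_
    rw [X_iff, tv_var, hψ _ v (hg.update (by omega) u)]
    simp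
  unfold Gad.cD
  rw [X_iff, tv_rest G hψ hg, h3]
  by_cases hc : c
  · simp only [hc, not_true_eq_false, iff_false, and_false, not_not, iff_true, true_and]
    constructor
    · rintro ⟨u, hu, v, hv, h⟩
      exact ⟨u, v, hu, hv, fun h' => h h'.symm⟩
    · rintro ⟨u, v, hu, hv, h⟩
      exact ⟨u, hu, v, hv, fun h' => h h'.symm⟩
  · simp only [hc, not_false_eq_true, iff_false, and_true, false_and, not_not]
    constructor
    · rintro ⟨u, hu, _⟩
      exact ⟨u, hu⟩
    · rintro ⟨u, hu⟩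
      exact ⟨u, hu, u, hu, rfl⟩

/-- The semantics of the reduction. -/
theorem tv_red (G : Gad 𝔅) {K : Model} (φ : Form impBot) (g : ℕ → K.W) (w : K.W) :
    tv K (red G φ) g w = true ↔ Hub K ∧ ∃ a, K.R (K.nm 0) a ∧
      tv K (tr G φ) (Function.update (Function.update g 3 w) 2 a) w = true := by
  have h1 : ∀ g' v, Agree (Function.update g 3 w) g' → (tv K (psi G φ) g' v = true ↔
      ∃ a, K.R (K.nm 0) a ∧
        tv K (tr G φ) (Function.update (Function.update g 3 w) 2 a) w = true) := by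
    intro g' v hg
    rw [tv_psi G φ hg]
    simp
  have h2 : ∀ g' v, Agree (Function.update g 3 w) g' → (tv K (G.cX (psi G φ)) g' v = true ↔ _) :=
    fun g' v hg => tv_cX G h1 hg v
  rw [red, tv_bind, tv_cD G h2 (Agree.refl _)]
  constructor
  · rintro ⟨⟨h3, h4⟩, u, v, hu, hv, huv⟩
    refine ⟨?_, h3⟩
    unfold Two at h4
    push Not at h4
    obtain ⟨z, hz, h5, h6⟩ := h4 u v hu hv huv
    exact ⟨u, v, z, hu, hv, hz, huv, h5.symm, h6.symm⟩
  · rintro ⟨⟨p, q, r, hp, hq, hr, hpq, hpr, hqr⟩, h3⟩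
    refine ⟨⟨h3, ?_⟩, p, q, hp, hq, hpq⟩
    rintro ⟨u, v, _, _, _, h⟩
    rcases h p hp with rfl | rfl <;> rcases h q hq with rfl | rfl <;>
      rcases h r hr with rfl | rfl <;> simp_all

/-- **The translation is correct** on submodels closed under successors. -/
theorem tv_tr (G : Gad 𝔅) {K K' : Model} (hK : Hub K') (ι : K.W → K'.W)
    (hι : Function.Injective ι) (hR : ∀ w v', K'.R (ι w) v' ↔ ∃ v, v' = ι v ∧ K.R w v)
    (hV : ∀ i w, K'.V i (ι w) ↔ K.V i w) (hn : ∀ i, K'.nm (i + 1) = ι (K.nm i)) :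
    ∀ (φ : Form impBot) (g : ℕ → K.W) (g' : ℕ → K'.W) (w : K.W),
      (∀ x, g' (x + 5) = ι (g x)) → K'.R (K'.nm 0) (g' 2) →
      (tv K' (tr G φ) g' (ι w) = true ↔ tv K φ g w = true) := by
  intro φ
  induction φ with
  | prop i => intro g g' w _ _; rw [tr, tv_prop, tv_prop, hV]
  | nom i => intro g g' w _ _; rw [tr, tv_nom, tv_nom, hn, hι.eq_iff]
  | var x => intro g g' w h _; rw [tr, tv_var, tv_var, h, hι.eq_iff]
  | app b φ ih =>
    intro g g' w h5 h2
    cases b with
    | bot =>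
      rw [tr, tv_zero]
      simp [tv, impBot]
    | imp =>
      have e : ∀ (i : Fin 2) (u : K'.W), tv K' (tr G (φ i))
          (Function.update (Function.update g' 0 (ι w)) 1 u) (ι w) = true ↔
          tv K (φ i) g w = true := by
        intro i u
        refine ih i g _ w ?_ ?_
        · intro x
          rw [Function.update_of_ne (by omega), Function.update_of_ne (by omega), h5 x]
        · rw [Function.update_of_ne (by omega), Function.update_of_ne (by omega)]
          exact h2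
      rw [tr, tv_imp G hK h2 (e 0) (e 1)]
      have e2 : tv K (Form.app IB.imp φ : Form impBot) g w =
          (!(tv K (φ (0 : Fin 2)) g w) || tv K (φ (1 : Fin 2)) g w) := rfl
      rw [e2]
      cases tv K (φ (0 : Fin 2)) g w <;> cases tv K (φ (1 : Fin 2)) g w <;> simp
  | dia φ ih =>
    intro g g' w h5 h2
    rw [tr, tv_dia, tv_dia]
    constructor
    · rintro ⟨v', h1, h3⟩
      obtain ⟨v, rfl, h4⟩ := (hR _ _).1 h1
      exact ⟨v, h4, (ih g g' v h5 h2).1 h3⟩
    · rintro ⟨v, h4, h3⟩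
      exact ⟨ι v, (hR _ _).2 ⟨v, rfl, h4⟩, (ih g g' v h5 h2).2 h3⟩
  | box φ ih =>
    intro g g' w h5 h2
    rw [tr, tv_box, tv_box]
    constructor
    · intro h v h4
      exact (ih g g' v h5 h2).1 (h _ ((hR _ _).2 ⟨v, rfl, h4⟩))
    · intro h v' h1
      obtain ⟨v, rfl, h4⟩ := (hR _ _).1 h1
      exact (ih g g' v h5 h2).2 (h v h4)
  | bind x φ ih =>
    intro g g' w h5 h2
    rw [tr, tv_bind, tv_bind]
    refine ih _ _ w ?_ ?_
    · intro y
      by_cases hxy : y = x
      · subst hxy; simp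
      · rw [Function.update_of_ne (by omega), Function.update_of_ne hxy, h5]
    · rw [Function.update_of_ne (by omega)]
      exact h2
  | atNom i φ ih =>
    intro g g' w h5 h2
    rw [tr, tv_atNom, tv_atNom, hn]
    exact ih g g' _ h5 h2
  | atVar x φ ih =>
    intro g g' w h5 h2
    rw [tr, tv_atVar, tv_atVar, h5]
    exact ih g g' _ h5 h2

end Pool.Agent.H75C.HY
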