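import Pool.Agent.H75C.HY.Small

/-!
# The small model theorem
-/

set_option autoImplicit false

namespace Pool.Agent.H75C.HY

variable {𝔅 : Base}

theorem Many.mono {W : Type} {n : ℕ} {D D' : Set W} {f : W → Bool} {c : Bool}
    (h : Many n D f c) (hD : D ⊆ D') : Many n D' f c := by
  obtain ⟨t, ht, h1⟩ := h
  exact ⟨t, ht, fun v hv => ⟨hD (h1 v hv).1, (h1 v hv).2⟩⟩

theorem process {W : Type} (n : ℕ) (C : Set W) : ∀ (k : ℕ) (P : List ((W → Bool) × Bool)),
    P.length = k → ∀ S0 : Finset W, (↑S0 : Set W) ⊆ C → ∃ S : Finset W, S0 ⊆ S ∧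
      (↑S : Set W) ⊆ C ∧ S.card ≤ S0.card + k * n ∧
        ∀ p ∈ P, (∃ v ∈ C \ ↑S, p.1 v = p.2) → Many n (C \ ↑S) p.1 p.2 := by
  classical
  intro k
  induction k with
  | zero =>
    intro P hP S0 hS0
    rw [List.length_eq_zero_iff] at hP
    subst hP
    exact ⟨S0, subset_rfl, hS0, by simp, by simp⟩
  | succ k ih =>
    intro P hP S0 hS0
    by_cases h : ∀ p ∈ P, (∃ v ∈ C \ ↑S0, p.1 v = p.2) → Many n (C \ ↑S0) p.1 p.2
    · exact ⟨S0, subset_rfl, hS0, by omega, h⟩
    · push Not at h
      obtain ⟨p, hp, _, h2⟩ := h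
      set D : Set W := {v | v ∈ C \ ↑S0 ∧ p.1 v = p.2} with hD
      have hfin : D.Finite := by
        by_contra hinf
        obtain ⟨t, ht, htc⟩ := Set.Infinite.exists_subset_card_eq hinf (n + 1)
        exact h2 ⟨t, by omega, fun v hv => ht hv⟩
      have hcard : hfin.toFinset.card ≤ n := by
        by_contra hc
        exact h2 ⟨hfin.toFinset, by omega, fun v hv => by simpa [hD] using hv⟩
      have hS1 : (↑(S0 ∪ hfin.toFinset) : Set W) ⊆ C := by
        intro v hv
        rw [Finset.coe_union] at hv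
        rcases hv with hv | hv
        · exact hS0 hv
        · have : v ∈ D := by simpa using hv
          exact this.1.1
      obtain ⟨S, hS, hSC, hc, hgood⟩ := ih (P.erase p)
        (by rw [List.length_erase_of_mem hp]; omega) (S0 ∪ hfin.toFinset) hS1
      refine ⟨S, fun v hv => hS (Finset.mem_union_left _ hv), hSC, ?_, ?_⟩
      · have h3 := Finset.card_union_le S0 hfin.toFinset
        rw [Nat.succ_mul]
        omega
      · intro q hq hne
        by_cases hqp : q = p
        · subst hqp
          obtain ⟨v, hv, hv2⟩ := hne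
          exfalso
          apply hv.2
          apply hS
          by_cases hv0 : v ∈ S0
          · exact Finset.mem_union_left _ hv0
          · exact Finset.mem_union_right _ (by
              rw [Set.Finite.mem_toFinset]
              exact ⟨⟨hv.1, hv0⟩, hv2⟩)
        · exact hgood q ((List.mem_erase_of_ne hqp).2 hq) hne

theorem shrink {W : Type} (n : ℕ) (C : Set W) (S : Finset W) (hS : (↑S : Set W) ⊆ C)
    (P : List ((W → Bool) × Bool))
    (hP : ∀ p ∈ P, (∃ v ∈ C \ ↑S, p.1 v = p.2) → Many n (C \ ↑S) p.1 p.2) :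
    ∃ C' : Finset W, S ⊆ C' ∧ (↑C' : Set W) ⊆ C ∧ C'.card ≤ S.card + P.length * (n + 1) ∧
      ∀ p ∈ P, (∃ v ∈ C \ ↑S, p.1 v = p.2) → Many n (↑C' \ ↑S) p.1 p.2 := by
  classical
  induction P with
  | nil => exact ⟨S, subset_rfl, hS, by simp, by simp⟩
  | cons p P ih =>
    obtain ⟨C0, h1, h2, h3, h4⟩ := ih fun q hq => hP q (List.mem_cons_of_mem _ hq)
    by_cases h : ∃ v ∈ C \ ↑S, p.1 v = p.2
    · obtain ⟨t, ht, ht'⟩ := hP p List.mem_cons_self h
      obtain ⟨t', htt, htc⟩ := Finset.exists_subset_card_eq (Nat.succ_le_of_lt ht)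
      refine ⟨C0 ∪ t', fun v hv => Finset.mem_union_left _ (h1 hv), ?_, ?_, ?_⟩
      · intro v hv
        rw [Finset.coe_union] at hv
        rcases hv with hv | hv
        · exact h2 hv
        · exact (ht' v (htt hv)).1.1
      · have := Finset.card_union_le C0 t'
        rw [List.length_cons, Nat.succ_mul]
        omega
      · intro q hq hne
        rcases List.mem_cons.1 hq with rfl | hq
        · exact ⟨t', by omega, fun v hv => ⟨⟨by simp [hv], (ht' v (htt hv)).1.2⟩,
            (ht' v (htt hv)).2⟩⟩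
        · refine (h4 q hq hne).mono fun v hv => ⟨?_, hv.2⟩
          rw [Finset.coe_union]
          exact Or.inl hv.1
    · refine ⟨C0, h1, h2, by rw [List.length_cons, Nat.succ_mul]; omega, ?_⟩
      intro q hq hne
      rcases List.mem_cons.1 hq with rfl | hq
      · exact (h hne).elim
      · exact h4 q hq hne

theorem length_flatten_ofFn {τ τ' : Type} : ∀ (n : ℕ) (f : Fin n → List τ) (f' : Fin n → List τ'),
    (∀ i, (f i).length ≤ (f' i).length) →
      (List.ofFn f).flatten.length ≤ (List.ofFn f').flatten.length := by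
  intro n
  induction n with
  | zero => intro f f' _; simp
  | succ n ih =>
    intro f f' h
    rw [List.ofFn_succ, List.ofFn_succ, List.flatten_cons, List.flatten_cons, List.length_append,
      List.length_append]
    exact Nat.add_le_add (h 0) (ih _ _ fun i => h i.succ)

theorem length_qfl (K : Model) (φ : Form 𝔅) : (qfl K φ).length ≤ (pr φ).length := by
  induction φ with
  | prop i => simp [qfl]
  | nom i => simp [qfl]
  | var x => simp [qfl]
  | app b φ ih =>
    have h := length_flatten_ofFn _ (fun i => qfl K (φ i))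
      (fun i => pr (φ i) ++ [((4, (i : ℕ)) : Tok)]) (fun i => by
        rw [List.length_append]
        have := ih i
        omega)
    rw [qfl, pr, List.length_cons, List.length_append]
    omega
  | dia φ ih => simp [qfl, pr]; omega
  | box φ ih => simp [qfl, pr]; omega
  | bind x φ ih => simp [qfl, pr]; omega
  | atNom i φ ih => simp [qfl, pr]; omega
  | atVar x φ ih => simp [qfl, pr]; omega

theorem names_of_pr {A : Finset ℕ} (φ : Form 𝔅) (h : ∀ t ∈ pr φ, t.2 ∈ A) : Names A φ := by
  induction φ with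
  | prop i => exact h (0, i) (by simp [pr])
  | nom i => exact h (1, i) (by simp [pr])
  | var x => exact h (2, x) (by simp [pr])
  | app b φ ih =>
    intro i
    refine ih i fun t ht => h t ?_
    rw [pr]
    refine List.mem_cons_of_mem _ (List.mem_append_left _ ?_)
    rw [List.mem_flatten]
    exact ⟨_, List.mem_ofFn.2 ⟨i, rfl⟩, List.mem_append_left _ ht⟩
  | dia φ ih => exact ih fun t ht => h t (by simp [pr, ht])
  | box φ ih => exact ih fun t ht => h t (by simp [pr, ht])
  | bind x φ ih => exact ⟨h (8, x) (by simp [pr]), ih fun t ht => h t (by simp [pr, ht])⟩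
  | atNom i φ ih => trivial
  | atVar x φ ih => trivial

/-- The numbers in the word of a formula. -/
def nums (φ : Form 𝔅) : Finset ℕ := ((pr φ).map Prod.snd).toFinset

theorem names_nums (φ : Form 𝔅) : Names (nums φ) φ := by
  refine names_of_pr φ fun t ht => ?_
  unfold nums
  rw [List.mem_toFinset]
  exact List.mem_map_of_mem ht

theorem card_nums (φ : Form 𝔅) : (nums φ).card ≤ (pr φ).length := by
  unfold nums
  refine (List.toFinset_card_le _).trans ?_
  rw [List.length_map]

/-- **The small model theorem** (for the evaluation in a set of states). -/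
theorem small_set (haff : ∀ b : 𝔅.B, Affine (𝔅.ev b)) {φ : Form 𝔅} (hφ : NoAt φ) {K : Model}
    {C : Set K.W} {g : ℕ → K.W} {w : K.W} (hw : w ∈ C) :
    ∃ C' : Finset K.W, w ∈ C' ∧ C'.card ≤ (2 * (pr φ).length + 1) ^ 2 ∧
      cv K ↑C' φ g w = cv K C φ g w := by
  classical
  set A := nums φ with hA
  set l := (pr φ).length with hl
  have hAl : A.card ≤ l := card_nums φ
  have hFl : (qfl K φ).length ≤ l := length_qfl K φ
  set S0 : Finset K.W := {w} ∪ (((A.image K.nm).filter (· ∈ C)) ∪ ((A.image g).filter (· ∈ C)))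
    with hS0
  have hS0C : (↑S0 : Set K.W) ⊆ C := by
    intro v hv
    simp only [hS0, Finset.coe_union, Finset.coe_singleton, Finset.coe_filter, Set.mem_union,
      Set.mem_singleton_iff, Set.mem_setOf_eq] at hv
    rcases hv with rfl | hv | hv
    · exact hw
    · exact hv.2
    · exact hv.2
  have hc0 : S0.card ≤ 1 + 2 * l := by
    refine (Finset.card_union_le _ _).trans ?_
    have h1 : ((A.image K.nm).filter (· ∈ C)).card ≤ l :=
      ((Finset.card_filter_le _ _).trans Finset.card_image_le).trans hAl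
    have h2 : ((A.image g).filter (· ∈ C)).card ≤ l :=
      ((Finset.card_filter_le _ _).trans Finset.card_image_le).trans hAl
    have h3 := Finset.card_union_le ((A.image K.nm).filter (· ∈ C)) ((A.image g).filter (· ∈ C))
    rw [Finset.card_singleton]
    omega
  set P : List ((K.W → Bool) × Bool) := (qfl K φ).flatMap fun f => [(f, true), (f, false)] with hP
  have hPl : P.length = 2 * (qfl K φ).length := by
    rw [hP, List.length_flatMap]
    simp [mul_comm]
  have hPmem : ∀ f ∈ qfl K φ, ∀ c, (f, c) ∈ P := by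
    intro f hf c
    rw [hP, List.mem_flatMap]
    exact ⟨f, hf, by cases c <;> simp⟩
  obtain ⟨S, hS1, hSC, hSc, hgood⟩ := process A.card C P.length P rfl S0 hS0C
  obtain ⟨C', h1, h2, h3, h4⟩ := shrink A.card C S hSC P hgood
  have hwS : w ∈ S := hS1 (by simp [hS0])
  refine ⟨C', h1 hwS, ?_, ?_⟩
  · have e1 : P.length * A.card ≤ 2 * l * l := Nat.mul_le_mul (by omega) hAl
    have e2 : P.length * (A.card + 1) ≤ 2 * l * (l + 1) := Nat.mul_le_mul (by omega) (by omega)
    nlinarith
  · have hnS : ∀ i ∈ A, K.nm i ∈ C → K.nm i ∈ (↑S : Set K.W) := by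
      intro i hi h
      apply hS1
      rw [hS0]
      refine Finset.mem_union_right _ (Finset.mem_union_left _ ?_)
      rw [Finset.mem_filter]
      exact ⟨Finset.mem_image_of_mem _ hi, h⟩
    have hgS : ∀ x ∈ A, g x ∈ C → g x ∈ (↑S : Set K.W) := by
      intro i hi h
      apply hS1
      rw [hS0]
      refine Finset.mem_union_right _ (Finset.mem_union_right _ ?_)
      rw [Finset.mem_filter]
      exact ⟨Finset.mem_image_of_mem _ hi, h⟩
    have hSC' : (↑S : Set K.W) ⊆ ↑C' := fun v hv => h1 hv
    have hmt : Mt A ↑S C ↑C' g g :=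
      ⟨fun x hx => ⟨fun h => hSC' (hgS x hx h), fun h => h2 h⟩, fun _ _ _ => rfl,
        fun _ _ _ _ _ _ => Iff.rfl⟩
    have hms : Ms A ↑S C ↑C' g g w w := ⟨hw, hSC' hwS, fun _ => rfl, fun _ _ => Iff.rfl⟩
    have hQ : ∀ f ∈ qfl K φ, ∀ c, ((∃ v ∈ C \ ↑S, f v = c) ∨ (∃ v ∈ (↑C' : Set K.W) \ ↑S, f v = c)) →
        Many A.card (C \ ↑S) f c ∧ Many A.card (↑C' \ ↑S) f c := by
      intro f hf c hne
      have hne' : ∃ v ∈ C \ ↑S, f v = c := by
        rcases hne with h | ⟨v, hv, h⟩
        · exact h
        · exact ⟨v, ⟨h2 hv.1, hv.2⟩, h⟩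
      exact ⟨hgood _ (hPmem f hf c) hne', h4 _ (hPmem f hf c) hne'⟩
    have key := inv haff hSC hSC' hnS (fun i hi h => hnS i hi (h2 h)) φ hφ (names_nums φ) hQ g g
      w w hmt hms
    revert key
    cases cv K C φ g w <;> cases cv K ↑C' φ g w <;> cases tp K φ w <;> simp

/-- The satisfiability over equivalence relations in terms of small sets of states. -/
theorem sat_er_iff (haff : ∀ b : 𝔅.B, Affine (𝔅.ev b)) {φ : Form 𝔅} (hφ : NoAt φ) :
    Satisfiable .er φ ↔ ∃ (K : Model) (C : Finset K.W) (g : ℕ → K.W), ∃ w ∈ C,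
      C.card ≤ (2 * (pr φ).length + 1) ^ 2 ∧ cv K ↑C φ g w = true := by
  constructor
  · rintro ⟨K, g, w, hK, h⟩
    have hC : Clus K {v | K.R w v} := by
      intro u hu v
      exact ⟨fun h => hK.trans hu h, fun h => hK.trans (hK.symm hu) h⟩
    have hw : w ∈ {v | K.R w v} := hK.refl w
    obtain ⟨C', h1, h2, h3⟩ := small_set haff hφ (g := g) hw
    refine ⟨K, C', g, w, h1, h2, ?_⟩
    rw [h3, ← tv_eq_cv hC φ hφ g w hw]
    exact h
  · rintro ⟨K, C, g, w, hw, _, h⟩
    set K' : Model := ⟨K.W, fun u v => (u ∈ C ∧ v ∈ C) ∨ u = v, K.V, K.nm⟩ with hK'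
    have hC : Clus K' (↑C : Set K.W) := by
      intro u hu v
      constructor
      · rintro (⟨_, h⟩ | h)
        · exact h
        · rw [← h]; exact hu
      · intro hv
        exact Or.inl ⟨hu, hv⟩
    have hcv : ∀ (φ : Form 𝔅) (g : ℕ → K.W) (w : K.W), cv K' (↑C : Set K.W) φ g w =
        cv K (↑C : Set K.W) φ g w := by
      intro φ
      induction φ with
      | prop i => intro g w; rfl
      | nom i => intro g w; rfl
      | var x => intro g w; rfl
      | app b φ ih =>
        intro g w
        rw [cv, cv]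
        congr 1
        funext i
        exact ih i g w
      | dia φ ih =>
        intro g w
        rw [Bool.eq_iff_iff, cv_dia, cv_dia]
        exact exists_congr fun v => and_congr_right fun _ => by rw [ih]
      | box φ ih =>
        intro g w
        rw [Bool.eq_iff_iff, cv_box, cv_box]
        exact forall_congr' fun v => imp_congr_right fun _ => by rw [ih]
      | bind x φ ih => intro g w; exact ih _ w
      | atNom i φ ih => intro g w; rfl
      | atVar i φ ih => intro g w; rfl
    refine ⟨K', g, w, ⟨fun u => Or.inr rfl, ?_, ?_⟩, ?_⟩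
    · rintro u v (⟨h1, h2⟩ | rfl)
      · exact Or.inl ⟨h2, h1⟩
      · exact Or.inr rfl
    · rintro u v x (⟨h1, h2⟩ | rfl) h3
      · rcases h3 with ⟨_, h4⟩ | rfl
        · exact Or.inl ⟨h1, h4⟩
        · exact Or.inl ⟨h1, h2⟩
      · exact h3
    · rw [tv_eq_cv hC φ hφ g w hw, hcv]
      exact h

end Pool.Agent.H75C.HY
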