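import Pool.Agent.H75C.HY.Conc
import Pool.Agent.H75C.HY.Stm

/-!
# Transitive frames: evaluation in a cluster with flags, certificates; definitions and statements

A model over a transitive frame is described cluster by cluster. What matters above a cluster is which
subformulas take which truth values there (the *flags*), with the variables bound so far named `dead`
(they name states that are not visible any more).
-/

set_option autoImplicit false

namespace Pool.Agent.H75C.HY.TR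

open Pool.Agent.NPC Pool.Agent.H75C.HY

variable {𝔅 : Base}

/-- A subformula (its word) and the variables that are bound where it stands. -/
abbrev Key := List Tok × List ℕ

/-- Flags: `((u, B), b)` says that above there is a state where the formula with the word `u` has the
value `b` (the variables in `B` are dead). -/
abbrev Fls := List (Key × Bool)

/-- A cluster: whether it is reflexive, the states, propositions and nominals (`Dat`), the positions
of the free variables. -/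
abbrev Cl := Bool × Dat × List (ℕ × ℕ)

/-- A special cluster (with named states): the cluster, the special clusters above it, its flags. -/
abbrev Sp := Cl × List ℕ × Fls

open Classical in
/-- The truth value at states of the cluster `C`; `r`: the cluster is reflexive; `m`: the flags. -/
noncomputable def ce (K : Model) (C : Set K.W) (r : Prop) (m : Form 𝔅 → List ℕ → Bool → Prop) :
    Form 𝔅 → List ℕ → (ℕ → K.W) → K.W → Bool
  | .prop i, _, _, w => decide (K.V i w)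
  | .nom i, _, _, w => decide (w = K.nm i)
  | .var x, _, g, w => decide (w = g x)
  | .app b φ, B, g, w => 𝔅.ev b fun i => ce K C r m (φ i) B g w
  | .dia φ, B, g, _ => decide (m φ B true ∨ (r ∧ ∃ v ∈ C, ce K C r m φ B g v = true))
  | .box φ, B, g, _ => decide (¬ m φ B false ∧ (r → ∀ v ∈ C, ce K C r m φ B g v = true))
  | .bind x φ, B, g, w => ce K C r m φ (x :: B) (Function.update g x w) w
  | .atNom _ _, _, _, _ => false
  | .atVar _ _, _, _, _ => false

/-! ### Clusters in a model -/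

/-- The assignment where the variables in `B` are dead. -/
def dg {W : Type} (g0 : ℕ → W) (o : W) (B : List ℕ) : ℕ → W := fun x => if x ∈ B then o else g0 x

/-- The cluster of `w`. -/
def clu (K : Model) (w : K.W) : Set K.W := {v | v = w ∨ (K.R w v ∧ K.R v w)}

/-- The flags at `w`. -/
def upf (K : Model) (g0 : ℕ → K.W) (o w : K.W) (ψ : Form 𝔅) (B : List ℕ) (b : Bool) : Prop :=
  ∃ u, K.R w u ∧ ¬ K.R u w ∧ tv K ψ (dg g0 o B) u = b

/-- A transitive model with an isolated state `o` that has no name. -/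
structure TM (K : Model) (g0 : ℕ → K.W) (o : K.W) : Prop where
  tr : ∀ u v w, K.R u v → K.R v w → K.R u w
  io : ∀ v, ¬ K.R o v ∧ ¬ K.R v o
  nm : ∀ i, K.nm i ≠ o
  fr : ∀ x, g0 x ≠ o

/-- STATEMENT C1 (evaluation in a cluster of a model). -/
def C1 : Prop :=
  ∀ (𝔅 : Base) (K : Model) (g0 : ℕ → K.W) (o : K.W), TM K g0 o → ∀ (w : K.W) (φ : Form 𝔅), NoAt φ →
    ∀ (B : List ℕ) (g : ℕ → K.W), (∀ x ∈ B, g x ∈ clu K w ∨ g x = o) → (∀ x, x ∉ B → g x = g0 x) →
      ∀ v ∈ clu K w, tv K φ g v = ce K (clu K w) (K.R w w) (upf K g0 o w) φ B g v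

/-! ### Concrete clusters -/

/-- The number of states. -/
def N (c : Cl) : ℕ := c.2.1.1

/-- The environment of a formula where the variables in `B` are dead. -/
def envc (c : Cl) (B : List ℕ) : List (ℕ × ℕ) := B.map (fun x => (x, N c)) ++ c.2.2

def Clok (c : Cl) : Prop := c.1 = true ∨ N c = 1

/-- The evaluation in a concrete cluster. -/
noncomputable def cec (c : Cl) (m : Form 𝔅 → List ℕ → Bool → Prop) (ψ : Form 𝔅) (B : List ℕ)
    (e : List (ℕ × ℕ)) (v : ℕ) : Bool :=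
  ce (KD c.2.1) (CD c.2.1) (c.1 = true) m ψ B (lk e (N c)) v

/-- STATEMENT C2 (small clusters). -/
def C2 : Prop :=
  ∃ P : Polynomial ℕ, ∀ (𝔅 : Base) (_ : ∀ b : 𝔅.B, Affine (𝔅.ev b)) (K : Model) (C : Set K.W)
    (r : Prop) (m : Form 𝔅 → List ℕ → Bool → Prop) (g0 : ℕ → K.W) (o : K.W) (A : Finset ℕ)
    (L : List (Form 𝔅 × List ℕ)),
    C.Nonempty → (¬ r → ∀ u ∈ C, ∀ v ∈ C, u = v) → o ∉ C →
    (∀ p ∈ L, NoAt p.1 ∧ Names A p.1 ∧ ∀ x ∈ p.2, x ∈ A) →
    ∃ c : Cl, (c.1 = true ↔ r) ∧ Clok c ∧ 0 < N c ∧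
      N c ≤ P.eval (A.card + L.length + (L.map fun p => (pr p.1).length).sum) ∧
      (c.2.1.2.1.length ≤ A.card * N c ∧ ∀ p ∈ c.2.1.2.1, p.1 ∈ A ∧ p.2 < N c) ∧
      (c.2.1.2.2.length ≤ A.card ∧ ∀ p ∈ c.2.1.2.2, p.1 ∈ A ∧ p.2 < N c ∧ K.nm p.1 ∈ C) ∧
      (c.2.2.length ≤ A.card ∧ ∀ p ∈ c.2.2, p.1 ∈ A ∧ p.2 < N c ∧ g0 p.1 ∈ C) ∧
      (∀ i ∈ A, K.nm i ∈ C → lk c.2.1.2.2 (N c) i < N c) ∧
      (∀ x ∈ A, g0 x ∈ C → lk c.2.2 (N c) x < N c) ∧
      ∀ p ∈ L, ∀ b : Bool, (∃ u < N c, cec c m p.1 p.2 (envc c p.2) u = b) ↔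
        ∃ v ∈ C, ce K C r m p.1 p.2 (dg g0 o p.2) v = b

/-! ### Certificates -/

/-- The flags given by a list. -/
def fm (m : Fls) : Form 𝔅 → List ℕ → Bool → Prop := fun ψ B b => ((pr ψ, B), b) ∈ m

/-- The value of a subformula with dead variables `B` at the state `v` of a concrete cluster. -/
noncomputable def kv (c : Cl) (m : Fls) (ψ : Form 𝔅) (B : List ℕ) (v : ℕ) : Bool :=
  cec c (fm m) ψ B (envc c B) v

def sp (SC : List Sp) (i : ℕ) : Sp := SC.getD i ((true, (0, [], []), []), [], [])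

def cl (SC : List Sp) (i : ℕ) : Cl := (sp SC i).1

def ab (SC : List Sp) (i : ℕ) : List ℕ := (sp SC i).2.1

def fl (SC : List Sp) (i : ℕ) : Fls := (sp SC i).2.2

/-- All arguments of `◇` and `□` that are not inside of other such arguments are in `J`. -/
def Need (J : List Key) : Form 𝔅 → List ℕ → Prop
  | .prop _, _ => True
  | .nom _, _ => True
  | .var _, _ => True
  | .app _ φ, B => ∀ i, Need J (φ i) B
  | .dia φ, B => (pr φ, B) ∈ J
  | .box φ, B => (pr φ, B) ∈ J
  | .bind x φ, B => Need J φ (x :: B)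
  | .atNom _ _, _ => True
  | .atVar _ _, _ => True

/-- The values of the keys at the states of `c` agree with the flags `m` of a cluster below. -/
def Loc (𝔅 : Base) (J : List Key) (c : Cl) (mc m : Fls) : Prop :=
  ∀ (ψ : Form 𝔅) (B : List ℕ) (b : Bool), NoAt ψ → (pr ψ, B) ∈ J → ((pr ψ, B), b) ∉ m →
    ∀ u < N c, kv c mc ψ B u ≠ b

/-- The special clusters in `Z` are compatible with `Z` and the flags `m`. -/
def OKc (𝔅 : Base) (J : List Key) (SC : List Sp) (Z : List ℕ) (m : Fls) : Prop :=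
  ∀ i ∈ Z, i < SC.length ∧ (∀ z ∈ ab SC i, z ∈ Z) ∧ (∀ f ∈ fl SC i, f ∈ m) ∧
    Loc 𝔅 J (cl SC i) (fl SC i) m

/-- The flags `m` can be realised above; `n` bounds the number of steps; `bd` is a condition on the
size of the clusters that are used. -/
def Gd (𝔅 : Base) (bd : Cl → List ℕ → Fls → Prop) (J : List Key) (SC : List Sp) :
    ℕ → List ℕ → Fls → Prop
  | 0, _, _ => False
  | n + 1, Z, m => ∀ (ψ : Form 𝔅) (B : List ℕ) (b : Bool), NoAt ψ → (pr ψ, B) ∈ J →
      ((pr ψ, B), b) ∈ m →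
      (∃ i ∈ Z, ∃ u < N (cl SC i), kv (cl SC i) (fl SC i) ψ B u = b) ∨
      ∃ (c : Cl) (Z' : List ℕ) (m' : Fls), bd c Z' m' ∧ Clok c ∧ c.2.1.2.2 = [] ∧ c.2.2 = [] ∧
        (∀ z ∈ Z', z ∈ Z) ∧ (∀ f ∈ m', f ∈ m) ∧ OKc 𝔅 J SC Z' m' ∧ Loc 𝔅 J c m' m ∧
        (∃ u < N c, kv c m' ψ B u = b) ∧
        (((∀ z ∈ Z, z ∈ Z') ∧ ∀ f ∈ m, f ∈ m') ∨ Gd 𝔅 bd J SC n Z' m')

/-- A certificate for the satisfiability of `φ`. -/
structure IsCert (bd : Cl → List ℕ → Fls → Prop) (J : List Key) (SC : List Sp) (n : ℕ)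
    (φ : Form 𝔅) (v0 : ℕ) : Prop where
  len : 0 < SC.length
  need : Need J φ []
  needJ : ∀ (ψ : Form 𝔅) (B : List ℕ), NoAt ψ → (pr ψ, B) ∈ J → Need J ψ B
  hv0 : v0 < N (cl SC 0)
  val : kv (cl SC 0) (fl SC 0) φ [] v0 = true
  irr : ∀ j < SC.length, j ∉ ab SC j
  clok : ∀ j < SC.length, Clok (cl SC j)
  ok : ∀ j < SC.length, OKc 𝔅 J SC (ab SC j) (fl SC j)
  gd : ∀ j < SC.length, Gd 𝔅 bd J SC n (ab SC j) (fl SC j)
  uN : ∀ j < SC.length, ∀ j' < SC.length, j ≠ j' → ∀ i,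
    ¬ (lk (cl SC j).2.1.2.2 (N (cl SC j)) i < N (cl SC j) ∧
      lk (cl SC j').2.1.2.2 (N (cl SC j')) i < N (cl SC j'))
  uF : ∀ j < SC.length, ∀ j' < SC.length, j ≠ j' → ∀ i,
    ¬ (lk (cl SC j).2.2 (N (cl SC j)) i < N (cl SC j) ∧
      lk (cl SC j').2.2 (N (cl SC j')) i < N (cl SC j'))

/-- STATEMENT C4 (soundness of certificates). -/
def C4 : Prop :=
  ∀ (𝔅 : Base) (bd : Cl → List ℕ → Fls → Prop) (J : List Key) (SC : List Sp) (n : ℕ) (φ : Form 𝔅)
    (v0 : ℕ), NoAt φ → IsCert bd J SC n φ v0 → Satisfiable .trans φ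

/-! ### Size conditions (computable) -/

def vk (w : List Tok) (k : Key) : Bool :=
  decide (k.1.length ≤ w.length) && k.1.all (fun t => decide (t ∈ w)) &&
    decide (k.2.length ≤ w.length) && k.2.all fun x => decide (x ∈ w.map Prod.snd)

def vz (L : ℕ) (Z : List ℕ) : Bool := decide (Z.length ≤ L) && Z.all fun z => decide (z < L)

def vf (w : List Tok) (L : ℕ) (m : Fls) : Bool := decide (m.length ≤ L) && m.all fun f => vk w f.1

def vl (w : List Tok) (L : ℕ) (l : List (ℕ × ℕ)) : Bool :=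
  decide (l.length ≤ L) && l.all fun p => decide (p.1 ∈ w.map Prod.snd) && decide (p.2 < L)

def vcl (w : List Tok) (L : ℕ) (c : Cl) : Bool :=
  decide (N c ≤ L) && vl w L c.2.1.2.1 && vl w L c.2.1.2.2 && vl w L c.2.2

def vsp (w : List Tok) (L : ℕ) (s : Sp) : Bool := vcl w L s.1 && vz L s.2.1 && vf w L s.2.2

/-- STATEMENT C3 (completeness of certificates). -/
def C3 : Prop :=
  ∃ P : Polynomial ℕ, ∀ (𝔅 : Base) (_ : ∀ b : 𝔅.B, Affine (𝔅.ev b)) (φ : Form 𝔅), NoAt φ →
    Satisfiable .trans φ → ∀ L, P.eval (pr φ).length ≤ L →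
      ∃ (J : List Key) (SC : List Sp) (v0 : ℕ),
        IsCert (fun c Z m => vsp (pr φ) L (c, Z, m) = true) J SC L φ v0 ∧ J.length ≤ L ∧
        SC.length ≤ L ∧ (∀ k ∈ J, vk (pr φ) k = true) ∧ ∀ s ∈ SC, vsp (pr φ) L s = true

end Pool.Agent.H75C.HY.TR
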