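import Pool.Agent.H75C.HY.TRG

/-!
# Transitive frames: membership in polynomial space
-/

set_option autoImplicit false
set_option synthInstance.maxSize 4000

namespace Pool.Agent.H75C.HY.TR

open Pool.Agent.NPC Pool.Agent.H75C.HY Pool.Agent.H623R2.PS

variable {𝔅 : Base}

theorem mul_size_le {W : ℕ} (hW : 1024 ≤ W) : 64 * W.size ≤ W := by
  have h1 : 10 < W.size := Nat.lt_size.2 (by norm_num; exact hW)
  have h2 : 2 ^ (W.size - 1) ≤ W := Nat.lt_size.1 (by omega)
  have h3 : ∀ k, 64 * (k + 11) ≤ 2 ^ (k + 10) := by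
    intro k
    induction k with
    | zero => norm_num
    | succ k ih =>
      have : 2 ^ (k + 1 + 10) = 2 * 2 ^ (k + 10) := by rw [← pow_succ']
      omega
  have h4 := h3 (W.size - 11)
  have e1 : W.size - 11 + 11 = W.size := by omega
  have e2 : W.size - 11 + 10 = W.size - 1 := by omega
  rw [e1, e2] at h4
  omega

theorem sz_lt {i W : ℕ} (h : i < W) : sz i ≤ 4 * W.size + 1 := by
  have h1 := sz_nat_le i
  have h2 : i.size ≤ W.size := Nat.size_le_size h.le
  omega

theorem sz_chl {W n j i k u t : ℕ} {b : Bool} (hW : 1024 ≤ W) (hn : 4 * n + 200 ≤ W) (hj : j < W)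
    (hi : i < W) (hk : k < W ∨ sz k ≤ n) (hu : u < W) (ht : t < 8) :
    2 * sz ((t, j, i, k, u, b) : ℕ × ℕ × ℕ × ℕ × ℕ × Bool) + 1 ≤ W := by
  have h1 := mul_size_le hW
  have h2 := sz_lt hj
  have h3 := sz_lt hi
  have h4 := sz_lt hu
  have h5 : sz k ≤ 4 * W.size + 1 + n := by
    rcases hk with hk | hk
    · have := sz_lt hk
      omega
    · omega
  have h6 := sz_nat_le' t
  have h7 := sz_bool_le b
  simp only [sz_pair]
  omega

/-- **Membership in polynomial space.** -/
theorem in_trans_of (hA : PartA) (hB : PartB) (hC : PartC) (hD1 : D1) (hD2 : D2) (hD3 : D3)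
    (hD4 : D4) (hD5 : D5) (hD6 : D6) (hD7 : D7) (hC3 : C3) (hC4 : C4)
    (haff : ∀ b : 𝔅.B, Affine (𝔅.ev b)) : InPSPACE (SatO1 .trans 𝔅) := by
  obtain ⟨wf, hwf, hwf'⟩ := hA 𝔅
  obtain ⟨E, K, hE1, hK1, hEK⟩ := hB.2 𝔅
  obtain ⟨argX, hax1, hax2, hax3⟩ := hD1
  have hFS : FS 𝔅 E K argX wf := ⟨hEK, fun b φ i => hax3 𝔅 b φ i, hwf'⟩
  obtain ⟨hp1, hp2, hp3, hp4⟩ := hD5 E K argX wf hE1 hK1 hax1 hwf
  obtain ⟨q, hq⟩ := hD6 E K argX wf hax2
  obtain ⟨Q, hQ⟩ := hD7
  obtain ⟨P, hP⟩ := hC3
  obtain ⟨A0, hA0⟩ : ∃ A : ℕ, ∀ b : 𝔅.B, 𝔅.ar b < A := by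
    have := 𝔅.fin
    let _ : Fintype 𝔅.B := Fintype.ofFinite _
    refine ⟨Finset.univ.sup 𝔅.ar + 1, fun b => ?_⟩
    have := Finset.le_sup (f := 𝔅.ar) (Finset.mem_univ b)
    omega
  have hlen : UPoly (fun x : List Bool => x.length) := UPoly.length NPC.Poly.id
  set Lx : List Bool → ℕ := fun x => P.eval x.length with hLx
  have hLp : UPoly Lx := UPoly.eval hlen P
  set W : List Bool → ℕ := fun x => Q.eval (x.length + Lx x) + Lx x + A0 + 4 * x.length + 2000
    with hW
  have hWp : UPoly W :=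
    UPoly.add (UPoly.add (UPoly.add (UPoly.add (UPoly.eval (UPoly.add hlen hLp) Q) hLp)
      (UPoly.const A0)) (UPoly.mul (UPoly.const 4) hlen)) (UPoly.const 2000)
  refine hC (List Tok) Gs aw (tini wf) W (fun x => 2 * Lx x + x.length + 10)
    (fun w => tstep E K argX wf w) tout q (SatO1 .trans 𝔅) hp4 hp3 hWp
    (UPoly.add (UPoly.add (UPoly.mul (UPoly.const 2) hLp) hlen) (UPoly.const 10)) hp1 hp2
    (fun w s M M' => hq w s M M') (fun x => ?_)
  have harW : ∀ b : 𝔅.B, 𝔅.ar b < W x := by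
    intro b
    have h1 := hA0 b
    simp only [hW]
    omega
  have hfin := (hD2 𝔅 E K argX wf hFS (aw x) (W x) harW).1
  cases h : unbits (List Tok) x with
  | none =>
    have h1 : tini wf x = fin false := by unfold tini; rw [h]
    rw [h1, hfin]
    constructor
    · rintro ⟨φ, _, h2, _⟩
      rw [← h2] at h
      have h3 : unbits (List Tok) (bits (pr φ)) = some (pr φ) := unbits_bits _
      exact absurd (h.symm.trans h3) (by simp)
    · intro h2
      cases h2
  | some u =>
    have hx : bits u = x := bits_of_unbits h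
    have haw : aw x = u := by unfold aw; rw [h]; rfl
    by_cases hu : wf u = true
    · have h1 : tini wf x = start := by
        unfold tini
        rw [h]
        simp only [if_pos hu]
      obtain ⟨φ, hφ, rfl⟩ := (hwf' u).1 hu
      have hsz : x.length = sz (pr φ) := by rw [← hx, bits_length]
      rw [h1, haw]
      constructor
      · rintro ⟨ψ, _, h2, h3⟩
        have h4 : ψ = φ := code_injective (h2.trans hx.symm)
        subst h4
        obtain ⟨J, SC, v0, hcert, hJ, hSC, hJk, hSCv⟩ := hP 𝔅 haff ψ hφ h3 (Lx x)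
          (eval_mono P (by rw [hsz]; exact (length_lt_sz _).le))
        obtain ⟨hQ1, hQ2⟩ := hQ (pr ψ) (Lx x)
        have hQW : Q.eval (sz (pr ψ) + Lx x) ≤ W x := by
          rw [← hsz]
          simp only [hW]
          omega
        refine hD4 𝔅 E K argX wf hFS ψ hφ (W x) (Lx x) harW (by simp only [hW]; omega)
          (fun SC J v0 a1 a2 a3 a4 a5 => (hQ1 SC J v0 a1 a2 a3 a4 a5).trans hQW)
          (fun sel i u s u0 a1 a2 a3 a4 => (hQ2 sel i u s u0 a1 a2 a3 a4).trans hQW)
          J SC v0 hcert hJ hSC hJk hSCv _ ?_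
        have := (length_lt_sz (pr ψ)).le
        omega
      · intro h2
        obtain ⟨J, SC, n', v0, hcert⟩ := hD3 𝔅 E K argX wf hFS φ hφ (W x) harW
          (fun j i k u hj hi hk hu t b ht => sz_chl (n := x.length) (by simp only [hW]; omega)
            (by simp only [hW]; omega) hj hi (hk.imp_right (fun hk => by
              rw [List.mem_map] at hk
              obtain ⟨t, ht, rfl⟩ := hk
              have h3 := sz_le_of_mem ht
              have h4 : sz t = sz t.1 + sz t.2 + 1 := by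
                obtain ⟨t1, t2⟩ := t
                simp
              omega)) hu ht) _ h2
        exact ⟨φ, hφ, hx, hC4 𝔅 _ J SC n' φ v0 hφ hcert⟩
    · have h1 : tini wf x = fin false := by
        unfold tini
        rw [h]
        simp only [if_neg hu]
      rw [h1, hfin]
      constructor
      · rintro ⟨φ, hφ, h2, _⟩
        have h3 : pr φ = u := bits_injective (h2.trans hx.symm)
        exact absurd ((hwf' u).2 ⟨φ, hφ, h3⟩) hu
      · intro h2
        cases h2

end Pool.Agent.H75C.HY.TR
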