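import Pool.Agent.H75C.HY.TR
import Pool.Agent.H75C.HY.GameDef

/-!
# The game for transitive frames: definitions and statements
-/

set_option autoImplicit false
set_option synthInstance.maxSize 4000

namespace Pool.Agent.H75C.HY.TR

open Pool.Agent.NPC Pool.Agent.H75C.HY

/-- Evaluation: cluster, its flags, word, bound variables, environment, state, claimed value. -/
abbrev Ev := Cl × Fls × List Tok × List ℕ × List (ℕ × ℕ) × ℕ × Bool

/-- Configuration: special clusters above, flags, the flag that has to be witnessed. -/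
abbrev Cf := List ℕ × Fls × (Key × Bool)

/-- The state of the game: result and phase; special clusters and keys; configuration; evaluation. -/
abbrev Gs := (Option Bool × ℕ) × (List Sp × List Key) × Cf × Ev

def cf0 : Cf := ([], [], (([], []), false))

def ev0 : Ev := ((true, (0, [], []), []), [], [], [], [], 0, false)

/-- The game is over. -/
def fin (r : Bool) : Gs := ((some r, 0), ([], []), cf0, ev0)

/-- The beginning of an evaluation of the key `k` at the state `v` of the cluster `c`. -/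
def evS (c : Cl) (mc : Fls) (k : Key) (v : ℕ) (b : Bool) : Gs :=
  ((none, 4), ([], []), cf0, (c, mc, k.1, k.2, envc c k.2, v, b))

/-- The check whether a formula needs only keys in `J`. -/
def ndS (J : List Key) (k : Key) : Gs :=
  ((none, 5), ([], J), cf0, (ev0.1, [], k.1, k.2, [], 0, false))

/-- The choices of the second player: six numbers/bits. -/
def chl (M : List Bool) : ℕ × ℕ × ℕ × ℕ × ℕ × Bool :=
  (unbits (ℕ × ℕ × ℕ × ℕ × ℕ × Bool) (unpair M).1).getD (0, 0, 0, 0, 0, false)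

def clokb (c : Cl) : Bool := c.1 || decide (N c = 1)

def subb {α : Type} [DecidableEq α] (l l' : List α) : Bool := l.all fun a => decide (a ∈ l')

/-- The key number `k` of `J` with the value `b` at the state `u` of the cluster `c` is attacked: if
it is not a flag in `m`, the first player has to show that the value is `!b`. -/
def att (wf : List Tok → Bool) (w : List Tok) (J : List Key) (c : Cl) (mc m : Fls) (k u : ℕ)
    (b : Bool) : Gs :=
  if k < J.length ∧ u < N c ∧ wf (J.getD k ([], [])).1 = true ∧ (J.getD k ([], []), b) ∉ m then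
    if vk w (J.getD k ([], [])) = true then evS c mc (J.getD k ([], [])) u (!b) else fin false
  else fin true

/-- Phase 0: the first player names the special clusters, the keys, and the root state. -/
def ph0 (M : List Bool) : Gs :=
  match unbits (List Sp × List Key × ℕ) (unpair M).1 with
  | none => fin false
  | some d => if 0 < d.1.length ∧ d.2.2 < N (cl d.1 0) then
      ((none, 1), (d.1, d.2.1), cf0, (ev0.1, [], [], [], [], d.2.2, false)) else fin false

/-- Phase 1: the second player attacks. -/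
def ph1 (wf : List Tok → Bool) (w : List Tok) (SC : List Sp) (J : List Key) (v0 : ℕ)
    (L : ℕ) (x : ℕ × ℕ × ℕ × ℕ × ℕ × Bool) : Gs :=
  if x.1 = 0 then
    if vsp w L (sp SC 0) = true then evS (cl SC 0) (fl SC 0) (w, []) v0 true else fin false
  else if x.1 = 1 then ndS J (w, [])
  else if x.1 = 2 then
    if x.2.2.2.1 < J.length ∧ wf (J.getD x.2.2.2.1 ([], [])).1 = true then
      if vk w (J.getD x.2.2.2.1 ([], [])) = true then ndS J (J.getD x.2.2.2.1 ([], []))
      else fin false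
    else fin true
  else if x.2.1 < SC.length then
    if x.1 = 3 then fin (clokb (cl SC x.2.1) && decide (x.2.1 ∉ ab SC x.2.1))
    else if x.1 = 4 then
      if x.2.2.1 < SC.length ∧ x.2.1 ≠ x.2.2.1 then
        fin (vsp w L (sp SC x.2.1) && vsp w L (sp SC x.2.2.1) && !(decide (lk (cl SC x.2.1).2.1.2.2 (N (cl SC x.2.1)) x.2.2.2.1 < N (cl SC x.2.1)) &&
            decide (lk (cl SC x.2.2.1).2.1.2.2 (N (cl SC x.2.2.1)) x.2.2.2.1 < N (cl SC x.2.2.1))) &&
          !(decide (lk (cl SC x.2.1).2.2 (N (cl SC x.2.1)) x.2.2.2.1 < N (cl SC x.2.1)) &&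
            decide (lk (cl SC x.2.2.1).2.2 (N (cl SC x.2.2.1)) x.2.2.2.1 < N (cl SC x.2.2.1))))
      else fin true
    else if x.1 = 5 then
      if vsp w L (sp SC x.2.1) = false then fin false
      else if x.2.2.1 ∈ ab SC x.2.1 then
        fin (decide (x.2.2.1 < SC.length) && subb (ab SC x.2.2.1) (ab SC x.2.1) &&
          subb (fl SC x.2.2.1) (fl SC x.2.1))
      else fin true
    else if x.1 = 6 then
      if x.2.2.1 ∈ ab SC x.2.1 then
        if vsp w L (sp SC x.2.2.1) = true then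
          att wf w J (cl SC x.2.2.1) (fl SC x.2.2.1) (fl SC x.2.1) x.2.2.2.1 x.2.2.2.2.1
            x.2.2.2.2.2
        else fin false
      else fin true
    else if x.1 = 7 then
      if vsp w L (sp SC x.2.1) = true then
        ((none, 2), (SC, J), (ab SC x.2.1, fl SC x.2.1, (([], []), false)), ev0)
      else fin false
    else fin true
  else fin true

/-- Phase 2: the second player picks a flag. -/
def ph2 (wf : List Tok → Bool) (w : List Tok) (SC : List Sp) (J : List Key) (Z : List ℕ)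
    (m : Fls) (k : ℕ) : Gs :=
  if k < m.length ∧ (m.getD k (([], []), false)).1 ∈ J ∧
      wf (m.getD k (([], []), false)).1.1 = true then
    if vk w (m.getD k (([], []), false)).1 = true then
      ((none, 3), (SC, J), (Z, m, m.getD k (([], []), false)), ev0)
    else fin false
  else fin true

/-- The answers of the first player in phase 3. -/
abbrev An := (Bool × ℕ × ℕ) × Cl × List ℕ × Fls × ℕ

/-- Phase 3: the first player names a witness, the second player attacks. -/
def ph3 (wf : List Tok → Bool) (w : List Tok) (SC : List Sp) (J : List Key) (Z : List ℕ)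
    (m : Fls) (κ : Key × Bool) (M : List Bool) (x : ℕ × ℕ × ℕ × ℕ × ℕ × Bool) : Gs :=
  match unbits An (unpair M).1 with
  | none => fin false
  | some d =>
    if vk w κ.1 = false then fin false
    else if d.1.1 = false then
      if d.1.2.1 ∈ Z ∧ d.1.2.2 < N (cl SC d.1.2.1) ∧ vsp w M.length (sp SC d.1.2.1) = true then
        evS (cl SC d.1.2.1) (fl SC d.1.2.1) κ.1 d.1.2.2 κ.2
      else fin false
    else if clokb d.2.1 = true ∧ d.2.1.2.1.2.2 = [] ∧ d.2.1.2.2 = [] ∧ subb d.2.2.1 Z = true ∧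
        subb d.2.2.2.1 m = true ∧ d.2.2.2.2 < N d.2.1 ∧ N d.2.1 ≤ M.length then
      if x.1 = 0 then evS d.2.1 d.2.2.2.1 κ.1 d.2.2.2.2 κ.2
      else if x.1 = 1 then att wf w J d.2.1 d.2.2.2.1 m x.2.2.2.1 x.2.2.2.2.1 x.2.2.2.2.2
      else if x.1 = 2 then
        if x.2.2.1 ∈ d.2.2.1 then
          fin (decide (x.2.2.1 < SC.length) && subb (ab SC x.2.2.1) d.2.2.1 &&
            subb (fl SC x.2.2.1) d.2.2.2.1)
        else fin true
      else if x.1 = 3 then
        if x.2.2.1 ∈ d.2.2.1 then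
          if vsp w M.length (sp SC x.2.2.1) = true then
            att wf w J (cl SC x.2.2.1) (fl SC x.2.2.1) d.2.2.2.1 x.2.2.2.1 x.2.2.2.2.1
              x.2.2.2.2.2
          else fin false
        else fin true
      else if x.1 = 4 then
        if subb Z d.2.2.1 = true ∧ subb m d.2.2.2.1 = true then fin true
        else ((none, 2), (SC, J), (d.2.2.1, d.2.2.2.1, (([], []), false)), ev0)
      else fin true
    else fin false

/-- Phase 4: evaluation, at a nonempty word `t :: tl`. -/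
def ph4 (E : ℕ → List Bool → Bool) (K : ℕ → ℕ) (argX : List Tok → ℕ → List Tok)
    (w : List Tok) (c : Cl) (mc : Fls) (t : Tok) (tl : List Tok) (B : List ℕ) (e : List (ℕ × ℕ)) (v : ℕ)
    (b : Bool) (M M' : List Bool) : Gs :=
  if t.1 = 0 then fin (decide (decide ((t.2, v) ∈ c.2.1.2.1) = b))
  else if t.1 = 1 then fin (decide (decide (v = lk c.2.1.2.2 (N c) t.2) = b))
  else if t.1 = 2 then fin (decide (decide (v = lk e (N c) t.2) = b))
  else if t.1 = 3 then
    if E t.2 M = b then
      if valB M' < K t.2 then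
        ((none, 4), ([], []), cf0, (c, mc, argX (t :: tl) (valB M'), B, e, v,
          M.getD (valB M') false))
      else fin true
    else fin false
  else if t.1 = 6 ∨ t.1 = 7 then
    if ((tl.dropLast, B), decide (t.1 = 6)) ∈ mc then fin (decide (decide (t.1 = 6) = b))
    else if c.1 = false then fin (decide (decide (t.1 = 7) = b))
    else if decide (t.1 = 6) = b then
      if valB M < N c then ((none, 4), ([], []), cf0, (c, mc, tl.dropLast, B, e, valB M, b))
      else fin false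
    else
      if valB M' < N c then ((none, 4), ([], []), cf0, (c, mc, tl.dropLast, B, e, valB M', b))
      else fin true
  else if t.1 = 8 ∧ t ∈ w then
    ((none, 4), ([], []), cf0, (c, mc, tl, t.2 :: B, (t.2, min v M.length) :: e, v, b))
  else fin false

/-- Phase 5: which keys does a formula need. -/
def ph5 (K : ℕ → ℕ) (argX : List Tok → ℕ → List Tok) (J : List Key) (t : Tok) (tl : List Tok)
    (B : List ℕ) (M' : List Bool) : Gs :=
  if t.1 = 3 then
    if valB M' < K t.2 then ndS J (argX (t :: tl) (valB M'), B) else fin true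
  else if t.1 = 6 ∨ t.1 = 7 then fin (decide ((tl.dropLast, B) ∈ J))
  else if t.1 = 8 then ndS J (tl, t.2 :: B)
  else fin true

/-- A round; `w` is the word of the formula. -/
def tstep (E : ℕ → List Bool → Bool) (K : ℕ → ℕ) (argX : List Tok → ℕ → List Tok)
    (wf : List Tok → Bool) (w : List Tok) (s : Gs) (M M' : List Bool) : Gs :=
  if s.1.1.isSome = true then s
  else if s.1.2 = 0 then ph0 M
  else if s.1.2 = 1 then ph1 wf w s.2.1.1 s.2.1.2 s.2.2.2.2.2.2.2.2.1 M.length (chl M')
  else if s.1.2 = 2 then ph2 wf w s.2.1.1 s.2.1.2 s.2.2.1.1 s.2.2.1.2.1 (chl M').2.2.2.1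
  else if s.1.2 = 3 then
    ph3 wf w s.2.1.1 s.2.1.2 s.2.2.1.1 s.2.2.1.2.1 s.2.2.1.2.2 M (chl M')
  else if s.1.2 = 4 then
    match s.2.2.2.2.2.1 with
    | [] => fin false
    | t :: tl => ph4 E K argX w s.2.2.2.1 s.2.2.2.2.1 t tl s.2.2.2.2.2.2.1 s.2.2.2.2.2.2.2.1
        s.2.2.2.2.2.2.2.2.1 s.2.2.2.2.2.2.2.2.2 M M'
  else
    match s.2.2.2.2.2.1 with
    | [] => fin false
    | t :: tl => ph5 K argX s.2.1.2 t tl s.2.2.2.2.2.2.1 M'

def tout (s : Gs) : Bool := decide (s.1.1 = some true)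

def start : Gs := ((none, 0), ([], []), cf0, ev0)

def tini (wf : List Tok → Bool) (x : List Bool) : Gs :=
  match unbits (List Tok) x with
  | none => fin false
  | some w => if wf w = true then start else fin false

/-- The word coded by the input. -/
def aw (x : List Bool) : List Tok := (unbits (List Tok) x).getD []

/-! ### Statements -/

/-- The properties of the functions for the words. -/
structure FS (𝔅 : Base) (E : ℕ → List Bool → Bool) (K : ℕ → ℕ)
    (argX : List Tok → ℕ → List Tok) (wf : List Tok → Bool) : Prop where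
  ek : ∀ b : 𝔅.B, K (𝔅.idx b) = 𝔅.ar b ∧
    ∀ z : List Bool, E (𝔅.idx b) z = 𝔅.ev b (fun i => z.getD (i : ℕ) false)
  ax : ∀ (b : 𝔅.B) (φ : Fin (𝔅.ar b) → Form 𝔅) (i : Fin (𝔅.ar b)),
    argX (pr (.app b φ)) (i : ℕ) = pr (φ i)
  wf : ∀ w : List Tok, wf w = true ↔ ∃ φ : Form 𝔅, NoAt φ ∧ pr φ = w

/-- STATEMENT D1 (exact arguments). -/
def D1 : Prop :=
  ∃ argX : List Tok → ℕ → List Tok, NPC.Poly (fun p : List Tok × ℕ => argX p.1 p.2) ∧
    (∀ w i, sz (argX w i) ≤ sz w) ∧
    ∀ (𝔅 : Base) (b : 𝔅.B) (φ : Fin (𝔅.ar b) → Form 𝔅) (i : Fin (𝔅.ar b)),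
      argX (pr (.app b φ)) (i : ℕ) = pr (φ i)

/-- STATEMENT D2 (evaluation and needed keys). -/
def D2 : Prop :=
  ∀ (𝔅 : Base) (E : ℕ → List Bool → Bool) (K : ℕ → ℕ) (argX : List Tok → ℕ → List Tok)
    (wf : List Tok → Bool), FS 𝔅 E K argX wf → ∀ (w : List Tok) (W : ℕ),
    (∀ b : 𝔅.B, 𝔅.ar b < W) →
    (∀ (r : Bool) (n : ℕ), GV (tstep E K argX wf w) tout W n (fin r) ↔ r = true) ∧
    (∀ (c : Cl) (mc : Fls), N c ≤ W → ∀ ψ : Form 𝔅, NoAt ψ → ∀ (B : List ℕ) (v : ℕ) (b : Bool)
      (n : ℕ), v < N c →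
      (GV (tstep E K argX wf w) tout W n (evS c mc (pr ψ, B) v b) → kv c mc ψ B v = b) ∧
      ((pr ψ).length ≤ n → (∀ t ∈ pr ψ, t ∈ w) → kv c mc ψ B v = b →
        GV (tstep E K argX wf w) tout W n (evS c mc (pr ψ, B) v b))) ∧
    (∀ (J : List Key) (ψ : Form 𝔅), NoAt ψ → ∀ (B : List ℕ) (n : ℕ),
      (GV (tstep E K argX wf w) tout W n (ndS J (pr ψ, B)) → Need J ψ B) ∧
      ((pr ψ).length ≤ n → Need J ψ B →
        GV (tstep E K argX wf w) tout W n (ndS J (pr ψ, B))))

/-- STATEMENT D3 (a won game gives a certificate). -/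
def D3 : Prop :=
  ∀ (𝔅 : Base) (E : ℕ → List Bool → Bool) (K : ℕ → ℕ) (argX : List Tok → ℕ → List Tok)
    (wf : List Tok → Bool), FS 𝔅 E K argX wf → ∀ (φ : Form 𝔅), NoAt φ → ∀ W : ℕ,
    (∀ b : 𝔅.B, 𝔅.ar b < W) →
    (∀ j i k u : ℕ, j < W → i < W → (k < W ∨ k ∈ (pr φ).map Prod.snd) → u < W →
      ∀ (t : ℕ) (b : Bool), t < 8 → 2 * sz ((t, j, i, k, u, b) : ℕ × ℕ × ℕ × ℕ × ℕ × Bool) + 1 ≤ W) →
    ∀ n : ℕ, GV (tstep E K argX wf (pr φ)) tout W n start →
      ∃ (J : List Key) (SC : List Sp) (n' v0 : ℕ), IsCert (fun _ _ _ => True) J SC n' φ v0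

/-- STATEMENT D4 (a certificate gives a won game). -/
def D4 : Prop :=
  ∀ (𝔅 : Base) (E : ℕ → List Bool → Bool) (K : ℕ → ℕ) (argX : List Tok → ℕ → List Tok)
    (wf : List Tok → Bool), FS 𝔅 E K argX wf → ∀ (φ : Form 𝔅), NoAt φ → ∀ W L : ℕ,
    (∀ b : 𝔅.B, 𝔅.ar b < W) → L ≤ W →
    (∀ (SC : List Sp) (J : List Key) (v0 : ℕ), SC.length ≤ L → J.length ≤ L → v0 < L →
      (∀ k ∈ J, vk (pr φ) k = true) → (∀ s ∈ SC, vsp (pr φ) L s = true) →
        2 * sz (SC, J, v0) + 1 ≤ W) →
    (∀ (sel : Bool) (i u : ℕ) (s : Sp) (u0 : ℕ), i < L → u < L → u0 < L →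
      vsp (pr φ) L s = true → 2 * sz (((sel, i, u), s.1, s.2.1, s.2.2, u0) : An) + 1 ≤ W) →
    ∀ (J : List Key) (SC : List Sp) (v0 : ℕ),
      IsCert (fun c Z m => vsp (pr φ) L (c, Z, m) = true) J SC L φ v0 → J.length ≤ L →
      SC.length ≤ L → (∀ k ∈ J, vk (pr φ) k = true) → (∀ s ∈ SC, vsp (pr φ) L s = true) →
      ∀ n, 2 * L + (pr φ).length + 10 ≤ n → GV (tstep E K argX wf (pr φ)) tout W n start

/-- STATEMENT D5 (polynomial time). -/
def D5 : Prop :=
  ∀ (E : ℕ → List Bool → Bool) (K : ℕ → ℕ) (argX : List Tok → ℕ → List Tok)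
    (wf : List Tok → Bool), NPC.Poly (fun p : ℕ × List Bool => E p.1 p.2) → NPC.Poly K →
    NPC.Poly (fun p : List Tok × ℕ => argX p.1 p.2) → NPC.Poly wf →
    NPC.Poly (fun p : List Tok × Gs × List Bool × List Bool =>
      tstep E K argX wf p.1 p.2.1 p.2.2.1 p.2.2.2) ∧ NPC.Poly tout ∧ NPC.Poly (tini wf) ∧
    NPC.Poly aw

/-- STATEMENT D6 (size of a step). -/
def D6 : Prop :=
  ∀ (E : ℕ → List Bool → Bool) (K : ℕ → ℕ) (argX : List Tok → ℕ → List Tok)
    (wf : List Tok → Bool), (∀ w i, sz (argX w i) ≤ sz w) →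
    ∃ q : Polynomial ℕ, ∀ (w : List Tok) (s : Gs) (M M' : List Bool),
      sz (tstep E K argX wf w s M M') ≤ sz s + q.eval (sz w + sz M + sz M')

/-- STATEMENT D7 (sizes of the data). -/
def D7 : Prop :=
  ∃ Q : Polynomial ℕ, ∀ (w : List Tok) (L : ℕ),
    (∀ (SC : List Sp) (J : List Key) (v0 : ℕ), SC.length ≤ L → J.length ≤ L → v0 < L →
      (∀ k ∈ J, vk w k = true) → (∀ s ∈ SC, vsp w L s = true) →
        2 * sz (SC, J, v0) + 1 ≤ Q.eval (sz w + L)) ∧
    (∀ (sel : Bool) (i u : ℕ) (s : Sp) (u0 : ℕ), i < L → u < L → u0 < L →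
      vsp w L s = true →
        2 * sz (((sel, i, u), s.1, s.2.1, s.2.2, u0) : An) + 1 ≤ Q.eval (sz w + L))

end Pool.Agent.H75C.HY.TR
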