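import Pool.Agent.H75C.HY.TRFin
import Pool.Agent.H75C.HY.PartC
import Pool.Agent.H87F.HYA
import Pool.Agent.Helper36.HYB.B
import Pool.Agent.Helper4.TR.C1
import Pool.Agent.Helper62K6.TR.C2
import Pool.Agent.Helper83.TR.C3c
import Pool.Agent.Helper82.TR.C4
import Pool.Agent.Helper82.TR.D7
import Pool.Agent.Helper19.TR.D1
import Pool.Agent.Helper32.TR.D2
import Pool.Agent.Helper96.TRD3.D3
import Pool.Agent.Helper78.TR.D4
import Pool.Agent.Helper16.TR.D5
import Pool.Agent.Helper50.TRD.D6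

/-!
# Transitive frames: conclusion
-/

set_option autoImplicit false

namespace Pool.Agent.H75C.HY.TR

open Pool.Agent.NPC Pool.Agent.H75C.HY Pool.Agent.H623R2.PS

/-- **Satisfiability over transitive frames without `@` is in polynomial space.** -/
theorem in_trans {𝔅 : Base} (haff : ∀ b : 𝔅.B, Affine (𝔅.ev b)) : InPSPACE (SatO1 .trans 𝔅) :=
  in_trans_of Pool.Agent.H87F.HYA.partA Pool.Agent.Helper36.HYB.partB GC.partC
    Pool.Agent.Helper19.TR.d1 Pool.Agent.Helper32.TR.d2 (d3 Pool.Agent.Helper32.TR.d2)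
    (Pool.Agent.Helper78.TRD4.d4 Pool.Agent.Helper32.TR.d2) d5 Pool.Agent.Helper50.TRD.d6
    Pool.Agent.Helper82.TRD.d7
    (Pool.Agent.Helper83.TR.c3 Pool.Agent.Helper4.TR.c1 Pool.Agent.Helper62K6.TR.c2)
    Pool.Agent.Helper82.TRC.c4 haff

end Pool.Agent.H75C.HY.TR
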